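import Mathlib
import Pool.Graph.R_seed8.H209R2.EHExpo

set_option autoImplicit false
set_option linter.unusedSectionVars false

/-!
# Vertex operators on the ring of symmetric functions in plethystic form
-/

namespace Pool.Agent.H158.TL

open MvPolynomial Finset
open Pool.Agent.H209R2.EH

section
variable {R : Type*} [CommRing R] [Algebra ℚ R]

/-- the ring of symmetric functions over `R`, as the polynomial ring in the power sums -/
abbrev Sym (R : Type*) [CommRing R] : Type _ := MvPolynomial ℕ+ R

/-- the power sum `p_k`, `k ≥ 1` (and `0` for `k = 0`) -/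
noncomputable def pw (R : Type*) [CommRing R] : ℕ → Sym R
  | 0 => 0
  | k + 1 => X k.succPNat

lemma pw_coe (k : ℕ+) : pw R (k : ℕ) = X k := by
  obtain ⟨m, hm⟩ := Nat.exists_eq_succ_of_ne_zero k.ne_zero
  have : (k : ℕ) = m + 1 := hm
  rw [this, pw]
  congr 1
  apply PNat.coe_injective
  simp [this]

/-- the pairing of a polynomial `∑ a_i y^i` with a sequence `E_i`: `∑ a_i E_i` -/
noncomputable def pairing {A : Type*} [CommRing A] (E : ℕ → A) : Polynomial A →ₗ[A] A :=
  Polynomial.lsum fun i => LinearMap.mulRight A (E i)

lemma pairing_monomial {A : Type*} [CommRing A] (E : ℕ → A) (i : ℕ) (a : A) :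
    pairing E (Polynomial.monomial i a) = a * E i := by
  simp [pairing, Polynomial.lsum_apply]

lemma pairing_C_mul {A : Type*} [CommRing A] (E : ℕ → A) (a : A) (P : Polynomial A) :
    pairing E (Polynomial.C a * P) = a * pairing E P := by
  rw [← Polynomial.smul_eq_C_mul, map_smul, smul_eq_mul]

lemma pairing_map {A B : Type*} [CommRing A] [CommRing B] (f : A →+* B) (E : ℕ → A)
    (P : Polynomial A) : f (pairing E P) = pairing (fun i => f (E i)) (P.map f) := by
  induction P using Polynomial.induction_on' with
  | add p q hp hq => simp [hp, hq]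
  | monomial i a => simp [pairing_monomial]

lemma pairing_eq_sum {A : Type*} [CommRing A] (E : ℕ → A) (P : Polynomial A) (n : ℕ)
    (h : P.natDegree < n) : pairing E P = ∑ i ∈ range n, P.coeff i * E i := by
  rw [pairing, Polynomial.lsum_apply]
  exact Polynomial.sum_over_range' P (fun i => by simp) n h

/-- geometric sequences give evaluations -/
lemma pairing_pow {A : Type*} [CommRing A] (x : A) (P : Polynomial A) :
    pairing (fun i => x ^ i) P = P.eval x := by
  induction P using Polynomial.induction_on' with
  | add p q hp hq => simp [hp, hq]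
  | monomial i a => simp [pairing_monomial]

lemma pairing_add_seq {A : Type*} [CommRing A] (E F : ℕ → A) (P : Polynomial A) :
    pairing (fun i => E i + F i) P = pairing E P + pairing F P := by
  induction P using Polynomial.induction_on' with
  | add p q hp hq => simp only [map_add, hp, hq]; ring
  | monomial i a => simp only [pairing_monomial]; ring

lemma pairing_smul_seq {A : Type*} [CommRing A] (c : A) (E : ℕ → A) (P : Polynomial A) :
    pairing (fun i => c * E i) P = c * pairing E P := by
  induction P using Polynomial.induction_on' with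
  | add p q hp hq => simp only [map_add, hp, hq]; ring
  | monomial i a => simp only [pairing_monomial]; ring

lemma pairing_zero_seq {A : Type*} [CommRing A] (P : Polynomial A) :
    pairing (fun _ => (0 : A)) P = 0 := by
  induction P using Polynomial.induction_on' with
  | add p q hp hq => simp only [map_add, hp, hq]; ring
  | monomial i a => simp only [pairing_monomial]; ring

lemma pairing_sum_seq {A ι : Type*} [CommRing A] (s : Finset ι) (E : ι → ℕ → A)
    (P : Polynomial A) :
    pairing (fun i => ∑ j ∈ s, E j i) P = ∑ j ∈ s, pairing (E j) P := by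
  classical
  induction s using Finset.induction_on with
  | empty => simpa using pairing_zero_seq P
  | insert a s ha ih => simp only [Finset.sum_insert ha]; rw [pairing_add_seq, ih]

/-- the algebra homomorphism `F ↦ F(p_k + c_k y^k)` into `B[y]`, where `p_k ↦ f k` -/
noncomputable def shiftTo {B : Type*} [CommRing B] [Algebra R B] (f : ℕ+ → B) (c : ℕ → R) :
    Sym R →ₐ[R] Polynomial B :=
  aeval fun k : ℕ+ => Polynomial.C (f k) + Polynomial.monomial (k : ℕ) (algebraMap R B (c k))

/-- the algebra homomorphism `F ↦ F(p_k + c_k y^k)` -/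
noncomputable def shift (c : ℕ → R) : Sym R →ₐ[R] Polynomial (Sym R) :=
  shiftTo (fun k => X k) c

lemma shift_X (c : ℕ → R) (k : ℕ+) :
    shift c (X k) = Polynomial.C (X k) + Polynomial.monomial (k : ℕ) (C (c k)) := by
  simp [shift, shiftTo, MvPolynomial.algebraMap_eq]

lemma shiftTo_map {B : Type*} [CommRing B] [Algebra R B] (g : Sym R →ₐ[R] B) (c : ℕ → R)
    (F : Sym R) :
    (shift c F).map (g : Sym R →+* B) = shiftTo (fun k => g (X k)) c F := by
  have : (Polynomial.mapAlgHom g).comp (shift c) = shiftTo (fun k => g (X k)) c := by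
    apply MvPolynomial.algHom_ext
    intro k
    simp only [AlgHom.comp_apply, shift_X, map_add, Polynomial.mapAlgHom_monomial]
    simp [shiftTo]
  have h := congrArg (fun φ => φ F) this
  simpa using h

lemma eval_shiftTo {B : Type*} [CommRing B] [Algebra R B] (f : ℕ+ → B) (c : ℕ → R) (x : B)
    (F : Sym R) :
    (shiftTo f c F).eval x = aeval (fun k : ℕ+ => f k + algebraMap R B (c k) * x ^ (k : ℕ)) F := by
  have : ((Polynomial.aeval (R := B) x).restrictScalars R).comp (shiftTo f c)
      = aeval (fun k : ℕ+ => f k + algebraMap R B (c k) * x ^ (k : ℕ)) := by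
    apply MvPolynomial.algHom_ext
    intro k
    simp [shiftTo]
  have h := congrArg (fun φ => φ F) this
  simpa [Polynomial.coe_aeval_eq_eval] using h

/-- the vertex operator: the coefficient of `z^r` in `F(p_k + c_k z^{-k}) exp(∑ d_k p_k z^k / k)` -/
noncomputable def VO (c d : ℕ → R) (r : ℕ) : Sym R →ₗ[R] Sym R :=
  ((pairing fun i => expo (fun k => C (d k) * pw R k) (i + r)).restrictScalars R).comp
    (shift c).toLinearMap

lemma VO_apply (c d : ℕ → R) (r : ℕ) (F : Sym R) :
    VO c d r F = pairing (fun i => expo (fun k => C (d k) * pw R k) (i + r)) (shift c F) := rfl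

/-- images of vertex operators under an algebra homomorphism out of `Sym R` -/
lemma map_VO {B : Type*} [CommRing B] [Algebra R B] [Algebra ℚ B] (g : Sym R →ₐ[R] B)
    (c d : ℕ → R) (r : ℕ) (F : Sym R) :
    g (VO c d r F) = pairing
      (fun i => expo (fun k => algebraMap R B (d k) * g (pw R k)) (i + r))
      (shiftTo (fun k => g (X k)) c F) := by
  rw [VO_apply]
  have h := pairing_map (g : Sym R →+* B) (fun i => expo (fun k => C (d k) * pw R k) (i + r))
    (shift c F)
  rw [shiftTo_map] at h
  refine h.trans ?_
  congr 2
  funext i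
  have h2 := expo_map (g : Sym R →+* B) (fun k => C (d k) * pw R k) (i + r)
  rw [h2]
  congr 1
  funext k
  simp only [map_mul]
  congr 1
  have := g.commutes (d k)
  rwa [MvPolynomial.algebraMap_eq] at this

/-- plethysm `p_k ↦ s_k p_k` -/
noncomputable def pleth (s : ℕ → R) : Sym R →ₐ[R] Sym R := aeval fun k : ℕ+ => C (s k) * X k

lemma pleth_X (s : ℕ → R) (k : ℕ+) : pleth s (X k) = C (s k) * X k := by simp [pleth]

lemma pleth_pw (s : ℕ → R) (k : ℕ) : pleth s (pw R k) = C (s k) * pw R k := by
  cases k with
  | zero => simp [pw]
  | succ k => simp [pw, pleth]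

lemma pleth_pleth (s s' : ℕ → R) (F : Sym R) :
    pleth s (pleth s' F) = pleth (fun k => s k * s' k) F := by
  have : (pleth s).comp (pleth s') = pleth (fun k => s k * s' k) := by
    apply MvPolynomial.algHom_ext
    intro k
    simp only [AlgHom.comp_apply, pleth_X, map_mul, MvPolynomial.algHom_C]
    rw [MvPolynomial.algebraMap_eq]
    ring
  exact congrArg (fun φ => φ F) this

lemma pleth_one (F : Sym R) : pleth (fun _ => (1 : R)) F = F := by
  have : pleth (fun _ => (1 : R)) = AlgHom.id R (Sym R) := by
    apply MvPolynomial.algHom_ext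
    intro k
    simp [pleth_X]
  rw [this]; rfl

/-- intertwining of vertex operators by plethysm -/
lemma pleth_VO (s c' d : ℕ → R) (r : ℕ) (F : Sym R) :
    pleth s (VO (fun k => s k * c' k) d r F) = VO c' (fun k => s k * d k) r (pleth s F) := by
  rw [map_VO, VO_apply]
  have h1 : ∀ i, expo (fun k => algebraMap R (Sym R) (d k) * pleth s (pw R k)) (i + r)
      = expo (fun k => C (s k * d k) * pw R k) (i + r) := by
    intro i
    congr 1
    funext k
    rw [pleth_pw, MvPolynomial.algebraMap_eq, C_mul]
    ring
  have this : (shiftTo (fun k => pleth s (X k)) (fun k => s k * c' k) : Sym R →ₐ[R] _)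
      = (shift c').comp (pleth s) := by
    apply MvPolynomial.algHom_ext
    intro k
    simp only [AlgHom.comp_apply, pleth_X, map_mul, shift_X]
    have hC : shift c' (C (s (k : ℕ))) = Polynomial.C (C (s (k : ℕ))) := by
      rw [← MvPolynomial.algebraMap_eq, AlgHom.commutes, Polynomial.algebraMap_apply]
    rw [hC]
    simp only [shiftTo, aeval_X, MvPolynomial.algebraMap_eq, C_mul]
    rw [mul_add, Polynomial.C_mul_monomial, ← Polynomial.C_mul]
  have h2 : shiftTo (fun k => pleth s (X k)) (fun k => s k * c' k) F = shift c' (pleth s F) :=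
    congrArg (fun φ => φ F) this
  rw [h2]
  simp only [h1]

/-- rescaling the variable `z` -/
lemma VO_scale (l : R) (c d : ℕ → R) (F : Sym R) :
    VO (fun k => l ^ k * c k) d 0 F = VO c (fun k => l ^ k * d k) 0 F := by
  rw [VO_apply, VO_apply]
  have key : ∀ (E : ℕ → Sym R), pairing E (shift (fun k => l ^ k * c k) F)
      = pairing (fun i => C l ^ i * E i) (shift c F) := by
    intro E
    have h1 : shift (fun k => l ^ k * c k) F
        = (Polynomial.aeval (R := Sym R) (Polynomial.C (C l) * Polynomial.X)) (shift c F) := by
      have : (shift (fun k => l ^ k * c k) : Sym R →ₐ[R] _)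
          = ((Polynomial.aeval (R := Sym R)
              (Polynomial.C (C l) * Polynomial.X)).restrictScalars R).comp (shift c) := by
        apply MvPolynomial.algHom_ext
        intro k
        simp only [AlgHom.comp_apply, shift_X, AlgHom.restrictScalars_apply, map_add,
          Polynomial.aeval_C, Polynomial.aeval_monomial]
        rw [mul_pow, ← Polynomial.C_pow, ← Polynomial.C_mul_X_pow_eq_monomial]
        simp only [Polynomial.algebraMap_eq, C_mul, C_pow, Polynomial.C_mul, Polynomial.C_pow]
        ring
      exact congrArg (fun φ => φ F) this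
    rw [h1]
    generalize shift c F = P
    induction P using Polynomial.induction_on' with
    | add p q hp hq => simp only [map_add, hp, hq]
    | monomial i a =>
      rw [Polynomial.aeval_monomial, mul_pow, ← Polynomial.C_pow, Polynomial.algebraMap_eq,
        ← mul_assoc, ← Polynomial.C_mul, Polynomial.C_mul_X_pow_eq_monomial, pairing_monomial,
        pairing_monomial]
      ring
  rw [key]
  congr 2
  funext i
  rw [add_zero]
  have h := expo_scale (fun k => C (d k) * pw R k) (C l) i
  rw [mul_comm, ← h]
  congr 1
  funext k
  rw [C_mul, C_pow]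
  ring

end

end Pool.Agent.H158.TL
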