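import Mathlib
import Pool.Agent.H158.TL.VO

set_option autoImplicit false
set_option linter.unusedSectionVars false

/-!
# Homogeneous symmetric functions
-/

namespace Pool.Agent.H158.TL

open Finset MvPolynomial
open Pool.Agent.H209R2.EH

section
variable {R : Type*} [CommRing R] [Algebra ℚ R]

lemma pleth_monomial (s : ℕ → R) (m : ℕ+ →₀ ℕ) (a : R) :
    pleth s (monomial m a) = monomial m ((m.prod fun k e => s k ^ e) * a) := by
  rw [pleth, aeval_monomial, MvPolynomial.algebraMap_eq, monomial_eq, C_mul]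
  have h : (m.prod fun (k : ℕ+) e => (C (s k) * X k : Sym R) ^ e)
      = C (m.prod fun k e => s k ^ e) * m.prod fun k e => X k ^ e := by
    rw [Finsupp.prod, Finsupp.prod, Finsupp.prod, map_prod, ← Finset.prod_mul_distrib]
    refine Finset.prod_congr rfl fun k _ => ?_
    rw [mul_pow, C_pow]
  rw [h]
  ring

lemma coeff_pleth (s : ℕ → R) (F : Sym R) (m : ℕ+ →₀ ℕ) :
    coeff m (pleth s F) = (m.prod fun k e => s k ^ e) * coeff m F := by
  classical
  induction F using MvPolynomial.induction_on' with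
  | monomial u a =>
    rw [pleth_monomial, coeff_monomial, coeff_monomial]
    split_ifs with h
    · rw [h]
    · rw [mul_zero]
  | add p q hp hq => rw [map_add, coeff_add, coeff_add, hp, hq, mul_add]

/-- the weight of a monomial in the power sums -/
def wgt (m : ℕ+ →₀ ℕ) : ℕ := m.sum fun k e => (k : ℕ) * e

lemma prod_pow_wgt (l : R) (m : ℕ+ →₀ ℕ) :
    (m.prod fun k e => (l ^ (k : ℕ)) ^ e) = l ^ wgt m := by
  rw [Finsupp.prod, wgt, Finsupp.sum, ← Finset.prod_pow_eq_pow_sum]
  refine Finset.prod_congr rfl fun k _ => ?_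
  rw [pow_mul]

/-- homogeneous of degree `n` -/
def IsDeg (n : ℕ) (F : Sym R) : Prop := ∀ m, coeff m F ≠ 0 → wgt m = n

lemma IsDeg.pleth_eq {n : ℕ} {F : Sym R} (h : IsDeg n F) (l : R) :
    pleth (fun k => l ^ k) F = C (l ^ n) * F := by
  ext m
  rw [coeff_pleth, coeff_C_mul, prod_pow_wgt]
  by_cases hm : coeff m F = 0
  · rw [hm, mul_zero, mul_zero]
  · rw [h m hm]

lemma two_pow_inj [IsDomain R] {a b : ℕ} (h : (2 : R) ^ a = 2 ^ b) : a = b := by
  have h1 : algebraMap ℚ R (2 ^ a) = algebraMap ℚ R (2 ^ b) := by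
    rw [map_pow, map_pow, map_ofNat]
    exact h
  have h2 := (algebraMap ℚ R).injective h1
  have h3 : ((2 : ℕ) : ℚ) ^ a = ((2 : ℕ) : ℚ) ^ b := by simpa using h2
  exact Nat.pow_right_injective (le_refl 2) (by exact_mod_cast h3)

lemma IsDeg.of_pleth [IsDomain R] {n : ℕ} {F : Sym R}
    (h : pleth (fun k => (2 : R) ^ k) F = C (2 ^ n) * F) : IsDeg n F := by
  intro m hm
  have h1 := congrArg (coeff m) h
  rw [coeff_pleth, coeff_C_mul, prod_pow_wgt] at h1
  exact two_pow_inj (mul_right_cancel₀ hm h1)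

lemma IsDeg.add {n : ℕ} {F G : Sym R} (hF : IsDeg n F) (hG : IsDeg n G) : IsDeg n (F + G) := by
  intro m hm
  rw [coeff_add] at hm
  by_cases h : coeff m F = 0
  · rw [h, zero_add] at hm
    exact hG m hm
  · exact hF m h

lemma IsDeg.C_mul {n : ℕ} {F : Sym R} (c : R) (hF : IsDeg n F) : IsDeg n (C c * F) := by
  intro m hm
  rw [coeff_C_mul] at hm
  exact hF m (right_ne_zero_of_mul hm)

lemma IsDeg.neg {n : ℕ} {F : Sym R} (hF : IsDeg n F) : IsDeg n (-F) := by
  intro m hm
  rw [coeff_neg, neg_ne_zero] at hm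
  exact hF m hm

lemma IsDeg.zero (n : ℕ) : IsDeg n (0 : Sym R) := by
  intro m hm
  simp at hm

lemma IsDeg.smul {n : ℕ} {F : Sym R} (c : R) (hF : IsDeg n F) : IsDeg n (c • F) := by
  rw [smul_eq_C_mul]
  exact hF.C_mul c

lemma IsDeg.sub {n : ℕ} {F G : Sym R} (hF : IsDeg n F) (hG : IsDeg n G) : IsDeg n (F - G) := by
  rw [sub_eq_add_neg]
  exact hF.add hG.neg

lemma IsDeg.sum {n : ℕ} {ι : Type*} (S : Finset ι) (F : ι → Sym R)
    (h : ∀ i ∈ S, IsDeg n (F i)) : IsDeg n (∑ i ∈ S, F i) := by
  classical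
  induction S using Finset.induction_on with
  | empty => simpa using IsDeg.zero n
  | insert a S ha ih =>
    rw [Finset.sum_insert ha]
    exact (h a (Finset.mem_insert_self _ _)).add
      (ih fun i hi => h i (Finset.mem_insert_of_mem hi))

lemma IsDeg.one : IsDeg 0 (1 : Sym R) := by
  classical
  intro m hm
  have : m = 0 := by
    by_contra h
    apply hm
    rw [← C_1, coeff_C, if_neg (Ne.symm h)]
  rw [this]
  simp [wgt]

lemma wgt_add (m m' : ℕ+ →₀ ℕ) : wgt (m + m') = wgt m + wgt m' := by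
  rw [wgt, wgt, wgt, Finsupp.sum_add_index']
  · intro k; simp
  · intro k a b; ring

lemma IsDeg.mul {n n' : ℕ} {F G : Sym R} (hF : IsDeg n F) (hG : IsDeg n' G) :
    IsDeg (n + n') (F * G) := by
  classical
  intro m hm
  rw [coeff_mul] at hm
  obtain ⟨p, hp, hp'⟩ := Finset.exists_ne_zero_of_sum_ne_zero hm
  rw [Finset.HasAntidiagonal.mem_antidiagonal] at hp
  rw [← hp, wgt_add, hF _ (left_ne_zero_of_mul hp'), hG _ (right_ne_zero_of_mul hp')]

lemma IsDeg.pw (k : ℕ) : IsDeg k (pw R k) := by
  classical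
  intro m hm
  cases k with
  | zero => simp [TL.pw] at hm
  | succ k =>
    rw [TL.pw, coeff_X] at hm
    split_ifs at hm with h
    · rw [← h, wgt, Finsupp.sum_single_index (by simp)]
      simp
    · exact absurd rfl hm

/-- rescaling the variable `z`, general `r` -/
lemma VO_scale' (l : R) (c d : ℕ → R) (r : ℕ) (F : Sym R) :
    C (l ^ r) * VO (fun k => l ^ k * c k) d r F = VO c (fun k => l ^ k * d k) r F := by
  rw [VO_apply, VO_apply]
  have key : ∀ (E : ℕ → Sym R), pairing E (shift (fun k => l ^ k * c k) F)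
      = pairing (fun i => C l ^ i * E i) (shift c F) := by
    intro E
    have h1 : shift (fun k => l ^ k * c k) F
        = (Polynomial.aeval (R := Sym R) (Polynomial.C (C l) * Polynomial.X)) (shift c F) := by
      have : (shift (fun k => l ^ k * c k) : Sym R →ₐ[R] _)
          = ((Polynomial.aeval (R := Sym R)
              (Polynomial.C (C l) * Polynomial.X)).restrictScalars R).comp (shift c) := by
        apply MvPolynomial.algHom_ext
        intro k
        simp only [AlgHom.comp_apply, shift_X, AlgHom.restrictScalars_apply, map_add,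
          Polynomial.aeval_C, Polynomial.aeval_monomial]
        rw [mul_pow, ← Polynomial.C_pow, ← Polynomial.C_mul_X_pow_eq_monomial]
        simp only [Polynomial.algebraMap_eq, MvPolynomial.C_mul, MvPolynomial.C_pow,
          Polynomial.C_mul, Polynomial.C_pow]
        ring
      exact congrArg (fun φ => φ F) this
    rw [h1]
    generalize shift c F = P
    induction P using Polynomial.induction_on' with
    | add p q hp hq => simp only [map_add, hp, hq]
    | monomial i a =>
      rw [Polynomial.aeval_monomial, mul_pow, ← Polynomial.C_pow, Polynomial.algebraMap_eq,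
        ← mul_assoc, ← Polynomial.C_mul, Polynomial.C_mul_X_pow_eq_monomial, pairing_monomial,
        pairing_monomial]
      ring
  rw [key, ← pairing_smul_seq]
  congr 2
  funext i
  have h := expo_scale (fun k => C (d k) * TL.pw R k) (C l) (i + r)
  have e : (fun k => C (l ^ k * d k) * TL.pw R k)
      = fun k => C (d k) * TL.pw R k * C l ^ k := by
    funext k
    rw [MvPolynomial.C_mul, MvPolynomial.C_pow]
    ring
  rw [e, h, MvPolynomial.C_pow, pow_add]
  ring

lemma pleth_VO_scale (l l' : R) (hl : l' * l = 1) (c d : ℕ → R) (r : ℕ) (F : Sym R) :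
    pleth (fun k => l ^ k) (VO c d r F) = C (l ^ r) * VO c d r (pleth (fun k => l ^ k) F) := by
  have e : c = fun k => l ^ k * (l' ^ k * c k) := by
    funext k
    rw [← mul_assoc, ← mul_pow, mul_comm l l', hl, one_pow, one_mul]
  have h1 := pleth_VO (fun k => l ^ k) (fun k => l' ^ k * c k) d r F
  rw [← e] at h1
  rw [h1]
  have h2 := VO_scale' l (fun k => l' ^ k * c k) d r (pleth (fun k => l ^ k) F)
  rw [← e] at h2
  exact h2.symm

lemma IsDeg.VO [IsDomain R] {n : ℕ} {F : Sym R} (c d : ℕ → R) (r : ℕ) (hF : IsDeg n F) :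
    IsDeg (n + r) (VO c d r F) := by
  apply IsDeg.of_pleth
  have hl : algebraMap ℚ R (1 / 2) * 2 = 1 := by
    have : (2 : R) = algebraMap ℚ R 2 := (map_ofNat (algebraMap ℚ R) 2).symm
    rw [this, ← map_mul]
    norm_num
  rw [pleth_VO_scale 2 _ hl, hF.pleth_eq 2, ← smul_eq_C_mul F (2 ^ n : R), map_smul,
    smul_eq_C_mul, pow_add, MvPolynomial.C_mul]
  ring

end

end Pool.Agent.H158.TL
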