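import Mathlib

set_option autoImplicit false
set_option linter.unusedSectionVars false

/-!
# The exchange relation and two-coloured sums over unit interval graphs
-/

namespace Pool.Agent.H158.TL

open Finset

section
variable {A : Type*} [CommRing A]

/-- the exchange relation of a pair `f, g`: with `a, b` invariant under `s`,
`f = t a + x b` and `g = a + y b` -/
def Exch (s : A →+* A) (t x y : A) (f g : A) : Prop :=
  ∃ a b : A, s a = a ∧ s b = b ∧ f = t * a + x * b ∧ g = a + y * b

variable {s : A →+* A} {t x y : A}

lemma Exch.add {f g f' g' : A} (h : Exch s t x y f g) (h' : Exch s t x y f' g') :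
    Exch s t x y (f + f') (g + g') := by
  obtain ⟨a, b, ha, hb, hf, hg⟩ := h
  obtain ⟨a', b', ha', hb', hf', hg'⟩ := h'
  refine ⟨a + a', b + b', ?_, ?_, ?_, ?_⟩
  · rw [map_add, ha, ha']
  · rw [map_add, hb, hb']
  · rw [hf, hf']; ring
  · rw [hg, hg']; ring

lemma Exch.mul_left {f g c : A} (hc : s c = c) (h : Exch s t x y f g) :
    Exch s t x y (c * f) (c * g) := by
  obtain ⟨a, b, ha, hb, hf, hg⟩ := h
  refine ⟨c * a, c * b, ?_, ?_, ?_, ?_⟩
  · rw [map_mul, hc, ha]
  · rw [map_mul, hc, hb]
  · rw [hf]; ring
  · rw [hg]; ring

lemma Exch.zero : Exch s t x y 0 0 :=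
  ⟨0, 0, map_zero s, map_zero s, by ring, by ring⟩

lemma Exch.sum {ι : Type*} (S : Finset ι) (f g : ι → A)
    (h : ∀ i ∈ S, Exch s t x y (f i) (g i)) :
    Exch s t x y (∑ i ∈ S, f i) (∑ i ∈ S, g i) := by
  classical
  induction S using Finset.induction_on with
  | empty => simpa using Exch.zero
  | insert a S ha ih =>
    rw [Finset.sum_insert ha, Finset.sum_insert ha]
    exact (h a (Finset.mem_insert_self _ _)).add
      (ih fun i hi => h i (Finset.mem_insert_of_mem hi))

lemma Exch.symm_add (ht : s t = t) (hx : s x = y) (hy : s y = x) {f g : A}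
    (h : Exch s t x y f g) : s (f + g) = f + g := by
  obtain ⟨a, b, ha, hb, hf, hg⟩ := h
  rw [hf, hg]
  simp only [map_add, map_mul, ht, hx, hy, ha, hb]
  ring

lemma Exch.eq (hy : s y = x) {f g : A} (h : Exch s t x y f g) :
    (x - y) * f = (t - 1) * x * g + (x - t * y) * s g := by
  obtain ⟨a, b, ha, hb, hf, hg⟩ := h
  rw [hf, hg]
  simp only [map_add, map_mul, hy, ha, hb]
  ring

/-- weight of a pair of colours of attacking vertices -/
def om {C : Type*} [LinearOrder C] (t : A) (a b : C) : A :=
  if a < b then t else if a = b then 0 else 1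

end

section
variable {A : Type*} [CommRing A] {V : Type*} [DecidableEq V]

/-- `v` is below `w` and they attack each other -/
def rel (u : V → ℤ) (n : ℤ) (v w : V) : Prop := u v < u w ∧ u w < u v + n

instance (u : V → ℤ) (n : ℤ) (v w : V) : Decidable (rel u n v w) := by
  unfold rel; infer_instance

/-- weight of a two-colouring of `S` (the vertices in `T` get the larger colour) -/
def bw (t x y : A) (u : V → ℤ) (n : ℤ) (S T : Finset V) : A :=
  (∏ v ∈ S, ∏ w ∈ S, if rel u n v w then om t (decide (v ∈ T)) (decide (w ∈ T)) else 1) *
    ∏ v ∈ S, if v ∈ T then y else x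

/-- weight of the two-colourings of `insert a S`, where `a` is below `S` -/
def Zc (t x y : A) (u : V → ℤ) (n : ℤ) (c : Bool) (a : V) (S : Finset V) : A :=
  ∑ T ∈ S.powerset, (if c = true then y else x) * bw t x y u n S T *
    ∏ w ∈ S, if rel u n a w then om t c (decide (w ∈ T)) else 1

lemma bw_insert_notMem (t x y : A) (u : V → ℤ) (n : ℤ) {a : V} {S T : Finset V} (ha : a ∉ S)
    (hT : T ⊆ S) (hmin : ∀ w ∈ S, u a ≤ u w) :
    bw t x y u n (insert a S) T = x * bw t x y u n S T *
      ∏ w ∈ S, if rel u n a w then om t false (decide (w ∈ T)) else 1 := by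
  have haT : a ∉ T := fun h => ha (hT h)
  have h1 : ¬ rel u n a a := fun h => lt_irrefl _ h.1
  have h2 : ∀ v ∈ S, ¬ rel u n v a := fun v hv h => absurd (hmin v hv) (not_le.2 h.1)
  rw [bw, Finset.prod_insert ha, Finset.prod_insert ha, Finset.prod_insert ha, if_neg h1,
    if_neg haT, bw]
  have h3 : ∏ v ∈ S, ∏ w ∈ insert a S,
      (if rel u n v w then om t (decide (v ∈ T)) (decide (w ∈ T)) else 1)
      = ∏ v ∈ S, ∏ w ∈ S,
      (if rel u n v w then om t (decide (v ∈ T)) (decide (w ∈ T)) else 1) := by
    refine Finset.prod_congr rfl fun v hv => ?_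
    rw [Finset.prod_insert ha, if_neg (h2 v hv), one_mul]
  rw [h3]
  simp only [haT, decide_false]
  ring

lemma bw_insert_insert (t x y : A) (u : V → ℤ) (n : ℤ) {a : V} {S T : Finset V} (ha : a ∉ S)
    (hT : T ⊆ S) (hmin : ∀ w ∈ S, u a ≤ u w) :
    bw t x y u n (insert a S) (insert a T) = y * bw t x y u n S T *
      ∏ w ∈ S, if rel u n a w then om t true (decide (w ∈ T)) else 1 := by
  have haT : a ∉ T := fun h => ha (hT h)
  have h1 : ¬ rel u n a a := fun h => lt_irrefl _ h.1
  have h2 : ∀ v ∈ S, ¬ rel u n v a := fun v hv h => absurd (hmin v hv) (not_le.2 h.1)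
  have hne : ∀ v ∈ S, (v ∈ insert a T ↔ v ∈ T) := by
    intro v hv
    rw [Finset.mem_insert]
    constructor
    · rintro (rfl | h)
      · exact absurd hv ha
      · exact h
    · exact Or.inr
  rw [bw, Finset.prod_insert ha, Finset.prod_insert ha, Finset.prod_insert ha, if_neg h1,
    if_pos (Finset.mem_insert_self a T), bw]
  have h3 : ∏ v ∈ S, ∏ w ∈ insert a S,
      (if rel u n v w then om t (decide (v ∈ insert a T)) (decide (w ∈ insert a T)) else 1)
      = ∏ v ∈ S, ∏ w ∈ S,
      (if rel u n v w then om t (decide (v ∈ T)) (decide (w ∈ T)) else 1) := by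
    refine Finset.prod_congr rfl fun v hv => ?_
    rw [Finset.prod_insert ha, if_neg (h2 v hv), one_mul]
    refine Finset.prod_congr rfl fun w hw => ?_
    simp only [hne v hv, hne w hw]
  have h4 : ∏ w ∈ S, (if rel u n a w then om t (decide (a ∈ insert a T))
      (decide (w ∈ insert a T)) else 1)
      = ∏ w ∈ S, if rel u n a w then om t true (decide (w ∈ T)) else 1 := by
    refine Finset.prod_congr rfl fun w hw => ?_
    simp only [hne w hw, Finset.mem_insert_self, decide_true]
  have h5 : ∏ v ∈ S, (if v ∈ insert a T then y else x) = ∏ v ∈ S, (if v ∈ T then y else x) := by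
    refine Finset.prod_congr rfl fun w hw => ?_
    simp only [hne w hw]
  rw [h3, h4, h5]
  ring

lemma sum_bw_insert (t x y : A) (u : V → ℤ) (n : ℤ) {a : V} {S : Finset V} (ha : a ∉ S)
    (hmin : ∀ w ∈ S, u a ≤ u w) :
    ∑ T ∈ (insert a S).powerset, bw t x y u n (insert a S) T
      = Zc t x y u n false a S + Zc t x y u n true a S := by
  rw [Finset.sum_powerset_insert ha]
  congr 1
  · refine Finset.sum_congr rfl fun T hT => ?_
    rw [bw_insert_notMem t x y u n ha (Finset.mem_powerset.1 hT) hmin]
    simp
  · refine Finset.sum_congr rfl fun T hT => ?_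
    rw [bw_insert_insert t x y u n ha (Finset.mem_powerset.1 hT) hmin]
    simp

variable {s : A →+* A} {t x y : A}

lemma exch_Zc (ht : s t = t) (hx : s x = y) (hy : s y = x) (u : V → ℤ) (n : ℤ)
    (hu : Function.Injective u) (S : Finset V) :
    ∀ a, (∀ w ∈ S, u a < u w) →
      Exch s t x y (Zc t x y u n false a S) (Zc t x y u n true a S) := by
  classical
  induction S using Finset.induction_on_min_value u with
  | empty =>
    intro a _
    refine ⟨0, 1, map_zero s, map_one s, ?_, ?_⟩ <;> simp [Zc, bw]
  | insert b S hb hmin ih =>
    intro a hab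
    have hlt : ∀ w ∈ S, u b < u w := by
      intro w hw
      refine lt_of_le_of_ne (hmin w hw) fun h => hb ?_
      rw [hu h]; exact hw
    obtain ⟨A', B', hA, hB, hf, hg⟩ := ih b hlt
    have hsum := (ih b hlt).symm_add ht hx hy
    by_cases h1 : rel u n a b
    · by_cases h2 : ∃ w ∈ S, rel u n a w
      · obtain ⟨w, hw, haw⟩ := h2
        have hbw : rel u n b w := ⟨hlt w hw, lt_trans haw.2 (by
          have := h1.1
          omega)⟩
        have hz : ∀ c, Zc t x y u n c a (insert b S) = 0 := by
          intro c
          rw [Zc]
          refine Finset.sum_eq_zero fun T hT => ?_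
          have e1 : (∏ w' ∈ insert b S, if rel u n a w' then om t c (decide (w' ∈ T)) else 1)
              = om t c (decide (b ∈ T)) * (om t c (decide (w ∈ T)) *
                ∏ w' ∈ S.erase w, if rel u n a w' then om t c (decide (w' ∈ T)) else 1) := by
            rw [Finset.prod_insert hb, if_pos h1, ← Finset.mul_prod_erase S _ hw, if_pos haw]
          have e2 : bw t x y u n (insert b S) T = om t (decide (b ∈ T)) (decide (w ∈ T)) *
              ((∏ w' ∈ (insert b S).erase w, if rel u n b w' then
                om t (decide (b ∈ T)) (decide (w' ∈ T)) else 1) *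
              (∏ v ∈ S, ∏ w ∈ insert b S, if rel u n v w then
                om t (decide (v ∈ T)) (decide (w ∈ T)) else 1) *
              ∏ v ∈ insert b S, if v ∈ T then y else x) := by
            rw [bw, Finset.prod_insert hb,
              ← Finset.mul_prod_erase (insert b S) _ (Finset.mem_insert_of_mem hw),
              if_pos hbw]
            ring
          have e3 : om t c (decide (b ∈ T)) * om t c (decide (w ∈ T)) *
              om t (decide (b ∈ T)) (decide (w ∈ T)) = 0 := by
            cases c <;> cases (decide (b ∈ T)) <;> cases (decide (w ∈ T)) <;> simp [om]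
          rw [e1, e2]
          linear_combination ((if c = true then y else x) *
            ((∏ w' ∈ (insert b S).erase w, if rel u n b w' then
                om t (decide (b ∈ T)) (decide (w' ∈ T)) else 1) *
              (∏ v ∈ S, ∏ w ∈ insert b S, if rel u n v w then
                om t (decide (v ∈ T)) (decide (w ∈ T)) else 1) *
              ∏ v ∈ insert b S, if v ∈ T then y else x) *
            ∏ w' ∈ S.erase w, if rel u n a w' then om t c (decide (w' ∈ T)) else 1) * e3
        rw [hz, hz]
        exact Exch.zero
      · push Not at h2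
        have hz : ∀ c, Zc t x y u n c a (insert b S) = (if c = true then y else x) *
            (om t c false * Zc t x y u n false b S + om t c true * Zc t x y u n true b S) := by
          intro c
          rw [Zc, Finset.sum_powerset_insert hb]
          have e0 : ∀ T : Finset V, (∏ w' ∈ insert b S, if rel u n a w' then om t c (decide (w' ∈ T))
              else 1) = om t c (decide (b ∈ T)) := by
            intro T
            rw [Finset.prod_insert hb, if_pos h1, Finset.prod_eq_one, mul_one]
            intro w hw
            rw [if_neg (h2 w hw)]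
          simp only [e0]
          rw [mul_add, Zc, Zc, Finset.mul_sum, Finset.mul_sum, Finset.mul_sum, Finset.mul_sum]
          congr 1
          · refine Finset.sum_congr rfl fun T hT => ?_
            have hbT : b ∉ T := fun h => hb (Finset.mem_powerset.1 hT h)
            rw [bw_insert_notMem t x y u n hb (Finset.mem_powerset.1 hT) hmin]
            simp only [hbT, decide_false, Bool.false_eq_true, if_false]
            ring
          · refine Finset.sum_congr rfl fun T hT => ?_
            rw [bw_insert_insert t x y u n hb (Finset.mem_powerset.1 hT) hmin]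
            simp only [Finset.mem_insert_self, decide_true, if_true]
            ring
        rw [hz, hz]
        have o1 : om t false false = 0 := by simp [om]
        have o2 : om t false true = t := by simp [om]
        have o3 : om t true false = 1 := by
          have : ¬ (true < false) := by decide
          simp [om, this]
        have o4 : om t true true = 0 := by simp [om]
        refine ⟨x * y * B', t * A', ?_, ?_, ?_, ?_⟩
        · rw [map_mul, map_mul, hx, hy, hB]; ring
        · rw [map_mul, ht, hA]
        · rw [hf, hg, o1, o2]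
          simp only [Bool.false_eq_true, if_false]
          ring
        · rw [hf, hg, o3, o4]
          simp only [if_true]
          ring
    · have h2 : ∀ w ∈ insert b S, ¬ rel u n a w := by
        intro w hw
        rcases Finset.mem_insert.1 hw with rfl | hw
        · exact h1
        · intro h
          apply h1
          refine ⟨hab b (Finset.mem_insert_self _ _), ?_⟩
          exact lt_trans (hlt w hw) h.2
      have hz : ∀ c, Zc t x y u n c a (insert b S) = (if c = true then y else x) *
          (Zc t x y u n false b S + Zc t x y u n true b S) := by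
        intro c
        rw [← sum_bw_insert t x y u n hb hmin, Zc, Finset.mul_sum]
        refine Finset.sum_congr rfl fun T _ => ?_
        rw [Finset.prod_eq_one, mul_one]
        intro w hw
        rw [if_neg (h2 w hw)]
      rw [hz, hz]
      refine ⟨0, Zc t x y u n false b S + Zc t x y u n true b S, map_zero s, hsum, ?_, ?_⟩
      · simp
      · simp

lemma symm_bw (ht : s t = t) (hx : s x = y) (hy : s y = x) (u : V → ℤ) (n : ℤ)
    (hu : Function.Injective u) (S : Finset V) :
    s (∑ T ∈ S.powerset, bw t x y u n S T) = ∑ T ∈ S.powerset, bw t x y u n S T := by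
  classical
  induction S using Finset.induction_on_min_value u with
  | empty => simp [bw]
  | insert b S hb hmin _ =>
    have hlt : ∀ w ∈ S, u b < u w := by
      intro w hw
      refine lt_of_le_of_ne (hmin w hw) fun h => hb ?_
      rw [hu h]; exact hw
    rw [sum_bw_insert t x y u n hb hmin]
    exact (exch_Zc ht hx hy u n hu S b hlt).symm_add ht hx hy

end

end Pool.Agent.H158.TL
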