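import Mathlib
import Pool.Agent.H158.TL.Exch

set_option autoImplicit false
set_option linter.unusedSectionVars false

/-!
# Exchange relation and symmetry for sums over proper colourings
-/

namespace Pool.Agent.H158.TL

open Finset

section
variable {A : Type*} [CommRing A] {V : Type*} [DecidableEq V] [Fintype V]
  {C : Type*} [LinearOrder C] [Fintype C]

/-- chromatic weight of a colouring -/
def cwt (t : A) (u : V → ℤ) (n : ℤ) (κ : V → C) : A :=
  ∏ v, ∏ w, if rel u n v w then om t (κ v) (κ w) else 1

/-- recolour the vertices in `T` by `j` -/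
def recol (j : C) (κ : V → C) (T : Finset V) : V → C := fun v => if v ∈ T then j else κ v

/-- merge the colour `j` into `i` -/
def merge (i j : C) (κ : V → C) : V → C := fun v => if κ v = j then i else κ v

lemma sum_merge (i j : C) (hij : i ≠ j) (f : (V → C) → A) :
    ∑ κ, f κ = ∑ κ ∈ univ.filter (fun κ : V → C => ∀ v, κ v ≠ j),
      ∑ T ∈ (univ.filter fun v => κ v = i).powerset, f (recol j κ T) := by
  rw [Finset.sum_sigma']
  symm
  refine Finset.sum_nbij' (fun p : (_ : V → C) × Finset V => recol j p.1 p.2)
    (fun κ => ⟨merge i j κ, univ.filter fun v => κ v = j⟩) ?_ ?_ ?_ ?_ ?_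
  · intro p _
    exact mem_univ _
  · intro κ _
    simp only [mem_sigma, mem_filter, mem_univ, true_and, Finset.mem_powerset]
    refine ⟨?_, ?_⟩
    · intro v
      simp only [merge]
      split_ifs with h
      · exact hij
      · exact h
    · intro v hv
      simp only [mem_filter, mem_univ, true_and] at hv ⊢
      simp [merge, hv]
  · rintro ⟨κ, T⟩ hp
    simp only [mem_sigma, mem_filter, mem_univ, true_and, Finset.mem_powerset] at hp
    obtain ⟨h1, h2⟩ := hp
    have hT : ∀ v ∈ T, κ v = i := fun v hv => by
      have := h2 hv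
      simpa using this
    have e1 : merge i j (recol j κ T) = κ := by
      funext v
      simp only [merge, recol]
      by_cases hv : v ∈ T
      · simp [hv, hT v hv]
      · simp [hv, h1 v]
    have e2 : (univ.filter fun v => recol j κ T v = j) = T := by
      ext v
      simp only [mem_filter, mem_univ, true_and, recol]
      by_cases hv : v ∈ T
      · simp [hv]
      · simp [hv, h1 v]
    dsimp only
    rw [e1, e2]
  · intro κ _
    funext v
    simp only [recol, merge, mem_filter, mem_univ, true_and]
    split_ifs with h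
    · exact h.symm
    · rfl
  · intro p _
    rfl

/-- the part of the weight not involving pairs inside `S` -/
def owt (t : A) (u : V → ℤ) (n : ℤ) (xs : C → A) (κ : V → C) (S : Finset V) : A :=
  (∏ v, ∏ w, if v ∈ S ∧ w ∈ S then 1 else if rel u n v w then om t (κ v) (κ w) else 1) *
    ∏ v, if v ∈ S then 1 else xs (κ v)

lemma weight_recol (t : A) (u : V → ℤ) (n : ℤ) (xs : C → A) {i j : C} (hij : i < j)
    (hadj : ∀ c, c ≠ i → c ≠ j → ((c < i ↔ c < j) ∧ (i < c ↔ j < c))) (κ : V → C)
    (hκ : ∀ v, κ v ≠ j) (T : Finset V) (hT : T ⊆ univ.filter fun v => κ v = i) :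
    cwt t u n (recol j κ T) * ∏ v, xs (recol j κ T v)
      = owt t u n xs κ (univ.filter fun v => κ v = i) *
        bw t (xs i) (xs j) u n (univ.filter fun v => κ v = i) T := by
  set S : Finset V := univ.filter fun v => κ v = i with hS
  have memS : ∀ v, v ∈ S ↔ κ v = i := fun v => by simp [hS]
  have hTi : ∀ v, v ∈ T → κ v = i := fun v hv => (memS v).1 (hT hv)
  have e1 : ∀ v w, (if rel u n v w then om t (recol j κ T v) (recol j κ T w) else 1)
      = (if v ∈ S ∧ w ∈ S then 1 else if rel u n v w then om t (κ v) (κ w) else 1) *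
        (if v ∈ S then (if w ∈ S then (if rel u n v w then
          om t (decide (v ∈ T)) (decide (w ∈ T)) else 1) else 1) else 1) := by
    intro v w
    by_cases hr : rel u n v w
    · simp only [hr, if_true]
      by_cases hv : v ∈ S
      · by_cases hw : w ∈ S
        · simp only [hv, hw, and_self, if_true, one_mul]
          have hv' := (memS v).1 hv
          have hw' := (memS w).1 hw
          simp only [recol, hv', hw']
          have hji : ¬ j < i := not_lt.2 hij.le
          have tf : ¬ (true < false) := by decide
          by_cases h1 : v ∈ T <;> by_cases h2 : w ∈ T <;>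
            simp [h1, h2, om, hij, hij.ne, hji, tf, hij.ne']
        · simp only [hv, hw, and_false, if_false, if_true, mul_one]
          have hwT : w ∉ T := fun h => hw (hT h)
          have hv' := (memS v).1 hv
          have hw' : κ w ≠ i := fun h => hw ((memS w).2 h)
          simp only [recol, hwT, if_false, hv']
          split_ifs with h1
          · simp only [om, (hadj (κ w) hw' (hκ w)).2, (hκ w).symm, hw'.symm]
          · rfl
      · by_cases hw : w ∈ S
        · simp only [hv, hw, false_and, if_false, mul_one]
          have hvT : v ∉ T := fun h => hv (hT h)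
          have hw' := (memS w).1 hw
          have hv' : κ v ≠ i := fun h => hv ((memS v).2 h)
          simp only [recol, hvT, if_false, hw']
          split_ifs with h1
          · simp only [om, (hadj (κ v) hv' (hκ v)).1, hκ v, hv']
          · rfl
        · simp only [hv, hw, and_false, if_false, mul_one]
          have hvT : v ∉ T := fun h => hv (hT h)
          have hwT : w ∉ T := fun h => hw (hT h)
          simp only [recol, hvT, hwT, if_false]
    · simp [hr]
  have e2 : ∀ v, xs (recol j κ T v) = (if v ∈ S then 1 else xs (κ v)) *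
      (if v ∈ S then (if v ∈ T then xs j else xs i) else 1) := by
    intro v
    by_cases hv : v ∈ S
    · have hv' := (memS v).1 hv
      simp only [hv, if_true, one_mul, recol, hv']
      split_ifs <;> rfl
    · have hvT : v ∉ T := fun h => hv (hT h)
      simp only [hv, if_false, mul_one, recol, hvT]
  rw [cwt]
  simp only [e1, e2, Finset.prod_mul_distrib]
  have e3 : (∏ v, ∏ w, (if v ∈ S then (if w ∈ S then (if rel u n v w then
          om t (decide (v ∈ T)) (decide (w ∈ T)) else 1) else 1) else 1))
      = ∏ v ∈ S, ∏ w ∈ S, (if rel u n v w then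
          om t (decide (v ∈ T)) (decide (w ∈ T)) else 1) := by
    have : ∀ v, (∏ w, (if v ∈ S then (if w ∈ S then (if rel u n v w then
          om t (decide (v ∈ T)) (decide (w ∈ T)) else 1) else 1) else 1))
        = if v ∈ S then ∏ w ∈ S, (if rel u n v w then
          om t (decide (v ∈ T)) (decide (w ∈ T)) else 1) else 1 := by
      intro v
      split_ifs with hv
      · rw [Finset.prod_ite_mem, Finset.univ_inter]
      · simp
    simp only [this]
    rw [Finset.prod_ite_mem, Finset.univ_inter]
  have e4 : (∏ v, (if v ∈ S then (if v ∈ T then xs j else xs i) else 1))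
      = ∏ v ∈ S, (if v ∈ T then xs j else xs i) := by
    rw [Finset.prod_ite_mem, Finset.univ_inter]
  rw [e3, e4, owt, bw]
  ring

variable {s : A →+* A} {t : A} {xs : C → A} {i j : C}

lemma owt_invariant (ht : s t = t) (hxc : ∀ c, c ≠ i → c ≠ j → s (xs c) = xs c) (u : V → ℤ)
    (n : ℤ) (κ : V → C) (hκ : ∀ v, κ v ≠ j) :
    s (owt t u n xs κ (univ.filter fun v => κ v = i))
      = owt t u n xs κ (univ.filter fun v => κ v = i) := by
  rw [owt, map_mul, map_prod, map_prod]
  congr 1
  · refine Finset.prod_congr rfl fun v _ => ?_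
    rw [map_prod]
    refine Finset.prod_congr rfl fun w _ => ?_
    simp only [om]
    split_ifs <;> simp [ht]
  · refine Finset.prod_congr rfl fun v _ => ?_
    simp only [mem_filter, mem_univ, true_and]
    split_ifs with h
    · exact map_one s
    · exact hxc _ h (hκ v)

/-- the sum over proper colourings is symmetric in two adjacent colours -/
lemma symm_colour (hij : i < j)
    (hadj : ∀ c, c ≠ i → c ≠ j → ((c < i ↔ c < j) ∧ (i < c ↔ j < c)))
    (ht : s t = t) (hxi : s (xs i) = xs j) (hxj : s (xs j) = xs i)
    (hxc : ∀ c, c ≠ i → c ≠ j → s (xs c) = xs c) (u : V → ℤ) (n : ℤ)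
    (hu : Function.Injective u) :
    s (∑ κ : V → C, cwt t u n κ * ∏ v, xs (κ v)) = ∑ κ : V → C, cwt t u n κ * ∏ v, xs (κ v) := by
  rw [sum_merge i j hij.ne, map_sum]
  refine Finset.sum_congr rfl fun κ hκ => ?_
  have hκ' : ∀ v, κ v ≠ j := (Finset.mem_filter.1 hκ).2
  have e : ∑ T ∈ (univ.filter fun v => κ v = i).powerset,
      cwt t u n (recol j κ T) * ∏ v, xs (recol j κ T v)
      = owt t u n xs κ (univ.filter fun v => κ v = i) *
        ∑ T ∈ (univ.filter fun v => κ v = i).powerset,
          bw t (xs i) (xs j) u n (univ.filter fun v => κ v = i) T := by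
    rw [Finset.mul_sum]
    refine Finset.sum_congr rfl fun T hT => ?_
    exact weight_recol t u n xs hij hadj κ hκ' T (Finset.mem_powerset.1 hT)
  rw [e, map_mul, owt_invariant ht hxc u n κ hκ', symm_bw ht hxi hxj u n hu]

/-- exchange relation for the sums over proper colourings with prescribed colour of the
lowest vertex -/
lemma exch_colour (hij : i < j)
    (hadj : ∀ c, c ≠ i → c ≠ j → ((c < i ↔ c < j) ∧ (i < c ↔ j < c)))
    (ht : s t = t) (hxi : s (xs i) = xs j) (hxj : s (xs j) = xs i)
    (hxc : ∀ c, c ≠ i → c ≠ j → s (xs c) = xs c) (u : V → ℤ) (n : ℤ)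
    (hu : Function.Injective u) (v₀ : V) (hv₀ : ∀ w, w ≠ v₀ → u v₀ < u w) :
    Exch s t (xs i) (xs j)
      (∑ κ : V → C, if κ v₀ = i then cwt t u n κ * ∏ v, xs (κ v) else 0)
      (∑ κ : V → C, if κ v₀ = j then cwt t u n κ * ∏ v, xs (κ v) else 0) := by
  rw [sum_merge i j hij.ne, sum_merge i j hij.ne
    (fun κ => if κ v₀ = j then cwt t u n κ * ∏ v, xs (κ v) else 0)]
  refine Exch.sum _ _ _ fun κ hκ => ?_
  have hκ' : ∀ v, κ v ≠ j := (Finset.mem_filter.1 hκ).2
  set S : Finset V := univ.filter fun v => κ v = i with hS
  have hw : ∀ T ∈ S.powerset, cwt t u n (recol j κ T) * ∏ v, xs (recol j κ T v)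
      = owt t u n xs κ S * bw t (xs i) (xs j) u n S T := fun T hT =>
    weight_recol t u n xs hij hadj κ hκ' T (Finset.mem_powerset.1 hT)
  by_cases hi : κ v₀ = i
  · have hmem : v₀ ∈ S := by simp [hS, hi]
    have hins : S = insert v₀ (S.erase v₀) := (Finset.insert_erase hmem).symm
    have hnot : v₀ ∉ S.erase v₀ := Finset.notMem_erase _ _
    have hmin : ∀ w ∈ S.erase v₀, u v₀ ≤ u w := fun w hw =>
      (hv₀ w (Finset.ne_of_mem_erase hw)).le
    have hmin' : ∀ w ∈ S.erase v₀, u v₀ < u w := fun w hw =>
      (hv₀ w (Finset.ne_of_mem_erase hw))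
    have f1 : ∑ T ∈ S.powerset, (if recol j κ T v₀ = i then
        cwt t u n (recol j κ T) * ∏ v, xs (recol j κ T v) else 0)
        = owt t u n xs κ S * Zc t (xs i) (xs j) u n false v₀ (S.erase v₀) := by
      have : ∀ T ∈ S.powerset, (if recol j κ T v₀ = i then
          cwt t u n (recol j κ T) * ∏ v, xs (recol j κ T v) else 0)
          = if v₀ ∈ T then 0 else owt t u n xs κ S * bw t (xs i) (xs j) u n S T := by
        intro T hT
        rw [hw T hT]
        by_cases hv : v₀ ∈ T
        · simp [recol, hv, hij.ne']
        · simp [recol, hv, hi]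
      rw [Finset.sum_congr rfl this]
      conv_lhs => rw [hins]
      rw [Finset.sum_powerset_insert hnot, Zc, Finset.mul_sum]
      have z : ∑ T ∈ (S.erase v₀).powerset, (if v₀ ∈ insert v₀ T then (0 : A) else
          owt t u n xs κ (insert v₀ (S.erase v₀)) *
            bw t (xs i) (xs j) u n (insert v₀ (S.erase v₀)) (insert v₀ T)) = 0 := by
        refine Finset.sum_eq_zero fun T _ => ?_
        rw [if_pos (Finset.mem_insert_self _ _)]
      rw [z, add_zero]
      refine Finset.sum_congr rfl fun T hT => ?_
      have hvT : v₀ ∉ T := fun h => hnot (Finset.mem_powerset.1 hT h)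
      rw [if_neg hvT, bw_insert_notMem t _ _ u n hnot (Finset.mem_powerset.1 hT) hmin,
        ← hins]
      simp only [Bool.false_eq_true, if_false]
    have f2 : ∑ T ∈ S.powerset, (if recol j κ T v₀ = j then
        cwt t u n (recol j κ T) * ∏ v, xs (recol j κ T v) else 0)
        = owt t u n xs κ S * Zc t (xs i) (xs j) u n true v₀ (S.erase v₀) := by
      have : ∀ T ∈ S.powerset, (if recol j κ T v₀ = j then
          cwt t u n (recol j κ T) * ∏ v, xs (recol j κ T v) else 0)
          = if v₀ ∈ T then owt t u n xs κ S * bw t (xs i) (xs j) u n S T else 0 := by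
        intro T hT
        rw [hw T hT]
        by_cases hv : v₀ ∈ T
        · simp [recol, hv]
        · simp [recol, hv, hi, hij.ne]
      rw [Finset.sum_congr rfl this]
      conv_lhs => rw [hins]
      rw [Finset.sum_powerset_insert hnot, Zc, Finset.mul_sum]
      have z : ∑ T ∈ (S.erase v₀).powerset, (if v₀ ∈ T then
          owt t u n xs κ (insert v₀ (S.erase v₀)) *
            bw t (xs i) (xs j) u n (insert v₀ (S.erase v₀)) T else (0 : A)) = 0 := by
        refine Finset.sum_eq_zero fun T hT => ?_
        have hvT : v₀ ∉ T := fun h => hnot (Finset.mem_powerset.1 hT h)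
        rw [if_neg hvT]
      rw [z, zero_add]
      refine Finset.sum_congr rfl fun T hT => ?_
      rw [if_pos (Finset.mem_insert_self _ _),
        bw_insert_insert t _ _ u n hnot (Finset.mem_powerset.1 hT) hmin, ← hins]
      simp only [if_true]
    rw [f1, f2]
    exact (exch_Zc ht hxi hxj u n hu _ v₀ hmin').mul_left (owt_invariant ht hxc u n κ hκ')
  · have z1 : ∑ T ∈ S.powerset, (if recol j κ T v₀ = i then
        cwt t u n (recol j κ T) * ∏ v, xs (recol j κ T v) else 0) = 0 := by
      refine Finset.sum_eq_zero fun T hT => if_neg ?_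
      simp only [recol]
      split_ifs
      · exact hij.ne'
      · exact hi
    have z2 : ∑ T ∈ S.powerset, (if recol j κ T v₀ = j then
        cwt t u n (recol j κ T) * ∏ v, xs (recol j κ T v) else 0) = 0 := by
      refine Finset.sum_eq_zero fun T hT => if_neg ?_
      simp only [recol]
      have hvT : v₀ ∉ T := fun h => by
        have := Finset.mem_powerset.1 hT h
        rw [hS] at this
        exact hi (Finset.mem_filter.1 this).2
      rw [if_neg hvT]
      exact hκ' v₀
    rw [z1, z2]
    exact Exch.zero

end

end Pool.Agent.H158.TL
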