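import Mathlib
import Pool.Agent.H158.TL.Fiber

set_option autoImplicit false
set_option linter.unusedSectionVars false

/-!
# Level functions, generating series in `q`
-/

namespace Pool.Agent.H158.TL

open Finset

/-- `v` is below `w` and they attack each other, in terms of levels -/
def pr {n : ℕ} (γ : Fin n → ℕ) (v w : Fin n) : Prop :=
  (γ v = γ w ∧ w < v) ∨ (γ w = γ v + 1 ∧ v < w)

instance {n : ℕ} (γ : Fin n → ℕ) (v w : Fin n) : Decidable (pr γ v w) := by
  unfold pr; infer_instance

/-- the height of a vertex -/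
def lu {n : ℕ} (γ : Fin n → ℕ) (v : Fin n) : ℤ := n * γ v - v

lemma lu_rel {n : ℕ} (γ : Fin n → ℕ) (v w : Fin n) : rel (lu γ) n v w ↔ pr γ v w := by
  have hv : (v : ℤ) < n := by exact_mod_cast v.2
  have hw : (w : ℤ) < n := by exact_mod_cast w.2
  have hv0 : (0 : ℤ) ≤ v := by positivity
  have hw0 : (0 : ℤ) ≤ w := by positivity
  simp only [rel, pr, lu, Fin.lt_def]
  constructor
  · rintro ⟨h1, h2⟩
    rcases lt_trichotomy (γ v) (γ w) with h | h | h
    · right
      have h3 : γ w = γ v + 1 := by
        by_contra hne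
        have h4 : γ v + 2 ≤ γ w := by omega
        have h5 : (n : ℤ) * (γ v + 2) ≤ n * γ w := by
          apply mul_le_mul_of_nonneg_left
          · exact_mod_cast h4
          · positivity
        nlinarith
      refine ⟨h3, ?_⟩
      rw [h3] at h2
      push_cast at h2
      have : (v : ℤ) < w := by nlinarith
      exact_mod_cast this
    · left
      refine ⟨h, ?_⟩
      rw [h] at h1
      have : (w : ℤ) < v := by linarith
      exact_mod_cast this
    · exfalso
      have h4 : γ w + 1 ≤ γ v := by omega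
      have h5 : (n : ℤ) * (γ w + 1) ≤ n * γ v := by
        apply mul_le_mul_of_nonneg_left
        · exact_mod_cast h4
        · positivity
      nlinarith
  · rintro (⟨h1, h2⟩ | ⟨h1, h2⟩)
    · rw [h1]
      have h2' : (w : ℤ) < v := by exact_mod_cast h2
      constructor <;> linarith
    · rw [h1]
      have h2' : (v : ℤ) < w := by exact_mod_cast h2
      push_cast
      constructor <;> nlinarith

lemma lu_injective {n : ℕ} (γ : Fin n → ℕ) : Function.Injective (lu γ) := by
  intro v w h
  have hv : (v : ℤ) < n := by exact_mod_cast v.2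
  have hw : (w : ℤ) < n := by exact_mod_cast w.2
  have hv0 : (0 : ℤ) ≤ v := by positivity
  have hw0 : (0 : ℤ) ≤ w := by positivity
  simp only [lu] at h
  have h1 : γ v = γ w := by
    rcases lt_trichotomy (γ v) (γ w) with h' | h' | h'
    · exfalso
      have h5 : (n : ℤ) * (γ v + 1) ≤ n * γ w := by
        apply mul_le_mul_of_nonneg_left
        · exact_mod_cast h'
        · positivity
      nlinarith
    · exact h'
    · exfalso
      have h5 : (n : ℤ) * (γ w + 1) ≤ n * γ v := by
        apply mul_le_mul_of_nonneg_left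
        · exact_mod_cast h'
        · positivity
      nlinarith
  rw [h1] at h
  have : (v : ℤ) = w := by linarith
  exact Fin.ext (by exact_mod_cast this)

section
variable {P : Type*} [CommRing P] {C : Type*} [LinearOrder C]

/-- chromatic weight -/
def cw {n : ℕ} (t : P) (γ : Fin n → ℕ) (κ : Fin n → C) : P :=
  ∏ v, ∏ w, if pr γ v w then om t (κ v) (κ w) else 1

lemma cw_eq_cwt {n : ℕ} (t : P) (γ : Fin n → ℕ) (κ : Fin n → C) :
    cw t γ κ = cwt t (lu γ) n κ := by
  simp only [cw, cwt, lu_rel]

/-- generating series `∑ q^{|γ|} w(γ)` -/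
noncomputable def gs {n : ℕ} (w : (Fin n → ℕ) → P) : PowerSeries P :=
  PowerSeries.mk fun d => ∑ γ ∈ Finset.piAntidiag univ d, w γ

lemma coeff_gs {n : ℕ} (w : (Fin n → ℕ) → P) (d : ℕ) :
    PowerSeries.coeff d (gs w) = ∑ γ ∈ Finset.piAntidiag univ d, w γ := by
  rw [gs, PowerSeries.coeff_mk]

lemma mem_pa {n : ℕ} (d : ℕ) (γ : Fin n → ℕ) :
    γ ∈ Finset.piAntidiag univ d ↔ ∑ v, γ v = d := by
  simp [Finset.mem_piAntidiag]

lemma gs_add {n : ℕ} (w w' : (Fin n → ℕ) → P) : gs (fun γ => w γ + w' γ) = gs w + gs w' := by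
  ext d
  simp [coeff_gs, Finset.sum_add_distrib]

lemma gs_mul_left {n : ℕ} (c : P) (w : (Fin n → ℕ) → P) :
    gs (fun γ => c * w γ) = PowerSeries.C c * gs w := by
  ext d
  simp [coeff_gs, Finset.mul_sum]

lemma gs_sum {n : ℕ} {ι : Type*} (S : Finset ι) (w : ι → (Fin n → ℕ) → P) :
    gs (fun γ => ∑ i ∈ S, w i γ) = ∑ i ∈ S, gs (w i) := by
  ext d
  simp only [coeff_gs, map_sum]
  rw [Finset.sum_comm]

lemma gs_perm {n : ℕ} (σ : Equiv.Perm (Fin n)) (w : (Fin n → ℕ) → P) :
    gs (fun γ => w (γ ∘ σ)) = gs w := by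
  ext d
  rw [coeff_gs, coeff_gs]
  refine Finset.sum_nbij' (fun γ => γ ∘ σ) (fun γ => γ ∘ σ.symm) ?_ ?_ ?_ ?_ ?_
  · intro γ hγ
    rw [mem_pa] at hγ ⊢
    rw [← hγ]
    exact Equiv.sum_comp σ γ
  · intro γ hγ
    rw [mem_pa] at hγ ⊢
    rw [← hγ]
    exact Equiv.sum_comp σ.symm γ
  · intro γ _
    funext v
    simp
  · intro γ _
    funext v
    simp
  · intro γ _
    rfl

/-- raise the levels of the vertices in `S` by one -/
def raise {n : ℕ} (S : Finset (Fin n)) (γ : Fin n → ℕ) : Fin n → ℕ :=
  fun v => γ v + if v ∈ S then 1 else 0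

lemma sum_raise {n : ℕ} (S : Finset (Fin n)) (γ : Fin n → ℕ) :
    ∑ v, raise S γ v = ∑ v, γ v + S.card := by
  simp [raise, Finset.sum_add_distrib]

lemma gs_shift {n : ℕ} (S : Finset (Fin n)) (w : (Fin n → ℕ) → P) :
    gs (fun γ => if ∀ v ∈ S, 1 ≤ γ v then w γ else 0)
      = PowerSeries.X ^ S.card * gs (fun γ => w (raise S γ)) := by
  ext d
  rw [coeff_gs, PowerSeries.coeff_X_pow_mul', coeff_gs]
  rw [← Finset.sum_filter]
  split_ifs with h
  · refine Finset.sum_nbij' (fun γ v => γ v - if v ∈ S then 1 else 0) (raise S) ?_ ?_ ?_ ?_ ?_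
    · intro γ hγ
      rw [mem_filter, mem_pa] at hγ
      rw [mem_pa]
      have h1 : ∀ v, γ v = (γ v - if v ∈ S then 1 else 0) + if v ∈ S then 1 else 0 := by
        intro v
        by_cases hv : v ∈ S
        · have := hγ.2 v hv
          simp only [hv, if_true]
          omega
        · simp [hv]
      have h2 : ∑ v, γ v = ∑ v, (γ v - if v ∈ S then 1 else 0) + S.card := by
        rw [Finset.sum_congr rfl (fun v _ => h1 v), Finset.sum_add_distrib]
        congr 1
        simp
      omega
    · intro γ hγ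
      rw [mem_pa] at hγ
      rw [mem_filter, mem_pa, sum_raise]
      refine ⟨by omega, fun v hv => ?_⟩
      simp [raise, hv]
    · intro γ hγ
      rw [mem_filter, mem_pa] at hγ
      funext v
      simp only [raise]
      by_cases hv : v ∈ S
      · have := hγ.2 v hv
        simp only [hv, if_true]
        omega
      · simp [hv]
    · intro γ _
      funext v
      simp [raise]
    · intro γ hγ
      rw [mem_filter, mem_pa] at hγ
      congr 1
      funext v
      simp only [raise]
      by_cases hv : v ∈ S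
      · have := hγ.2 v hv
        simp only [hv, if_true]
        omega
      · simp [hv]
  · refine Finset.sum_eq_zero fun γ hγ => ?_
    exfalso
    rw [mem_filter, mem_pa] at hγ
    apply h
    rw [← hγ.1, Finset.card_eq_sum_ones]
    calc ∑ v ∈ S, 1 ≤ ∑ v ∈ S, γ v := Finset.sum_le_sum hγ.2
      _ ≤ ∑ v, γ v := Finset.sum_le_sum_of_subset (Finset.subset_univ _)

lemma gs_snoc {n : ℕ} (w : (Fin (n + 1) → ℕ) → P) :
    gs (fun γ => if γ (Fin.last n) = 0 then w γ else 0)
      = gs (fun γ : Fin n → ℕ => w (Fin.snoc γ 0)) := by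
  ext d
  rw [coeff_gs, coeff_gs, ← Finset.sum_filter]
  refine Finset.sum_nbij' (fun γ => Fin.init γ) (fun γ => Fin.snoc γ 0) ?_ ?_ ?_ ?_ ?_
  · intro γ hγ
    rw [mem_filter, mem_pa, Fin.sum_univ_castSucc] at hγ
    rw [mem_pa]
    have := hγ.1
    rw [hγ.2, add_zero] at this
    exact this
  · intro γ hγ
    rw [mem_pa] at hγ
    rw [mem_filter, mem_pa, Fin.sum_univ_castSucc]
    simp only [Fin.snoc_castSucc, Fin.snoc_last, add_zero, and_true]
    exact hγ
  · intro γ hγ
    rw [mem_filter] at hγ
    funext v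
    refine Fin.lastCases ?_ (fun i => ?_) v
    · simp [hγ.2]
    · simp [Fin.init]
  · intro γ _
    funext v
    simp [Fin.init]
  · intro γ hγ
    rw [mem_filter] at hγ
    congr 1
    funext v
    refine Fin.lastCases ?_ (fun i => ?_) v
    · simp [hγ.2]
    · simp [Fin.init]

lemma finRotate_castSucc' {n : ℕ} (i : Fin n) :
    finRotate (n + 1) i.castSucc = i.succ := by
  have := finRotate_of_lt i.2
  exact this

/-- rotation of the last vertex -/
lemma cw_rotate {n : ℕ} (t : P) (γ : Fin (n + 1) → ℕ) (κ : Fin (n + 1) → C) :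
    cw t (raise {Fin.last n} γ) κ
      = cw t (γ ∘ (finRotate (n + 1)).symm) (κ ∘ (finRotate (n + 1)).symm) := by
  rw [cw, cw]
  conv_rhs => rw [← Equiv.prod_comp (finRotate (n + 1))]
  refine Finset.prod_congr rfl fun v _ => ?_
  conv_rhs => rw [← Equiv.prod_comp (finRotate (n + 1))]
  refine Finset.prod_congr rfl fun w _ => ?_
  have this : pr (raise {Fin.last n} γ) v w
      ↔ pr (γ ∘ (finRotate (n + 1)).symm) (finRotate (n + 1) v) (finRotate (n + 1) w) := by
    simp only [pr, raise, Function.comp_apply, Equiv.symm_apply_apply, Finset.mem_singleton]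
    refine Fin.lastCases ?_ (fun i => ?_) v
    · refine Fin.lastCases ?_ (fun j => ?_) w
      · simp
      · have h1 : ¬ (Fin.castSucc j = Fin.last n) := (Fin.castSucc_lt_last j).ne
        have h2 : (Fin.castSucc j) < Fin.last n := Fin.castSucc_lt_last j
        have h3 : ¬ Fin.last n < Fin.castSucc j := not_lt.2 h2.le
        have h4 : (0 : Fin (n + 1)) < j.succ := Fin.succ_pos j
        have h5 : ¬ (j.succ < (0 : Fin (n + 1))) := not_lt.2 h4.le
        rw [finRotate_last, finRotate_castSucc']
        simp only [h1, h2, h3, h4, h5, if_true, if_false, and_true, and_false, or_false,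
          false_or, add_zero]
        exact eq_comm
    · refine Fin.lastCases ?_ (fun j => ?_) w
      · have h1 : ¬ (Fin.castSucc i = Fin.last n) := (Fin.castSucc_lt_last i).ne
        have h2 : (Fin.castSucc i) < Fin.last n := Fin.castSucc_lt_last i
        have h3 : ¬ Fin.last n < Fin.castSucc i := not_lt.2 h2.le
        have h4 : (0 : Fin (n + 1)) < i.succ := Fin.succ_pos i
        have h5 : ¬ (i.succ < (0 : Fin (n + 1))) := not_lt.2 h4.le
        rw [finRotate_last, finRotate_castSucc']
        simp only [h1, h2, h3, h4, h5, if_true, if_false, and_true, and_false, or_false,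
          false_or, add_zero, add_left_inj]
        exact eq_comm
      · have h1 : ¬ (Fin.castSucc i = Fin.last n) := (Fin.castSucc_lt_last i).ne
        have h2 : ¬ (Fin.castSucc j = Fin.last n) := (Fin.castSucc_lt_last j).ne
        rw [finRotate_castSucc', finRotate_castSucc']
        simp only [h1, h2, if_false, add_zero, Fin.castSucc_lt_castSucc_iff,
          Fin.succ_lt_succ_iff]
  simp only [Function.comp_apply, Equiv.symm_apply_apply]
  exact if_congr this rfl rfl

/-- raising all levels changes nothing -/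
lemma cw_raise_univ {n : ℕ} (t : P) (γ : Fin n → ℕ) (κ : Fin n → C) :
    cw t (raise univ γ) κ = cw t γ κ := by
  rw [cw, cw]
  refine Finset.prod_congr rfl fun v _ => Finset.prod_congr rfl fun w _ => ?_
  refine if_congr ?_ rfl rfl
  simp [pr, raise]

lemma raise_raise_compl {n : ℕ} (S : Finset (Fin n)) (γ : Fin n → ℕ) :
    raise S (raise Sᶜ γ) = raise univ γ := by
  funext v
  simp only [raise, Finset.mem_compl, Finset.mem_univ, if_true]
  by_cases h : v ∈ S <;> simp [h]

end

section
variable {P : Type*} [CommRing P]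

/-- colour shift: the largest colour becomes the smallest one, with level lowered by one -/
lemma cw_colour_shift {n N : ℕ} (t : P) (γ : Fin n → ℕ) (κ : Fin n → Fin (N + 1)) :
    cw t (raise (univ.filter fun v => κ v = Fin.last N) γ) κ
      = cw t γ (fun v => finRotate (N + 1) (κ v)) := by
  classical
  set S : Finset (Fin n) := univ.filter fun v => κ v = Fin.last N with hS
  have memS : ∀ v, v ∈ S ↔ κ v = Fin.last N := fun v => by simp [hS]
  set fl : Fin n × Fin n → Fin n × Fin n := fun p =>
    if (κ p.1 = Fin.last N ↔ κ p.2 = Fin.last N) then p else (p.2, p.1) with hfl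
  have hinv : Function.Involutive fl := by
    intro p
    simp only [hfl]
    by_cases h : (κ p.1 = Fin.last N ↔ κ p.2 = Fin.last N)
    · simp [h]
    · have h' : ¬ (κ p.2 = Fin.last N ↔ κ p.1 = Fin.last N) := fun h' => h h'.symm
      simp only [h, h', if_false]
  rw [cw, cw, ← Fintype.prod_prod_type'
    (fun v w => if pr (raise S γ) v w then om t (κ v) (κ w) else 1),
    ← Fintype.prod_prod_type'
    (fun v w => if pr γ v w then
      om t (finRotate (N + 1) (κ v)) (finRotate (N + 1) (κ w)) else 1),
    ← Equiv.prod_comp hinv.toPerm]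
  refine Finset.prod_congr rfl fun p _ => ?_
  obtain ⟨v, w⟩ := p
  simp only [Function.Involutive.coe_toPerm]
  have hlast : ∀ c : Fin (N + 1), c ≠ Fin.last N → ∃ a : Fin N, c = a.castSucc := by
    intro c hc
    exact ⟨c.castPred hc, (Fin.castSucc_castPred c hc).symm⟩
  by_cases hv : κ v = Fin.last N
  · by_cases hw : κ w = Fin.last N
    · have e : fl (v, w) = (v, w) := by simp [hfl, hv, hw]
      rw [e]
      simp only [hv, hw]
      refine if_congr ?_ ?_ rfl
      · simp [pr, raise, memS, hv, hw]
      · simp [om]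
    · obtain ⟨b, hb⟩ := hlast _ hw
      have e : fl (v, w) = (w, v) := by simp [hfl, hv, hw]
      rw [e]
      simp only [hv, hb, finRotate_last, finRotate_castSucc']
      have o1 : om t b.castSucc (Fin.last N) = t := by
        simp [om, Fin.castSucc_lt_last b]
      have o2 : om t (0 : Fin (N + 1)) b.succ = t := by
        simp [om, Fin.succ_pos b]
      rw [o1, o2]
      refine if_congr ?_ rfl rfl
      have hvS : w ∉ S := fun h => hw ((memS w).1 h)
      have hwS : v ∈ S := (memS v).2 hv
      simp only [pr, raise, hvS, hwS, if_true, if_false, add_zero, add_left_inj]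
      constructor
      · rintro (⟨h1, h2⟩ | ⟨h1, h2⟩)
        · exact Or.inr ⟨h1, h2⟩
        · exact Or.inl ⟨h1, h2⟩
      · rintro (⟨h1, h2⟩ | ⟨h1, h2⟩)
        · exact Or.inr ⟨h1, h2⟩
        · exact Or.inl ⟨h1, h2⟩
  · obtain ⟨a, ha⟩ := hlast _ hv
    by_cases hw : κ w = Fin.last N
    · have e : fl (v, w) = (w, v) := by simp [hfl, hv, hw]
      rw [e]
      simp only [hw, ha, finRotate_last, finRotate_castSucc']
      have o1 : om t (Fin.last N) a.castSucc = 1 := by
        have h1 : ¬ Fin.last N < a.castSucc := not_lt.2 (Fin.castSucc_lt_last a).le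
        have h2 : Fin.last N ≠ a.castSucc := (Fin.castSucc_lt_last a).ne'
        simp [om, h1, h2]
      have o2 : om t a.succ (0 : Fin (N + 1)) = 1 := by
        have h1 : ¬ a.succ < (0 : Fin (N + 1)) := not_lt.2 (Fin.succ_pos a).le
        have h2 : a.succ ≠ (0 : Fin (N + 1)) := (Fin.succ_pos a).ne'
        simp [om, h1, h2]
      rw [o1, o2]
      simp
    · obtain ⟨b, hb⟩ := hlast _ hw
      have e : fl (v, w) = (v, w) := by simp [hfl, hv, hw]
      rw [e]
      simp only [ha, hb, finRotate_castSucc']
      refine if_congr ?_ ?_ rfl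
      · have hvS : v ∉ S := fun h => hv ((memS v).1 h)
        have hwS : w ∉ S := fun h => hw ((memS w).1 h)
        simp only [pr, raise, hvS, hwS, if_false, add_zero]
      · simp [om]

end

end Pool.Agent.H158.TL
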