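import Mathlib
import Pool.Agent.H158.TL.Levels

set_option autoImplicit false
set_option linter.unusedSectionVars false

/-!
# The sums over proper colourings and all level functions
-/

namespace Pool.Agent.H158.TL

open Finset MvPolynomial

section cf
variable {P : Type*} [CommRing P] {σ : Type*}

/-- coefficient of `q^d` of a polynomial with power series coefficients -/
noncomputable def cf (d : ℕ) (F : MvPolynomial σ (PowerSeries P)) : MvPolynomial σ P :=
  ∑ m ∈ F.support, monomial m (PowerSeries.coeff d (coeff m F))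

lemma coeff_cf (d : ℕ) (F : MvPolynomial σ (PowerSeries P)) (m : σ →₀ ℕ) :
    coeff m (cf d F) = PowerSeries.coeff d (coeff m F) := by
  classical
  rw [cf, coeff_sum]
  simp only [coeff_monomial]
  rw [Finset.sum_ite_eq']
  split_ifs with h
  · rfl
  · rw [notMem_support_iff.1 h, map_zero]

lemma cf_add (d : ℕ) (F G : MvPolynomial σ (PowerSeries P)) :
    cf d (F + G) = cf d F + cf d G := by
  ext m
  simp only [coeff_cf, coeff_add, map_add]

lemma cf_zero (d : ℕ) : cf d (0 : MvPolynomial σ (PowerSeries P)) = 0 := by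
  ext m
  simp only [coeff_cf, coeff_zero, map_zero]

lemma cf_neg (d : ℕ) (F : MvPolynomial σ (PowerSeries P)) : cf d (-F) = - cf d F := by
  ext m
  simp only [coeff_cf, coeff_neg, map_neg]

lemma cf_sum (d : ℕ) {ι : Type*} (S : Finset ι) (F : ι → MvPolynomial σ (PowerSeries P)) :
    cf d (∑ i ∈ S, F i) = ∑ i ∈ S, cf d (F i) := by
  ext m
  simp only [coeff_cf, coeff_sum, map_sum]

lemma cf_mul (d : ℕ) (p : MvPolynomial σ P) (F : MvPolynomial σ (PowerSeries P)) :
    cf d (MvPolynomial.map PowerSeries.C p * F) = p * cf d F := by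
  classical
  ext m
  rw [coeff_cf, coeff_mul, coeff_mul, map_sum]
  refine Finset.sum_congr rfl fun x _ => ?_
  rw [coeff_map, PowerSeries.coeff_C_mul, coeff_cf]

lemma cf_C (d : ℕ) (a : PowerSeries P) :
    cf d (C a : MvPolynomial σ (PowerSeries P)) = C (PowerSeries.coeff d a) := by
  classical
  ext m
  rw [coeff_cf, coeff_C, coeff_C]
  split_ifs <;> simp

lemma cf_rename (d : ℕ) (e : Equiv.Perm σ) (F : MvPolynomial σ (PowerSeries P)) :
    cf d (rename e F) = rename e (cf d F) := by
  ext m
  rw [coeff_cf]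
  have h1 : m = Finsupp.mapDomain e (Finsupp.mapDomain e.symm m) := by
    rw [← Finsupp.mapDomain_comp]
    simp
  rw [h1, coeff_rename_mapDomain e e.injective, coeff_rename_mapDomain e e.injective, coeff_cf]

lemma cf_ext {F G : MvPolynomial σ (PowerSeries P)} (h : ∀ d, cf d F = cf d G) : F = G := by
  ext m d
  rw [← coeff_cf, ← coeff_cf, h]

/-- the exchange relation, division free form -/
def ExE {R : Type*} [CommRing R] (t : R) [DecidableEq σ] (i j : σ) (f g : MvPolynomial σ R) :
    Prop :=
  (X i - X j) * f = (C t - 1) * X i * g + (X i - C t * X j) * rename (Equiv.swap i j) g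

lemma ExE_of_cf [DecidableEq σ] (t : P) (i j : σ) (f g : MvPolynomial σ (PowerSeries P))
    (h : ∀ d, ExE t i j (cf d f) (cf d g)) : ExE (PowerSeries.C t) i j f g := by
  apply cf_ext
  intro d
  have h1 : (X i - X j : MvPolynomial σ (PowerSeries P))
      = MvPolynomial.map PowerSeries.C (X i - X j) := by simp
  have h2 : ((C (PowerSeries.C t) - 1) * X i : MvPolynomial σ (PowerSeries P))
      = MvPolynomial.map PowerSeries.C ((C t - 1) * X i) := by simp
  have h3 : (X i - C (PowerSeries.C t) * X j : MvPolynomial σ (PowerSeries P))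
      = MvPolynomial.map PowerSeries.C (X i - C t * X j) := by simp
  rw [h1, h2, h3, cf_add, cf_mul, cf_mul, cf_mul, cf_rename]
  exact h d

end cf

section
variable {P : Type*} [CommRing P]

/-- generating series of chromatic weights for a fixed colouring -/
noncomputable def cc {n : ℕ} {C : Type*} [LinearOrder C] (t : P) (κ : Fin n → C) :
    PowerSeries P := gs fun γ => cw t γ κ

/-- same as `cc`, the last vertex being at level zero -/
noncomputable def c0 {n : ℕ} {C : Type*} [LinearOrder C] (t : P) (κ : Fin (n + 1) → C) :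
    PowerSeries P := gs fun γ : Fin n → ℕ => cw t (Fin.snoc γ 0) κ

lemma cc_eq {n : ℕ} {C : Type*} [LinearOrder C] (t : P) (κ : Fin (n + 1) → C) :
    cc t κ = c0 t κ + PowerSeries.X * cc t (κ ∘ (finRotate (n + 1)).symm) := by
  have h1 : gs (fun γ => cw t γ κ)
      = gs (fun γ => if γ (Fin.last n) = 0 then cw t γ κ else 0)
        + gs (fun γ => if ∀ v ∈ ({Fin.last n} : Finset (Fin (n + 1))), 1 ≤ γ v then
          cw t γ κ else 0) := by
    rw [← gs_add]
    congr 1
    funext γ
    by_cases h : γ (Fin.last n) = 0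
    · simp [h]
    · have : 1 ≤ γ (Fin.last n) := by omega
      simp [h, this]
  rw [cc, h1, gs_snoc, gs_shift, Finset.card_singleton, pow_one, c0, cc]
  congr 2
  simp only [cw_rotate]
  exact gs_perm (finRotate (n + 1)).symm
    (fun γ => cw t γ (κ ∘ (finRotate (n + 1)).symm))

lemma cw_snoc_last {n N : ℕ} (t : P) (γ : Fin n → ℕ) (κ : Fin n → Fin (N + 1)) :
    cw t (Fin.snoc γ 0 : Fin (n + 1) → ℕ) (Fin.snoc κ (Fin.last N) : Fin (n + 1) → Fin (N + 1))
      = if ∀ v ∈ univ.filter (fun v => κ v = Fin.last N), 1 ≤ γ v then cw t γ κ else 0 := by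
  rw [cw, Fin.prod_univ_castSucc]
  simp only [Fin.prod_univ_castSucc, Fin.snoc_castSucc, Fin.snoc_last]
  have h1 : ∀ v w : Fin n, pr (Fin.snoc γ 0 : Fin (n + 1) → ℕ) v.castSucc w.castSucc
      ↔ pr γ v w := by
    intro v w
    simp [pr]
  have h2 : ∀ v : Fin n, ¬ pr (Fin.snoc γ 0 : Fin (n + 1) → ℕ) v.castSucc (Fin.last n) := by
    intro v
    have := Fin.castSucc_lt_last v
    simp [pr, not_lt.2 this.le]
  have h3 : ∀ w : Fin n, pr (Fin.snoc γ 0 : Fin (n + 1) → ℕ) (Fin.last n) w.castSucc
      ↔ γ w = 0 := by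
    intro v
    have := Fin.castSucc_lt_last v
    simp [pr, this, not_lt.2 this.le, eq_comm]
  have h4 : ¬ pr (Fin.snoc γ 0 : Fin (n + 1) → ℕ) (Fin.last n) (Fin.last n) := by
    simp [pr]
  simp only [h1, h2, h3, h4, if_false, mul_one]
  have h5 : ∀ w, (if γ w = 0 then om t (Fin.last N) (κ w) else 1)
      = if (κ w = Fin.last N → 1 ≤ γ w) then (1 : P) else 0 := by
    intro w
    by_cases h : γ w = 0
    · simp only [h, if_true, om]
      rw [if_neg (not_lt.2 (Fin.le_last _))]
      by_cases h' : κ w = Fin.last N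
      · simp [h']
      · simp [h', Ne.symm h']
    · have : 1 ≤ γ w := by omega
      simp [h, this]
  simp only [h5]
  rw [← cw]
  by_cases h : ∀ v ∈ univ.filter (fun v => κ v = Fin.last N), 1 ≤ γ v
  · rw [if_pos h, Finset.prod_eq_one, mul_one]
    intro w _
    rw [if_pos]
    intro hw
    exact h w (by simp [hw])
  · rw [if_neg h]
    push Not at h
    obtain ⟨v, hv, hv1⟩ := h
    rw [Finset.prod_eq_zero (mem_univ v), mul_zero]
    rw [if_neg]
    intro h'
    have := h' (by simpa using hv)
    omega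

lemma c0_snoc_last {n N : ℕ} (t : P) (κ : Fin n → Fin (N + 1)) :
    c0 t (Fin.snoc κ (Fin.last N) : Fin (n + 1) → Fin (N + 1))
      = PowerSeries.X ^ (univ.filter fun v => κ v = Fin.last N).card *
        cc t (fun v => finRotate (N + 1) (κ v)) := by
  rw [c0]
  simp only [cw_snoc_last]
  rw [gs_shift, cc]
  simp only [cw_colour_shift]

end

section
variable {P : Type*} [CommRing P] {B : Type*} [CommRing B] [Algebra (PowerSeries P) B]

/-- the sum over all level functions and proper colourings -/
noncomputable def XX (t : P) (n N : ℕ) (x : Fin N → B) : B :=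
  ∑ κ : Fin n → Fin N, algebraMap (PowerSeries P) B (cc t κ) * ∏ v, x (κ v)

/-- the last vertex has level zero and colour `a` -/
noncomputable def HH (t : P) (n N : ℕ) (x : Fin N → B) (a : Fin N) : B :=
  ∑ κ : Fin (n + 1) → Fin N, if κ (Fin.last n) = a then
    algebraMap (PowerSeries P) B (c0 t κ) * ∏ v, x (κ v) else 0

lemma map_XX {B' : Type*} [CommRing B'] [Algebra (PowerSeries P) B']
    (f : B →ₐ[PowerSeries P] B') (t : P) (n N : ℕ) (x : Fin N → B) :
    f (XX t n N x) = XX t n N fun i => f (x i) := by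
  simp [XX, map_sum, map_prod]

lemma map_HH {B' : Type*} [CommRing B'] [Algebra (PowerSeries P) B']
    (f : B →ₐ[PowerSeries P] B') (t : P) (n N : ℕ) (x : Fin N → B) (a : Fin N) :
    f (HH t n N x a) = HH t n N (fun i => f (x i)) a := by
  simp only [HH, map_sum]
  refine Finset.sum_congr rfl fun κ _ => ?_
  split_ifs
  · simp
  · simp

/-- rotation -/
lemma XX_succ (t : P) (n N : ℕ) (x : Fin N → B) :
    XX t (n + 1) N x = ∑ a, HH t n N x a
      + algebraMap (PowerSeries P) B PowerSeries.X * XX t (n + 1) N x := by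
  have h1 : ∑ a, HH t n N x a = ∑ κ : Fin (n + 1) → Fin N,
      algebraMap (PowerSeries P) B (c0 t κ) * ∏ v, x (κ v) := by
    simp only [HH]
    rw [Finset.sum_comm]
    refine Finset.sum_congr rfl fun κ _ => ?_
    rw [Finset.sum_ite_eq]
    simp
  have h2 : XX t (n + 1) N x = ∑ κ : Fin (n + 1) → Fin N,
      algebraMap (PowerSeries P) B (cc t (κ ∘ (finRotate (n + 1)).symm)) *
        ∏ v, x (κ v) := by
    rw [XX, ← Equiv.sum_comp (Equiv.arrowCongr (finRotate (n + 1)) (Equiv.refl (Fin N)))]
    refine Finset.sum_congr rfl fun κ _ => ?_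
    congr 1
    rw [← Equiv.prod_comp (finRotate (n + 1))]
    simp
  conv_lhs => rw [XX]
  rw [h1, h2, Finset.mul_sum, ← Finset.sum_add_distrib]
  refine Finset.sum_congr rfl fun κ _ => ?_
  rw [cc_eq, map_add, map_mul]
  ring

/-- colour shift -/
lemma HH_last (t : P) (n N : ℕ) (x : Fin (N + 1) → B) :
    HH t n (N + 1) x (Fin.last N) = x (Fin.last N) * XX t n (N + 1)
      (Fin.cons (algebraMap (PowerSeries P) B PowerSeries.X * x (Fin.last N))
        fun c => x c.castSucc) := by
  set y : Fin (N + 1) → B := Fin.cons (algebraMap (PowerSeries P) B PowerSeries.X *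
    x (Fin.last N)) fun c => x c.castSucc with hy
  have h1 : HH t n (N + 1) x (Fin.last N) = ∑ κ : Fin n → Fin (N + 1),
      algebraMap (PowerSeries P) B (c0 t (Fin.snoc κ (Fin.last N) : Fin (n + 1) → Fin (N + 1)))
        * ((∏ v, x (κ v)) * x (Fin.last N)) := by
    rw [HH, ← Finset.sum_filter]
    symm
    refine Finset.sum_nbij' (fun κ => (Fin.snoc κ (Fin.last N) : Fin (n + 1) → Fin (N + 1)))
      (fun κ => Fin.init κ) ?_ ?_ ?_ ?_ ?_
    · intro κ _
      simp
    · intro κ _
      simp
    · intro κ _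
      funext v
      simp [Fin.init]
    · intro κ hκ
      rw [mem_filter] at hκ
      funext v
      refine Fin.lastCases ?_ (fun i => ?_) v
      · simp [hκ.2]
      · simp [Fin.init]
    · intro κ _
      rw [Fin.prod_univ_castSucc]
      simp
  rw [h1, XX, Finset.mul_sum]
  rw [← Equiv.sum_comp (Equiv.arrowCongr (Equiv.refl (Fin n)) (finRotate (N + 1)))
    (fun κ => x (Fin.last N) * (algebraMap (PowerSeries P) B (cc t κ) * ∏ v, y (κ v)))]
  refine Finset.sum_congr rfl fun κ _ => ?_
  have h2 : ∀ c : Fin (N + 1), y (finRotate (N + 1) c)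
      = (if c = Fin.last N then algebraMap (PowerSeries P) B PowerSeries.X else 1) * x c := by
    intro c
    refine Fin.lastCases ?_ (fun i => ?_) c
    · rw [finRotate_last, hy]
      simp
    · rw [finRotate_castSucc', hy, if_neg (Fin.castSucc_lt_last i).ne]
      simp
  have h3 : ∏ v, y (Equiv.arrowCongr (Equiv.refl (Fin n)) (finRotate (N + 1)) κ v)
      = algebraMap (PowerSeries P) B (PowerSeries.X ^
        (univ.filter fun v => κ v = Fin.last N).card) * ∏ v, x (κ v) := by
    simp only [Equiv.arrowCongr_apply, Function.comp_apply, Equiv.refl_symm, Equiv.refl_apply,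
      h2]
    rw [Finset.prod_mul_distrib, ← Finset.prod_filter, Finset.prod_const, map_pow]
  have h4 : (Equiv.arrowCongr (Equiv.refl (Fin n)) (finRotate (N + 1)) κ)
      = fun v => finRotate (N + 1) (κ v) := by
    funext v
    simp
  rw [h3, h4, c0_snoc_last, map_mul]
  ring

end

section
variable {P : Type*} [CommRing P]

lemma cwt_map {A : Type*} [CommRing A] (f : P →+* A) {V : Type*} [DecidableEq V] [Fintype V]
    {C : Type*} [LinearOrder C] (t : P) (u : V → ℤ) (n : ℤ) (κ : V → C) :
    cwt (f t) u n κ = f (cwt t u n κ) := by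
  simp only [cwt, map_prod]
  refine Finset.prod_congr rfl fun v _ => Finset.prod_congr rfl fun w _ => ?_
  simp only [om]
  split_ifs <;> simp

lemma adj_fin {N : ℕ} (i j : Fin N) (hij : (i : ℕ) + 1 = j) (c : Fin N) (h1 : c ≠ i)
    (h2 : c ≠ j) : ((c < i ↔ c < j) ∧ (i < c ↔ j < c)) := by
  have h1' : (c : ℕ) ≠ i := fun h => h1 (Fin.ext h)
  have h2' : (c : ℕ) ≠ j := fun h => h2 (Fin.ext h)
  simp only [Fin.lt_def]
  omega

/-- exchange relation for `HH` -/
lemma HH_exch (t : P) (n N : ℕ) (i j : Fin N) (hij : (i : ℕ) + 1 = j) :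
    ExE (PowerSeries.C t) i j
      (HH t n N (fun a => (X a : MvPolynomial (Fin N) (PowerSeries P))) i)
      (HH t n N (fun a => (X a : MvPolynomial (Fin N) (PowerSeries P))) j) := by
  classical
  apply ExE_of_cf
  intro d
  have hlt : i < j := by rw [Fin.lt_def]; omega
  have h1 : ∀ a, cf d (HH t n N (fun a => (X a : MvPolynomial (Fin N) (PowerSeries P))) a)
      = ∑ γ ∈ Finset.piAntidiag (univ : Finset (Fin n)) d, ∑ κ : Fin (n + 1) → Fin N,
        if κ (Fin.last n) = a then cwt (C t : MvPolynomial (Fin N) P)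
          (lu (Fin.snoc γ 0 : Fin (n + 1) → ℕ)) ((n + 1 : ℕ) : ℤ) κ * ∏ v, X (κ v) else 0 := by
    intro a
    rw [HH, cf_sum, Finset.sum_comm]
    refine Finset.sum_congr rfl fun κ _ => ?_
    split_ifs with hκ
    · have e : (∏ v, (X (κ v) : MvPolynomial (Fin N) (PowerSeries P)))
          = MvPolynomial.map PowerSeries.C (∏ v, X (κ v)) := by
        simp [map_prod]
      rw [MvPolynomial.algebraMap_eq, e, mul_comm, cf_mul, cf_C, c0, coeff_gs, map_sum,
        Finset.mul_sum]
      refine Finset.sum_congr rfl fun γ _ => ?_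
      rw [cwt_map, cw_eq_cwt]
      ring
    · rw [cf_zero, Finset.sum_const_zero]
  rw [h1, h1]
  have h2 := Exch.sum (s := ((rename (Equiv.swap i j) :
      MvPolynomial (Fin N) P →ₐ[P] MvPolynomial (Fin N) P) : _ →+* _))
    (t := C t) (x := X i) (y := X j) (Finset.piAntidiag (univ : Finset (Fin n)) d)
    (fun γ => ∑ κ : Fin (n + 1) → Fin N,
        if κ (Fin.last n) = i then cwt (C t : MvPolynomial (Fin N) P)
          (lu (Fin.snoc γ 0 : Fin (n + 1) → ℕ)) ((n + 1 : ℕ) : ℤ) κ * ∏ v, X (κ v) else 0)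
    (fun γ => ∑ κ : Fin (n + 1) → Fin N,
        if κ (Fin.last n) = j then cwt (C t : MvPolynomial (Fin N) P)
          (lu (Fin.snoc γ 0 : Fin (n + 1) → ℕ)) ((n + 1 : ℕ) : ℤ) κ * ∏ v, X (κ v) else 0)
    (fun γ _ => ?_)
  · have h3 := h2.eq (by simp)
    exact h3
  · refine exch_colour hlt (adj_fin i j hij) ?_ ?_ ?_ ?_ _ _ (lu_injective _) (Fin.last n) ?_
    · simp
    · simp
    · simp
    · intro c hc1 hc2
      simp [Equiv.swap_apply_of_ne_of_ne hc1 hc2]
    · intro w hw
      obtain ⟨v, rfl⟩ : ∃ v : Fin n, w = v.castSucc :=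
        ⟨w.castPred hw, (Fin.castSucc_castPred w hw).symm⟩
      simp only [lu, Fin.snoc_castSucc, Fin.snoc_last, Fin.val_last, Fin.val_castSucc]
      have hv : (v : ℤ) < n := by exact_mod_cast v.2
      have : (0 : ℤ) ≤ ((n + 1 : ℕ) : ℤ) * (γ v) := by positivity
      push_cast at this ⊢
      linarith

/-- symmetry in adjacent variables -/
lemma XX_symm_adj (t : P) (n N : ℕ) (i j : Fin N) (hij : (i : ℕ) + 1 = j) :
    rename (Equiv.swap i j) (XX t n N (fun a => (X a : MvPolynomial (Fin N) (PowerSeries P))))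
      = XX t n N (fun a => (X a : MvPolynomial (Fin N) (PowerSeries P))) := by
  classical
  apply cf_ext
  intro d
  have hlt : i < j := by rw [Fin.lt_def]; omega
  have h1 : cf d (XX t n N (fun a => (X a : MvPolynomial (Fin N) (PowerSeries P))))
      = ∑ γ ∈ Finset.piAntidiag (univ : Finset (Fin n)) d, ∑ κ : Fin n → Fin N,
        cwt (C t : MvPolynomial (Fin N) P)
          (lu γ) n κ * ∏ v, X (κ v) := by
    rw [XX, cf_sum, Finset.sum_comm]
    refine Finset.sum_congr rfl fun κ _ => ?_
    have e : (∏ v, (X (κ v) : MvPolynomial (Fin N) (PowerSeries P)))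
        = MvPolynomial.map PowerSeries.C (∏ v, X (κ v)) := by
      simp [map_prod]
    rw [MvPolynomial.algebraMap_eq, e, mul_comm, cf_mul, cf_C, cc, coeff_gs, map_sum,
      Finset.mul_sum]
    refine Finset.sum_congr rfl fun γ _ => ?_
    rw [cwt_map, cw_eq_cwt]
    ring
  rw [cf_rename, h1, map_sum]
  refine Finset.sum_congr rfl fun γ _ => ?_
  refine symm_colour (s := ((rename (Equiv.swap i j) :
      MvPolynomial (Fin N) P →ₐ[P] MvPolynomial (Fin N) P) :
        MvPolynomial (Fin N) P →+* MvPolynomial (Fin N) P)) hlt (adj_fin i j hij)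
      ?_ ?_ ?_ ?_ _ _ (lu_injective _)
  · simp
  · simp
  · simp
  · intro c hc1 hc2
    simp [Equiv.swap_apply_of_ne_of_ne hc1 hc2]

variable {B : Type*} [CommRing B] [Algebra (PowerSeries P) B]

lemma XX_swap (t : P) (n N : ℕ) (i j : Fin N) (hij : (i : ℕ) + 1 = j) (x : Fin N → B) :
    XX t n N (fun a => x (Equiv.swap i j a)) = XX t n N x := by
  have h := congrArg (aeval x) (XX_symm_adj t n N i j hij)
  rw [aeval_rename] at h
  rw [map_XX, map_XX] at h
  simpa using h

lemma XX_perm (t : P) (n N : ℕ) (σ : Equiv.Perm (Fin N)) (x : Fin N → B) :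
    XX t n N (fun a => x (σ a)) = XX t n N x := by
  cases N with
  | zero =>
    congr 1
    funext a
    exact a.elim0
  | succ N =>
    have hσ : σ ∈ Submonoid.closure
        (Set.range fun i : Fin N => Equiv.swap i.castSucc i.succ) := by
      rw [Equiv.Perm.mclosure_swap_castSucc_succ]
      trivial
    induction hσ using Submonoid.closure_induction generalizing x with
    | mem σ hσ =>
      obtain ⟨i, rfl⟩ := hσ
      exact XX_swap t n (N + 1) _ _ (by simp) x
    | one => rfl
    | mul σ τ _ _ h1 h2 =>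
      have e1 := h2 (fun a => x (σ a))
      have e2 := h1 x
      simp only [Equiv.Perm.mul_apply]
      rw [e1, e2]

/-- colour shift, symmetric form -/
lemma HH_last' (t : P) (n N : ℕ) (x : Fin (N + 1) → B) :
    HH t n (N + 1) x (Fin.last N) = x (Fin.last N) * XX t n (N + 1)
      (Function.update x (Fin.last N)
        (algebraMap (PowerSeries P) B PowerSeries.X * x (Fin.last N))) := by
  rw [HH_last]
  congr 1
  rw [← XX_perm t n (N + 1) (finRotate (N + 1))]
  congr 1
  funext a
  refine Fin.lastCases ?_ (fun i => ?_) a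
  · rw [finRotate_last]
    simp
  · rw [finRotate_castSucc', Function.update_of_ne (Fin.castSucc_lt_last i).ne]
    simp

end

end Pool.Agent.H158.TL
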