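import Mathlib
import Pool.Agent.H158.TL.VO

set_option autoImplicit false
set_option linter.unusedSectionVars false

/-!
# Partial fractions for `∏ (1 - b z x_j) / (1 - z x_j)`
-/

namespace Pool.Agent.H158.TL

open Finset
open Pool.Agent.H209R2.EH

/-- the pairs `j < k` -/
def pairs (N : ℕ) : Finset (Fin N × Fin N) := univ.filter fun p => p.1 < p.2

section
variable {A : Type*} [CommRing A] {N : ℕ}

/-- `∏_{j<k} (x_j - x_k)` -/
def VV (x : Fin N → A) : A := ∏ p ∈ pairs N, (x p.1 - x p.2)

/-- `∏_{j<k} (x_j - x_k) ⬝ ∏_{j≠i} (x_i - b x_j) / (x_i - x_j)` -/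
def VI (b : A) (x : Fin N → A) (i : Fin N) : A :=
  ∏ p ∈ pairs N, ((if p.2 = i then b else 1) * x p.1 - (if p.1 = i then b else 1) * x p.2)

lemma prod_pairs (f : Fin N → A) (i : Fin N) :
    ∏ p ∈ pairs N, (if p.2 = i then f p.1 else if p.1 = i then f p.2 else 1)
      = ∏ j ∈ univ.erase i, f j := by
  symm
  refine Finset.prod_of_injOn (fun j => if j < i then (j, i) else (i, j)) ?_ ?_ ?_ ?_
  · intro j hj k hk h
    simp only [coe_erase, coe_univ, Set.mem_sdiff, Set.mem_univ, Set.mem_singleton_iff,
      true_and] at hj hk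
    dsimp only at h
    split_ifs at h with h1 h2 h2
    · exact (Prod.ext_iff.1 h).1
    · exact absurd (Prod.ext_iff.1 h).1 hj
    · exact absurd (Prod.ext_iff.1 h).1 (Ne.symm hk)
    · exact (Prod.ext_iff.1 h).2
  · intro j hj
    simp only [coe_erase, coe_univ, Set.mem_sdiff, Set.mem_univ, Set.mem_singleton_iff,
      true_and] at hj
    simp only [pairs, coe_filter, mem_univ, true_and, Set.mem_setOf_eq]
    split_ifs with h
    · exact h
    · exact lt_of_le_of_ne (not_lt.1 h) (Ne.symm hj)
  · intro p hp hni
    simp only [pairs, mem_filter, mem_univ, true_and] at hp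
    have h1 : p.2 ≠ i := by
      intro h
      apply hni
      refine ⟨p.1, ?_, ?_⟩
      · simp only [coe_erase, coe_univ, Set.mem_sdiff, Set.mem_univ, Set.mem_singleton_iff,
          true_and]
        intro h'
        rw [h', h] at hp
        exact lt_irrefl _ hp
      · rw [← h]
        dsimp only
        rw [if_pos hp]
    have h2 : p.1 ≠ i := by
      intro h
      apply hni
      refine ⟨p.2, ?_, ?_⟩
      · simp only [coe_erase, coe_univ, Set.mem_sdiff, Set.mem_univ, Set.mem_singleton_iff,
          true_and]
        exact h1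
      · rw [← h]
        dsimp only
        rw [if_neg (not_lt.2 hp.le)]
    rw [if_neg h1, if_neg h2]
  · intro j hj
    have hj' : j ≠ i := (Finset.mem_erase.1 hj).1
    by_cases h1 : j < i
    · simp only [if_pos h1, if_true]
    · simp only [if_neg h1, if_neg hj', if_true]

lemma VV_mul_prod (b : A) (x : Fin N → A) (i : Fin N) :
    VV x * ∏ j ∈ univ.erase i, (x i - b * x j)
      = VI b x i * ∏ j ∈ univ.erase i, (x i - x j) := by
  rw [← prod_pairs, ← prod_pairs, VV, VI, ← Finset.prod_mul_distrib, ← Finset.prod_mul_distrib]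
  refine Finset.prod_congr rfl fun p hp => ?_
  simp only [pairs, mem_filter, mem_univ, true_and] at hp
  by_cases h1 : p.2 = i
  · have h2 : p.1 ≠ i := by
      intro h; rw [h, h1] at hp; exact lt_irrefl _ hp
    simp only [h1, h2, if_true, if_false]
    ring
  · by_cases h2 : p.1 = i
    · simp only [h1, h2, if_true, if_false]
      ring
    · simp only [h1, h2, if_false]
      ring

/-- partial fractions, polynomial form -/
lemma pf_poly [IsDomain A] (b : A) (x : Fin N → A) (hx : Function.Injective x)
    (h0 : ∀ i, x i ≠ 0) (w : A) :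
    VV x * ∏ i, (w - b * x i) = b ^ N * VV x * ∏ i, (w - x i)
      + (1 - b) * w * ∑ i, VI b x i * ∏ j ∈ univ.erase i, (w - x j) := by
  classical
  have key : (Polynomial.C (VV x) * ∏ i, (Polynomial.X - Polynomial.C (b * x i)) :
      Polynomial A) = Polynomial.C (b ^ N * VV x) * ∏ i, (Polynomial.X - Polynomial.C (x i))
      + Polynomial.C (1 - b) * Polynomial.X * ∑ i, Polynomial.C (VI b x i) *
        ∏ j ∈ univ.erase i, (Polynomial.X - Polynomial.C (x j)) := by
    have hcard : (insert 0 (univ.image x)).card = N + 1 := by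
      rw [Finset.card_insert_of_notMem, Finset.card_image_of_injective _ hx, card_univ,
        Fintype.card_fin]
      simp only [mem_image, mem_univ, true_and, not_exists]
      exact h0
    refine Polynomial.eq_of_degrees_lt_of_eval_finset_eq (insert 0 (univ.image x)) ?_ ?_ ?_
    · rw [hcard]
      refine lt_of_le_of_lt (Polynomial.degree_mul_le _ _) ?_
      have h1 : (∏ i, (Polynomial.X - Polynomial.C (b * x i)) : Polynomial A).degree ≤ N := by
        refine (Polynomial.degree_prod_le _ _).trans ?_
        rw [Finset.sum_congr rfl (fun i _ => Polynomial.degree_X_sub_C (b * x i))]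
        simp
      have h2 := Polynomial.degree_C_le (a := VV x)
      calc _ ≤ (0 : WithBot ℕ) + N := add_le_add h2 h1
        _ < _ := by
          rw [zero_add]
          exact_mod_cast Nat.lt_succ_self N
    · rw [hcard]
      have h1 : (Polynomial.C (b ^ N * VV x) * ∏ i, (Polynomial.X - Polynomial.C (x i)) :
          Polynomial A).degree ≤ N := by
        refine (Polynomial.degree_mul_le _ _).trans ?_
        have h1 : (∏ i, (Polynomial.X - Polynomial.C (x i)) : Polynomial A).degree ≤ N := by
          refine (Polynomial.degree_prod_le _ _).trans ?_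
          simp
        have h2 := Polynomial.degree_C_le (a := b ^ N * VV x)
        calc _ ≤ (0 : WithBot ℕ) + N := add_le_add h2 h1
          _ = _ := zero_add _
      have h2 : (Polynomial.C (1 - b) * Polynomial.X * ∑ i, Polynomial.C (VI b x i) *
        ∏ j ∈ univ.erase i, (Polynomial.X - Polynomial.C (x j)) : Polynomial A).degree ≤ N := by
        rw [Finset.mul_sum]
        refine (Polynomial.degree_sum_le _ _).trans ?_
        refine Finset.sup_le fun i _ => ?_
        have hN : 0 < N := i.pos
        have e1 : (Polynomial.C (1 - b) * Polynomial.X : Polynomial A).degree ≤ 1 :=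
          Polynomial.degree_C_mul_X_le _
        have e2 : (∏ j ∈ univ.erase i, (Polynomial.X - Polynomial.C (x j)) :
            Polynomial A).degree ≤ ((N - 1 : ℕ) : WithBot ℕ) := by
          refine (Polynomial.degree_prod_le _ _).trans ?_
          simp
        have e3 := Polynomial.degree_C_le (a := VI b x i)
        calc _ ≤ (1 : WithBot ℕ) + (0 + ((N - 1 : ℕ) : WithBot ℕ)) :=
              (Polynomial.degree_mul_le _ _).trans
                (add_le_add e1 ((Polynomial.degree_mul_le _ _).trans (add_le_add e3 e2)))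
          _ = N := by
            rw [zero_add]
            have : (1 : WithBot ℕ) = ((1 : ℕ) : WithBot ℕ) := rfl
            rw [this, ← Nat.cast_add]
            congr 1
            omega
      refine lt_of_le_of_lt (Polynomial.degree_add_le _ _) ?_
      refine lt_of_le_of_lt (max_le h1 h2) ?_
      exact_mod_cast Nat.lt_succ_self N
    · intro y hy
      rw [Finset.mem_insert] at hy
      rcases hy with rfl | hy
      · simp only [Polynomial.eval_mul, Polynomial.eval_C, Polynomial.eval_prod,
          Polynomial.eval_sub, Polynomial.eval_X, Polynomial.eval_add, zero_sub, mul_zero,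
          zero_mul, add_zero]
        have : ∏ i, -(b * x i) = b ^ N * ∏ i, -x i := by
          have : ∀ i, -(b * x i) = b * -x i := fun i => by ring
          simp only [this]
          rw [Finset.prod_mul_distrib, Finset.prod_const, card_univ, Fintype.card_fin]
        rw [this]
        ring
      · obtain ⟨k, _, rfl⟩ := Finset.mem_image.1 hy
        simp only [Polynomial.eval_mul, Polynomial.eval_C, Polynomial.eval_prod,
          Polynomial.eval_sub, Polynomial.eval_X, Polynomial.eval_add,
          Polynomial.eval_finset_sum]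
        have e1 : ∏ i, (x k - x i) = 0 := Finset.prod_eq_zero (mem_univ k) (sub_self _)
        have e2 : ∑ i, VI b x i * ∏ j ∈ univ.erase i, (x k - x j)
            = VI b x k * ∏ j ∈ univ.erase k, (x k - x j) := by
          refine Finset.sum_eq_single k (fun i _ hik => ?_) (fun h => absurd (mem_univ k) h)
          rw [Finset.prod_eq_zero (i := k) (Finset.mem_erase.2 ⟨Ne.symm hik, mem_univ k⟩)
            (sub_self _), mul_zero]
        rw [e1, e2, ← VV_mul_prod, ← Finset.mul_prod_erase univ (fun i => x k - b * x i)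
          (mem_univ k)]
        ring
  have h := congrArg (Polynomial.eval w) key
  simpa only [Polynomial.eval_mul, Polynomial.eval_C, Polynomial.eval_prod,
          Polynomial.eval_sub, Polynomial.eval_X, Polynomial.eval_add,
          Polynomial.eval_finset_sum] using h

end

section
variable {A : Type*} [CommRing A] [Algebra ℚ A]

/-- the power series `exp (∑ g_k z^k / k)` -/
noncomputable def Om (g : ℕ → A) : PowerSeries A := PowerSeries.mk (expo g)

lemma Om_add (g h : ℕ → A) : Om (fun k => g k + h k) = Om g * Om h := by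
  ext n
  rw [Om, PowerSeries.coeff_mk, expo_add, PowerSeries.coeff_mul]
  simp [Om]

lemma expo_zero_seq (n : ℕ) : expo (fun _ => (0 : A)) n = if n = 0 then 1 else 0 := by
  have h := expo_scale (fun _ => (0 : A)) 0 n
  simp only [zero_mul] at h
  split_ifs with hn
  · rw [hn, expo_zero]
  · rw [h, zero_pow hn, mul_zero]

lemma Om_zero : Om (fun _ => (0 : A)) = 1 := by
  ext n
  rw [Om, PowerSeries.coeff_mk, expo_zero_seq, PowerSeries.coeff_one]

lemma expo_geom (y : A) (n : ℕ) : expo (fun k => y ^ k) n = y ^ n := by
  symm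
  refine expo_unique _ (fun n => y ^ n) (pow_zero y) ?_ n
  intro n
  have : ∀ ij ∈ antidiagonal n, y ^ (ij.1 + 1) * y ^ ij.2 = y ^ (n + 1) := by
    intro ij hij
    rw [Finset.HasAntidiagonal.mem_antidiagonal] at hij
    rw [← pow_add]
    congr 1
    omega
  rw [Finset.sum_congr rfl this, Finset.sum_const, Finset.Nat.card_antidiagonal,
    Algebra.smul_def, map_add, map_natCast, map_one, nsmul_eq_mul]
  push_cast
  ring

lemma Om_geom_mul (y : A) :
    Om (fun k => y ^ k) * (1 - PowerSeries.C y * PowerSeries.X) = 1 := by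
  ext n
  cases n with
  | zero =>
    rw [mul_sub, mul_one, map_sub, mul_comm (PowerSeries.C y), ← mul_assoc]
    simp [Om, expo_zero]
  | succ n =>
    rw [mul_sub, mul_one, map_sub, mul_comm (PowerSeries.C y), ← mul_assoc,
      PowerSeries.coeff_mul_C, PowerSeries.coeff_succ_mul_X]
    simp only [Om, PowerSeries.coeff_mk, expo_geom, PowerSeries.coeff_one]
    simp [pow_succ]

lemma Om_neg_geom (y : A) :
    Om (fun k => - y ^ k) = 1 - PowerSeries.C y * PowerSeries.X := by
  have h1 : Om (fun k => y ^ k) * Om (fun k => - y ^ k) = 1 := by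
    rw [← Om_add, ← Om_zero]
    congr 1
    funext k
    ring
  have h2 := Om_geom_mul y
  calc Om (fun k => - y ^ k)
      = (Om (fun k => y ^ k) * (1 - PowerSeries.C y * PowerSeries.X)) * Om (fun k => - y ^ k) := by
        rw [h2, one_mul]
    _ = (1 - PowerSeries.C y * PowerSeries.X) * (Om (fun k => y ^ k) * Om (fun k => - y ^ k)) := by
        ring
    _ = _ := by rw [h1, mul_one]

lemma Om_sum {ι : Type*} (s : Finset ι) (g : ι → ℕ → A) :
    Om (fun k => ∑ i ∈ s, g i k) = ∏ i ∈ s, Om (g i) := by
  classical
  induction s using Finset.induction_on with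
  | empty => simpa using Om_zero
  | insert a s ha ih =>
    simp only [Finset.sum_insert ha, Finset.prod_insert ha]
    rw [Om_add, ih]

/-- `exp (∑ (1 - b^k) p_k z^k / k) ∏ (1 - z x_j) = ∏ (1 - b z x_j)` -/
lemma Om_kernel {N : ℕ} (b : A) (x : Fin N → A) :
    Om (fun k => (1 - b ^ k) * ∑ i, x i ^ k) * ∏ i, (1 - PowerSeries.C (x i) * PowerSeries.X)
      = ∏ i, (1 - PowerSeries.C (b * x i) * PowerSeries.X) := by
  have h1 : (fun k => (1 - b ^ k) * ∑ i, x i ^ k)
      = fun k => (∑ i, x i ^ k) + ∑ i, - (b * x i) ^ k := by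
    funext k
    rw [Finset.sum_neg_distrib, sub_mul, one_mul, Finset.mul_sum, sub_eq_add_neg]
    congr 2
    refine Finset.sum_congr rfl fun i _ => ?_
    rw [mul_pow]
  rw [h1, Om_add, Om_sum, Om_sum]
  simp only [Om_neg_geom]
  rw [mul_right_comm, ← Finset.prod_mul_distrib]
  simp only [Om_geom_mul, Finset.prod_const_one, one_mul]

end

section
variable {A : Type*} [CommRing A] [IsDomain A] [Algebra ℚ A] {N : ℕ}

lemma VV_scale {B : Type*} [CommRing B] (x : Fin N → B) (z : B) :
    VV (fun i => x i * z) = z ^ (pairs N).card * VV x := by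
  simp only [VV, ← sub_mul]
  rw [Finset.prod_mul_distrib, Finset.prod_const, mul_comm]

lemma VI_scale {B : Type*} [CommRing B] (b : B) (x : Fin N → B) (z : B) (i : Fin N) :
    VI b (fun i => x i * z) i = z ^ (pairs N).card * VI b x i := by
  simp only [VI, ← mul_assoc, ← sub_mul]
  rw [Finset.prod_mul_distrib, Finset.prod_const, mul_comm]

lemma VV_map {B C : Type*} [CommRing B] [CommRing C] (f : B →+* C) (x : Fin N → B) :
    VV (fun i => f (x i)) = f (VV x) := by
  simp [VV, map_prod]

lemma VI_map {B C : Type*} [CommRing B] [CommRing C] (f : B →+* C) (b : B) (x : Fin N → B)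
    (i : Fin N) : VI (f b) (fun i => f (x i)) i = f (VI b x i) := by
  simp only [VI, map_prod]
  refine Finset.prod_congr rfl fun p _ => ?_
  simp only [map_sub, map_mul, apply_ite f, map_one]

/-- partial fractions for the coefficients of `∏ (1 - b z x_j) / (1 - z x_j)` -/
lemma pf_coeff (b : A) (x : Fin N → A) (hx : Function.Injective x) (h0 : ∀ i, x i ≠ 0) (m : ℕ) :
    VV x * expo (fun k => (1 - b ^ k) * ∑ i, x i ^ k) m
      = (if m = 0 then b ^ N * VV x else 0) + (1 - b) * ∑ i, VI b x i * x i ^ m := by
  classical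
  set Z : PowerSeries A := PowerSeries.X with hZ
  set Cx : Fin N → PowerSeries A := fun i => PowerSeries.C (x i) * Z with hCx
  have hinj : Function.Injective Cx := by
    intro i j hij
    apply hx
    have := congrArg (PowerSeries.coeff 1) hij
    simpa [hCx, hZ] using this
  have hne : ∀ i, Cx i ≠ 0 := by
    intro i hi
    apply h0 i
    have := congrArg (PowerSeries.coeff 1) hi
    simpa [hCx, hZ] using this
  have h1 := pf_poly (PowerSeries.C b) Cx hinj hne 1
  have eV : VV Cx = Z ^ (pairs N).card * PowerSeries.C (VV x) := by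
    rw [hCx, VV_scale, VV_map]
  have eI : ∀ i, VI (PowerSeries.C b) Cx i
      = Z ^ (pairs N).card * PowerSeries.C (VI b x i) := by
    intro i
    rw [hCx, VI_scale, VI_map]
  have hZ0 : Z ^ (pairs N).card ≠ 0 := pow_ne_zero _ PowerSeries.X_ne_zero
  have h2 : PowerSeries.C (VV x) * ∏ i, (1 - PowerSeries.C b * Cx i)
      = PowerSeries.C b ^ N * PowerSeries.C (VV x) * ∏ i, (1 - Cx i)
      + (1 - PowerSeries.C b) * ∑ i, PowerSeries.C (VI b x i) *
        ∏ j ∈ univ.erase i, (1 - Cx j) := by
    apply mul_left_cancel₀ hZ0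
    rw [eV] at h1
    simp only [eI] at h1
    rw [mul_add, ← mul_assoc, h1]
    rw [mul_one, Finset.mul_sum, Finset.mul_sum, Finset.mul_sum]
    congr 1
    · ring
    · refine Finset.sum_congr rfl fun i _ => ?_
      ring
  -- multiply by the inverse of `∏ (1 - z x_i)`
  set U : PowerSeries A := ∏ i, Om (fun k => x i ^ k) with hU
  have hUi : ∀ i, Om (fun k => x i ^ k) * (1 - Cx i) = 1 := fun i => Om_geom_mul (x i)
  have hU1 : U * ∏ i, (1 - Cx i) = 1 := by
    rw [hU, ← Finset.prod_mul_distrib]
    simp only [hUi, Finset.prod_const_one]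
  have hU2 : ∀ i, U * ∏ j ∈ univ.erase i, (1 - Cx j) = Om (fun k => x i ^ k) := by
    intro i
    rw [hU, ← Finset.mul_prod_erase univ _ (mem_univ i), mul_assoc,
      ← Finset.prod_mul_distrib]
    simp only [hUi, Finset.prod_const_one, mul_one]
  have hker := Om_kernel b x
  have hQ : Om (fun k => (1 - b ^ k) * ∑ i, x i ^ k)
      = U * ∏ i, (1 - PowerSeries.C b * Cx i) := by
    have e : ∏ i, (1 - PowerSeries.C (b * x i) * PowerSeries.X)
        = ∏ i, (1 - PowerSeries.C b * Cx i) := by
      refine Finset.prod_congr rfl fun i _ => ?_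
      rw [hCx, map_mul, mul_assoc]
    rw [← e, ← hker]
    calc _ = Om (fun k => (1 - b ^ k) * ∑ i, x i ^ k) * (U * ∏ i, (1 - Cx i)) := by
          rw [hU1, mul_one]
      _ = _ := by ring
  have h3 : PowerSeries.C (VV x) * Om (fun k => (1 - b ^ k) * ∑ i, x i ^ k)
      = PowerSeries.C (b ^ N * VV x)
        + PowerSeries.C (1 - b) * ∑ i, PowerSeries.C (VI b x i) * Om (fun k => x i ^ k) := by
    rw [hQ]
    calc PowerSeries.C (VV x) * (U * ∏ i, (1 - PowerSeries.C b * Cx i))
        = U * (PowerSeries.C (VV x) * ∏ i, (1 - PowerSeries.C b * Cx i)) := by ring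
      _ = PowerSeries.C b ^ N * PowerSeries.C (VV x) * (U * ∏ i, (1 - Cx i))
          + (1 - PowerSeries.C b) * ∑ i, PowerSeries.C (VI b x i) *
            (U * ∏ j ∈ univ.erase i, (1 - Cx j)) := by
          rw [h2, mul_add, Finset.mul_sum, Finset.mul_sum, Finset.mul_sum]
          congr 1
          · ring
          · refine Finset.sum_congr rfl fun i _ => ?_
            ring
      _ = _ := by
          rw [hU1, mul_one]
          simp only [hU2, map_mul, map_pow, map_sub, map_one]
  have h4 := congrArg (PowerSeries.coeff m) h3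
  rw [PowerSeries.coeff_C_mul, map_add, PowerSeries.coeff_C_mul, map_sum,
    PowerSeries.coeff_C] at h4
  simp only [PowerSeries.coeff_C_mul, Om, PowerSeries.coeff_mk, expo_geom] at h4
  exact h4

end

end Pool.Agent.H158.TL
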