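import Mathlib
import Pool.Agent.H158.TL.PF
import Pool.Agent.H158.TL.Chrom

set_option autoImplicit false
set_option linter.unusedSectionVars false

/-!
# The vertex operator `D_1` in finitely many variables
-/

namespace Pool.Agent.H158.TL

open Finset MvPolynomial
open Pool.Agent.H209R2.EH

section
variable {A : Type*} [CommRing A] [Algebra ℚ A]

/-- `1 / (1 - z y)` -/
noncomputable def geo (y : A) : PowerSeries A := Om fun k => y ^ k

lemma geo_mul (y : A) : geo y * (1 - PowerSeries.C y * PowerSeries.X) = 1 := Om_geom_mul y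

lemma map_Om {A' : Type*} [CommRing A'] [Algebra ℚ A'] (f : A →+* A') (g : ℕ → A) :
    PowerSeries.map f (Om g) = Om fun k => f (g k) := by
  ext n
  rw [PowerSeries.coeff_map, Om, Om, PowerSeries.coeff_mk, PowerSeries.coeff_mk, expo_map]

lemma map_geo {A' : Type*} [CommRing A'] [Algebra ℚ A'] (f : A →+* A') (y : A) :
    PowerSeries.map f (geo y) = geo (f y) := by
  simp only [geo, map_Om, map_pow]

/-- `(1 - b z y) / (1 - z y)` -/
noncomputable def qf (b y : A) : PowerSeries A :=
  geo y * (1 - PowerSeries.C (b * y) * PowerSeries.X)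

lemma map_qf {A' : Type*} [CommRing A'] [Algebra ℚ A'] (f : A →+* A') (b y : A) :
    PowerSeries.map f (qf b y) = qf (f b) (f y) := by
  simp only [qf, map_mul, map_sub, map_one, PowerSeries.map_C, PowerSeries.map_X, map_geo]

lemma qf_sub_one (b y : A) :
    qf b y - 1 = PowerSeries.C (1 - b) * (PowerSeries.C y * PowerSeries.X * geo y) := by
  have h := geo_mul y
  have e : PowerSeries.C (1 - b) * (PowerSeries.C y * PowerSeries.X * geo y)
      = geo y * (PowerSeries.C y * PowerSeries.X - PowerSeries.C (b * y) * PowerSeries.X) := by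
    simp only [map_sub, map_one, map_mul]
    ring
  rw [e, qf]
  linear_combination h

variable {N : ℕ}

lemma Om_kernel' (b : A) (x : Fin N → A) :
    Om (fun k => (1 - b ^ k) * ∑ i, x i ^ k) = ∏ i, qf b (x i) := by
  have h := Om_kernel b x
  have h1 : (∏ i, geo (x i)) * ∏ i, (1 - PowerSeries.C (x i) * PowerSeries.X) = 1 := by
    rw [← Finset.prod_mul_distrib]
    simp only [geo_mul, Finset.prod_const_one]
  calc Om (fun k => (1 - b ^ k) * ∑ i, x i ^ k)
      = (∏ i, geo (x i)) * (Om (fun k => (1 - b ^ k) * ∑ i, x i ^ k) *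
          ∏ i, (1 - PowerSeries.C (x i) * PowerSeries.X)) := by
        rw [mul_comm (Om _), ← mul_assoc, h1, one_mul]
    _ = _ := by
        rw [h, ← Finset.prod_mul_distrib]
        rfl

/-- the series `U_i = z x_i / (1 - z x_i) ∏_{j > i} (1 - b z x_j) / (1 - z x_j)` -/
noncomputable def UU (b : A) (x : Fin N → A) (i : Fin N) : PowerSeries A :=
  PowerSeries.C (x i) * PowerSeries.X * geo (x i) * ∏ j ∈ univ.filter (fun j => i < j), qf b (x j)

/-- the series `z x_i / (1 - z x_i) ∏_{j < i} (1 - b z x_j) / (1 - z x_j)` -/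
noncomputable def UL (b : A) (x : Fin N → A) (i : Fin N) : PowerSeries A :=
  PowerSeries.C (x i) * PowerSeries.X * geo (x i) * ∏ j ∈ univ.filter (fun j => j < i), qf b (x j)

lemma prod_qf_eq_UU (b : A) (x : Fin N → A) :
    ∏ i, qf b (x i) = 1 + PowerSeries.C (1 - b) * ∑ i, UU b x i := by
  have h := Finset.prod_add_ordered (univ : Finset (Fin N)) (fun i => qf b (x i))
    (fun i => 1 - qf b (x i))
  simp only [add_sub_cancel, Finset.prod_const_one, mul_one] at h
  rw [Finset.mul_sum]
  have h2 : ∑ i, PowerSeries.C (1 - b) * UU b x i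
      = - ∑ i, (1 - qf b (x i)) * ∏ j ∈ univ.filter (fun j => i < j), qf b (x j) := by
    rw [← Finset.sum_neg_distrib]
    refine Finset.sum_congr rfl fun i _ => ?_
    rw [UU, ← neg_mul, neg_sub, qf_sub_one]
    ring
  rw [h2]
  linear_combination (-1) * h

lemma prod_qf_eq_UL (b : A) (x : Fin N → A) :
    ∏ i, qf b (x i) = 1 + PowerSeries.C (1 - b) * ∑ i, UL b x i := by
  have h := Finset.prod_add_ordered (univ : Finset (Fin N)) (fun _ => (1 : PowerSeries A))
    (fun i => qf b (x i) - 1)
  simp only [add_sub_cancel, Finset.prod_const_one, mul_one] at h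
  rw [h, Finset.mul_sum]
  congr 1
  refine Finset.sum_congr rfl fun i _ => ?_
  rw [UL, qf_sub_one]
  ring

lemma expo_eq_UU (b : A) (x : Fin N → A) (m : ℕ) :
    expo (fun k => (1 - b ^ k) * ∑ i, x i ^ k) (m + 1)
      = (1 - b) * ∑ i, PowerSeries.coeff (m + 1) (UU b x i) := by
  have h := congrArg (PowerSeries.coeff (m + 1)) ((Om_kernel' b x).trans (prod_qf_eq_UU b x))
  rw [map_add, PowerSeries.coeff_C_mul, map_sum, PowerSeries.coeff_one] at h
  simpa [Om] using h

lemma expo_eq_UL (b : A) (x : Fin N → A) (m : ℕ) :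
    expo (fun k => (1 - b ^ k) * ∑ i, x i ^ k) (m + 1)
      = (1 - b) * ∑ i, PowerSeries.coeff (m + 1) (UL b x i) := by
  have h := congrArg (PowerSeries.coeff (m + 1)) ((Om_kernel' b x).trans (prod_qf_eq_UL b x))
  rw [map_add, PowerSeries.coeff_C_mul, map_sum, PowerSeries.coeff_one] at h
  simpa [Om] using h

lemma filter_lt_adj {i j : Fin N} (hij : (i : ℕ) + 1 = j) :
    (univ.filter fun k : Fin N => i < k) = insert j (univ.filter fun k : Fin N => j < k) := by
  ext k
  simp only [mem_filter, mem_univ, true_and, mem_insert, Fin.lt_def, Fin.ext_iff]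
  omega

lemma filter_gt_adj {i j : Fin N} (hij : (i : ℕ) + 1 = j) :
    (univ.filter fun k : Fin N => k < j) = insert i (univ.filter fun k : Fin N => k < i) := by
  ext k
  simp only [mem_filter, mem_univ, true_and, mem_insert, Fin.lt_def, Fin.ext_iff]
  omega

/-- exchange relation for `UU` -/
lemma exch_UU (s : A →+* A) (t : A) (x : Fin N → A) {i j : Fin N} (hij : (i : ℕ) + 1 = j)
    (ht : s t = t) (hs : ∀ k, s (x k) = x (Equiv.swap i j k)) (m : ℕ) :
    Exch s t (x i) (x j) (PowerSeries.coeff m (UU t x i)) (PowerSeries.coeff m (UU t x j)) := by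
  classical
  set G : PowerSeries A := PowerSeries.X * (geo (x i) * geo (x j)) *
    ∏ k ∈ univ.filter (fun k => j < k), qf t (x k) with hG
  have hsi : s (x i) = x j := by rw [hs, Equiv.swap_apply_left]
  have hsj : s (x j) = x i := by rw [hs, Equiv.swap_apply_right]
  have hGs : PowerSeries.map s G = G := by
    rw [hG]
    simp only [map_mul, map_prod, PowerSeries.map_X, map_geo, map_qf, hsi, hsj, ht]
    congr 1
    · ring
    · refine Finset.prod_congr rfl fun k hk => ?_
      have hk' : j < k := (Finset.mem_filter.1 hk).2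
      rw [hs, Equiv.swap_apply_of_ne_of_ne]
      · intro h; rw [h, Fin.lt_def] at hk'; omega
      · exact hk'.ne'
  have hGc : ∀ m, s (PowerSeries.coeff m G) = PowerSeries.coeff m G := by
    intro m
    rw [← PowerSeries.coeff_map, hGs]
  have hXGc : ∀ m, s (PowerSeries.coeff m (PowerSeries.X * G))
      = PowerSeries.coeff m (PowerSeries.X * G) := by
    intro m
    rw [← PowerSeries.coeff_map, map_mul, PowerSeries.map_X, hGs]
  have gi := geo_mul (x i)
  have gj := geo_mul (x j)
  refine ⟨-(x i * x j) * PowerSeries.coeff m (PowerSeries.X * G), PowerSeries.coeff m G,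
    ?_, hGc m, ?_, ?_⟩
  · rw [map_mul, map_neg, map_mul, hsi, hsj, hXGc]
    ring
  · have e : UU t x i = PowerSeries.C (t * (-(x i * x j))) * (PowerSeries.X * G)
        + PowerSeries.C (x i) * G := by
      rw [UU, filter_lt_adj hij, Finset.prod_insert (by simp), hG, qf]
      simp only [map_mul, map_neg]
      ring
    rw [e, map_add, PowerSeries.coeff_C_mul, PowerSeries.coeff_C_mul]
    ring
  · have e : UU t x j = PowerSeries.C (-(x i * x j)) * (PowerSeries.X * G)
        + PowerSeries.C (x j) * G := by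
      rw [UU, hG]
      simp only [map_mul, map_neg]
      linear_combination (-1) * (PowerSeries.C (x j) * PowerSeries.X * geo (x j) *
        ∏ k ∈ univ.filter (fun k => j < k), qf t (x k)) * gi
    rw [e, map_add, PowerSeries.coeff_C_mul, PowerSeries.coeff_C_mul]

/-- exchange relation for `UL` (with `b = 1 / t`) -/
lemma exch_UL (s : A →+* A) (t b : A) (x : Fin N → A) {i j : Fin N} (hij : (i : ℕ) + 1 = j)
    (hb : t * b = 1) (ht : s b = b) (hs : ∀ k, s (x k) = x (Equiv.swap i j k)) (m : ℕ) :
    Exch s t (x i) (x j) (PowerSeries.coeff m (UL b x i)) (PowerSeries.coeff m (UL b x j)) := by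
  classical
  set G : PowerSeries A := PowerSeries.X * (geo (x i) * geo (x j)) *
    ∏ k ∈ univ.filter (fun k => k < i), qf b (x k) with hG
  have hsi : s (x i) = x j := by rw [hs, Equiv.swap_apply_left]
  have hsj : s (x j) = x i := by rw [hs, Equiv.swap_apply_right]
  have hGs : PowerSeries.map s G = G := by
    rw [hG]
    simp only [map_mul, map_prod, PowerSeries.map_X, map_geo, map_qf, hsi, hsj, ht]
    congr 1
    · ring
    · refine Finset.prod_congr rfl fun k hk => ?_
      have hk' : k < i := (Finset.mem_filter.1 hk).2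
      rw [hs, Equiv.swap_apply_of_ne_of_ne]
      · exact hk'.ne
      · intro h; rw [h, Fin.lt_def] at hk'; omega
  have hGc : ∀ m, s (PowerSeries.coeff m G) = PowerSeries.coeff m G := by
    intro m
    rw [← PowerSeries.coeff_map, hGs]
  have hXGc : ∀ m, s (PowerSeries.coeff m (PowerSeries.X * G))
      = PowerSeries.coeff m (PowerSeries.X * G) := by
    intro m
    rw [← PowerSeries.coeff_map, map_mul, PowerSeries.map_X, hGs]
  have gi := geo_mul (x i)
  have gj := geo_mul (x j)
  refine ⟨-(b * (x i * x j)) * PowerSeries.coeff m (PowerSeries.X * G), PowerSeries.coeff m G,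
    ?_, hGc m, ?_, ?_⟩
  · rw [map_mul, map_neg, map_mul, map_mul, hsi, hsj, hXGc, ht]
    ring
  · have e : UL b x i = PowerSeries.C (-(x i * x j)) * (PowerSeries.X * G)
        + PowerSeries.C (x i) * G := by
      rw [UL, hG]
      simp only [map_mul, map_neg]
      linear_combination (-1) * (PowerSeries.C (x i) * PowerSeries.X * geo (x i) *
        ∏ k ∈ univ.filter (fun k => k < i), qf b (x k)) * gj
    rw [e, map_add, PowerSeries.coeff_C_mul, PowerSeries.coeff_C_mul]
    linear_combination (x i * x j) * PowerSeries.coeff m (PowerSeries.X * G) * hb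
  · have e : UL b x j = PowerSeries.C (-(b * (x i * x j))) * (PowerSeries.X * G)
        + PowerSeries.C (x j) * G := by
      rw [UL, filter_gt_adj hij, Finset.prod_insert (by simp), hG, qf]
      simp only [map_mul, map_neg]
      ring
    rw [e, map_add, PowerSeries.coeff_C_mul, PowerSeries.coeff_C_mul]

end

section
variable {R : Type*} [CommRing R] [Algebra ℚ R]

/-- `F ↦ F[(t - 1) X]` in `N` variables -/
noncomputable def psi (t : R) (N : ℕ) : Sym R →ₐ[R] MvPolynomial (Fin N) R :=
  aeval fun k : ℕ+ => C (t ^ (k : ℕ) - 1) * ∑ i, X i ^ (k : ℕ)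

lemma psi_X (t : R) (N : ℕ) (k : ℕ+) :
    psi t N (X k) = C (t ^ (k : ℕ) - 1) * ∑ i, X i ^ (k : ℕ) := by simp [psi]

lemma psi_pw (t : R) (N : ℕ) (k : ℕ) :
    psi t N (pw R k) = C (t ^ k - 1) * ∑ i, X i ^ k := by
  cases k with
  | zero => simp [pw]
  | succ k => rw [pw, psi_X]; rfl

/-- the operator `- D_1` -/
noncomputable def Aop (q t : R) : Sym R →ₗ[R] Sym R :=
  - VO (fun k => (1 - q ^ k) * (1 - t ^ k)) (fun _ => -1) 1

/-- the candidates -/
noncomputable def hcand (q t : R) (N : ℕ) (F : Sym R) (i : Fin N) : MvPolynomial (Fin N) R :=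
  pairing (fun m => PowerSeries.coeff (m + 1)
      (UU (C t) (fun a => (X a : MvPolynomial (Fin N) R)) i))
    (shiftTo (fun k => psi t N (X k)) (fun k => (1 - q ^ k) * (1 - t ^ k)) F)

lemma psi_Aop (q t : R) (N : ℕ) (F : Sym R) :
    psi t N (Aop q t F) = C (t - 1) * ∑ i, hcand q t N F i := by
  rw [Aop, LinearMap.neg_apply, map_neg, map_VO]
  have h1 : (fun i => expo (fun k => algebraMap R (MvPolynomial (Fin N) R) (-1) *
      psi t N (pw R k)) (i + 1)) = fun m => (1 - C t) * ∑ i, PowerSeries.coeff (m + 1)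
      (UU (C t) (fun a => (X a : MvPolynomial (Fin N) R)) i) := by
    funext m
    rw [← expo_eq_UU]
    congr 1
    funext k
    rw [psi_pw, MvPolynomial.algebraMap_eq]
    simp only [map_neg, map_one, map_sub, map_pow]
    ring
  rw [h1, pairing_smul_seq, pairing_sum_seq]
  simp only [hcand]
  simp only [map_sub, map_one]
  ring

lemma shiftTo_symm (q t : R) (N : ℕ) (e : Equiv.Perm (Fin N)) (F : Sym R) :
    (shiftTo (fun k => psi t N (X k)) (fun k => (1 - q ^ k) * (1 - t ^ k)) F).map
      ((rename e : MvPolynomial (Fin N) R →ₐ[R] MvPolynomial (Fin N) R) :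
        MvPolynomial (Fin N) R →+* MvPolynomial (Fin N) R)
      = shiftTo (fun k => psi t N (X k)) (fun k => (1 - q ^ k) * (1 - t ^ k)) F := by
  rw [← shiftTo_map, Polynomial.map_map]
  have : (((rename e : MvPolynomial (Fin N) R →ₐ[R] MvPolynomial (Fin N) R) :
        MvPolynomial (Fin N) R →+* MvPolynomial (Fin N) R).comp
        ((psi t N : Sym R →ₐ[R] MvPolynomial (Fin N) R) : Sym R →+* _))
      = ((psi t N : Sym R →ₐ[R] MvPolynomial (Fin N) R) : Sym R →+* _) := by
    have h : (rename e : MvPolynomial (Fin N) R →ₐ[R] MvPolynomial (Fin N) R).comp (psi t N)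
        = psi t N := by
      apply MvPolynomial.algHom_ext
      intro k
      rw [AlgHom.comp_apply, psi_X, map_mul, map_sum]
      simp only [map_pow, rename_X, rename_C]
      congr 1
      exact Equiv.sum_comp e (fun i => (X i : MvPolynomial (Fin N) R) ^ (k : ℕ))
    exact congrArg (fun φ : Sym R →ₐ[R] MvPolynomial (Fin N) R =>
      (φ : Sym R →+* MvPolynomial (Fin N) R)) h
  rw [this]

lemma hcand_exch (q t : R) (N : ℕ) (F : Sym R) {i j : Fin N} (hij : (i : ℕ) + 1 = j) :
    ExE t i j (hcand q t N F i) (hcand q t N F j) := by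
  classical
  set s : MvPolynomial (Fin N) R →+* MvPolynomial (Fin N) R :=
    ((rename (Equiv.swap i j) : MvPolynomial (Fin N) R →ₐ[R] MvPolynomial (Fin N) R) :
        MvPolynomial (Fin N) R →+* MvPolynomial (Fin N) R) with hs
  set Q := shiftTo (fun k => psi t N (X k)) (fun k => (1 - q ^ k) * (1 - t ^ k)) F with hQ
  have hinv : ∀ m, s (Q.coeff m) = Q.coeff m := by
    intro m
    rw [← Polynomial.coeff_map, hs, hQ, shiftTo_symm]
  have h : Exch s (C t) (X i) (X j) (hcand q t N F i) (hcand q t N F j) := by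
    rw [hcand, hcand, ← hQ, pairing_eq_sum _ Q (Q.natDegree + 1) (Nat.lt_succ_self _),
      pairing_eq_sum _ Q (Q.natDegree + 1) (Nat.lt_succ_self _)]
    refine Exch.sum _ _ _ fun m _ => ?_
    refine Exch.mul_left (hinv m) ?_
    refine exch_UU s (C t) _ hij ?_ ?_ _
    · simp [hs]
    · intro k
      simp [hs]
  have h2 := h.eq (by simp [hs])
  exact h2

lemma hcand_last (q t : R) (N : ℕ) (F : Sym R) :
    hcand q t (N + 1) F (Fin.last N) = X (Fin.last N) *
      aeval (Function.update (fun a => (X a : MvPolynomial (Fin (N + 1)) R)) (Fin.last N)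
        (C q * X (Fin.last N))) (psi t (N + 1) F) := by
  have h1 : (fun m => PowerSeries.coeff (m + 1)
      (UU (C t) (fun a => (X a : MvPolynomial (Fin (N + 1)) R)) (Fin.last N)))
      = fun m => X (Fin.last N) * X (Fin.last N) ^ m := by
    funext m
    have : (univ.filter fun j : Fin (N + 1) => Fin.last N < j) = ∅ := by
      rw [Finset.filter_eq_empty_iff]
      intro j _
      exact not_lt.2 (Fin.le_last j)
    rw [UU, this, Finset.prod_empty, mul_one, mul_assoc, PowerSeries.coeff_C_mul,
      PowerSeries.coeff_succ_X_mul, geo, Om, PowerSeries.coeff_mk, expo_geom]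
  rw [hcand, h1, pairing_smul_seq, pairing_pow, eval_shiftTo]
  congr 1
  have h2 : (aeval (Function.update (fun a => (X a : MvPolynomial (Fin (N + 1)) R)) (Fin.last N)
        (C q * X (Fin.last N)))).comp (psi t (N + 1))
      = aeval (fun k : ℕ+ => psi t (N + 1) (X k) + algebraMap R (MvPolynomial (Fin (N + 1)) R)
        ((1 - q ^ (k : ℕ)) * (1 - t ^ (k : ℕ))) * X (Fin.last N) ^ (k : ℕ)) := by
    apply MvPolynomial.algHom_ext
    intro k
    rw [AlgHom.comp_apply, psi_X, aeval_X, psi_X, map_mul, map_sum, Fin.sum_univ_castSucc,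
      Fin.sum_univ_castSucc, MvPolynomial.algebraMap_eq]
    have e1 : ∀ a : Fin N, aeval (Function.update (fun a => (X a : MvPolynomial (Fin (N + 1)) R))
        (Fin.last N) (C q * X (Fin.last N))) ((X a.castSucc : MvPolynomial (Fin (N + 1)) R)
          ^ (k : ℕ)) = X a.castSucc ^ (k : ℕ) := by
      intro a
      rw [map_pow, aeval_X, Function.update_of_ne (Fin.castSucc_lt_last a).ne]
    have e2 : aeval (Function.update (fun a => (X a : MvPolynomial (Fin (N + 1)) R))
        (Fin.last N) (C q * X (Fin.last N))) ((X (Fin.last N) : MvPolynomial (Fin (N + 1)) R)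
          ^ (k : ℕ)) = C (q ^ (k : ℕ)) * X (Fin.last N) ^ (k : ℕ) := by
      rw [map_pow, aeval_X, Function.update_self, mul_pow, C_pow]
    simp only [e1, e2]
    rw [MvPolynomial.aeval_C, MvPolynomial.algebraMap_eq]
    simp only [map_sub, map_mul, map_one, map_pow]
    ring
  rw [← h2]
  rfl

end

end Pool.Agent.H158.TL
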