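import Mathlib
import Pool.Agent.H158.TL.Cand

set_option autoImplicit false
set_option linter.unusedSectionVars false

/-!
# Iterating `- D_1` on `1` in the chromatic realization
-/

namespace Pool.Agent.H158.TL

open Finset MvPolynomial

section
variable {R : Type*} [CommRing R] {σ : Type*} [DecidableEq σ]

lemma ExE.unique [IsDomain R] {t : R} {i j : σ} (hij : i ≠ j) {f f' g : MvPolynomial σ R}
    (h : ExE t i j f g) (h' : ExE t i j f' g) : f = f' := by
  have h1 : (X i - X j : MvPolynomial σ R) * (f - f') = 0 := by
    rw [mul_sub, h, h']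
    ring
  have h2 : (X i - X j : MvPolynomial σ R) ≠ 0 := by
    rw [sub_ne_zero]
    intro h3
    exact hij (X_injective h3)
  exact sub_eq_zero.1 ((mul_eq_zero.1 h1).resolve_left h2)

lemma ExE.C_mul {t : R} {i j : σ} {f g : MvPolynomial σ R} (c : R) (h : ExE t i j f g) :
    ExE t i j (C c * f) (C c * g) := by
  unfold ExE at h ⊢
  rw [map_mul, rename_C]
  linear_combination (C c) * h

lemma ExE.map {R' : Type*} [CommRing R'] (φ : R →+* R') {t : R} {i j : σ}
    {f g : MvPolynomial σ R} (h : ExE t i j f g) :
    ExE (φ t) i j (MvPolynomial.map φ f) (MvPolynomial.map φ g) := by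
  unfold ExE at h ⊢
  have h2 := congrArg (MvPolynomial.map φ) h
  simpa [map_rename] using h2

end

section
variable {P : Type*} [CommRing P] {R : Type*} [CommRing R] [Algebra (PowerSeries P) R]

lemma map_HH_X (t : P) (n N : ℕ) (a : Fin N) :
    MvPolynomial.map (algebraMap (PowerSeries P) R)
      (HH t n N (fun a => (X a : MvPolynomial (Fin N) (PowerSeries P))) a)
      = HH t n N (fun a => (X a : MvPolynomial (Fin N) R)) a := by
  simp only [HH, map_sum]
  refine Finset.sum_congr rfl fun κ _ => ?_
  split_ifs
  · rw [map_mul, map_prod, MvPolynomial.algebraMap_eq, map_C,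
      IsScalarTower.algebraMap_apply (PowerSeries P) R (MvPolynomial (Fin N) R),
      MvPolynomial.algebraMap_eq]
    simp
  · simp

lemma HH_exch' (t : P) (n N : ℕ) (i j : Fin N) (hij : (i : ℕ) + 1 = j) :
    ExE (algebraMap (PowerSeries P) R (PowerSeries.C t)) i j
      (HH t n N (fun a => (X a : MvPolynomial (Fin N) R)) i)
      (HH t n N (fun a => (X a : MvPolynomial (Fin N) R)) j) := by
  have h := (HH_exch t n N i j hij).map (algebraMap (PowerSeries P) R)
  rw [map_HH_X, map_HH_X] at h
  exact h

lemma gs_fin_zero (w : (Fin 0 → ℕ) → P) : gs w = PowerSeries.C (w fun a => a.elim0) := by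
  ext d
  rw [coeff_gs, PowerSeries.coeff_C]
  by_cases hd : d = 0
  · rw [if_pos hd, hd]
    have : Finset.piAntidiag (univ : Finset (Fin 0)) 0 = {fun a => a.elim0} := by
      ext γ
      rw [mem_pa, Finset.mem_singleton]
      constructor
      · intro _
        exact Subsingleton.elim _ _
      · intro _
        exact Finset.sum_empty
    rw [this, Finset.sum_singleton]
  · rw [if_neg hd]
    have : Finset.piAntidiag (univ : Finset (Fin 0)) d = ∅ := by
      rw [Finset.eq_empty_iff_forall_notMem]
      intro γ hγ
      rw [mem_pa] at hγ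
      exact hd (hγ.symm.trans Finset.sum_empty)
    rw [this, Finset.sum_empty]

lemma XX_zero (t : P) (N : ℕ) :
    XX t 0 N (fun a => (X a : MvPolynomial (Fin N) R)) = 1 := by
  have h : ∀ κ : Fin 0 → Fin N, cc t κ = 1 := by
    intro κ
    rw [cc, gs_fin_zero, cw, Fintype.prod_empty, map_one]
  rw [XX]
  simp only [h]
  rw [Fintype.sum_unique, map_one, one_mul, Fintype.prod_empty]

lemma aeval_XX (t : P) (n N : ℕ) (y : Fin N → MvPolynomial (Fin N) R) :
    aeval y (XX t n N (fun a => (X a : MvPolynomial (Fin N) R))) = XX t n N y := by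
  have e := map_XX ((aeval (R := R) y).restrictScalars (PowerSeries P)) t n N
    (fun a => (X a : MvPolynomial (Fin N) R))
  simpa only [AlgHom.restrictScalars_apply, aeval_X] using e

variable [Algebra ℚ R] [IsDomain R]

theorem psi_iter (t₀ : P) (n : ℕ) :
    ∀ N, psi (algebraMap (PowerSeries P) R (PowerSeries.C t₀)) N
      ((Aop (algebraMap (PowerSeries P) R PowerSeries.X)
        (algebraMap (PowerSeries P) R (PowerSeries.C t₀)))^[n] 1)
      = C ((algebraMap (PowerSeries P) R (PowerSeries.C t₀) - 1) ^ n *
        (1 - algebraMap (PowerSeries P) R PowerSeries.X) ^ n) *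
        XX t₀ n N (fun a => (X a : MvPolynomial (Fin N) R)) := by
  set t : R := algebraMap (PowerSeries P) R (PowerSeries.C t₀) with ht
  set q : R := algebraMap (PowerSeries P) R PowerSeries.X with hq
  induction n with
  | zero =>
    intro N
    rw [XX_zero]
    simp
  | succ n ih =>
    intro N
    rw [Function.iterate_succ_apply', psi_Aop]
    set F : Sym R := (Aop q t)^[n] 1 with hF
    set c : R := (t - 1) ^ n * (1 - q) ^ n with hc
    have key : ∀ a : Fin N, hcand q t N F a
        = C c * HH t₀ n N (fun a => (X a : MvPolynomial (Fin N) R)) a := by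
      cases N with
      | zero => intro a; exact a.elim0
      | succ N =>
        intro a
        induction a using Fin.reverseInduction with
        | last =>
          rw [hcand_last, ih (N + 1), HH_last', map_mul, aeval_XX, MvPolynomial.aeval_C,
            MvPolynomial.algebraMap_eq,
            IsScalarTower.algebraMap_apply (PowerSeries P) R (MvPolynomial (Fin (N + 1)) R),
            MvPolynomial.algebraMap_eq, ← hq]
          ring
        | cast i h =>
          refine ExE.unique (t := t) (i := i.castSucc) (j := i.succ)
            (g := hcand q t (N + 1) F i.succ) ?_ ?_ ?_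
          · exact (Fin.castSucc_lt_succ).ne
          · exact hcand_exch q t (N + 1) F (by simp)
          · rw [h]
            exact (HH_exch' t₀ n (N + 1) _ _ (by simp)).C_mul c
    simp only [key]
    rw [← Finset.mul_sum]
    have h1 := XX_succ t₀ n N (fun a => (X a : MvPolynomial (Fin N) R))
    have h2 : ∑ a, HH t₀ n N (fun a => (X a : MvPolynomial (Fin N) R)) a
        = C (1 - q) * XX t₀ (n + 1) N (fun a => (X a : MvPolynomial (Fin N) R)) := by
      have e : algebraMap (PowerSeries P) (MvPolynomial (Fin N) R) PowerSeries.X = C q := by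
        rw [IsScalarTower.algebraMap_apply (PowerSeries P) R (MvPolynomial (Fin N) R),
          MvPolynomial.algebraMap_eq]
      rw [e] at h1
      rw [map_sub, map_one]
      linear_combination (-1) * h1
    rw [h2, hc]
    simp only [map_mul, map_pow, map_sub, map_one]
    ring

end

end Pool.Agent.H158.TL
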