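import Mathlib
import Pool.Agent.H158.TL.Main1

set_option autoImplicit false
set_option linter.unusedSectionVars false

/-!
# Colourings with exactly one vertex of level zero
-/

namespace Pool.Agent.H158.TL

open Finset MvPolynomial

section
variable {P : Type*} [CommRing P]

lemma cw_eq_zero {n : ℕ} {C : Type*} [LinearOrder C] (t : P) (γ : Fin n → ℕ) (κ : Fin n → C)
    {p p' : Fin n} (hne : p ≠ p') (hκ : κ p = κ p') (hγ : γ p = γ p') : cw t γ κ = 0 := by
  rcases lt_or_gt_of_ne hne with h | h
  · refine Finset.prod_eq_zero (mem_univ p') (Finset.prod_eq_zero (mem_univ p) ?_)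
    have hpr : pr γ p' p := Or.inl ⟨hγ.symm, h⟩
    rw [if_pos hpr, hκ]
    simp [om]
  · refine Finset.prod_eq_zero (mem_univ p) (Finset.prod_eq_zero (mem_univ p') ?_)
    have hpr : pr γ p p' := Or.inl ⟨hγ, h⟩
    rw [if_pos hpr, hκ]
    simp [om]

/-- generating series for a fixed colouring, the level zero vertex being `p` -/
noncomputable def gp {n : ℕ} {C : Type*} [LinearOrder C] (t : P) (p : Fin n) (κ : Fin n → C) :
    PowerSeries P := gs fun γ => if γ p = 0 then cw t (raise {p}ᶜ γ) κ else 0

lemma gp_shift {n N : ℕ} (t : P) (p : Fin n) (κ : Fin n → Fin (N + 1))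
    (hp : κ p = Fin.last N) :
    PowerSeries.X * gs (fun γ => if γ p = 0 then cw t γ κ else 0)
      = PowerSeries.X ^ (univ.filter fun v => κ v = Fin.last N).card *
        gp t p (fun v => finRotate (N + 1) (κ v)) := by
  set S : Finset (Fin n) := univ.filter fun v => κ v = Fin.last N with hS
  have memS : ∀ v, v ∈ S ↔ κ v = Fin.last N := fun v => by simp [hS]
  have hpS : p ∈ S := (memS p).2 hp
  have hcard : S.card = (S.erase p).card + 1 := by
    rw [Finset.card_erase_of_mem hpS]
    have := Finset.card_pos.2 ⟨p, hpS⟩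
    omega
  have e1 : gs (fun γ => if γ p = 0 then cw t γ κ else 0)
      = gs (fun γ => if ∀ v ∈ S.erase p, 1 ≤ γ v then (if γ p = 0 then cw t γ κ else 0)
        else 0) := by
    congr 1
    funext γ
    split_ifs with h1 h2 h2
    · rfl
    · push Not at h2
      obtain ⟨v, hv, hv1⟩ := h2
      refine cw_eq_zero t γ κ (Finset.ne_of_mem_erase hv) ?_ ?_
      · rw [(memS v).1 (Finset.mem_of_mem_erase hv), hp]
      · omega
    · rfl
    · rfl
  have e2 : gp t p (fun v => finRotate (N + 1) (κ v))
      = gs (fun γ => if (raise (S.erase p) γ) p = 0 then cw t (raise (S.erase p) γ) κ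
        else 0) := by
    rw [gp]
    congr 1
    funext γ
    have h1 : raise (S.erase p) γ p = γ p := by simp [raise]
    rw [h1]
    have h2 : raise S (raise {p}ᶜ γ) = raise univ (raise (S.erase p) γ) := by
      funext v
      simp only [raise, Finset.mem_compl, Finset.mem_singleton, Finset.mem_erase,
        Finset.mem_univ, if_true]
      by_cases hv : v = p
      · rw [hv]
        simp [hpS]
      · by_cases hvS : v ∈ S
        · simp [hv, hvS]
        · simp [hv, hvS]
    rw [← cw_colour_shift, ← hS, h2, cw_raise_univ]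
  rw [e1, gs_shift, e2, hcard]
  ring

end

section
variable {P : Type*} [CommRing P] {B : Type*} [CommRing B] [Algebra (PowerSeries P) B]

/-- sum over all level functions with one vertex of level zero, of colour `a` -/
noncomputable def GG (t : P) (n N : ℕ) (x : Fin N → B) (a : Fin N) : B :=
  ∑ p : Fin n, ∑ κ : Fin n → Fin N, if κ p = a then
    algebraMap (PowerSeries P) B (gp t p κ) * ∏ v, x (κ v) else 0

lemma XX_sub (t : P) (n N : ℕ) (x : Fin (N + 1) → B) :
    algebraMap (PowerSeries P) B PowerSeries.X * (XX t n (N + 1) x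
      - XX t n (N + 1) (Fin.cons (algebraMap (PowerSeries P) B PowerSeries.X * x (Fin.last N))
        fun c => x c.castSucc))
      = GG t n (N + 1) (Fin.cons (algebraMap (PowerSeries P) B PowerSeries.X * x (Fin.last N))
        fun c => x c.castSucc) 0 := by
  set y : Fin (N + 1) → B := Fin.cons (algebraMap (PowerSeries P) B PowerSeries.X *
    x (Fin.last N)) fun c => x c.castSucc with hy
  have h2 : ∀ c : Fin (N + 1), y (finRotate (N + 1) c)
      = (if c = Fin.last N then algebraMap (PowerSeries P) B PowerSeries.X else 1) * x c := by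
    intro c
    refine Fin.lastCases ?_ (fun i => ?_) c
    · rw [finRotate_last, hy]
      simp
    · rw [finRotate_castSucc', hy, if_neg (Fin.castSucc_lt_last i).ne]
      simp
  have h3 : ∀ κ : Fin n → Fin (N + 1), ∏ v, y (finRotate (N + 1) (κ v))
      = algebraMap (PowerSeries P) B (PowerSeries.X ^
        (univ.filter fun v => κ v = Fin.last N).card) * ∏ v, x (κ v) := by
    intro κ
    simp only [h2]
    rw [Finset.prod_mul_distrib, ← Finset.prod_filter, Finset.prod_const, map_pow]
  have h4 : ∀ κ : Fin n → Fin (N + 1),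
      (Equiv.arrowCongr (Equiv.refl (Fin n)) (finRotate (N + 1)) κ)
      = fun v => finRotate (N + 1) (κ v) := by
    intro κ
    funext v
    simp
  -- the second sum
  have h5 : XX t n (N + 1) y = ∑ κ : Fin n → Fin (N + 1), algebraMap (PowerSeries P) B
      (gs fun γ => if ∀ v ∈ univ.filter (fun v => κ v = Fin.last N), 1 ≤ γ v then cw t γ κ
        else 0) * ∏ v, x (κ v) := by
    rw [XX, ← Equiv.sum_comp (Equiv.arrowCongr (Equiv.refl (Fin n)) (finRotate (N + 1)))]
    refine Finset.sum_congr rfl fun κ _ => ?_
    rw [h4, h3, gs_shift, map_mul]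
    simp only [cw_colour_shift]
    rw [cc]
    ring
  have h6 : XX t n (N + 1) x - XX t n (N + 1) y = ∑ κ : Fin n → Fin (N + 1), ∑ p : Fin n,
      if κ p = Fin.last N then algebraMap (PowerSeries P) B
      (gs fun γ => if γ p = 0 then cw t γ κ else 0) * ∏ v, x (κ v) else 0 := by
    rw [h5, XX, ← Finset.sum_sub_distrib]
    refine Finset.sum_congr rfl fun κ _ => ?_
    rw [← Finset.sum_filter, ← Finset.sum_mul, ← map_sum, ← sub_mul, ← map_sub, cc, ← gs_sum]
    congr 2
    rw [sub_eq_iff_eq_add, ← gs_add]
    congr 1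
    funext γ
    by_cases h : ∀ v ∈ univ.filter (fun v => κ v = Fin.last N), 1 ≤ γ v
    · rw [if_pos h, Finset.sum_eq_zero, zero_add]
      intro p hp
      rw [if_neg]
      have := h p hp
      omega
    · rw [if_neg h, add_zero]
      push Not at h
      obtain ⟨p, hp, hp1⟩ := h
      have hp0 : γ p = 0 := by omega
      by_cases h' : ∃ p', p' ≠ p ∧ κ p' = Fin.last N ∧ γ p' = 0
      · obtain ⟨p', hne, hκ', hγ'⟩ := h'
        have hz : cw t γ κ = 0 := cw_eq_zero t γ κ hne
          (by rw [hκ', (Finset.mem_filter.1 hp).2]) (by rw [hγ', hp0])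
        rw [hz, Finset.sum_eq_zero]
        intro _ _
        simp
      · push Not at h'
        rw [Finset.sum_eq_single p]
        · rw [if_pos hp0]
        · intro b hb hbp
          rw [if_neg]
          exact h' b hbp (Finset.mem_filter.1 hb).2
        · intro h''
          exact absurd hp h''
  rw [h6, GG, Finset.sum_comm, Finset.mul_sum]
  refine Finset.sum_congr rfl fun p _ => ?_
  rw [Finset.mul_sum, ← Equiv.sum_comp (Equiv.arrowCongr (Equiv.refl (Fin n))
    (finRotate (N + 1))) (fun κ => if κ p = 0 then
    algebraMap (PowerSeries P) B (gp t p κ) * ∏ v, y (κ v) else 0)]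
  refine Finset.sum_congr rfl fun κ _ => ?_
  rw [h4]
  have h7 : finRotate (N + 1) (κ p) = 0 ↔ κ p = Fin.last N := by
    rw [← finRotate_last (n := N), Equiv.apply_eq_iff_eq]
  simp only [h7]
  split_ifs with hκ
  · rw [h3]
    have := congrArg (algebraMap (PowerSeries P) B) (gp_shift t p κ hκ)
    rw [map_mul, map_mul] at this
    linear_combination (∏ v, x (κ v)) * this
  · rw [mul_zero]

/-- the value for the smallest colour -/
lemma GG_zero (t : P) (n N : ℕ) (q' : B)
    (hq : algebraMap (PowerSeries P) B PowerSeries.X * q' = 1) (x : Fin (N + 1) → B) :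
    GG t n (N + 1) x 0 = algebraMap (PowerSeries P) B PowerSeries.X *
      (XX t n (N + 1) (Function.update x 0 (q' * x 0)) - XX t n (N + 1) x) := by
  set z : Fin (N + 1) → B := fun c => Function.update x 0 (q' * x 0) (finRotate (N + 1) c)
    with hz
  have h := XX_sub t n N z
  have e1 : (Fin.cons (algebraMap (PowerSeries P) B PowerSeries.X * z (Fin.last N))
        fun c => z c.castSucc : Fin (N + 1) → B) = x := by
    funext c
    refine Fin.cases ?_ (fun i => ?_) c
    · rw [Fin.cons_zero, hz]
      simp only [finRotate_last, Function.update_self]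
      rw [← mul_assoc, hq, one_mul]
    · rw [Fin.cons_succ, hz]
      simp only [finRotate_castSucc']
      rw [Function.update_of_ne (Fin.succ_ne_zero i)]
  rw [e1] at h
  rw [← h, hz, XX_perm t n (N + 1) (finRotate (N + 1)) (Function.update x 0 (q' * x 0))]

end

section
variable {P : Type*} [CommRing P]

/-- exchange relation for `GG` -/
lemma GG_exch (t : P) (n N : ℕ) (i j : Fin N) (hij : (i : ℕ) + 1 = j) :
    ExE (PowerSeries.C t) i j
      (GG t n N (fun a => (X a : MvPolynomial (Fin N) (PowerSeries P))) i)
      (GG t n N (fun a => (X a : MvPolynomial (Fin N) (PowerSeries P))) j) := by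
  classical
  apply ExE_of_cf
  intro d
  have hlt : i < j := by rw [Fin.lt_def]; omega
  have h1 : ∀ a, cf d (GG t n N (fun a => (X a : MvPolynomial (Fin N) (PowerSeries P))) a)
      = ∑ p : Fin n, ∑ γ ∈ (Finset.piAntidiag (univ : Finset (Fin n)) d).filter
          (fun γ => γ p = 0), ∑ κ : Fin n → Fin N,
        if κ p = a then cwt (C t : MvPolynomial (Fin N) P)
          (lu (raise {p}ᶜ γ)) n κ * ∏ v, X (κ v) else 0 := by
    intro a
    rw [GG, cf_sum]
    refine Finset.sum_congr rfl fun p _ => ?_
    rw [cf_sum, Finset.sum_comm]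
    refine Finset.sum_congr rfl fun κ _ => ?_
    split_ifs with hκ
    · have e : (∏ v, (X (κ v) : MvPolynomial (Fin N) (PowerSeries P)))
          = MvPolynomial.map PowerSeries.C (∏ v, X (κ v)) := by
        simp [map_prod]
      rw [MvPolynomial.algebraMap_eq, e, mul_comm, cf_mul, cf_C, gp, coeff_gs,
        Finset.sum_filter, map_sum, Finset.mul_sum]
      refine Finset.sum_congr rfl fun γ _ => ?_
      split_ifs
      · rw [cwt_map, cw_eq_cwt]
        ring
      · rw [map_zero, mul_zero]
    · rw [cf_zero, Finset.sum_const_zero]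
  rw [h1, h1]
  have h2 := Exch.sum (s := ((rename (Equiv.swap i j) :
      MvPolynomial (Fin N) P →ₐ[P] MvPolynomial (Fin N) P) :
        MvPolynomial (Fin N) P →+* MvPolynomial (Fin N) P))
    (t := C t) (x := X i) (y := X j) (univ : Finset (Fin n))
    (fun p => ∑ γ ∈ (Finset.piAntidiag (univ : Finset (Fin n)) d).filter
          (fun γ => γ p = 0), ∑ κ : Fin n → Fin N,
        if κ p = i then cwt (C t : MvPolynomial (Fin N) P)
          (lu (raise {p}ᶜ γ)) n κ * ∏ v, X (κ v) else 0)
    (fun p => ∑ γ ∈ (Finset.piAntidiag (univ : Finset (Fin n)) d).filter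
          (fun γ => γ p = 0), ∑ κ : Fin n → Fin N,
        if κ p = j then cwt (C t : MvPolynomial (Fin N) P)
          (lu (raise {p}ᶜ γ)) n κ * ∏ v, X (κ v) else 0)
    (fun p _ => Exch.sum _ _ _ fun γ hγ => ?_)
  · have h3 := h2.eq (by simp)
    exact h3
  · have hγ0 : γ p = 0 := (Finset.mem_filter.1 hγ).2
    refine exch_colour hlt (adj_fin i j hij) ?_ ?_ ?_ ?_ _ _ (lu_injective _) p ?_
    · simp
    · simp
    · simp
    · intro c hc1 hc2
      simp [Equiv.swap_apply_of_ne_of_ne hc1 hc2]
    · intro w hw
      have e1 : raise {p}ᶜ γ p = 0 := by simp [raise, hγ0]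
      have e2 : 1 ≤ raise {p}ᶜ γ w := by simp [raise, hw]
      simp only [lu, e1]
      have hv : (w : ℤ) < n := by exact_mod_cast w.2
      have hp0 : (0 : ℤ) ≤ (p : ℤ) := by positivity
      have : (n : ℤ) * 1 ≤ (n : ℤ) * (raise {p}ᶜ γ w : ℕ) := by
        apply mul_le_mul_of_nonneg_left
        · exact_mod_cast e2
        · positivity
      push_cast
      linarith

variable {R : Type*} [CommRing R] [Algebra (PowerSeries P) R]

lemma map_GG_X (t : P) (n N : ℕ) (a : Fin N) :
    MvPolynomial.map (algebraMap (PowerSeries P) R)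
      (GG t n N (fun a => (X a : MvPolynomial (Fin N) (PowerSeries P))) a)
      = GG t n N (fun a => (X a : MvPolynomial (Fin N) R)) a := by
  simp only [GG, map_sum]
  refine Finset.sum_congr rfl fun p _ => Finset.sum_congr rfl fun κ _ => ?_
  split_ifs
  · rw [map_mul, map_prod, MvPolynomial.algebraMap_eq, map_C,
      IsScalarTower.algebraMap_apply (PowerSeries P) R (MvPolynomial (Fin N) R),
      MvPolynomial.algebraMap_eq]
    simp
  · simp

lemma GG_exch' (t : P) (n N : ℕ) (i j : Fin N) (hij : (i : ℕ) + 1 = j) :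
    ExE (algebraMap (PowerSeries P) R (PowerSeries.C t)) i j
      (GG t n N (fun a => (X a : MvPolynomial (Fin N) R)) i)
      (GG t n N (fun a => (X a : MvPolynomial (Fin N) R)) j) := by
  have h := (GG_exch t n N i j hij).map (algebraMap (PowerSeries P) R)
  rw [map_GG_X, map_GG_X] at h
  exact h

end

section
variable {R : Type*} [CommRing R] {σ : Type*} [DecidableEq σ]

/-- `ExE` determines `g` from `f` -/
lemma ExE.unique_right [IsDomain R] {t : R} (ht : t ≠ 0) {i j : σ} (hij : i ≠ j)
    {f g g' : MvPolynomial σ R}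
    (h : ExE t i j f g) (h' : ExE t i j f g') : g = g' := by
  set s : MvPolynomial σ R →ₐ[R] MvPolynomial σ R := rename (Equiv.swap i j) with hs
  set u := g - g' with hu
  have h1 : (C t - 1) * X i * u + (X i - C t * X j) * s u = 0 := by
    rw [hu, map_sub]
    unfold ExE at h h'
    linear_combination h' - h
  have h2 : (C t - 1) * X j * s u + (X j - C t * X i) * u = 0 := by
    have h3 := congrArg s h1
    have h4 : s (s u) = u := by
      rw [hs, rename_rename]
      have : (Equiv.swap i j : σ → σ) ∘ (Equiv.swap i j : σ → σ) = id := by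
        funext a; simp
      rw [this, rename_id]
      rfl
    simp only [map_add, map_mul, map_sub, map_one, map_zero, h4] at h3
    have e1 : s (X i) = X j := by simp [hs]
    have e2 : s (X j) = X i := by simp [hs]
    have e3 : s (C t) = C t := by simp [hs]
    rw [e1, e2, e3] at h3
    exact h3
  have h5 : C t * (X i - X j) * (X i - X j) * u = 0 := by
    linear_combination ((C t - 1) * X j) * h1 - (X i - C t * X j) * h2
  have h6 : (X i - X j : MvPolynomial σ R) ≠ 0 := by
    rw [sub_ne_zero]
    intro h3
    exact hij (X_injective h3)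
  have h7 : (C t : MvPolynomial σ R) ≠ 0 := by
    intro h8
    exact ht (C_injective σ R (by rw [h8, C_0]))
  have h8 : C t * (X i - X j) * (X i - X j) ≠ (0 : MvPolynomial σ R) :=
    mul_ne_zero (mul_ne_zero h7 h6) h6
  exact sub_eq_zero.1 ((mul_eq_zero.1 h5).resolve_left h8)

end

end Pool.Agent.H158.TL
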