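import Mathlib
import Pool.Agent.H158.TL.Q2a
import Pool.Agent.H158.TL.Deg

set_option autoImplicit false
set_option linter.unusedSectionVars false

/-!
# The operator `D_0^*` in finitely many variables
-/

namespace Pool.Agent.H158.TL

open Finset MvPolynomial
open Pool.Agent.H209R2.EH

section
variable {R : Type*} [CommRing R] [Algebra ℚ R]

lemma pairing_scale {B : Type*} [CommRing B] [Algebra R B] (l : R) (f : ℕ+ → B) (c : ℕ → R)
    (E : ℕ → B) (F : Sym R) :
    pairing (fun i => algebraMap R B l ^ i * E i) (shiftTo f c F)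
      = pairing E (shiftTo f (fun k => l ^ k * c k) F) := by
  have h1 : shiftTo f (fun k => l ^ k * c k) F
      = (Polynomial.aeval (R := B) (Polynomial.C (algebraMap R B l) * Polynomial.X))
        (shiftTo f c F) := by
    have : (shiftTo f (fun k => l ^ k * c k) : Sym R →ₐ[R] _)
        = ((Polynomial.aeval (R := B)
            (Polynomial.C (algebraMap R B l) * Polynomial.X)).restrictScalars R).comp
              (shiftTo f c) := by
      apply MvPolynomial.algHom_ext
      intro k
      simp only [AlgHom.comp_apply, shiftTo, aeval_X, AlgHom.restrictScalars_apply, map_add,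
        Polynomial.aeval_C, Polynomial.aeval_monomial]
      rw [mul_pow, ← Polynomial.C_pow, ← Polynomial.C_mul_X_pow_eq_monomial]
      simp only [Polynomial.algebraMap_eq, map_mul, map_pow, Polynomial.C_mul, Polynomial.C_pow]
      ring
    exact congrArg (fun φ => φ F) this
  rw [h1]
  generalize shiftTo f c F = P
  induction P using Polynomial.induction_on' with
  | add p q hp hq => simp only [map_add, hp, hq]
  | monomial i a =>
    rw [Polynomial.aeval_monomial, mul_pow, ← Polynomial.C_pow, Polynomial.algebraMap_eq,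
      ← mul_assoc, ← Polynomial.C_mul, Polynomial.C_mul_X_pow_eq_monomial, pairing_monomial,
      pairing_monomial]
    ring

/-- the operator `D_0^*` -/
noncomputable def D0s (q' t' : R) : Sym R →ₗ[R] Sym R :=
  VO (fun k => -((1 - q' ^ k) * (1 - t' ^ k))) (fun _ => 1) 0

/-- the candidates -/
noncomputable def gcand (q' t t' : R) (N : ℕ) (F : Sym R) (i : Fin N) :
    MvPolynomial (Fin N) R :=
  pairing (fun m => PowerSeries.coeff m
      (UL (C t') (fun a => (X a : MvPolynomial (Fin N) R)) i))
    (shiftTo (fun k => psi t N (X k)) (fun k => (t ^ k - 1) * (q' ^ k - 1)) F)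

lemma shiftTo_eval_zero {B : Type*} [CommRing B] [Algebra R B] (f : ℕ+ → B) (c : ℕ → R)
    (F : Sym R) : pairing (fun i => (0 : B) ^ i) (shiftTo f c F) = aeval f F := by
  rw [pairing_pow, eval_shiftTo]
  congr 1
  congr 1
  funext k
  rw [zero_pow k.ne_zero, mul_zero, add_zero]

lemma psi_eq_aeval (t : R) (N : ℕ) (F : Sym R) :
    aeval (fun k => psi t N (X k)) F = psi t N F := by
  rw [psi]
  simp

lemma psi_D0s (q' t t' : R) (htt : t * t' = 1) (N : ℕ) (F : Sym R) :
    psi t N (D0s q' t' F) = psi t N F + C (1 - t') * ∑ i, gcand q' t t' N F i := by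
  have h1 : ∀ i, expo (fun k => algebraMap R (MvPolynomial (Fin N) R) 1 *
      psi t N (pw R k)) (i + 0)
      = algebraMap R (MvPolynomial (Fin N) R) t ^ i * ((0 : MvPolynomial (Fin N) R) ^ i
        + (1 - C t') * ∑ a, PowerSeries.coeff i
        (UL (C t') (fun a => (X a : MvPolynomial (Fin N) R)) a)) := by
    intro i
    have e1 : (fun k => algebraMap R (MvPolynomial (Fin N) R) 1 * psi t N (pw R k))
        = fun k => ((1 - (C t') ^ k) * ∑ i, (X i : MvPolynomial (Fin N) R) ^ k) * C t ^ k := by
      funext k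
      rw [psi_pw, map_one, one_mul]
      have : (C t : MvPolynomial (Fin N) R) ^ k * C t' ^ k = 1 := by
        rw [← mul_pow, ← C_mul, htt, C_1, one_pow]
      rw [map_sub, map_one, map_pow]
      linear_combination (∑ i, (X i : MvPolynomial (Fin N) R) ^ k) * this
    rw [add_zero, e1, expo_scale, MvPolynomial.algebraMap_eq, mul_comm]
    congr 1
    cases i with
    | zero =>
      rw [expo_zero, pow_zero]
      have : ∀ a, PowerSeries.coeff 0
        (UL (C t') (fun a => (X a : MvPolynomial (Fin N) R)) a) = 0 := by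
        intro a
        simp [UL]
      simp only [this]
      simp
    | succ m =>
      rw [expo_eq_UL, zero_pow (Nat.succ_ne_zero m), zero_add]
  rw [D0s, map_VO]
  simp only [h1]
  rw [pairing_scale]
  have h2 : (fun k => t ^ k * -((1 - q' ^ k) * (1 - t' ^ k)))
      = fun k => (t ^ k - 1) * (q' ^ k - 1) := by
    funext k
    have : t ^ k * t' ^ k = 1 := by rw [← mul_pow, htt, one_pow]
    linear_combination (1 - q' ^ k) * this
  rw [h2, pairing_add_seq, shiftTo_eval_zero, psi_eq_aeval, pairing_smul_seq, pairing_sum_seq]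
  rw [map_sub, map_one]
  rfl

lemma shiftTo_symm' (t : R) (c : ℕ → R) (N : ℕ) (e : Equiv.Perm (Fin N)) (F : Sym R) :
    (shiftTo (fun k => psi t N (X k)) c F).map
      ((rename e : MvPolynomial (Fin N) R →ₐ[R] MvPolynomial (Fin N) R) :
        MvPolynomial (Fin N) R →+* MvPolynomial (Fin N) R)
      = shiftTo (fun k => psi t N (X k)) c F := by
  rw [← shiftTo_map, Polynomial.map_map]
  have : (((rename e : MvPolynomial (Fin N) R →ₐ[R] MvPolynomial (Fin N) R) :
        MvPolynomial (Fin N) R →+* MvPolynomial (Fin N) R).comp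
        ((psi t N : Sym R →ₐ[R] MvPolynomial (Fin N) R) : Sym R →+* _))
      = ((psi t N : Sym R →ₐ[R] MvPolynomial (Fin N) R) : Sym R →+* _) := by
    have h : (rename e : MvPolynomial (Fin N) R →ₐ[R] MvPolynomial (Fin N) R).comp (psi t N)
        = psi t N := by
      apply MvPolynomial.algHom_ext
      intro k
      rw [AlgHom.comp_apply, psi_X, map_mul, map_sum]
      simp only [map_pow, rename_X, rename_C]
      congr 1
      exact Equiv.sum_comp e (fun i => (X i : MvPolynomial (Fin N) R) ^ (k : ℕ))
    exact congrArg (fun φ : Sym R →ₐ[R] MvPolynomial (Fin N) R =>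
      (φ : Sym R →+* MvPolynomial (Fin N) R)) h
  rw [this]

lemma gcand_exch (q' t t' : R) (htt : t * t' = 1) (N : ℕ) (F : Sym R) {i j : Fin N}
    (hij : (i : ℕ) + 1 = j) :
    ExE t i j (gcand q' t t' N F i) (gcand q' t t' N F j) := by
  classical
  set s : MvPolynomial (Fin N) R →+* MvPolynomial (Fin N) R :=
    ((rename (Equiv.swap i j) : MvPolynomial (Fin N) R →ₐ[R] MvPolynomial (Fin N) R) :
        MvPolynomial (Fin N) R →+* MvPolynomial (Fin N) R) with hs
  set Q := shiftTo (fun k => psi t N (X k)) (fun k => (t ^ k - 1) * (q' ^ k - 1)) F with hQ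
  have hinv : ∀ m, s (Q.coeff m) = Q.coeff m := by
    intro m
    rw [← Polynomial.coeff_map, hs, hQ, shiftTo_symm']
  have h : Exch s (C t) (X i) (X j) (gcand q' t t' N F i) (gcand q' t t' N F j) := by
    rw [gcand, gcand, ← hQ, pairing_eq_sum _ Q (Q.natDegree + 1) (Nat.lt_succ_self _),
      pairing_eq_sum _ Q (Q.natDegree + 1) (Nat.lt_succ_self _)]
    refine Exch.sum _ _ _ fun m _ => ?_
    refine Exch.mul_left (hinv m) ?_
    refine exch_UL s (C t) (C t') _ hij ?_ ?_ ?_ _
    · rw [← C_mul, htt, C_1]
    · simp [hs]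
    · intro k
      simp [hs]
  have h2 := h.eq (by simp [hs])
  exact h2

lemma gcand_zero (q' t t' : R) (N : ℕ) (F : Sym R) :
    gcand q' t t' (N + 1) F 0 =
      aeval (Function.update (fun a => (X a : MvPolynomial (Fin (N + 1)) R)) 0
        (C q' * X 0)) (psi t (N + 1) F) - psi t (N + 1) F := by
  have h1 : (fun m => PowerSeries.coeff m
      (UL (C t') (fun a => (X a : MvPolynomial (Fin (N + 1)) R)) 0))
      = fun m => (X 0 : MvPolynomial (Fin (N + 1)) R) ^ m + (-1) * 0 ^ m := by
    funext m
    have : (univ.filter fun j : Fin (N + 1) => j < 0) = ∅ := by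
      rw [Finset.filter_eq_empty_iff]
      intro j _
      exact Fin.not_lt_zero j
    rw [UL, this, Finset.prod_empty, mul_one, mul_assoc, PowerSeries.coeff_C_mul]
    cases m with
    | zero => simp
    | succ m =>
      rw [PowerSeries.coeff_succ_X_mul, geo, Om, PowerSeries.coeff_mk, expo_geom,
        zero_pow (Nat.succ_ne_zero m)]
      ring
  rw [gcand, h1, pairing_add_seq, pairing_smul_seq, shiftTo_eval_zero, psi_eq_aeval,
    pairing_pow, eval_shiftTo]
  have h2 : (aeval (Function.update (fun a => (X a : MvPolynomial (Fin (N + 1)) R)) 0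
        (C q' * X 0))).comp (psi t (N + 1))
      = aeval (fun k : ℕ+ => psi t (N + 1) (X k) + algebraMap R (MvPolynomial (Fin (N + 1)) R)
        ((t ^ (k : ℕ) - 1) * (q' ^ (k : ℕ) - 1)) * X 0 ^ (k : ℕ)) := by
    apply MvPolynomial.algHom_ext
    intro k
    rw [AlgHom.comp_apply, psi_X, aeval_X, psi_X, map_mul, map_sum, Fin.sum_univ_succ,
      Fin.sum_univ_succ, MvPolynomial.algebraMap_eq]
    have e1 : ∀ a : Fin N, aeval (Function.update (fun a => (X a : MvPolynomial (Fin (N + 1)) R))
        0 (C q' * X 0)) ((X a.succ : MvPolynomial (Fin (N + 1)) R)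
          ^ (k : ℕ)) = X a.succ ^ (k : ℕ) := by
      intro a
      rw [map_pow, aeval_X, Function.update_of_ne (Fin.succ_ne_zero a)]
    have e2 : aeval (Function.update (fun a => (X a : MvPolynomial (Fin (N + 1)) R))
        0 (C q' * X 0)) ((X 0 : MvPolynomial (Fin (N + 1)) R)
          ^ (k : ℕ)) = C (q' ^ (k : ℕ)) * X 0 ^ (k : ℕ) := by
      rw [map_pow, aeval_X, Function.update_self, mul_pow, C_pow]
    simp only [e1, e2]
    rw [MvPolynomial.aeval_C, MvPolynomial.algebraMap_eq]
    simp only [map_sub, map_mul, map_one, map_pow]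
    ring
  have h3 := congrArg (fun φ => φ F) h2
  simp only [AlgHom.comp_apply] at h3
  rw [h3]
  ring

end

section
variable {P : Type*} [CommRing P] {R : Type*} [CommRing R] [Algebra (PowerSeries P) R]
variable [Algebra ℚ R] [IsDomain R]

theorem psi_D0s_eq (t₀ : P) (q' t' c : R)
    (htt : algebraMap (PowerSeries P) R (PowerSeries.C t₀) * t' = 1)
    (hqq : algebraMap (PowerSeries P) R PowerSeries.X * q' = 1) (n : ℕ) (F : Sym R) (N : ℕ)
    (hF : psi (algebraMap (PowerSeries P) R (PowerSeries.C t₀)) N F
      = C c * XX t₀ n N (fun a => (X a : MvPolynomial (Fin N) R))) :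
    psi (algebraMap (PowerSeries P) R (PowerSeries.C t₀)) N (D0s q' t' F)
      = psi (algebraMap (PowerSeries P) R (PowerSeries.C t₀)) N F + C (1 - t') *
        (C (c * q') * ∑ a, GG t₀ n N (fun a => (X a : MvPolynomial (Fin N) R)) a) := by
  set t : R := algebraMap (PowerSeries P) R (PowerSeries.C t₀) with ht
  set q : R := algebraMap (PowerSeries P) R PowerSeries.X with hq
  have ht0 : t ≠ 0 := left_ne_zero_of_mul_eq_one htt
  rw [psi_D0s q' t t' htt, Finset.mul_sum _ _ (C (c * q'))]
  congr 2
  refine Finset.sum_congr rfl fun a _ => ?_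
  cases N with
  | zero => exact a.elim0
  | succ N =>
    induction a using Fin.induction with
    | zero =>
      have e : algebraMap (PowerSeries P) (MvPolynomial (Fin (N + 1)) R) PowerSeries.X
          = C q := by
        rw [IsScalarTower.algebraMap_apply (PowerSeries P) R (MvPolynomial (Fin (N + 1)) R),
          MvPolynomial.algebraMap_eq]
      have e2 : (C q : MvPolynomial (Fin (N + 1)) R) * C q' = 1 := by
        rw [← C_mul, hqq, C_1]
      rw [gcand_zero, hF, GG_zero t₀ n N (C q') (by rw [e, e2]), map_mul, aeval_XX,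
        MvPolynomial.aeval_C, MvPolynomial.algebraMap_eq, e, map_mul]
      linear_combination (- C c * (XX t₀ n (N + 1)
        (Function.update (fun a => (X a : MvPolynomial (Fin (N + 1)) R)) 0 (C q' * X 0))
        - XX t₀ n (N + 1) (fun a => (X a : MvPolynomial (Fin (N + 1)) R)))) * e2
    | succ i h =>
      refine ExE.unique_right ht0 (i := i.castSucc) (j := i.succ)
        (f := gcand q' t t' (N + 1) F i.castSucc) ?_ ?_ ?_
      · exact (Fin.castSucc_lt_succ).ne
      · exact gcand_exch q' t t' htt (N + 1) F (by simp)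
      · rw [h (mem_univ _)]
        exact (GG_exch' t₀ n (N + 1) _ _ (by simp)).C_mul _

end

end Pool.Agent.H158.TL
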