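import Mathlib
import Pool.Agent.H158.TL.Q2b

set_option autoImplicit false
set_option linter.unusedSectionVars false

/-!
# Commutation relations between the vertex operators
-/

namespace Pool.Agent.H158.TL

open Finset MvPolynomial
open Pool.Agent.H209R2.EH

section
variable {A : Type*} [CommRing A] [Algebra ℚ A]

lemma expo_congr (x y : ℕ → A) (h : ∀ k, x (k + 1) = y (k + 1)) (n : ℕ) :
    expo x n = expo y n := by
  refine expo_unique y (fun n => expo x n) (expo_zero x) ?_ n
  intro n
  rw [expo_succ]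
  refine Finset.sum_congr rfl fun ij _ => ?_
  rw [h]

lemma pairing_monomial_mul (E : ℕ → A) (k : ℕ) (b : A) (Q : Polynomial A) :
    pairing E (Polynomial.monomial k b * Q) = b * pairing (fun i => E (i + k)) Q := by
  induction Q using Polynomial.induction_on' with
  | add p q hp hq => rw [mul_add, map_add, map_add, hp, hq, mul_add]
  | monomial i a =>
    rw [Polynomial.monomial_mul_monomial, pairing_monomial, pairing_monomial, add_comm k i]
    ring

/-- coefficients of `(1 - a u)(1 - b u) / ((1 - u)(1 - a b u))` -/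
noncomputable def kap (a b : A) (l : ℕ) : A := expo (fun k => (1 - a ^ k) * (1 - b ^ k)) l

lemma kap_zero (a b : A) : kap a b 0 = 1 := expo_zero _

lemma kap_eq (a b : A) (l : ℕ) :
    (1 - a * b) * kap a b l = (1 - a) * (1 - b) * (1 - (a * b) ^ l)
      + if l = 0 then (1 - a * b) else 0 := by
  have h1 := geo_mul (1 : A)
  have h2 := geo_mul (a * b)
  have h3 : Om (fun k => (1 - a ^ k) * (1 - b ^ k))
      = geo 1 * geo (a * b) * (1 - PowerSeries.C a * PowerSeries.X) *
        (1 - PowerSeries.C b * PowerSeries.X) := by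
    rw [← Om_neg_geom, ← Om_neg_geom, geo, geo, ← Om_add, ← Om_add, ← Om_add]
    congr 1
    funext k
    rw [mul_pow, one_pow]
    ring
  have h4 : PowerSeries.C (1 - a * b) * Om (fun k => (1 - a ^ k) * (1 - b ^ k))
      = PowerSeries.C (1 - a * b) + PowerSeries.C ((1 - a) * (1 - b)) *
        (geo 1 - geo (a * b)) := by
    rw [h3]
    simp only [map_sub, map_mul, map_one] at h1 h2 ⊢
    set g1 := geo (1 : A)
    set g2 := geo (a * b)
    set Z : PowerSeries A := PowerSeries.X
    set u := PowerSeries.C a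
    set v := PowerSeries.C b
    linear_combination (1 - u * v) * ((g1 * (1 - 1 * Z)) * h2 + h1)
      + (1 - u) * (1 - v) * (g1 * h2 - g2 * h1)
  have h5 := congrArg (PowerSeries.coeff l) h4
  rw [PowerSeries.coeff_C_mul, map_add, PowerSeries.coeff_C_mul, PowerSeries.coeff_C,
    map_sub (PowerSeries.coeff l)] at h5
  simp only [Om, geo, PowerSeries.coeff_mk, expo_geom, one_pow] at h5
  have h6 : expo (fun _ => (1 : A)) l = 1 := by
    have h7 := expo_geom (1 : A) l
    simpa only [one_pow] using h7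
  rw [h6] at h5
  rw [kap, h5]
  ring

end

section
variable {R : Type*} [CommRing R] [Algebra ℚ R]

lemma VO_mul_X (c d : ℕ → R) (r : ℕ) (k : ℕ+) (F : Sym R) :
    VO c d r (X k * F) = X k * VO c d r F + C (c k) * VO c d (r + k) F := by
  rw [VO_apply, map_mul, shift_X, add_mul, map_add, pairing_C_mul, pairing_monomial_mul,
    VO_apply, VO_apply]
  congr 3
  congr 1
  funext i
  congr 1
  omega

lemma VO_one (c d : ℕ → R) (r : ℕ) :
    VO c d r 1 = expo (fun k => C (d k) * pw R k) r := by
  rw [VO_apply, map_one]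
  have : (1 : Polynomial (Sym R)) = Polynomial.monomial 0 1 := by simp
  rw [this, pairing_monomial, one_mul, zero_add]

lemma shift_expo (c d : ℕ → R) (n : ℕ) :
    shift c (expo (fun k => C (d k) * pw R k) n) = ∑ ij ∈ antidiagonal n,
      Polynomial.monomial ij.2 (expo (fun k => C (d k) * pw R k) ij.1 *
        C (expo (fun k => d k * c k) ij.2)) := by
  have h1 := expo_map ((shift c : Sym R →ₐ[R] Polynomial (Sym R)) :
    Sym R →+* Polynomial (Sym R))
    (fun k => C (d k) * pw R k) n
  have h2 : shift c (expo (fun k => C (d k) * pw R k) n)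
      = expo (fun k => Polynomial.C (C (d k) * pw R k)
        + Polynomial.C (C (d k * c k)) * Polynomial.X ^ k) n := by
    refine h1.trans (expo_congr _ _ (fun k => ?_) n)
    rw [pw]
    have : shift c (C (d (k + 1)) * X k.succPNat) = Polynomial.C (C (d (k + 1)) * X k.succPNat)
        + Polynomial.C (C (d (k + 1) * c (k + 1))) * Polynomial.X ^ (k + 1) := by
      rw [map_mul, shift_X, ← MvPolynomial.algebraMap_eq, AlgHom.commutes,
        Polynomial.algebraMap_apply, MvPolynomial.algebraMap_eq,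
        ← Polynomial.C_mul_X_pow_eq_monomial]
      simp only [Nat.succPNat_coe, Nat.succ_eq_add_one, C_mul, Polynomial.C_mul]
      ring
    exact this
  rw [h2, expo_add]
  refine Finset.sum_congr rfl fun ij _ => ?_
  have h3 := expo_map (Polynomial.C : Sym R →+* Polynomial (Sym R))
    (fun k => C (d k) * pw R k) ij.1
  have h4 := expo_map ((Polynomial.C : Sym R →+* Polynomial (Sym R)).comp
    (C : R →+* Sym R)) (fun k => d k * c k) ij.2
  have h5 := expo_scale (fun k => (Polynomial.C (C (d k * c k)) : Polynomial (Sym R)))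
    Polynomial.X ij.2
  rw [h5, ← h3]
  simp only [RingHom.comp_apply] at h4
  rw [← h4, ← mul_assoc, ← Polynomial.C_mul, Polynomial.C_mul_X_pow_eq_monomial]

lemma pairing_sum_monomial (E : ℕ → Sym R) (n : ℕ) (f : ℕ → Sym R) (g : ℕ → R) :
    pairing E (∑ ij ∈ antidiagonal n, Polynomial.monomial ij.2 (f ij.1 * C (g ij.2)))
      = ∑ ij ∈ antidiagonal n, f ij.1 * C (g ij.2) * E ij.2 := by
  rw [map_sum]
  simp only [pairing_monomial]

/-- The operators `D_s` -/
noncomputable def Dk (q t : R) (s : ℕ) : Sym R →ₗ[R] Sym R :=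
  VO (fun k => (1 - q ^ k) * (1 - t ^ k)) (fun _ => -1) s

/-- The operators `D_r^*` -/
noncomputable def Dks (q' t' : R) (r : ℕ) : Sym R →ₗ[R] Sym R :=
  VO (fun k => -((1 - q' ^ k) * (1 - t' ^ k))) (fun _ => 1) r

lemma VO_C_mul (c d : ℕ → R) (r : ℕ) (a : R) (F : Sym R) :
    VO c d r (C a * F) = C a * VO c d r F := by
  rw [← smul_eq_C_mul, map_smul, smul_eq_C_mul]

lemma comm_one (q t q' t' : R) (hq : q * q' = 1) (ht : t * t' = 1) (r s : ℕ)
    (hrs : 1 ≤ r + s) :
    C (1 - q * t) * (Dks q' t' r (Dk q t s 1) - Dk q t s (Dks q' t' r 1))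
      = C ((1 - q) * (1 - t) * (q * t) ^ r) *
        expo (fun k => C ((q' * t') ^ k - 1) * pw R k) (r + s) := by
  set Em : ℕ → Sym R := expo (fun k => C (-1 : R) * pw R k) with hEm
  set Ep : ℕ → Sym R := expo (fun k => C (1 : R) * pw R k) with hEp
  set ρ : R := q * t with hρ
  set ρ' : R := q' * t' with hρ'
  have hρρ : ρ * ρ' = 1 := by
    rw [hρ, hρ']
    linear_combination (t * t') * hq + ht
  have e1 : Dks q' t' r (Dk q t s 1)
      = ∑ ij ∈ antidiagonal s, Em ij.1 * C (kap q' t' ij.2) * Ep (ij.2 + r) := by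
    rw [Dk, VO_one, Dks, VO_apply, shift_expo, pairing_sum_monomial]
    refine Finset.sum_congr rfl fun ij _ => ?_
    congr 4
    funext k
    ring
  have e2 : Dk q t s (Dks q' t' r 1)
      = ∑ ij ∈ antidiagonal r, Ep ij.1 * C (kap q t ij.2) * Em (ij.2 + s) := by
    rw [Dks, VO_one, Dk, VO_apply, shift_expo, pairing_sum_monomial]
    refine Finset.sum_congr rfl fun ij _ => ?_
    congr 4
    funext k
    ring
  have k1 : ∀ l, (1 - ρ) * kap q' t' l
      = (1 - q) * (1 - t) * (ρ' ^ l - 1) + if l = 0 then (1 - ρ) else 0 := by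
    intro l
    have h := kap_eq q' t' l
    rw [← hρ'] at h
    have h2 : (1 - ρ) = -ρ * (1 - ρ') := by linear_combination -hρρ
    have h3 : (1 - q) * (1 - t) = ρ * ((1 - q') * (1 - t')) := by
      rw [hρ]
      linear_combination (t - t * t') * hq + (q - 1) * ht
    split_ifs at h ⊢ with hl
    · rw [h3]
      linear_combination (-ρ) * h + (kap q' t' l - 1) * h2
    · rw [h3]
      linear_combination (-ρ) * h + (kap q' t' l) * h2
  have k2 : ∀ l, (1 - ρ) * kap q t l
      = (1 - q) * (1 - t) * (1 - ρ ^ l) + if l = 0 then (1 - ρ) else 0 := by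
    intro l
    exact kap_eq q t l
  set g : ℕ → Sym R := fun j => C (ρ ^ r * ρ' ^ j - 1) * (Em (r + s - j) * Ep j) with hg
  -- the right hand side
  have hG : C (ρ ^ r) * expo (fun k => C (ρ' ^ k - 1) * pw R k) (r + s)
      = ∑ j ∈ range (r + s + 1), g j := by
    have h1 : expo (fun k => C (ρ' ^ k - 1) * pw R k) (r + s)
        = ∑ ij ∈ antidiagonal (r + s), Em ij.2 * (C (ρ' ^ ij.1) * Ep ij.1) := by
      have e : (fun k => C (ρ' ^ k - 1) * pw R k)
          = fun k => (C (1 : R) * pw R k * (C ρ') ^ k) + C (-1 : R) * pw R k := by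
        funext k
        simp only [C_sub, C_pow, C_1, C_neg]
        ring
      rw [e, expo_add]
      refine Finset.sum_congr rfl fun ij _ => ?_
      rw [expo_scale, C_pow]
      ring
    have h2 : ∑ ij ∈ antidiagonal (r + s), Em ij.2 * Ep ij.1 = 0 := by
      have h3 := expo_add (fun k => C (1 : R) * pw R k) (fun k => C (-1 : R) * pw R k) (r + s)
      have h4 : (fun k => C (1 : R) * pw R k + C (-1 : R) * pw R k) = fun _ => (0 : Sym R) := by
        funext k
        simp only [C_1, C_neg]
        ring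
      rw [h4, expo_zero_seq, if_neg (by omega)] at h3
      rw [h3]
      refine Finset.sum_congr rfl fun ij _ => ?_
      ring
    rw [Finset.Nat.sum_antidiagonal_eq_sum_range_succ (fun i j => Em j * Ep i)] at h2
    rw [h1, Finset.Nat.sum_antidiagonal_eq_sum_range_succ
      (fun i j => Em j * (C (ρ' ^ i) * Ep i)), Finset.mul_sum,
      ← sub_zero (∑ i ∈ range (r + s).succ, C (ρ ^ r) * (Em (r + s - i) * (C (ρ' ^ i) * Ep i))),
      ← h2, ← Finset.sum_sub_distrib]
    refine Finset.sum_congr rfl fun j _ => ?_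
    rw [hg]
    simp only [C_sub, C_mul, C_1]
    ring
  rw [C_mul (σ := ℕ+), mul_assoc, hG]
  have hsplit : ∑ j ∈ range (r + s + 1), g j
      = ∑ j ∈ range (r + 1), g j + ∑ x ∈ range (s + 1), g (r + x) := by
    have hz : g r = 0 := by
      rw [hg]
      simp only
      rw [← mul_pow, hρρ, one_pow, sub_self, C_0, zero_mul]
    rw [add_assoc, Finset.sum_range_add, Finset.sum_range_succ _ r, hz, add_zero]
  rw [hsplit, e1, e2, mul_sub, Finset.mul_sum, Finset.mul_sum]
  rw [← Finset.Nat.sum_antidiagonal_swap (n := s)]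
  simp only [Prod.fst_swap, Prod.snd_swap]
  rw [Finset.Nat.sum_antidiagonal_eq_sum_range_succ
      (fun i j => C (1 - ρ) * (Em j * C (kap q' t' i) * Ep (i + r))) s,
    Finset.Nat.sum_antidiagonal_eq_sum_range_succ
      (fun i j => C (1 - ρ) * (Ep i * C (kap q t j) * Em (j + s))) r]
  have f1 : ∑ k ∈ range s.succ, C (1 - ρ) * (Em (s - k) * C (kap q' t' k) * Ep (k + r))
      = C ((1 - q) * (1 - t)) * ∑ x ∈ range (s + 1), g (r + x) + C (1 - ρ) * (Em s * Ep r) := by
    have : C (1 - ρ) * (Em s * Ep r) = ∑ k ∈ range (s + 1),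
        (if k = 0 then C (1 - ρ) * (Em s * Ep r) else 0) := by
      rw [Finset.sum_ite_eq']
      simp
    rw [this, Finset.mul_sum, ← Finset.sum_add_distrib]
    refine Finset.sum_congr rfl fun k hk => ?_
    have hk' : k ≤ s := Nat.lt_succ_iff.1 (Finset.mem_range.1 hk)
    have e : C (1 - ρ) * (Em (s - k) * C (kap q' t' k) * Ep (k + r))
        = C ((1 - ρ) * kap q' t' k) * (Em (s - k) * Ep (k + r)) := by
      rw [C_mul]; ring
    rw [e, k1, hg]
    have e3 : ρ ^ r * ρ' ^ (r + k) = ρ' ^ k := by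
      rw [pow_add, ← mul_assoc, ← mul_pow, hρρ, one_pow, one_mul]
    have e4 : r + s - (r + k) = s - k := by omega
    simp only [e3, e4]
    rw [add_comm k r]
    split_ifs with h0
    · rw [h0]
      simp only [C_add, C_mul, Nat.sub_zero, add_zero]
      ring
    · simp only [C_add, C_mul, C_0]
      ring
  have f2 : ∑ k ∈ range r.succ, C (1 - ρ) * (Ep k * C (kap q t (r - k)) * Em (r - k + s))
      = - (C ((1 - q) * (1 - t)) * ∑ j ∈ range (r + 1), g j) + C (1 - ρ) * (Em s * Ep r) := by
    have : C (1 - ρ) * (Em s * Ep r) = ∑ k ∈ range (r + 1),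
        (if k = r then C (1 - ρ) * (Em s * Ep r) else 0) := by
      rw [Finset.sum_ite_eq']
      simp
    rw [this, Finset.mul_sum, ← Finset.sum_neg_distrib, ← Finset.sum_add_distrib]
    refine Finset.sum_congr rfl fun k hk => ?_
    have hk' : k ≤ r := Nat.lt_succ_iff.1 (Finset.mem_range.1 hk)
    have e : C (1 - ρ) * (Ep k * C (kap q t (r - k)) * Em (r - k + s))
        = C ((1 - ρ) * kap q t (r - k)) * (Ep k * Em (r - k + s)) := by
      rw [C_mul]; ring
    rw [e, k2, hg]
    have e3 : ρ ^ r * ρ' ^ k = ρ ^ (r - k) := by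
      have : ρ ^ r = ρ ^ (r - k) * ρ ^ k := by rw [← pow_add]; congr 1; omega
      rw [this, mul_assoc, ← mul_pow, hρρ, one_pow, mul_one]
    have e4 : r - k + s = r + s - k := by omega
    simp only [e3, e4]
    by_cases h0 : k = r
    · rw [if_pos h0, if_pos (by omega), h0]
      simp only [Nat.sub_self, pow_zero, sub_self, mul_zero, zero_add, C_0, zero_mul, neg_zero,
        Nat.add_sub_cancel_left]
      ring
    · rw [if_neg h0, if_neg (by omega)]
      simp only [C_add, C_mul, C_0, C_sub, C_1]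
      ring
  rw [f1, f2]
  ring

/-- the commutation relation between `D_r^*` and `D_s` -/
theorem comm_rel (q t q' t' : R) (hq : q * q' = 1) (ht : t * t' = 1) (F : Sym R) :
    ∀ r s : ℕ, 1 ≤ r + s →
    C (1 - q * t) * (Dks q' t' r (Dk q t s F) - Dk q t s (Dks q' t' r F))
      = C ((1 - q) * (1 - t) * (q * t) ^ r) *
        expo (fun k => C ((q' * t') ^ k - 1) * pw R k) (r + s) * F := by
  induction F using MvPolynomial.induction_on with
  | C a =>
    intro r s hrs
    have h := comm_one q t q' t' hq ht r s hrs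
    have e : (C a : Sym R) = C a * 1 := (mul_one _).symm
    rw [e, Dk, Dks, VO_C_mul, VO_C_mul, VO_C_mul, VO_C_mul, ← Dk, ← Dks]
    linear_combination (C a) * h
  | add p p' h h' =>
    intro r s hrs
    have h1 := h r s hrs
    have h2 := h' r s hrs
    simp only [map_add]
    linear_combination h1 + h2
  | mul_X p k h =>
    intro r s hrs
    have h1 := h r s hrs
    have h2 := h (r + k) s (by omega)
    have h3 := h r (s + k) (by omega)
    have e1 : ∀ r F, Dks q' t' r (X k * F) = X k * Dks q' t' r F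
        + C (-((1 - q' ^ (k : ℕ)) * (1 - t' ^ (k : ℕ)))) * Dks q' t' (r + k) F := by
      intro r F
      rw [Dks, VO_mul_X, ← Dks, ← Dks]
    have e2 : ∀ s F, Dk q t s (X k * F) = X k * Dk q t s F
        + C ((1 - q ^ (k : ℕ)) * (1 - t ^ (k : ℕ))) * Dk q t (s + k) F := by
      intro s F
      rw [Dk, VO_mul_X, ← Dk, ← Dk]
    have e3 : ∀ r a F, Dks q' t' r (C a * F) = C a * Dks q' t' r F := fun r a F => VO_C_mul _ _ _ _ _
    have e4 : ∀ s a F, Dk q t s (C a * F) = C a * Dk q t s F := fun s a F => VO_C_mul _ _ _ _ _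
    rw [mul_comm p (X k), e2, e1]
    simp only [map_add]
    rw [e1, e2, e3, e4]
    have e5 : r + (s + (k : ℕ)) = r + k + s := by omega
    rw [e5] at h3
    have hk1 : q ^ (k : ℕ) * q' ^ (k : ℕ) = 1 := by rw [← mul_pow, hq, one_pow]
    have hk2 : t ^ (k : ℕ) * t' ^ (k : ℕ) = 1 := by rw [← mul_pow, ht, one_pow]
    have e6 : -((1 - q' ^ (k : ℕ)) * (1 - t' ^ (k : ℕ))) * (q * t) ^ (r + (k : ℕ))
        + ((1 - q ^ (k : ℕ)) * (1 - t ^ (k : ℕ))) * (q * t) ^ r = 0 := by
      rw [pow_add, mul_pow q t (k : ℕ)]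
      linear_combination ((q * t) ^ r * (t ^ (k : ℕ) - t ^ (k : ℕ) * t' ^ (k : ℕ))) * hk1
        + ((q * t) ^ r * (q ^ (k : ℕ) - 1)) * hk2
    have e7 := congrArg (C : R → Sym R) e6
    simp only [map_add, map_mul, map_neg, map_sub, map_one, map_pow, map_zero] at h1 h2 h3 e7 ⊢
    linear_combination (X k) * h1 + (-((1 - C q' ^ (k : ℕ)) * (1 - C t' ^ (k : ℕ)))) * h2
      + ((1 - C q ^ (k : ℕ)) * (1 - C t ^ (k : ℕ))) * h3 + ((1 - C q) * (1 - C t) *
        expo (fun k => ((C q' * C t') ^ k - 1) * pw R k) (r + k + s) * p) * e7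

end

end Pool.Agent.H158.TL
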