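import Mathlib
import Pool.Agent.H158.TL.PF
import Pool.Agent.H158.TL.Deg

set_option autoImplicit false
set_option linter.unusedSectionVars false

/-!
# Dominance order on exponents and triangularity
-/

namespace Pool.Agent.H158.TL

open Finset MvPolynomial

section dom
variable {N : ℕ}

/-- partial sums of an exponent vector -/
def ps (k : ℕ) (α : Fin N →₀ ℕ) : ℕ := ∑ i ∈ univ.filter (fun i : Fin N => (i : ℕ) < k), α i

/-- dominance order: `Dom α β` means `α ≤ β` -/
def Dom (α β : Fin N →₀ ℕ) : Prop := (∀ k, ps k α ≤ ps k β) ∧ ps N α = ps N β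

lemma ps_add (k : ℕ) (α β : Fin N →₀ ℕ) : ps k (α + β) = ps k α + ps k β := by
  simp [ps, Finset.sum_add_distrib]

lemma ps_zero_left (α : Fin N →₀ ℕ) : ps 0 α = 0 := by
  simp [ps]

lemma ps_succ (α : Fin N →₀ ℕ) (i : Fin N) : ps ((i : ℕ) + 1) α = ps i α + α i := by
  rw [ps, ps]
  have : (univ.filter fun j : Fin N => (j : ℕ) < (i : ℕ) + 1)
      = insert i (univ.filter fun j : Fin N => (j : ℕ) < (i : ℕ)) := by
    ext j
    simp only [mem_filter, mem_univ, true_and, mem_insert, Fin.ext_iff]
    omega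
  rw [this, Finset.sum_insert (by simp), add_comm]

lemma Dom.refl (α : Fin N →₀ ℕ) : Dom α α := ⟨fun _ => le_refl _, rfl⟩

lemma Dom.trans {α β γ : Fin N →₀ ℕ} (h : Dom α β) (h' : Dom β γ) : Dom α γ :=
  ⟨fun k => (h.1 k).trans (h'.1 k), h.2.trans h'.2⟩

lemma Dom.antisymm {α β : Fin N →₀ ℕ} (h : Dom α β) (h' : Dom β α) : α = β := by
  ext i
  have h1 := ps_succ α i
  have h2 := ps_succ β i
  have h3 := le_antisymm (h.1 i) (h'.1 i)
  have h4 := le_antisymm (h.1 (i + 1)) (h'.1 (i + 1))
  omega

lemma Dom.add {α β α' β' : Fin N →₀ ℕ} (h : Dom α β) (h' : Dom α' β') :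
    Dom (α + α') (β + β') := by
  refine ⟨fun k => ?_, ?_⟩
  · rw [ps_add, ps_add]
    exact Nat.add_le_add (h.1 k) (h'.1 k)
  · rw [ps_add, ps_add, h.2, h'.2]

lemma dom_single {j k : Fin N} (h : j < k) :
    Dom (Finsupp.single k 1) (Finsupp.single j 1) := by
  classical
  have e : ∀ (l : ℕ) (i : Fin N), ps l (Finsupp.single i 1) = if (i : ℕ) < l then 1 else 0 := by
    intro l i
    rw [ps]
    simp only [Finsupp.single_apply]
    rw [Finset.sum_ite_eq]
    simp
  refine ⟨fun l => ?_, ?_⟩
  · rw [e, e]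
    rw [Fin.lt_def] at h
    split_ifs <;> omega
  · rw [e, e]
    simp

/-- rank -/
def rk (α : Fin N →₀ ℕ) : ℕ := ∑ k ∈ range (N + 1), ps k α

lemma Dom.rk_lt {α β : Fin N →₀ ℕ} (h : Dom α β) (hne : α ≠ β) : rk α < rk β := by
  by_contra hlt
  apply hne
  have hle : rk α ≤ rk β := Finset.sum_le_sum fun k _ => h.1 k
  have heq : rk α = rk β := le_antisymm hle (not_lt.1 hlt)
  have hk := (Finset.sum_eq_sum_iff_of_le fun k _ => h.1 k).1 heq
  ext i
  have h1 := ps_succ α i
  have h2 := ps_succ β i
  have h3 := hk i (Finset.mem_range.2 (by have := i.2; omega))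
  have h4 := hk (i + 1) (Finset.mem_range.2 (by have := i.2; omega))
  omega

end dom

section lead
variable {N : ℕ} {A : Type*} [CommRing A]

/-- all exponents of `g` are dominated by `β`, whose coefficient is `c` -/
structure Lead (g : MvPolynomial (Fin N) A) (β : Fin N →₀ ℕ) (c : A) : Prop where
  supp : ∀ α, coeff α g ≠ 0 → Dom α β
  lead : coeff β g = c

/-- leading coefficients of products -/
lemma coeff_mul_lead {f g : MvPolynomial (Fin N) A} {δ lam : Fin N →₀ ℕ} {c : A}
    (hf : Lead f δ c) (hg : ∀ y, coeff y g ≠ 0 → Dom lam y → y = lam) :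
    coeff (δ + lam) (f * g) = c * coeff lam g := by
  classical
  rw [coeff_mul, Finset.sum_eq_single (δ, lam)]
  · rw [hf.lead]
  · rintro ⟨x, y⟩ hxy hne
    rw [Finset.HasAntidiagonal.mem_antidiagonal] at hxy
    simp only at hxy ⊢
    by_contra h
    have hx := left_ne_zero_of_mul h
    have hy := right_ne_zero_of_mul h
    have hd := hf.supp x hx
    have hdom : Dom lam y := by
      have e : ∀ k, ps k x + ps k y = ps k δ + ps k lam := by
        intro k
        rw [← ps_add, ← ps_add, hxy]
      refine ⟨fun k => ?_, ?_⟩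
      · have h1 := e k
        have h2 := hd.1 k
        omega
      · have h1 := e N
        have h2 := hd.2
        omega
    have hy' := hg y hy hdom
    apply hne
    rw [hy'] at hxy ⊢
    rw [add_right_cancel hxy]
  · intro h
    exfalso
    apply h
    rw [Finset.HasAntidiagonal.mem_antidiagonal]

lemma Lead.mul {f g : MvPolynomial (Fin N) A} {β β' : Fin N →₀ ℕ} {c c' : A}
    (hf : Lead f β c) (hg : Lead g β' c') : Lead (f * g) (β + β') (c * c') := by
  classical
  refine ⟨?_, ?_⟩
  · intro α hα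
    rw [coeff_mul] at hα
    obtain ⟨p, hp, hp'⟩ := Finset.exists_ne_zero_of_sum_ne_zero hα
    rw [Finset.HasAntidiagonal.mem_antidiagonal] at hp
    rw [← hp]
    exact (hf.supp _ (left_ne_zero_of_mul hp')).add (hg.supp _ (right_ne_zero_of_mul hp'))
  · rw [coeff_mul_lead hf fun y hy hd => (hg.supp y hy).antisymm hd, hg.lead]

lemma Lead.one : Lead (1 : MvPolynomial (Fin N) A) 0 1 := by
  classical
  refine ⟨?_, by simp⟩
  intro α hα
  have : α = 0 := by
    by_contra h
    apply hα
    rw [← C_1, coeff_C, if_neg (Ne.symm h)]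
  rw [this]
  exact Dom.refl _

lemma Lead.prod {ι : Type*} (S : Finset ι) (g : ι → MvPolynomial (Fin N) A)
    (β : ι → Fin N →₀ ℕ) (c : ι → A) (h : ∀ i ∈ S, Lead (g i) (β i) (c i)) :
    Lead (∏ i ∈ S, g i) (∑ i ∈ S, β i) (∏ i ∈ S, c i) := by
  classical
  induction S using Finset.induction_on with
  | empty => simpa using Lead.one
  | insert a S ha ih =>
    rw [Finset.prod_insert ha, Finset.prod_insert ha, Finset.sum_insert ha]
    exact (h a (Finset.mem_insert_self _ _)).mul
      (ih fun i hi => h i (Finset.mem_insert_of_mem hi))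

/-- the staircase exponent -/
noncomputable def delta (N : ℕ) : Fin N →₀ ℕ := ∑ p ∈ pairs N, Finsupp.single p.1 1

lemma lead_linear (u v : A) {j k : Fin N} (h : j < k) :
    Lead (C u * X j - C v * X k) (Finsupp.single j 1) u := by
  classical
  have hne : (Finsupp.single k 1 : Fin N →₀ ℕ) ≠ Finsupp.single j 1 := by
    intro h'
    rw [Finsupp.single_left_inj one_ne_zero] at h'
    exact h.ne' h'
  have e : ∀ α : Fin N →₀ ℕ, coeff α (C u * X j - C v * X k)
      = (if Finsupp.single j 1 = α then u else 0) - (if Finsupp.single k 1 = α then v else 0) := by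
    intro α
    rw [coeff_sub, coeff_C_mul, coeff_C_mul, coeff_X, coeff_X, mul_ite, mul_ite, mul_one,
      mul_zero, mul_one, mul_zero]
  refine ⟨?_, ?_⟩
  · intro α hα
    rw [e] at hα
    by_cases h1 : Finsupp.single j 1 = α
    · rw [← h1]
      exact Dom.refl _
    · by_cases h2 : Finsupp.single k 1 = α
      · rw [← h2]
        exact dom_single h
      · rw [if_neg h1, if_neg h2, sub_zero] at hα
        exact absurd rfl hα
  · rw [e, if_pos rfl, if_neg hne, sub_zero]

lemma lead_VV : Lead (VV (fun i => (X i : MvPolynomial (Fin N) A))) (delta N) 1 := by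
  have h := Lead.prod (A := A) (pairs N) (fun p => (X p.1 - X p.2 : MvPolynomial (Fin N) A))
    (fun p => Finsupp.single p.1 1) (fun _ => 1) (fun p hp => ?_)
  · simpa [VV, delta] using h
  · simp only [pairs, mem_filter, mem_univ, true_and] at hp
    have := lead_linear (1 : A) 1 hp
    simpa using this

lemma card_pairs_snd (i : Fin N) : ((pairs N).filter fun p => p.2 = i).card = i := by
  have : (pairs N).filter (fun p => p.2 = i)
      = (univ.filter fun j : Fin N => j < i).map ⟨fun j => (j, i), fun a b h => by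
        simpa using h⟩ := by
    ext ⟨a, b⟩
    simp only [pairs, mem_filter, mem_univ, true_and, Finset.mem_map,
      Function.Embedding.coeFn_mk, Prod.mk.injEq]
    constructor
    · rintro ⟨h1, rfl⟩
      exact ⟨a, h1, rfl, rfl⟩
    · rintro ⟨c, h1, rfl, rfl⟩
      exact ⟨h1, rfl⟩
  rw [this, Finset.card_map]
  have h2 : (univ.filter fun j : Fin N => j < i) = Finset.Iio i := by
    ext j; simp
  rw [h2, Fin.card_Iio]

lemma lead_VI (b : A) (i : Fin N) :
    Lead (VI (C b) (fun i => (X i : MvPolynomial (Fin N) A)) i) (delta N) (b ^ (i : ℕ)) := by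
  have h := Lead.prod (A := A) (pairs N)
    (fun p => ((if p.2 = i then C b else 1) * X p.1 - (if p.1 = i then C b else 1) * X p.2 :
      MvPolynomial (Fin N) A))
    (fun p => Finsupp.single p.1 1) (fun p => if p.2 = i then b else 1) (fun p hp => ?_)
  · have e : ∏ p ∈ pairs N, (if p.2 = i then b else 1) = b ^ (i : ℕ) := by
      rw [← Finset.prod_filter, Finset.prod_const, card_pairs_snd]
    rw [e] at h
    exact h
  · simp only [pairs, mem_filter, mem_univ, true_and] at hp
    have := lead_linear (if p.2 = i then b else 1) (if p.1 = i then b else 1) hp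
    have e1 : (C (if p.2 = i then b else 1) : MvPolynomial (Fin N) A)
        = if p.2 = i then C b else 1 := by split_ifs <;> simp
    have e2 : (C (if p.1 = i then b else 1) : MvPolynomial (Fin N) A)
        = if p.1 = i then C b else 1 := by split_ifs <;> simp
    rw [e1, e2] at this
    exact this

/-- `x_i ↦ a x_i` -/
noncomputable def tau (a : A) (i : Fin N) : MvPolynomial (Fin N) A →ₐ[A] MvPolynomial (Fin N) A :=
  aeval (Function.update (fun j => X j) i (C a * X i))

lemma tau_monomial (a : A) (i : Fin N) (m : Fin N →₀ ℕ) (c : A) :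
    tau a i (monomial m c) = monomial m (a ^ m i * c) := by
  classical
  rw [tau, aeval_monomial, MvPolynomial.algebraMap_eq]
  have h : (m.prod fun j e => (Function.update (fun j => (X j : MvPolynomial (Fin N) A)) i
      (C a * X i) j) ^ e) = C (a ^ m i) * m.prod fun j e => X j ^ e := by
    rw [Finsupp.prod_fintype _ _ (fun _ => pow_zero _),
      Finsupp.prod_fintype _ _ (fun _ => pow_zero _),
      ← Finset.mul_prod_erase univ _ (mem_univ i),
      ← Finset.mul_prod_erase univ (fun j => X j ^ m j) (mem_univ i)]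
    rw [Function.update_self, mul_pow, C_pow, mul_assoc]
    congr 2
    refine Finset.prod_congr rfl fun j hj => ?_
    rw [Function.update_of_ne (Finset.ne_of_mem_erase hj)]
  rw [h, monomial_eq, C_mul]
  ring

lemma coeff_tau (a : A) (i : Fin N) (g : MvPolynomial (Fin N) A) (m : Fin N →₀ ℕ) :
    coeff m (tau a i g) = a ^ m i * coeff m g := by
  classical
  induction g using MvPolynomial.induction_on' with
  | monomial u c =>
    rw [tau_monomial, coeff_monomial, coeff_monomial]
    split_ifs with h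
    · rw [h]
    · rw [mul_zero]
  | add p q hp hq => rw [map_add, coeff_add, coeff_add, hp, hq, mul_add]

/-- the eigenvalue attached to an exponent vector -/
def ev (a b : A) (lam : Fin N →₀ ℕ) : A :=
  b ^ N + (1 - b) * ∑ i : Fin N, b ^ (i : ℕ) * a ^ lam i

/-- the relation between `g` and `h = M g` -/
def MRel (a b : A) (g h : MvPolynomial (Fin N) A) : Prop :=
  VV (fun i => (X i : MvPolynomial (Fin N) A)) * h
    = C (b ^ N) * (VV (fun i => (X i : MvPolynomial (Fin N) A)) * g)
      + C (1 - b) * ∑ i, VI (C b) (fun i => (X i : MvPolynomial (Fin N) A)) i * tau a i g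

/-- down-closed sets of exponents -/
def DownClosed (S : Finset (Fin N →₀ ℕ)) : Prop := ∀ α β, β ∈ S → Dom α β → α ∈ S

lemma MRel.coeff_eq {a b : A} {g h : MvPolynomial (Fin N) A} (H : MRel a b g h)
    {lam : Fin N →₀ ℕ} (hh : ∀ y, coeff y h ≠ 0 → Dom lam y → y = lam)
    (hg : ∀ y, coeff y g ≠ 0 → Dom lam y → y = lam) :
    coeff lam h = ev a b lam * coeff lam g := by
  have h1 := congrArg (coeff (delta N + lam)) H
  rw [coeff_mul_lead lead_VV hh, coeff_add, coeff_C_mul, coeff_mul_lead lead_VV hg,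
    coeff_C_mul, coeff_sum] at h1
  have h2 : ∀ i, coeff (delta N + lam) (VI (C b) (fun i => (X i : MvPolynomial (Fin N) A)) i *
      tau a i g) = b ^ (i : ℕ) * (a ^ lam i * coeff lam g) := by
    intro i
    rw [coeff_mul_lead (lead_VI b i), coeff_tau]
    intro y hy
    rw [coeff_tau] at hy
    exact hg y (right_ne_zero_of_mul hy)
  simp only [h2] at h1
  rw [one_mul, one_mul] at h1
  rw [h1, ev, add_mul, mul_assoc, Finset.sum_mul]
  congr 2
  refine Finset.sum_congr rfl fun i _ => ?_
  ring

lemma MRel.supp {a b : A} {g h : MvPolynomial (Fin N) A} (H : MRel a b g h)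
    {S : Finset (Fin N →₀ ℕ)} (hS : DownClosed S) (hg : ∀ y, coeff y g ≠ 0 → y ∈ S) :
    ∀ y, coeff y h ≠ 0 → y ∈ S := by
  classical
  by_contra hcon
  push Not at hcon
  obtain ⟨y0, hy0, hy0'⟩ := hcon
  have hne : (h.support.filter fun y => y ∉ S).Nonempty :=
    ⟨y0, by rw [Finset.mem_filter, mem_support_iff]; exact ⟨hy0, hy0'⟩⟩
  obtain ⟨lam, hlam, hmax⟩ := Finset.exists_max_image _ rk hne
  rw [Finset.mem_filter, mem_support_iff] at hlam
  have h1 := H.coeff_eq (lam := lam) (fun y hy hd => ?_) (fun y hy hd => ?_)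
  · have h2 : coeff lam g = 0 := by
      by_contra h3
      exact hlam.2 (hg lam h3)
    rw [h2, mul_zero] at h1
    exact hlam.1 h1
  · by_contra hne'
    have hy' : y ∉ S := fun h3 => hlam.2 (hS _ _ h3 hd)
    have h3 := hmax y (by rw [Finset.mem_filter, mem_support_iff]; exact ⟨hy, hy'⟩)
    exact absurd (hd.rk_lt (Ne.symm hne')) (not_lt.2 h3)
  · exact absurd (hS _ _ (hg y hy) hd) hlam.2

lemma MRel.coeff_max {a b : A} {g h : MvPolynomial (Fin N) A} (H : MRel a b g h)
    {S : Finset (Fin N →₀ ℕ)} (hS : DownClosed S) (hg : ∀ y, coeff y g ≠ 0 → y ∈ S)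
    {lam : Fin N →₀ ℕ} (hlam : ∀ y ∈ S, Dom lam y → y = lam) :
    coeff lam h = ev a b lam * coeff lam g :=
  H.coeff_eq (fun y hy hd => hlam y (H.supp hS hg y hy) hd) (fun y hy hd => hlam y (hg y hy) hd)

end lead

end Pool.Agent.H158.TL
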