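import Mathlib
import Pool.Agent.H158.TL.Main1

set_option autoImplicit false
set_option linter.unusedSectionVars false

/-!
# From proper colourings to all colourings
-/

namespace Pool.Agent.H158.TL

open Finset MvPolynomial

section elim
variable {P : Type*} [CommRing P]

lemma om_prod_eq (t : P) {m : ℕ} (c : Fin m) (E : Finset (Fin m)) :
    ∏ e ∈ E, om t c e = if c ∈ E then 0 else t ^ (E.filter fun e : Fin m => c < e).card := by
  split_ifs with h
  · refine Finset.prod_eq_zero h ?_
    simp [om]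
  · rw [← Finset.prod_const, Finset.prod_filter]
    refine Finset.prod_congr rfl fun e he => ?_
    have hne : c ≠ e := fun h' => h (h' ▸ he)
    simp only [om, hne, if_false]

lemma sum_om (t : P) {m : ℕ} (E : Finset (Fin m)) :
    (t - 1) * ∑ c : Fin m, t ^ (c : ℕ) * ∏ e ∈ E, om t c e = t ^ m - t ^ E.card := by
  set h : ℕ → P := fun c => t ^ (c + (E.filter fun e : Fin m => c ≤ (e : ℕ)).card) with hh
  have key : ∀ c : Fin m, (t - 1) * (t ^ (c : ℕ) * ∏ e ∈ E, om t c e)
      = h ((c : ℕ) + 1) - h (c : ℕ) := by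
    intro c
    rw [om_prod_eq]
    have e1 : (E.filter fun e : Fin m => (c : ℕ) + 1 ≤ (e : ℕ)) = E.filter fun e : Fin m => c < e := by
      refine Finset.filter_congr fun e _ => ?_
      rw [Fin.lt_def]; omega
    by_cases hc : c ∈ E
    · have e2 : (E.filter fun e : Fin m => (c : ℕ) ≤ (e : ℕ)) = insert c (E.filter fun e : Fin m => c < e) := by
        ext e
        simp only [mem_filter, mem_insert, Fin.lt_def, Fin.ext_iff]
        constructor
        · rintro ⟨h1, h2⟩
          by_cases h3 : (e : ℕ) = c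
          · exact Or.inl h3
          · exact Or.inr ⟨h1, by omega⟩
        · rintro (h1 | ⟨h1, h2⟩)
          · have : e = c := Fin.ext h1
            rw [this]
            exact ⟨hc, le_refl _⟩
          · exact ⟨h1, h2.le⟩
      simp only [hh, hc, if_true, mul_zero]
      rw [e1, e2, Finset.card_insert_of_notMem (by simp)]
      rw [add_right_comm, add_assoc]
      simp
    · have e2 : (E.filter fun e : Fin m => (c : ℕ) ≤ (e : ℕ)) = E.filter fun e : Fin m => c < e := by
        refine Finset.filter_congr fun e he => ?_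
        have hne : (c : ℕ) ≠ e := fun h' => hc (Fin.ext h' ▸ he)
        rw [Fin.lt_def]; omega
      simp only [hh, hc, if_false]
      rw [e1, e2]
      ring
  rw [Finset.mul_sum, Finset.sum_congr rfl fun c _ => key c,
    Fin.sum_univ_eq_sum_range (fun c => h (c + 1) - h c), Finset.sum_range_sub]
  simp only [hh]
  have e3 : (E.filter fun e : Fin m => m ≤ (e : ℕ)) = ∅ := by
    rw [Finset.filter_eq_empty_iff]
    intro e _
    have := e.2
    omega
  rw [e3]
  simp

lemma sum_elim (t : P) (m : ℕ) : ∀ (k : ℕ) (r : Fin k → Fin k → Prop) [∀ a b, Decidable (r a b)],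
    (∀ a b, r a b → a < b) → (∀ a b c, r a b → r a c → b < c → r b c) →
    (t - 1) ^ k * ∑ κ : Fin k → Fin m, ∏ a, (t ^ (κ a : ℕ) *
      ∏ b, if r a b then om t (κ a) (κ b) else 1)
      = ∏ a, (t ^ m - t ^ (univ.filter fun b => r a b).card) := by
  intro k
  induction k with
  | zero =>
    intro r _ _ _
    simp
  | succ k ih =>
    intro r _ h1 h2
    have ih' := ih (fun a b => r a.succ b.succ) (fun a b h => by
      have := h1 _ _ h
      exact Fin.succ_lt_succ_iff.1 this) (fun a b c hab hac hbc =>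
        h2 _ _ _ hab hac (Fin.succ_lt_succ_iff.2 hbc))
    set D : Finset (Fin k) := univ.filter fun b => r 0 b.succ with hD
    have h00 : ∀ a, ¬ r a 0 := fun a h => absurd (h1 _ _ h) (Fin.not_lt_zero a)
    -- the counts
    have c0 : (univ.filter fun b => r 0 b) = D.map (Fin.succEmb k) := by
      ext b
      simp only [hD, mem_filter, mem_univ, true_and, Finset.mem_map, Fin.coe_succEmb]
      constructor
      · intro h
        have hb : b ≠ 0 := fun h' => h00 0 (h' ▸ h)
        obtain ⟨b', rfl⟩ := Fin.exists_succ_eq.2 hb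
        exact ⟨b', h, rfl⟩
      · rintro ⟨b', h, rfl⟩
        exact h
    have cs : ∀ a : Fin k, (univ.filter fun b => r a.succ b)
        = (univ.filter fun b => r a.succ b.succ).map (Fin.succEmb k) := by
      intro a
      ext b
      simp only [mem_filter, mem_univ, true_and, Finset.mem_map, Fin.coe_succEmb]
      constructor
      · intro h
        have hb : b ≠ 0 := fun h' => h00 _ (h' ▸ h)
        obtain ⟨b', rfl⟩ := Fin.exists_succ_eq.2 hb
        exact ⟨b', h, rfl⟩
      · rintro ⟨b', h, rfl⟩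
        exact h
    rw [Fin.prod_univ_succ, c0, Finset.card_map]
    simp only [cs, Finset.card_map]
    rw [← ih']
    -- the sums
    have hsum : ∑ κ : Fin (k + 1) → Fin m, ∏ a, (t ^ (κ a : ℕ) *
        ∏ b, if r a b then om t (κ a) (κ b) else 1)
        = ∑ κ : Fin k → Fin m, (∏ a, (t ^ (κ a : ℕ) *
          ∏ b, if r a.succ b.succ then om t (κ a) (κ b) else 1)) *
          ∑ c : Fin m, t ^ (c : ℕ) * ∏ b ∈ D, om t c (κ b) := by
      rw [← (Fin.consEquiv (fun _ : Fin (k + 1) => Fin m)).sum_comp, Fintype.sum_prod_type,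
        Finset.sum_comm]
      refine Finset.sum_congr rfl fun κ _ => ?_
      rw [Finset.mul_sum]
      refine Finset.sum_congr rfl fun c _ => ?_
      rw [Fin.prod_univ_succ]
      simp only [Fin.prod_univ_succ, Fin.consEquiv_apply, Fin.cons_zero, Fin.cons_succ, h00,
        if_false, one_mul]
      rw [mul_comm, hD, Finset.prod_filter]
    suffices hkey : ∀ κ : Fin k → Fin m, (t - 1) * ((∏ a, (t ^ (κ a : ℕ) *
          ∏ b, if r a.succ b.succ then om t (κ a) (κ b) else 1)) *
          ∑ c : Fin m, t ^ (c : ℕ) * ∏ b ∈ D, om t c (κ b))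
        = (t ^ m - t ^ D.card) * (∏ a, (t ^ (κ a : ℕ) *
          ∏ b, if r a.succ b.succ then om t (κ a) (κ b) else 1)) by
      calc _ = (t - 1) ^ k * ∑ κ : Fin k → Fin m, (t - 1) * ((∏ a, (t ^ (κ a : ℕ) *
          ∏ b, if r a.succ b.succ then om t (κ a) (κ b) else 1)) *
          ∑ c : Fin m, t ^ (c : ℕ) * ∏ b ∈ D, om t c (κ b)) := by
            rw [hsum, ← Finset.mul_sum, pow_succ, mul_assoc]
        _ = _ := by
            rw [Finset.sum_congr rfl fun κ _ => hkey κ, ← Finset.mul_sum]
            ring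
    intro κ
    by_cases hinj : Set.InjOn κ D
    · have e1 : ∀ c, ∏ b ∈ D, om t c (κ b) = ∏ e ∈ D.image κ, om t c e := by
        intro c
        rw [Finset.prod_image hinj]
      simp only [e1]
      rw [mul_left_comm, sum_om, Finset.card_image_of_injOn hinj]
      ring
    · have e1 : (∏ a, (t ^ (κ a : ℕ) *
          ∏ b, if r a.succ b.succ then om t (κ a) (κ b) else 1)) = 0 := by
        rw [Set.InjOn] at hinj
        push Not at hinj
        obtain ⟨b, hb, b', hb', hκ, hne⟩ := hinj
        have hb1 : r 0 b.succ := by simpa [hD] using hb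
        have hb1' : r 0 b'.succ := by simpa [hD] using hb'
        rcases lt_or_gt_of_ne hne with hlt | hlt
        · refine Finset.prod_eq_zero (mem_univ b) ?_
          rw [Finset.prod_eq_zero (mem_univ b'), mul_zero]
          rw [if_pos (h2 _ _ _ hb1 hb1' (Fin.succ_lt_succ_iff.2 hlt)), hκ]
          simp [om]
        · refine Finset.prod_eq_zero (mem_univ b') ?_
          rw [Finset.prod_eq_zero (mem_univ b), mul_zero]
          rw [if_pos (h2 _ _ _ hb1' hb1 (Fin.succ_lt_succ_iff.2 hlt)), hκ]
          simp [om]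
      rw [e1]
      ring

end elim

section
variable {P : Type*} [CommRing P]

/-- LLT weight `t^dinv` of a colouring -/
def lw {n : ℕ} {C : Type*} [LinearOrder C] (t : P) (γ : Fin n → ℕ) (κ : Fin n → C) : P :=
  ∏ v, ∏ w, if pr γ v w ∧ κ v < κ w then t else 1

/-- number of attacking vertices above `v` of the same colour -/
def dv {n : ℕ} {C : Type*} [LinearOrder C] (γ : Fin n → ℕ) (κ : Fin n → C) (v : Fin n) : ℕ :=
  (univ.filter fun w => pr γ v w ∧ κ v = κ w).card

lemma sum_elim_pr (t : P) (m : ℕ) {n N : ℕ} (γ : Fin n → ℕ) (κ : Fin n → Fin N) :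
    (t - 1) ^ n * ∑ ρ : Fin n → Fin m, ∏ a, (t ^ (ρ a : ℕ) *
      ∏ b, if pr γ a b ∧ κ a = κ b then om t (ρ a) (ρ b) else 1)
      = ∏ a, (t ^ m - t ^ dv γ κ a) := by
  classical
  set σ := Tuple.sort (lu γ) with hσ
  have hmono : Monotone (lu γ ∘ σ) := Tuple.monotone_sort (lu γ)
  have hstrict : ∀ a b, a < b → lu γ (σ a) < lu γ (σ b) := by
    intro a b hab
    refine lt_of_le_of_ne (hmono hab.le) fun h => ?_
    exact hab.ne (σ.injective (lu_injective γ h))
  have h := sum_elim t m n (fun a b => pr γ (σ a) (σ b) ∧ κ (σ a) = κ (σ b)) ?_ ?_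
  · have e1 : ∏ a, (t ^ m - t ^ (univ.filter fun b => pr γ (σ a) (σ b) ∧
        κ (σ a) = κ (σ b)).card) = ∏ a, (t ^ m - t ^ dv γ κ a) := by
      rw [← Equiv.prod_comp σ (fun a => t ^ m - t ^ dv γ κ a)]
      refine Finset.prod_congr rfl fun a _ => ?_
      congr 2
      rw [dv]
      refine Finset.card_bij (fun b _ => σ b) ?_ ?_ ?_
      · intro b hb
        simpa using hb
      · intro b _ b' _ hbb
        exact σ.injective hbb
      · intro b hb
        refine ⟨σ.symm b, ?_, ?_⟩
        · simpa using hb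
        · simp
    rw [← e1, ← h]
    congr 1
    rw [← Equiv.sum_comp (Equiv.arrowCongr σ (Equiv.refl (Fin m)))]
    refine Finset.sum_congr rfl fun ρ _ => ?_
    rw [← Equiv.prod_comp σ]
    refine Finset.prod_congr rfl fun a _ => ?_
    rw [← Equiv.prod_comp σ]
    simp
  · intro a b hab
    have h1 := (lu_rel γ (σ a) (σ b)).2 hab.1
    by_contra hba
    have := hmono (not_lt.1 hba)
    exact absurd h1.1 (not_lt.2 this)
  · intro a b c hab hac hbc
    have h1 := (lu_rel γ (σ a) (σ b)).2 hab.1
    have h2 := (lu_rel γ (σ a) (σ c)).2 hac.1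
    refine ⟨(lu_rel γ (σ b) (σ c)).1 ⟨hstrict b c hbc, ?_⟩, hab.2.symm.trans hac.2⟩
    have h3 := h1.1
    have h4 := h2.2
    linarith

lemma om_prod {N m : ℕ} (t : P) (a b : Fin N) (c d : Fin m) :
    om t (finProdFinEquiv (a, c)) (finProdFinEquiv (b, d))
      = (if a < b then t else 1) * (if a = b then om t c d else 1) := by
  have h1 : (finProdFinEquiv (a, c) < finProdFinEquiv (b, d)) ↔ (a < b ∨ (a = b ∧ c < d)) := by
    rw [Fin.lt_def]
    simp only [finProdFinEquiv_apply_val]
    have hc := c.2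
    have hd := d.2
    constructor
    · intro h
      rcases lt_trichotomy a b with h' | h' | h'
      · exact Or.inl h'
      · right
        refine ⟨h', ?_⟩
        rw [h'] at h
        rw [Fin.lt_def]
        omega
      · exfalso
        rw [Fin.lt_def] at h'
        have : m * ((b : ℕ) + 1) ≤ m * (a : ℕ) := Nat.mul_le_mul_left m h'
        rw [mul_add, mul_one] at this
        omega
    · rintro (h | ⟨h, h'⟩)
      · rw [Fin.lt_def] at h
        have : m * ((a : ℕ) + 1) ≤ m * (b : ℕ) := Nat.mul_le_mul_left m h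
        rw [mul_add, mul_one] at this
        omega
      · rw [h]
        rw [Fin.lt_def] at h'
        omega
  have h2 : (finProdFinEquiv (a, c) = finProdFinEquiv (b, d)) ↔ (a = b ∧ c = d) := by
    rw [Equiv.apply_eq_iff_eq, Prod.mk.injEq]
  simp only [om, h1, h2]
  by_cases hab : a = b
  · subst hab
    simp
  · simp [hab]

lemma cw_prod {n N m : ℕ} (t : P) (γ : Fin n → ℕ) (κ : Fin n → Fin N) (ρ : Fin n → Fin m) :
    cw t γ (fun v => finProdFinEquiv (κ v, ρ v))
      = lw t γ κ * ∏ a, ∏ b, if pr γ a b ∧ κ a = κ b then om t (ρ a) (ρ b) else 1 := by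
  rw [cw, lw, ← Finset.prod_mul_distrib]
  refine Finset.prod_congr rfl fun v _ => ?_
  rw [← Finset.prod_mul_distrib]
  refine Finset.prod_congr rfl fun w _ => ?_
  rw [om_prod]
  by_cases h : pr γ v w
  · simp [h]
  · simp [h]

lemma sum_cw_prod {n N : ℕ} (t : P) (m : ℕ) (γ : Fin n → ℕ) (κ : Fin n → Fin N) :
    (t - 1) ^ n * ∑ ρ : Fin n → Fin m, cw t γ (fun v => finProdFinEquiv (κ v, ρ v)) *
      ∏ v, t ^ (ρ v : ℕ) = lw t γ κ * ∏ v, (t ^ m - t ^ dv γ κ v) := by
  rw [← sum_elim_pr, Finset.mul_sum, Finset.mul_sum, Finset.mul_sum]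
  refine Finset.sum_congr rfl fun ρ _ => ?_
  rw [cw_prod, Finset.prod_mul_distrib]
  ring

end

end Pool.Agent.H158.TL
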