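import Mathlib
import Pool.Agent.H158.TL.Super
import Pool.Agent.H158.TL.Deg

set_option autoImplicit false
set_option linter.unusedSectionVars false

/-!
# Superization, assembly
-/

namespace Pool.Agent.H158.TL

open Finset MvPolynomial

section
variable {R : Type*} [CommRing R] [Algebra ℚ R]

/-- `F ↦ F(x_1, …, x_N)` -/
noncomputable def phi (R : Type*) [CommRing R] (N : ℕ) : Sym R →ₐ[R] MvPolynomial (Fin N) R :=
  aeval fun k : ℕ+ => ∑ i, X i ^ (k : ℕ)

lemma monic_prod_pow (B : Type*) [CommRing B] [Nontrivial B] (m : ℕ+ →₀ ℕ) :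
    (m.prod fun k e => (Polynomial.X ^ (k : ℕ) - 1 : Polynomial B) ^ e).Monic ∧
    (m.prod fun k e => (Polynomial.X ^ (k : ℕ) - 1 : Polynomial B) ^ e).natDegree = wgt m := by
  have h1 : ∀ k : ℕ+, (Polynomial.X ^ (k : ℕ) - 1 : Polynomial B).Monic := fun k => by
    have := Polynomial.monic_X_pow_sub_C (1 : B) k.ne_zero
    simpa using this
  have h2 : ∀ k : ℕ+, (Polynomial.X ^ (k : ℕ) - 1 : Polynomial B).natDegree = k := fun k => by
    have := Polynomial.natDegree_X_pow_sub_C (n := (k : ℕ)) (r := (1 : B))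
    simpa using this
  constructor
  · exact Polynomial.monic_prod_of_monic _ _ fun k _ => (h1 k).pow _
  · rw [Finsupp.prod, Polynomial.natDegree_prod_of_monic _ _ fun k _ => (h1 k).pow _, wgt,
      Finsupp.sum]
    refine Finset.sum_congr rfl fun k _ => ?_
    rw [(h1 k).natDegree_pow, h2, mul_comm]

lemma top_coeff {B : Type*} [CommRing B] [Nontrivial B] [Algebra R B] (f : ℕ+ → B) {n : ℕ}
    {G : Sym R} (hG : IsDeg n G) :
    (aeval (fun k : ℕ+ => (Polynomial.X ^ (k : ℕ) - 1) * Polynomial.C (f k)) G).coeff n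
      = aeval f G := by
  conv_lhs => rw [G.as_sum]
  conv_rhs => rw [G.as_sum]
  rw [map_sum, map_sum, Polynomial.finsetSum_coeff]
  refine Finset.sum_congr rfl fun m hm => ?_
  rw [aeval_monomial, aeval_monomial, Polynomial.algebraMap_apply]
  have h1 : (m.prod fun (k : ℕ+) e =>
      ((Polynomial.X ^ (k : ℕ) - 1) * Polynomial.C (f k) : Polynomial B) ^ e)
      = (m.prod fun k e => (Polynomial.X ^ (k : ℕ) - 1 : Polynomial B) ^ e) *
        Polynomial.C (m.prod fun k e => f k ^ e) := by
    rw [Finsupp.prod, Finsupp.prod, Finsupp.prod, map_prod, ← Finset.prod_mul_distrib]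
    refine Finset.prod_congr rfl fun k _ => ?_
    rw [mul_pow, Polynomial.C_pow]
  obtain ⟨h2, h3⟩ := monic_prod_pow B m
  have hw : wgt m = n := hG m (mem_support_iff.1 hm)
  rw [h1, Polynomial.coeff_C_mul, Polynomial.coeff_mul_C]
  have h4 := h2.coeff_natDegree
  rw [h3, hw] at h4
  rw [h4, one_mul]

end

section
variable {P R : Type*} [CommRing P] [CommRing R] [IsDomain R] [Algebra ℚ R] [Algebra P R]

/-- the polynomial `lw ∏ (s - t^d)` -/
noncomputable def spoly {n N : ℕ} (t : P) (γ : Fin n → ℕ) (κ : Fin n → Fin N) : Polynomial P :=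
  Polynomial.C (lw t γ κ) * ∏ v, (Polynomial.X - Polynomial.C (t ^ dv γ κ v))

lemma spoly_natDegree {n N : ℕ} (t : P) (γ : Fin n → ℕ) (κ : Fin n → Fin N) :
    (spoly t γ κ).natDegree < n + 1 := by
  nontriviality P
  rw [spoly, Nat.lt_succ_iff]
  refine (Polynomial.natDegree_C_mul_le _ _).trans ?_
  rw [Polynomial.natDegree_prod_of_monic _ _ fun v _ => Polynomial.monic_X_sub_C _,
    Finset.sum_congr rfl (fun v _ => Polynomial.natDegree_X_sub_C _)]
  simp

lemma spoly_coeff {n N : ℕ} (t : P) (γ : Fin n → ℕ) (κ : Fin n → Fin N) :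
    (spoly t γ κ).coeff n = lw t γ κ := by
  nontriviality P
  rw [spoly, Polynomial.coeff_C_mul]
  have h1 : (∏ v, (Polynomial.X - Polynomial.C (t ^ dv γ κ v)) : Polynomial P).Monic :=
    Polynomial.monic_prod_of_monic _ _ fun v _ => Polynomial.monic_X_sub_C _
  have h2 : (∏ v, (Polynomial.X - Polynomial.C (t ^ dv γ κ v)) : Polynomial P).natDegree = n := by
    rw [Polynomial.natDegree_prod_of_monic _ _ fun v _ => Polynomial.monic_X_sub_C _,
      Finset.sum_congr rfl (fun v _ => Polynomial.natDegree_X_sub_C _)]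
    simp
  have h3 := h1.coeff_natDegree
  rw [h2] at h3
  rw [h3, mul_one]

lemma spoly_eval {n N : ℕ} (t : P) (m : ℕ) (γ : Fin n → ℕ) (κ : Fin n → Fin N) :
    (spoly t γ κ).eval (t ^ m) = (t - 1) ^ n * ∑ ρ : Fin n → Fin m,
      cw t γ (fun v => finProdFinEquiv (κ v, ρ v)) * ∏ v, t ^ (ρ v : ℕ) := by
  rw [sum_cw_prod, spoly]
  simp [Polynomial.eval_prod]

lemma geom_pow (τ : R) (m k : ℕ) :
    (τ ^ k - 1) * ∑ j : Fin m, (τ ^ (j : ℕ)) ^ k = (τ ^ m) ^ k - 1 := by
  have h := mul_geom_sum (τ ^ k) m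
  rw [Fin.sum_univ_eq_sum_range (fun j => (τ ^ j) ^ k)]
  have e : ∀ j ∈ range m, (τ ^ j) ^ k = (τ ^ k) ^ j := fun j _ => by
    rw [← pow_mul, ← pow_mul, mul_comm]
  rw [Finset.sum_congr rfl e, h, ← pow_mul, ← pow_mul, mul_comm]

theorem super (t : P) (ht : Function.Injective fun a : ℕ => algebraMap P R t ^ a) (n : ℕ)
    (L : ((Fin n → ℕ) → P) →ₗ[P] R) (G : Sym R) (hG : IsDeg n G)
    (h : ∀ M, psi (algebraMap P R t) M G = C ((algebraMap P R t - 1) ^ n) *
      ∑ κ : Fin n → Fin M, C (L fun γ => cw t γ κ) * ∏ v, X (κ v)) (N : ℕ) :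
    phi R N G = ∑ κ : Fin n → Fin N, C (L fun γ => lw t γ κ) * ∏ v, X (κ v) := by
  set τ : R := algebraMap P R t with hτ
  set lhs : Polynomial (MvPolynomial (Fin N) R) :=
    aeval (fun k : ℕ+ => (Polynomial.X ^ (k : ℕ) - 1) *
      Polynomial.C (∑ i, (X i : MvPolynomial (Fin N) R) ^ (k : ℕ))) G with hlhs
  set rhs : Polynomial (MvPolynomial (Fin N) R) :=
    ∑ κ : Fin n → Fin N, ∑ k ∈ range (n + 1), Polynomial.monomial k
      (C (L fun γ => (spoly t γ κ).coeff k) * ∏ v, X (κ v)) with hrhs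
  have hL : ∀ (c : P) (f : (Fin n → ℕ) → P), L (fun γ => c * f γ) = algebraMap P R c * L f := by
    intro c f
    have : (fun γ => c * f γ) = c • f := rfl
    rw [this, map_smul, Algebra.smul_def]
  have heval : ∀ m : ℕ, lhs.eval (C (τ ^ m)) = rhs.eval (C (τ ^ m)) := by
    intro m
    -- evaluation of the left hand side
    have e1 : lhs.eval (C (τ ^ m)) = aeval (fun k : ℕ+ => C ((τ ^ m) ^ (k : ℕ) - 1) *
        (∑ i, (X i : MvPolynomial (Fin N) R) ^ (k : ℕ))) G := by
      have : ((Polynomial.aeval (R := MvPolynomial (Fin N) R)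
          (C (τ ^ m) : MvPolynomial (Fin N) R)).restrictScalars R).comp
          (aeval (fun k : ℕ+ => (Polynomial.X ^ (k : ℕ) - 1) *
            Polynomial.C (∑ i, (X i : MvPolynomial (Fin N) R) ^ (k : ℕ))))
          = aeval (fun k : ℕ+ => C ((τ ^ m) ^ (k : ℕ) - 1) *
            (∑ i, (X i : MvPolynomial (Fin N) R) ^ (k : ℕ))) := by
        apply MvPolynomial.algHom_ext
        intro k
        simp [Polynomial.eval_finsetSum]
      have h2 := congrArg (fun φ => φ G) this
      simpa [Polynomial.coe_aeval_eq_eval, hlhs] using h2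
    -- evaluation of the right hand side
    have e2 : rhs.eval (C (τ ^ m)) = ∑ κ : Fin n → Fin N,
        C (L fun γ => (spoly t γ κ).eval (t ^ m)) * ∏ v, X (κ v) := by
      rw [hrhs, Polynomial.eval_finsetSum]
      refine Finset.sum_congr rfl fun κ _ => ?_
      rw [Polynomial.eval_finsetSum]
      have e3 : (fun γ => (spoly t γ κ).eval (t ^ m))
          = ∑ k ∈ range (n + 1), fun γ => (t ^ m) ^ k * (spoly t γ κ).coeff k := by
        funext γ
        rw [Finset.sum_apply, Polynomial.eval_eq_sum_range' (spoly_natDegree t γ κ)]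
        refine Finset.sum_congr rfl fun k _ => ?_
        ring
      rw [e3, map_sum, map_sum, Finset.sum_mul]
      refine Finset.sum_congr rfl fun k _ => ?_
      rw [Polynomial.eval_monomial, hL, map_pow, map_pow]
      simp only [map_mul, map_pow, ← hτ]
      ring
    -- use the hypothesis
    have h3 := congrArg (aeval fun c : Fin (N * m) =>
      (C (τ ^ ((finProdFinEquiv.symm c).2 : ℕ)) * X (finProdFinEquiv.symm c).1 :
        MvPolynomial (Fin N) R)) (h (N * m))
    have e4 : aeval (fun c : Fin (N * m) =>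
      (C (τ ^ ((finProdFinEquiv.symm c).2 : ℕ)) * X (finProdFinEquiv.symm c).1 :
        MvPolynomial (Fin N) R)) (psi τ (N * m) G)
        = aeval (fun k : ℕ+ => C ((τ ^ m) ^ (k : ℕ) - 1) *
        (∑ i, (X i : MvPolynomial (Fin N) R) ^ (k : ℕ))) G := by
      have : (aeval (fun c : Fin (N * m) =>
          (C (τ ^ ((finProdFinEquiv.symm c).2 : ℕ)) * X (finProdFinEquiv.symm c).1 :
          MvPolynomial (Fin N) R))).comp (psi τ (N * m))
          = aeval (fun k : ℕ+ => C ((τ ^ m) ^ (k : ℕ) - 1) *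
            (∑ i, (X i : MvPolynomial (Fin N) R) ^ (k : ℕ))) := by
        apply MvPolynomial.algHom_ext
        intro k
        rw [AlgHom.comp_apply, psi_X, aeval_X, map_mul, MvPolynomial.aeval_C,
          MvPolynomial.algebraMap_eq, map_sum]
        simp only [map_pow, aeval_X]
        rw [← finProdFinEquiv.sum_comp, Fintype.sum_prod_type]
        simp only [Equiv.symm_apply_apply, mul_pow]
        simp only [← Finset.sum_mul]
        rw [← Finset.mul_sum, ← mul_assoc]
        congr 1
        rw [← geom_pow τ m k]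
        simp only [map_mul, map_sum, map_pow, map_sub, map_one]
      exact congrArg (fun φ => φ G) this
    rw [e4, map_mul, MvPolynomial.aeval_C, MvPolynomial.algebraMap_eq, map_sum] at h3
    rw [e1, h3, e2, Finset.mul_sum]
    -- split the colourings
    rw [← Equiv.sum_comp ((Equiv.arrowProdEquivProdArrow (Fin n) (fun _ => Fin N)
      (fun _ => Fin m)).symm.trans (Equiv.arrowCongr (Equiv.refl (Fin n)) finProdFinEquiv)),
      Fintype.sum_prod_type]
    refine Finset.sum_congr rfl fun κ _ => ?_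
    have e5 : (fun γ => (spoly t γ κ).eval (t ^ m)) = ∑ ρ : Fin n → Fin m, fun γ =>
        ((t - 1) ^ n * ∏ v, t ^ (ρ v : ℕ)) *
          cw t γ (fun v => finProdFinEquiv (κ v, ρ v)) := by
      funext γ
      rw [Finset.sum_apply, spoly_eval, Finset.mul_sum]
      refine Finset.sum_congr rfl fun ρ _ => ?_
      ring
    rw [e5, map_sum, map_sum, Finset.sum_mul]
    refine Finset.sum_congr rfl fun ρ _ => ?_
    rw [hL]
    have e6 : ((Equiv.arrowProdEquivProdArrow (Fin n) (fun _ => Fin N)
      (fun _ => Fin m)).symm.trans (Equiv.arrowCongr (Equiv.refl (Fin n)) finProdFinEquiv)) (κ, ρ)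
        = fun v => finProdFinEquiv (κ v, ρ v) := by
      funext v
      simp [Equiv.arrowProdEquivProdArrow]
    rw [e6]
    simp only [map_mul, map_prod, aeval_X, Equiv.symm_apply_apply, MvPolynomial.aeval_C,
      MvPolynomial.algebraMap_eq, map_pow, map_sub, map_one, Finset.prod_mul_distrib, ← hτ]
    ring
  have hpoly : lhs = rhs := by
    refine Polynomial.eq_of_infinite_eval_eq _ _ ?_
    refine Set.infinite_of_injective_forall_mem (f := fun m : ℕ =>
      (C (τ ^ m) : MvPolynomial (Fin N) R)) ?_ ?_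
    · intro a b hab
      exact ht (C_injective _ _ hab)
    · intro m
      exact heval m
  have hc := congrArg (fun p => Polynomial.coeff p n) hpoly
  simp only [hlhs, hrhs] at hc
  rw [top_coeff _ hG] at hc
  rw [phi, hc, Polynomial.finsetSum_coeff]
  refine Finset.sum_congr rfl fun κ _ => ?_
  rw [Polynomial.finsetSum_coeff]
  simp only [Polynomial.coeff_monomial]
  rw [Finset.sum_ite_eq']
  simp only [Finset.mem_range, Nat.lt_succ_self, if_true, spoly_coeff]

end

end Pool.Agent.H158.TL
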