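import Mathlib
import Pool.Agent.H158.TL.Dom
import Pool.Agent.H158.TL.Super2
import Pool.Agent.H158.TL.Comm

set_option autoImplicit false
set_option linter.unusedSectionVars false

/-!
# The operators `D_0`, `D_0^*` in finitely many variables
-/

namespace Pool.Agent.H158.TL

open Finset MvPolynomial
open Pool.Agent.H209R2.EH

section
variable {R : Type*} [CommRing R] [Algebra ℚ R]

lemma phi_X (N : ℕ) (k : ℕ+) : phi R N (X k) = ∑ i, X i ^ (k : ℕ) := by simp [phi]

lemma phi_pw (N : ℕ) (k : ℕ) : phi R N (pw R (k + 1)) = ∑ i, X i ^ (k + 1) := by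
  rw [pw, phi_X]; rfl

/-- the operator `M_{a,b}` -/
noncomputable def MM (a b : R) : Sym R →ₗ[R] Sym R :=
  VO (fun k => -(1 - a ^ k)) (fun k => 1 - b ^ k) 0

lemma tau_phi (N : ℕ) (a : R) (j : Fin N) (F : Sym R) :
    tau a j (phi R N F) = aeval (fun k : ℕ+ => phi R N (X k) +
      algebraMap R (MvPolynomial (Fin N) R) (-(1 - a ^ (k : ℕ))) * X j ^ (k : ℕ)) F := by
  classical
  have h : (tau a j).comp (phi R N) = aeval (fun k : ℕ+ => phi R N (X k) +
      algebraMap R (MvPolynomial (Fin N) R) (-(1 - a ^ (k : ℕ))) * X j ^ (k : ℕ)) := by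
    apply MvPolynomial.algHom_ext
    intro k
    rw [AlgHom.comp_apply, phi_X, aeval_X, phi_X, map_sum, MvPolynomial.algebraMap_eq,
      ← Finset.add_sum_erase univ _ (mem_univ j),
      ← Finset.add_sum_erase univ (fun i => (X i : MvPolynomial (Fin N) R) ^ (k : ℕ))
        (mem_univ j)]
    have e1 : tau a j ((X j : MvPolynomial (Fin N) R) ^ (k : ℕ)) = C (a ^ (k : ℕ)) *
        X j ^ (k : ℕ) := by
      rw [tau, map_pow, aeval_X, Function.update_self, mul_pow, C_pow]
    have e2 : ∑ x ∈ univ.erase j, tau a j ((X x : MvPolynomial (Fin N) R) ^ (k : ℕ))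
        = ∑ x ∈ univ.erase j, X x ^ (k : ℕ) := by
      refine Finset.sum_congr rfl fun x hx => ?_
      rw [tau, map_pow, aeval_X, Function.update_of_ne (Finset.ne_of_mem_erase hx)]
    rw [e1, e2]
    simp only [C_neg, C_sub, C_1]
    ring
  exact congrArg (fun φ => φ F) h

/-- `M_{a,b}` in `N` variables -/
lemma MM_rel [IsDomain R] (a b : R) (N : ℕ) (F : Sym R) :
    MRel a b (phi R N F) (phi R N (MM a b F)) := by
  classical
  have hE : ∀ i, VV (fun i => (X i : MvPolynomial (Fin N) R)) *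
      expo (fun k => algebraMap R (MvPolynomial (Fin N) R) (1 - b ^ k) * phi R N (pw R k)) (i + 0)
      = (C (b ^ N) * VV (fun i => (X i : MvPolynomial (Fin N) R))) * 0 ^ i
        + C (1 - b) * ∑ j, VI (C b) (fun i => (X i : MvPolynomial (Fin N) R)) j * X j ^ i := by
    intro i
    have e1 : expo (fun k => algebraMap R (MvPolynomial (Fin N) R) (1 - b ^ k) *
        phi R N (pw R k)) (i + 0)
        = expo (fun k => (1 - (C b) ^ k) * ∑ j, (X j : MvPolynomial (Fin N) R) ^ k) i := by
      rw [add_zero]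
      refine expo_congr _ _ (fun k => ?_) i
      rw [phi_pw, MvPolynomial.algebraMap_eq, C_sub, C_1, C_pow]
    rw [e1, pf_coeff (C b) (fun i => (X i : MvPolynomial (Fin N) R)) (X_injective)
      (fun i => X_ne_zero i)]
    rw [C_sub, C_1, C_pow]
    congr 1
    cases i with
    | zero => simp
    | succ i => simp
  unfold MRel
  rw [MM, map_VO, ← pairing_smul_seq]
  simp only [hE]
  rw [pairing_add_seq, pairing_smul_seq, pairing_smul_seq, pairing_sum_seq]
  have e0 : pairing (fun i => (0 : MvPolynomial (Fin N) R) ^ i)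
      (shiftTo (fun k => phi R N (X k)) (fun k => -(1 - a ^ k)) F) = phi R N F := by
    rw [shiftTo_eval_zero]
    simp [phi]
  have ej : ∀ j : Fin N, pairing (fun i => VI (C b) (fun i => (X i : MvPolynomial (Fin N) R)) j *
      X j ^ i) (shiftTo (fun k => phi R N (X k)) (fun k => -(1 - a ^ k)) F)
      = VI (C b) (fun i => (X i : MvPolynomial (Fin N) R)) j * tau a j (phi R N F) := by
    intro j
    rw [pairing_smul_seq, pairing_pow, eval_shiftTo, tau_phi]
  rw [e0]
  simp only [ej]
  ring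

lemma inter_D0_t (q t : R) (F : Sym R) :
    pleth (fun k => t ^ k - 1) (Dk q t 0 F) = MM q t (pleth (fun k => t ^ k - 1) F) := by
  have h := pleth_VO (fun k => t ^ k - 1) (fun k => -(1 - q ^ k)) (fun _ => (-1 : R)) 0 F
  have e1 : (fun k => (t ^ k - 1) * -(1 - q ^ k)) = fun k => (1 - q ^ k) * (1 - t ^ k) := by
    funext k; ring
  have e2 : (fun k => (t ^ k - 1) * (-1 : R)) = fun k => 1 - t ^ k := by
    funext k; ring
  rw [e1, e2] at h
  exact h

lemma inter_D0_q (q t : R) (F : Sym R) :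
    pleth (fun k => q ^ k - 1) (Dk q t 0 F) = MM t q (pleth (fun k => q ^ k - 1) F) := by
  have h := pleth_VO (fun k => q ^ k - 1) (fun k => -(1 - t ^ k)) (fun _ => (-1 : R)) 0 F
  have e1 : (fun k => (q ^ k - 1) * -(1 - t ^ k)) = fun k => (1 - q ^ k) * (1 - t ^ k) := by
    funext k; ring
  have e2 : (fun k => (q ^ k - 1) * (-1 : R)) = fun k => 1 - q ^ k := by
    funext k; ring
  rw [e1, e2] at h
  exact h

lemma inter_D0s_t (q' t t' : R) (htt : t * t' = 1) (F : Sym R) :
    pleth (fun k => t ^ k - 1) (Dks q' t' 0 F) = MM q' t' (pleth (fun k => t ^ k - 1) F) := by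
  have h := pleth_VO (fun k => t ^ k - 1) (fun k => t' ^ k * -(1 - q' ^ k))
    (fun _ => (1 : R)) 0 F
  have hk : ∀ k, t ^ k * t' ^ k = 1 := fun k => by rw [← mul_pow, htt, one_pow]
  have e1 : (fun k => (t ^ k - 1) * (t' ^ k * -(1 - q' ^ k)))
      = fun k => -((1 - q' ^ k) * (1 - t' ^ k)) := by
    funext k
    linear_combination (-(1 - q' ^ k)) * hk k
  rw [e1] at h
  rw [Dks, h, VO_scale, MM]
  congr 2
  funext k
  linear_combination hk k

lemma inter_D0s_q (q q' t' : R) (hqq : q * q' = 1) (F : Sym R) :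
    pleth (fun k => q ^ k - 1) (Dks q' t' 0 F) = MM t' q' (pleth (fun k => q ^ k - 1) F) := by
  have h := pleth_VO (fun k => q ^ k - 1) (fun k => q' ^ k * -(1 - t' ^ k))
    (fun _ => (1 : R)) 0 F
  have hk : ∀ k, q ^ k * q' ^ k = 1 := fun k => by rw [← mul_pow, hqq, one_pow]
  have e1 : (fun k => (q ^ k - 1) * (q' ^ k * -(1 - t' ^ k)))
      = fun k => -((1 - q' ^ k) * (1 - t' ^ k)) := by
    funext k
    linear_combination (-(1 - t' ^ k)) * hk k
  rw [e1] at h
  rw [Dks, h, VO_scale, MM]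
  congr 2
  funext k
  linear_combination hk k

end

end Pool.Agent.H158.TL
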