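import Mathlib
import Pool.Agent.H158.TL.Super2

set_option autoImplicit false
set_option linter.unusedSectionVars false

/-!
# Algebraic independence of power sums in enough variables
-/

namespace Pool.Agent.H158.TL

open Finset MvPolynomial

section
variable {R : Type*} [CommRing R]

/-- power sums in finitely many variables -/
noncomputable def phi' (R : Type*) [CommRing R] (n N : ℕ) :
    MvPolynomial (Fin n) R →ₐ[R] MvPolynomial (Fin N) R :=
  aeval fun i => ∑ j, X j ^ ((i : ℕ) + 1)

lemma pderiv_phi' (n N : ℕ) (j : Fin N) (F : MvPolynomial (Fin n) R) :
    pderiv j (phi' R n N F)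
      = ∑ i : Fin n, phi' R n N (pderiv i F) * ((((i : ℕ) + 1 : ℕ) : MvPolynomial (Fin N) R) *
        X j ^ (i : ℕ)) := by
  classical
  have hP : ∀ k : Fin n, pderiv j (phi' R n N (X k))
      = (((k : ℕ) + 1 : ℕ) : MvPolynomial (Fin N) R) * X j ^ (k : ℕ) := by
    intro k
    rw [phi', aeval_X, map_sum, Finset.sum_eq_single j]
    · rw [pderiv_pow, pderiv_X_self]
      simp
    · intro l _ hl
      rw [pderiv_pow, pderiv_X_of_ne hl]
      simp
    · intro h
      exact absurd (mem_univ j) h
  induction F using MvPolynomial.induction_on with
  | C a =>
    have : phi' R n N (C a) = C a := by simp [phi']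
    rw [this]
    simp
  | add p q hp hq =>
    simp only [map_add, hp, hq, add_mul, Finset.sum_add_distrib]
  | mul_X p k hp =>
    rw [map_mul, pderiv_mul, hP, hp]
    have h1 : ∀ i : Fin n, phi' R n N (pderiv i (p * X k))
        = phi' R n N (pderiv i p) * phi' R n N (X k)
          + phi' R n N p * (if i = k then 1 else 0) := by
      intro i
      rw [pderiv_mul, map_add, map_mul, map_mul]
      congr 2
      split_ifs with h
      · rw [h, pderiv_X_self, map_one]
      · rw [pderiv_X_of_ne (Ne.symm h), map_zero]
    simp only [h1, add_mul, Finset.sum_add_distrib]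
    congr 1
    · rw [Finset.sum_mul]
      refine Finset.sum_congr rfl fun i _ => ?_
      ring
    · rw [Finset.sum_eq_single k]
      · simp
      · intro l _ hl
        simp [hl]
      · intro h
        exact absurd (mem_univ k) h

variable [IsDomain R] [CharZero R]

lemma phi'_inj (n N : ℕ) (hnN : n ≤ N) (m : ℕ) : ∀ F : MvPolynomial (Fin n) R,
    F.IsWeightedHomogeneous (fun i : Fin n => (i : ℕ) + 1) m → phi' R n N F = 0 → F = 0 := by
  induction m using Nat.strong_induction_on with
  | _ m ih =>
    intro F hF h0
    by_cases hm : m = 0
    · have hc : F = C (coeff 0 F) := by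
        classical
        ext d
        rw [coeff_C]
        split_ifs with h
        · rw [← h]
        · by_contra hne
          have hw := hF hne
          rw [hm] at hw
          apply h
          ext i
          rw [Finsupp.weight_apply, Finsupp.sum_fintype _ _ (fun i => by simp)] at hw
          have h2 := (Finset.sum_eq_zero_iff.1 hw) i (mem_univ i)
          simp only [smul_eq_mul, mul_eq_zero] at h2
          rcases h2 with h2 | h2
          · simp [h2]
          · omega
      rw [hc] at h0
      have : phi' R n N (C (coeff 0 F)) = C (coeff 0 F) := by simp [phi']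
      rw [this] at h0
      have h1 : coeff 0 F = 0 := C_injective _ _ (by rw [h0, C_0])
      rw [hc, h1, C_0]
    · have hd : ∀ i : Fin n, pderiv i F = 0 := by
        -- the polynomial with roots `x_j`
        set Q : Polynomial (MvPolynomial (Fin N) R) := ∑ i : Fin n,
          Polynomial.monomial (i : ℕ) (phi' R n N (pderiv i F) *
            (((i : ℕ) + 1 : ℕ) : MvPolynomial (Fin N) R)) with hQ
        by_cases hn : n = 0
        · intro i
          exact absurd i.2 (by omega)
        have hdeg : Q.natDegree < Fintype.card (Fin N) := by
          rw [Fintype.card_fin]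
          refine lt_of_le_of_lt (Polynomial.natDegree_sum_le_of_forall_le (n := n - 1) _ _ ?_) ?_
          · intro i _
            refine (Polynomial.natDegree_monomial_le _).trans ?_
            have := i.2
            omega
          · omega
        have hQ0 : Q = 0 := by
          refine Polynomial.eq_zero_of_natDegree_lt_card_of_eval_eq_zero Q
            (f := fun j : Fin N => (X j : MvPolynomial (Fin N) R)) X_injective ?_ hdeg
          intro j
          have h1 := pderiv_phi' n N j F
          rw [h0, map_zero] at h1
          rw [hQ, Polynomial.eval_finsetSum, h1]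
          refine Finset.sum_congr rfl fun i _ => ?_
          rw [Polynomial.eval_monomial]
          ring
        have hc : ∀ i : Fin n, phi' R n N (pderiv i F) = 0 := by
          intro i
          have h1 := congrArg (fun p => Polynomial.coeff p (i : ℕ)) hQ0
          simp only [hQ, Polynomial.finsetSum_coeff, Polynomial.coeff_monomial,
            Polynomial.coeff_zero] at h1
          rw [Finset.sum_eq_single i] at h1
          · rw [if_pos rfl] at h1
            rcases mul_eq_zero.1 h1 with h2 | h2
            · exact h2
            · exfalso
              have h3 : ((((i : ℕ) + 1 : ℕ) : R)) = 0 := by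
                apply C_injective (Fin N) R
                rw [C_0, ← h2]
                simp
              exact absurd (Nat.cast_eq_zero.1 h3) (Nat.succ_ne_zero _)
          · intro k _ hk
            rw [if_neg]
            intro h
            exact hk (Fin.ext h)
          · intro h
            exact absurd (mem_univ i) h
        intro i
        by_cases hi : (i : ℕ) + 1 ≤ m
        · refine ih (m - ((i : ℕ) + 1)) (by omega) (pderiv i F) ?_ (hc i)
          exact hF.pderiv (by omega)
        · ext d
          rw [coeff_pderiv, coeff_zero]
          have : coeff (d + Finsupp.single i 1) F = 0 := by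
            by_contra hne
            have hw := hF hne
            rw [map_add, Finsupp.weight_single] at hw
            simp only [one_smul] at hw
            omega
          rw [this, zero_mul]
      have he := hF.sum_weight_X_mul_pderiv
      simp only [hd, mul_zero, smul_zero, Finset.sum_const_zero] at he
      rw [nsmul_eq_mul] at he
      rcases mul_eq_zero.1 he.symm with h1 | h1
      · exfalso
        apply hm
        have h2 : ((m : ℕ) : R) = 0 := by
          apply C_injective (Fin n) R
          rw [C_0, ← h1]
          simp
        exact_mod_cast h2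
      · exact h1

end

section
variable {R : Type*} [CommRing R] [Algebra ℚ R] [IsDomain R]

/-- `F ↦ F(x_1, …, x_N)` is injective in degrees at most `N` -/
theorem phi_inj {n N : ℕ} (hnN : n ≤ N) {F : Sym R} (hF : IsDeg n F) (h0 : phi R N F = 0) :
    F = 0 := by
  classical
  have : CharZero R := algebraRat.charZero R
  set ι : Fin n → ℕ+ := fun i => (i : ℕ).succPNat with hι
  have hinj : Function.Injective ι := by
    intro a b hab
    have := congrArg (fun k : ℕ+ => (k : ℕ)) hab
    simp only [hι, Nat.succPNat_coe] at this
    exact Fin.ext (Nat.succ_injective this)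
  obtain ⟨G, hG⟩ := exists_rename_eq_of_vars_subset_range F ι hinj (by
    intro k hk
    rw [Finset.mem_coe, mem_vars_iff_mem_support] at hk
    obtain ⟨m, hm, hkm⟩ := hk
    have hw := hF m (mem_support_iff.1 hm)
    have hk1 : (k : ℕ) ≤ n := by
      rw [← hw, wgt, Finsupp.sum]
      have h1 : 1 ≤ m k := Nat.one_le_iff_ne_zero.2 (Finsupp.mem_support_iff.1 hkm)
      calc (k : ℕ) = k * 1 := (mul_one _).symm
        _ ≤ k * m k := Nat.mul_le_mul_left _ h1
        _ ≤ _ := Finset.single_le_sum (f := fun k : ℕ+ => (k : ℕ) * m k)
          (fun _ _ => Nat.zero_le _) hkm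
    have hk0 := k.pos
    refine ⟨⟨(k : ℕ) - 1, by omega⟩, ?_⟩
    apply PNat.coe_injective
    simp only [hι, Nat.succPNat_coe]
    omega)
  have hphi : phi' R n N G = 0 := by
    rw [← hG, phi, aeval_rename] at h0
    rw [phi']
    exact h0
  have hhom : G.IsWeightedHomogeneous (fun i : Fin n => (i : ℕ) + 1) n := by
    intro d hd
    have h1 : coeff (Finsupp.mapDomain ι d) F ≠ 0 := by
      rw [← hG, coeff_rename_mapDomain ι hinj]
      exact hd
    have h2 := hF _ h1
    refine Eq.trans ?_ h2
    rw [wgt, Finsupp.weight_apply, Finsupp.sum_mapDomain_index]
    · rw [Finsupp.sum, Finsupp.sum]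
      refine Finset.sum_congr rfl fun i _ => ?_
      simp only [hι, Nat.succPNat_coe, smul_eq_mul, Nat.succ_eq_add_one]
      ring
    · intro k; simp
    · intro k a b; ring
  have hG0 := phi'_inj n N hnN n G hhom hphi
  rw [← hG, hG0, map_zero]

end

end Pool.Agent.H158.TL
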