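import Mathlib
import Pool.Agent.H158.TL.Eform
import Pool.Agent.H158.TL.Inj

set_option autoImplicit false
set_option linter.unusedSectionVars false

/-!
# Products of `D - e` killing triangular elements
-/

namespace Pool.Agent.H158.TL

open Finset MvPolynomial

section
variable {K : Type*} [Field K] [CharZero K]

lemma pleth_inj (s : K) (hs : ∀ k : ℕ, 1 ≤ k → s ^ k ≠ 1) {F : Sym K}
    (h : pleth (fun k => s ^ k - 1) F = 0) : F = 0 := by
  ext m
  have h1 := congrArg (coeff m) h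
  rw [coeff_pleth, coeff_zero] at h1
  rw [coeff_zero]
  refine (mul_eq_zero.1 h1).resolve_left ?_
  exact Finset.prod_ne_zero_iff.2 fun k _ => pow_ne_zero _ (sub_ne_zero.2 (hs k k.pos))

lemma isDeg_pleth (s : ℕ → K) {n : ℕ} {F : Sym K} (h : IsDeg n F) : IsDeg n (pleth s F) := by
  intro m hm
  rw [coeff_pleth] at hm
  exact h m (right_ne_zero_of_mul hm)

/-- product of linear factors -/
noncomputable def PP {N : ℕ} (a b : K) (S : Finset (Fin N →₀ ℕ)) : Polynomial K :=
  ∏ κ ∈ S, (Polynomial.X - Polynomial.C (ev a b κ))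

theorem kill (D : Sym K →ₗ[K] Sym K) (s a b : K) (hs : ∀ k : ℕ, 1 ≤ k → s ^ k ≠ 1)
    (hD : ∀ F, pleth (fun k => s ^ k - 1) (D F) = MM a b (pleth (fun k => s ^ k - 1) F))
    {n N : ℕ} (hnN : n ≤ N) (hdeg : ∀ F, IsDeg n F → IsDeg n (D F)) :
    ∀ (c : ℕ) (S : Finset (Fin N →₀ ℕ)), S.card = c → DownClosed S → ∀ G : Sym K, IsDeg n G →
      (∀ y, coeff y (phi K N (pleth (fun k => s ^ k - 1) G)) ≠ 0 → y ∈ S) →
      Polynomial.aeval D (PP a b S) G = 0 := by
  classical
  intro c
  induction c with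
  | zero =>
    intro S hS _ G hG hsupp
    rw [Finset.card_eq_zero] at hS
    have h0 : phi K N (pleth (fun k => s ^ k - 1) G) = 0 := by
      ext y
      rw [coeff_zero]
      by_contra hne
      have := hsupp y hne
      rw [hS] at this
      exact absurd this (Finset.notMem_empty _)
    have h1 := phi_inj hnN (isDeg_pleth _ hG) h0
    rw [pleth_inj s hs h1, map_zero]
  | succ c ih =>
    intro S hS hdown G hG hsupp
    have hne : S.Nonempty := by
      rw [← Finset.card_pos]; omega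
    obtain ⟨lam, hlam, hmax⟩ := Finset.exists_max_image S rk hne
    have hmax' : ∀ y ∈ S, Dom lam y → y = lam := by
      intro y hy hd
      by_contra hne'
      exact absurd (hd.rk_lt (Ne.symm hne')) (not_lt.2 (hmax y hy))
    have hdown' : DownClosed (S.erase lam) := by
      intro α β hβ hαβ
      rw [Finset.mem_erase] at hβ ⊢
      refine ⟨?_, hdown α β hβ.2 hαβ⟩
      rintro rfl
      exact hβ.1 (hmax' β hβ.2 hαβ)
    have hrel := MM_rel a b N (pleth (fun k => s ^ k - 1) G)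
    rw [← hD] at hrel
    have h1 := ih (S.erase lam) (by rw [Finset.card_erase_of_mem hlam]; omega) hdown'
      (D G - ev a b lam • G) ((hdeg G hG).sub (hG.smul _)) (by
        intro y hy
        have e : phi K N (pleth (fun k => s ^ k - 1) (D G - ev a b lam • G))
            = phi K N (pleth (fun k => s ^ k - 1) (D G))
              - ev a b lam • phi K N (pleth (fun k => s ^ k - 1) G) := by
          simp only [map_sub, map_smul]
        rw [e, coeff_sub, coeff_smul, smul_eq_mul] at hy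
        rw [Finset.mem_erase]
        refine ⟨?_, ?_⟩
        · rintro rfl
          apply hy
          rw [hrel.coeff_max hdown hsupp hmax', sub_self]
        · by_contra hyS
          apply hy
          have e1 : coeff y (phi K N (pleth (fun k => s ^ k - 1) G)) = 0 := by
            by_contra h2; exact hyS (hsupp y h2)
          have e2 : coeff y (phi K N (pleth (fun k => s ^ k - 1) (D G))) = 0 := by
            by_contra h2; exact hyS (hrel.supp hdown hsupp y h2)
          rw [e1, e2, mul_zero, sub_zero])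
    have h2 : PP a b S = PP a b (S.erase lam) *
        (Polynomial.X - Polynomial.C (ev a b lam)) := by
      rw [PP, PP, Finset.prod_erase_mul _ _ hlam]
    rw [h2, map_mul, Module.End.mul_apply]
    have h3 : Polynomial.aeval D (Polynomial.X - Polynomial.C (ev a b lam)) G
        = D G - ev a b lam • G := by
      simp [Module.algebraMap_end_apply]
    rw [h3]
    exact h1

/-- genericity of the parameters -/
def Gen (a b : K) : Prop :=
  Function.Injective fun D : Finset (ℕ × ℕ) => ∑ p ∈ D, a ^ p.1 * b ^ p.2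

lemma Gen.swap {a b : K} (h : Gen a b) : Gen b a := by
  intro D D' hDD
  have e : ∀ D : Finset (ℕ × ℕ), ∑ p ∈ D, b ^ p.1 * a ^ p.2
      = ∑ p ∈ D.map (Equiv.prodComm ℕ ℕ).toEmbedding, a ^ p.1 * b ^ p.2 := by
    intro D
    rw [Finset.sum_map]
    refine Finset.sum_congr rfl fun p _ => ?_
    simp [mul_comm]
  simp only [e] at hDD
  have := h hDD
  exact Finset.map_injective _ this

lemma Gen.one_sub_ne {a b : K} (h : Gen a b) : 1 - a ≠ 0 := by
  intro h0
  have h1 : ({(0, 0)} : Finset (ℕ × ℕ)) = {(1, 0)} := by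
    apply h
    simp only [Finset.sum_singleton, pow_zero, pow_one, mul_one]
    linear_combination h0
  simp at h1

lemma Gen.pow_ne_one {a b : K} (h : Gen a b) (k : ℕ) (hk : 1 ≤ k) : a ^ k ≠ 1 := by
  intro h0
  have h1 : ({(k, 0)} : Finset (ℕ × ℕ)) = {(0, 0)} := by
    apply h
    simp only [Finset.sum_singleton, pow_zero, mul_one]
    exact h0
  simp at h1
  omega

/-- cells of an exponent vector: `(column, row)` -/
def DD {N : ℕ} (κ : Fin N →₀ ℕ) : Finset (ℕ × ℕ) :=
  univ.biUnion fun i : Fin N => (range (κ i)).image fun j => (j, (i : ℕ))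

lemma mem_DD {N : ℕ} (κ : Fin N →₀ ℕ) (j i : ℕ) :
    (j, i) ∈ DD κ ↔ ∃ h : i < N, j < κ ⟨i, h⟩ := by
  simp only [DD, mem_biUnion, mem_univ, true_and, mem_image, Finset.mem_range, Prod.mk.injEq]
  constructor
  · rintro ⟨a, c, h1, rfl, rfl⟩
    exact ⟨a.2, h1⟩
  · rintro ⟨h, h1⟩
    exact ⟨⟨i, h⟩, j, h1, rfl, rfl⟩

lemma sum_DD {N : ℕ} (κ : Fin N →₀ ℕ) (f : ℕ × ℕ → K) :
    ∑ p ∈ DD κ, f p = ∑ i : Fin N, ∑ j ∈ range (κ i), f (j, (i : ℕ)) := by
  rw [DD, Finset.sum_biUnion]
  · refine Finset.sum_congr rfl fun i _ => ?_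
    rw [Finset.sum_image]
    intro a _ b _ hab
    exact (Prod.ext_iff.1 hab).1
  · intro i _ i' _ hne
    rw [Function.onFun, Finset.disjoint_left]
    rintro ⟨x, y⟩ h1 h2
    simp only [mem_image, Prod.mk.injEq] at h1 h2
    obtain ⟨_, _, _, e1⟩ := h1
    obtain ⟨_, _, _, e2⟩ := h2
    exact hne (Fin.ext (e1.trans e2.symm))

lemma ev_eq {N : ℕ} (a b : K) (κ : Fin N →₀ ℕ) :
    ev a b κ = 1 - (1 - a) * (1 - b) * ∑ p ∈ DD κ, a ^ p.1 * b ^ p.2 := by
  rw [sum_DD, ev]
  have h1 : (1 - b) * ∑ i : Fin N, b ^ (i : ℕ) = 1 - b ^ N := by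
    rw [Fin.sum_univ_eq_sum_range (fun i => b ^ i)]
    have := mul_neg_geom_sum b N
    exact this
  have h2 : ∀ i : Fin N, (1 - a) * ∑ j ∈ range (κ i), a ^ j * b ^ (i : ℕ)
      = b ^ (i : ℕ) - b ^ (i : ℕ) * a ^ κ i := by
    intro i
    rw [← Finset.sum_mul, ← mul_assoc, mul_neg_geom_sum]
    ring
  have h3 : (1 - a) * ∑ i : Fin N, ∑ j ∈ range (κ i), a ^ j * b ^ (i : ℕ)
      = ∑ i : Fin N, b ^ (i : ℕ) - ∑ i : Fin N, b ^ (i : ℕ) * a ^ κ i := by
    rw [Finset.mul_sum, Finset.sum_congr rfl fun i _ => h2 i, Finset.sum_sub_distrib]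
  linear_combination (1 - b) * h3 + h1

lemma ev_inj {N : ℕ} {a b : K} (h : Gen a b) {κ κ' : Fin N →₀ ℕ}
    (he : ev a b κ = ev a b κ') : κ = κ' := by
  rw [ev_eq, ev_eq] at he
  have hne : (1 - a) * (1 - b) ≠ 0 := mul_ne_zero h.one_sub_ne h.swap.one_sub_ne
  have h1 : ∑ p ∈ DD κ, a ^ p.1 * b ^ p.2 = ∑ p ∈ DD κ', a ^ p.1 * b ^ p.2 := by
    apply mul_left_cancel₀ hne
    linear_combination -he
  have h2 := h h1
  ext i
  have h3 : ∀ j, j < κ i ↔ j < κ' i := by
    intro j
    have e1 := mem_DD κ j i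
    have e2 := mem_DD κ' j i
    rw [h2] at e1
    rw [e1] at e2
    constructor
    · intro h4
      obtain ⟨_, h5⟩ := e2.1 ⟨i.2, h4⟩
      exact h5
    · intro h4
      obtain ⟨_, h5⟩ := e2.2 ⟨i.2, h4⟩
      exact h5
  have h4 := h3 (κ i)
  have h5 := h3 (κ' i)
  omega

lemma ev_swap {N : ℕ} {a b : K} (h : Gen a b) {κ κ'' : Fin N →₀ ℕ}
    (he : ev a b κ = ev b a κ'') : ∀ i j, (j, i) ∈ DD κ ↔ (i, j) ∈ DD κ'' := by
  rw [ev_eq, ev_eq] at he
  have hne : (1 - a) * (1 - b) ≠ 0 := mul_ne_zero h.one_sub_ne h.swap.one_sub_ne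
  have e : ∑ p ∈ DD κ'', b ^ p.1 * a ^ p.2
      = ∑ p ∈ (DD κ'').map (Equiv.prodComm ℕ ℕ).toEmbedding, a ^ p.1 * b ^ p.2 := by
    rw [Finset.sum_map]
    refine Finset.sum_congr rfl fun p _ => ?_
    simp [mul_comm]
  have h1 : ∑ p ∈ DD κ, a ^ p.1 * b ^ p.2
      = ∑ p ∈ (DD κ'').map (Equiv.prodComm ℕ ℕ).toEmbedding, a ^ p.1 * b ^ p.2 := by
    rw [← e]
    apply mul_left_cancel₀ hne
    linear_combination -he
  have h2 := h h1
  intro i j
  rw [h2]
  simp

end

section conj
variable {N : ℕ}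

lemma ps_eq_sum (k : ℕ) (α : Fin N →₀ ℕ) :
    ps k α = ∑ i : Fin N, if (i : ℕ) < k then α i else 0 := by
  rw [ps, Finset.sum_filter]

/-- partial sums of the conjugate -/
lemma ps_conj {κ κ'' : Fin N →₀ ℕ} (h : ∀ i j, (j, i) ∈ DD κ ↔ (i, j) ∈ DD κ'') (l : ℕ) :
    ps l κ'' = ∑ r : Fin N, min (κ r) l := by
  classical
  have h1 : ps l κ'' = ((DD κ'').filter fun p => p.2 < l).card := by
    rw [ps_eq_sum, Finset.card_eq_sum_ones, Finset.sum_filter, DD, Finset.sum_biUnion]
    · refine Finset.sum_congr rfl fun i _ => ?_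
      rw [Finset.sum_image]
      · split_ifs with hi
        · simp
        · simp
      · intro a _ b _ hab
        exact (Prod.ext_iff.1 hab).1
    · intro i _ i' _ hne
      rw [Function.onFun, Finset.disjoint_left]
      rintro ⟨x, y⟩ h1 h2
      simp only [mem_image, Prod.mk.injEq] at h1 h2
      obtain ⟨_, _, _, e1⟩ := h1
      obtain ⟨_, _, _, e2⟩ := h2
      exact hne (Fin.ext (e1.trans e2.symm))
  have h2 : ∑ r : Fin N, min (κ r) l = ((DD κ).filter fun p => p.1 < l).card := by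
    rw [Finset.card_eq_sum_ones, Finset.sum_filter, DD, Finset.sum_biUnion]
    · refine Finset.sum_congr rfl fun i _ => ?_
      rw [Finset.sum_image]
      · simp only
        rw [← Finset.sum_filter, Finset.sum_const, smul_eq_mul, mul_one]
        have : (range (κ i)).filter (fun j => j < l) = range (min (κ i) l) := by
          ext j; simp
        rw [this, Finset.card_range]
      · intro a _ b _ hab
        exact (Prod.ext_iff.1 hab).1
    · intro i _ i' _ hne
      rw [Function.onFun, Finset.disjoint_left]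
      rintro ⟨x, y⟩ h1 h2
      simp only [mem_image, Prod.mk.injEq] at h1 h2
      obtain ⟨_, _, _, e1⟩ := h1
      obtain ⟨_, _, _, e2⟩ := h2
      exact hne (Fin.ext (e1.trans e2.symm))
  rw [h1, h2]
  refine Finset.card_bij (fun p _ => (p.2, p.1)) ?_ ?_ ?_
  · rintro ⟨x, y⟩ hp
    rw [Finset.mem_filter] at hp ⊢
    exact ⟨(h x y).2 hp.1, hp.2⟩
  · rintro ⟨x, y⟩ _ ⟨x', y'⟩ _ hh
    simp only [Prod.mk.injEq] at hh ⊢
    exact ⟨hh.2, hh.1⟩
  · rintro ⟨x, y⟩ hp
    rw [Finset.mem_filter] at hp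
    refine ⟨(y, x), ?_, rfl⟩
    rw [Finset.mem_filter]
    exact ⟨(h y x).1 hp.1, hp.2⟩

lemma anti_of_conj {κ κ'' : Fin N →₀ ℕ} (h : ∀ i j, (j, i) ∈ DD κ ↔ (i, j) ∈ DD κ'')
    (r r' : Fin N) (hr : r ≤ r') : κ r' ≤ κ r := by
  by_contra hlt
  push Not at hlt
  have h1 : (κ r, (r' : ℕ)) ∈ DD κ := (mem_DD κ _ _).2 ⟨r'.2, hlt⟩
  have h2 := (h _ _).1 h1
  rw [mem_DD] at h2
  obtain ⟨h3, h4⟩ := h2
  have h5 : ((r : ℕ), κ r) ∈ DD κ'' := (mem_DD κ'' _ _).2 ⟨h3, lt_of_le_of_lt hr h4⟩
  have h6 := (h _ _).2 h5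
  rw [mem_DD] at h6
  obtain ⟨_, h7⟩ := h6
  exact absurd h7 (lt_irrefl _)

/-- conjugation reverses dominance, in the form needed -/
lemma conj_unique {κ κ'' μ μ'' : Fin N →₀ ℕ} (h : ∀ i j, (j, i) ∈ DD κ ↔ (i, j) ∈ DD κ'')
    (hμ : ∀ i j, (j, i) ∈ DD μ ↔ (i, j) ∈ DD μ'') (h1 : Dom κ μ) (h2 : Dom κ'' μ'') :
    κ = μ := by
  refine h1.antisymm ⟨fun k => ?_, h1.2.symm⟩
  by_cases hk : k < N
  · set l := κ ⟨k, hk⟩ with hl
    have e1 := ps_conj h l
    have e2 := ps_conj hμ l
    have e3 := h2.1 l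
    rw [e1, e2] at e3
    have e4 : ∑ r : Fin N, min (κ r) l = k * l + (ps N κ - ps k κ) := by
      have f1 : ps N κ = ps k κ + ∑ r : Fin N, if (r : ℕ) < k then 0 else κ r := by
        rw [ps_eq_sum, ps_eq_sum, ← Finset.sum_add_distrib]
        refine Finset.sum_congr rfl fun r _ => ?_
        rw [if_pos r.2]
        split_ifs <;> simp
      have f2 : ∑ r : Fin N, min (κ r) l
          = (∑ r : Fin N, if (r : ℕ) < k then l else 0)
            + ∑ r : Fin N, if (r : ℕ) < k then 0 else κ r := by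
        rw [← Finset.sum_add_distrib]
        refine Finset.sum_congr rfl fun r _ => ?_
        split_ifs with hr
        · have := anti_of_conj h r ⟨k, hk⟩ (by rw [Fin.le_def]; exact hr.le)
          rw [add_zero, min_eq_right this]
        · have := anti_of_conj h ⟨k, hk⟩ r (by rw [Fin.le_def]; exact not_lt.1 hr)
          rw [zero_add, min_eq_left this]
      have f3 : (∑ r : Fin N, if (r : ℕ) < k then l else 0) = k * l := by
        rw [← Finset.sum_filter, Finset.sum_const, smul_eq_mul]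
        congr 1
        have : (univ.filter fun r : Fin N => (r : ℕ) < k) = Finset.Iio ⟨k, hk⟩ := by
          ext r; simp [Fin.lt_def]
        rw [this, Fin.card_Iio]
      rw [f2, f3, f1]
      omega
    have e5 : ∑ r : Fin N, min (μ r) l ≤ k * l + (ps N μ - ps k μ) := by
      have f1 : ps N μ = ps k μ + ∑ r : Fin N, if (r : ℕ) < k then 0 else μ r := by
        rw [ps_eq_sum, ps_eq_sum, ← Finset.sum_add_distrib]
        refine Finset.sum_congr rfl fun r _ => ?_
        rw [if_pos r.2]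
        split_ifs <;> simp
      have f2 : ∑ r : Fin N, min (μ r) l
          ≤ (∑ r : Fin N, if (r : ℕ) < k then l else 0)
            + ∑ r : Fin N, if (r : ℕ) < k then 0 else μ r := by
        rw [← Finset.sum_add_distrib]
        refine Finset.sum_le_sum fun r _ => ?_
        split_ifs with hr
        · rw [add_zero]; exact min_le_right _ _
        · rw [zero_add]; exact min_le_left _ _
      have f3 : (∑ r : Fin N, if (r : ℕ) < k then l else 0) = k * l := by
        rw [← Finset.sum_filter, Finset.sum_const, smul_eq_mul]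
        congr 1
        have : (univ.filter fun r : Fin N => (r : ℕ) < k) = Finset.Iio ⟨k, hk⟩ := by
          ext r; simp [Fin.lt_def]
        rw [this, Fin.card_Iio]
      rw [f3] at f2
      omega
    have e6 := h1.2
    have e7 := h1.1 k
    have e8 : ps k κ ≤ ps N κ := by
      rw [ps_eq_sum, ps_eq_sum]
      refine Finset.sum_le_sum fun r _ => ?_
      rw [if_pos r.2]
      split_ifs <;> omega
    have e9 : ps k μ ≤ ps N μ := by
      rw [ps_eq_sum, ps_eq_sum]
      refine Finset.sum_le_sum fun r _ => ?_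
      rw [if_pos r.2]
      split_ifs <;> omega
    omega
  · have : ∀ α : Fin N →₀ ℕ, ps k α = ps N α := by
      intro α
      rw [ps_eq_sum, ps_eq_sum]
      refine Finset.sum_congr rfl fun r _ => ?_
      have := r.2
      rw [if_pos r.2, if_pos (by omega)]
    rw [this, this, h1.2]

lemma finite_dom (β : Fin N →₀ ℕ) : {κ : Fin N →₀ ℕ | Dom κ β}.Finite := by
  refine (Set.finite_Iic (Finsupp.equivFunOnFinite.symm fun _ : Fin N => ps N β)).subset ?_
  intro κ hκ
  rw [Set.mem_Iic]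
  intro i
  simp only [Finsupp.equivFunOnFinite_symm_apply_apply]
  have h : Dom κ β := hκ
  rw [← h.2, ps_eq_sum]
  calc κ i = if (i : ℕ) < N then κ i else 0 := by rw [if_pos i.2]
    _ ≤ _ := Finset.single_le_sum
      (f := fun i : Fin N => if (i : ℕ) < N then κ i else 0)
      (fun _ _ => Nat.zero_le _) (mem_univ i)

/-- the set of exponents dominated by `β` -/
noncomputable def downset (β : Fin N →₀ ℕ) : Finset (Fin N →₀ ℕ) := (finite_dom β).toFinset

lemma mem_downset (β κ : Fin N →₀ ℕ) : κ ∈ downset β ↔ Dom κ β := by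
  simp [downset]

lemma downClosed_downset (β : Fin N →₀ ℕ) : DownClosed (downset β) := by
  intro α γ hγ hαγ
  rw [mem_downset] at hγ ⊢
  exact hαγ.trans hγ

end conj

section
variable {K : Type*} [Field K] [CharZero K]

/-- the eigenvector property from two triangularities -/
theorem eigen (D : Sym K →ₗ[K] Sym K) (s u a b : K) (hab : Gen a b)
    (hs : ∀ k : ℕ, 1 ≤ k → s ^ k ≠ 1) (hu : ∀ k : ℕ, 1 ≤ k → u ^ k ≠ 1)
    (hDs : ∀ F, pleth (fun k => s ^ k - 1) (D F) = MM a b (pleth (fun k => s ^ k - 1) F))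
    (hDu : ∀ F, pleth (fun k => u ^ k - 1) (D F) = MM b a (pleth (fun k => u ^ k - 1) F))
    {n N : ℕ} (hnN : n ≤ N) (hdeg : ∀ F, IsDeg n F → IsDeg n (D F))
    (μ μ'' : Fin N →₀ ℕ) (hμ : ∀ i j, (j, i) ∈ DD μ ↔ (i, j) ∈ DD μ'')
    (H : Sym K) (hH : IsDeg n H)
    (h1 : ∀ y, coeff y (phi K N (pleth (fun k => s ^ k - 1) H)) ≠ 0 → Dom y μ)
    (h2 : ∀ y, coeff y (phi K N (pleth (fun k => u ^ k - 1) H)) ≠ 0 → Dom y μ'') :
    D H = ev a b μ • H := by
  classical
  have k1 := kill D s a b hs hDs hnN hdeg _ (downset μ) rfl (downClosed_downset μ) H hH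
    (fun y hy => (mem_downset _ _).2 (h1 y hy))
  have k2 := kill D u b a hu hDu hnN hdeg _ (downset μ'') rfl (downClosed_downset μ'') H hH
    (fun y hy => (mem_downset _ _).2 (h2 y hy))
  have hsum : ∑ p ∈ DD μ, a ^ p.1 * b ^ p.2 = ∑ p ∈ DD μ'', b ^ p.1 * a ^ p.2 := by
    refine Finset.sum_bij (fun p _ => (p.2, p.1)) ?_ ?_ ?_ ?_
    · rintro ⟨x, y⟩ hp
      exact (hμ y x).1 hp
    · rintro ⟨x, y⟩ _ ⟨x', y'⟩ _ hh
      simp only [Prod.mk.injEq] at hh ⊢
      exact ⟨hh.2, hh.1⟩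
    · rintro ⟨x, y⟩ hp
      exact ⟨(y, x), (hμ x y).2 hp, rfl⟩
    · rintro ⟨x, y⟩ _
      exact mul_comm _ _
  have hev : ev a b μ = ev b a μ'' := by
    rw [ev_eq, ev_eq, hsum]
    ring
  have m1 : μ ∈ downset μ := (mem_downset _ _).2 (Dom.refl _)
  have m2 : μ'' ∈ downset μ'' := (mem_downset _ _).2 (Dom.refl _)
  have p1 : PP a b (downset μ) = PP a b ((downset μ).erase μ) *
      (Polynomial.X - Polynomial.C (ev a b μ)) := by
    rw [PP, PP, Finset.prod_erase_mul _ _ m1]
  have p2 : PP b a (downset μ'') = PP b a ((downset μ'').erase μ'') *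
      (Polynomial.X - Polynomial.C (ev a b μ)) := by
    rw [hev, PP, PP, Finset.prod_erase_mul _ _ m2]
  have hcop : IsCoprime (PP a b ((downset μ).erase μ)) (PP b a ((downset μ'').erase μ'')) := by
    rw [PP, PP]
    refine IsCoprime.prod_left fun κ hκ => IsCoprime.prod_right fun κ'' hκ'' => ?_
    rw [Finset.mem_erase, mem_downset] at hκ hκ''
    refine Polynomial.isCoprime_X_sub_C_of_isUnit_sub (IsUnit.mk0 _ ?_)
    rw [sub_ne_zero]
    intro he
    exact hκ.1 (conj_unique (ev_swap hab he) hμ hκ.2 hκ''.2)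
  obtain ⟨A, B, hAB⟩ := hcop
  have h3 : (Polynomial.X - Polynomial.C (ev a b μ))
      = A * PP a b (downset μ) + B * PP b a (downset μ'') := by
    rw [p1, p2]
    linear_combination (-(Polynomial.X - Polynomial.C (ev a b μ))) * hAB
  have h4 : Polynomial.aeval D (Polynomial.X - Polynomial.C (ev a b μ)) H = 0 := by
    rw [h3, map_add, map_mul, map_mul, LinearMap.add_apply, Module.End.mul_apply,
      Module.End.mul_apply, k1, k2, map_zero, map_zero, add_zero]
  have h5 : Polynomial.aeval D (Polynomial.X - Polynomial.C (ev a b μ)) H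
      = D H - ev a b μ • H := by
    simp [Module.algebraMap_end_apply]
  rw [h5] at h4
  exact sub_eq_zero.1 h4

end

end Pool.Agent.H158.TL
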