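import Mathlib
import Pool.Agent.H158.TL.Kill

set_option autoImplicit false
set_option linter.unusedSectionVars false

/-!
# Young diagrams and exponent vectors
-/

namespace Pool.Agent.H158.TL

open Finset MvPolynomial

section young

lemma row_lt_card (μ : YoungDiagram) {i j : ℕ} (h : (i, j) ∈ μ) : i < μ.card := by
  have h1 : (range (i + 1)).image (fun r => (r, j)) ⊆ μ.cells := by
    intro x hx
    rw [Finset.mem_image] at hx
    obtain ⟨r, hr, rfl⟩ := hx
    rw [YoungDiagram.mem_cells]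
    exact μ.up_left_mem (Nat.lt_succ_iff.1 (Finset.mem_range.1 hr)) (le_refl _) h
  have h2 := Finset.card_le_card h1
  rw [Finset.card_image_of_injective _ (fun a b hab => (Prod.ext_iff.1 hab).1),
    Finset.card_range] at h2
  exact h2

lemma transpose_card (μ : YoungDiagram) : μ.transpose.card = μ.card := by
  rw [YoungDiagram.card, YoungDiagram.card]
  refine Finset.card_bij (fun p _ => p.swap) ?_ ?_ ?_
  · intro p hp
    rw [YoungDiagram.mem_cells] at hp ⊢
    exact YoungDiagram.mem_transpose.1 hp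
  · intro p _ p' _ h
    exact Prod.swap_injective h
  · intro p hp
    refine ⟨p.swap, ?_, Prod.swap_swap p⟩
    rw [YoungDiagram.mem_cells] at hp ⊢
    rw [YoungDiagram.mem_transpose, Prod.swap_swap]
    exact hp

lemma col_lt_card (μ : YoungDiagram) {i j : ℕ} (h : (i, j) ∈ μ) : j < μ.card := by
  rw [← transpose_card]
  exact row_lt_card μ.transpose (i := j) (j := i) (YoungDiagram.mem_transpose.2 h)

lemma sum_rowLen_of (μ : YoungDiagram) (M : ℕ) (hM : ∀ i j, (i, j) ∈ μ → i < M) :
    ∑ i ∈ range M, μ.rowLen i = μ.card := by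
  classical
  have h1 : μ.cells = (range M).biUnion fun i => μ.row i := by
    ext ⟨a, b⟩
    rw [YoungDiagram.mem_cells, Finset.mem_biUnion]
    constructor
    · intro h
      exact ⟨a, Finset.mem_range.2 (hM a b h), YoungDiagram.mk_mem_row_iff.2 h⟩
    · rintro ⟨i, _, h⟩
      exact (YoungDiagram.mem_row_iff.1 h).1
  rw [YoungDiagram.card, h1, Finset.card_biUnion]
  · refine Finset.sum_congr rfl fun i _ => ?_
    rw [YoungDiagram.rowLen_eq_card]
  · intro i _ i' _ hne
    rw [Function.onFun, Finset.disjoint_left]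
    intro x hx hx'
    exact hne ((YoungDiagram.mem_row_iff.1 hx).2.symm.trans (YoungDiagram.mem_row_iff.1 hx').2)

lemma sum_rowLen (μ : YoungDiagram) (M : ℕ) (hM : μ.card ≤ M) :
    ∑ i ∈ range M, μ.rowLen i = μ.card :=
  sum_rowLen_of μ M fun _ _ h => lt_of_lt_of_le (row_lt_card μ h) hM

/-- the exponent vector of a Young diagram -/
noncomputable def yv (N : ℕ) (μ : YoungDiagram) : Fin N →₀ ℕ :=
  Finsupp.equivFunOnFinite.symm fun i => μ.rowLen i

lemma yv_apply (N : ℕ) (μ : YoungDiagram) (i : Fin N) : yv N μ i = μ.rowLen i := rfl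

lemma mem_DD_yv (N : ℕ) (μ : YoungDiagram) (j i : ℕ) :
    (j, i) ∈ DD (yv N μ) ↔ i < N ∧ (i, j) ∈ μ := by
  rw [mem_DD]
  constructor
  · rintro ⟨h1, h2⟩
    exact ⟨h1, YoungDiagram.mem_iff_lt_rowLen.2 h2⟩
  · rintro ⟨h1, h2⟩
    exact ⟨h1, YoungDiagram.mem_iff_lt_rowLen.1 h2⟩

lemma yv_conj {N : ℕ} {μ : YoungDiagram} (hN : μ.card ≤ N) (i j : ℕ) :
    (j, i) ∈ DD (yv N μ) ↔ (i, j) ∈ DD (yv N μ.transpose) := by
  rw [mem_DD_yv, mem_DD_yv, YoungDiagram.mem_transpose]
  simp only [Prod.swap_prod_mk]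
  constructor
  · rintro ⟨_, h2⟩
    exact ⟨lt_of_lt_of_le (col_lt_card μ h2) hN, h2⟩
  · rintro ⟨_, h2⟩
    exact ⟨lt_of_lt_of_le (row_lt_card μ h2) hN, h2⟩

lemma ps_yv {N : ℕ} (μ : YoungDiagram) (k : ℕ) (hk : k ≤ N) :
    ps k (yv N μ) = ∑ i ∈ range k, μ.rowLen i := by
  rw [ps_eq_sum]
  have h1 : ∀ i : Fin N, (if (i : ℕ) < k then yv N μ i else 0)
      = (fun i : ℕ => if i < k then μ.rowLen i else 0) (i : ℕ) := fun i => rfl
  rw [Finset.sum_congr rfl fun i _ => h1 i,
    Fin.sum_univ_eq_sum_range (fun i : ℕ => if i < k then μ.rowLen i else 0),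
    ← Finset.sum_filter]
  congr 1
  ext i
  simp only [mem_filter, Finset.mem_range]
  omega

lemma ps_yv_total {N : ℕ} (μ : YoungDiagram) (hN : μ.card ≤ N) : ps N (yv N μ) = μ.card := by
  rw [ps_yv μ N (le_refl _), sum_rowLen μ N hN]

/-- the sum of `a^column b^row` over the cells -/
noncomputable def BB {K : Type*} [Field K] (a b : K) (μ : YoungDiagram) : K :=
  ∑ x ∈ μ.cells, a ^ x.2 * b ^ x.1

lemma sum_DD_yv {K : Type*} [Field K] {N : ℕ} (a b : K) (μ : YoungDiagram) (hN : μ.card ≤ N) :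
    ∑ p ∈ DD (yv N μ), a ^ p.1 * b ^ p.2 = BB a b μ := by
  rw [BB]
  refine Finset.sum_bij (fun p _ => (p.2, p.1)) ?_ ?_ ?_ ?_
  · rintro ⟨x, y⟩ hp
    rw [YoungDiagram.mem_cells]
    exact ((mem_DD_yv N μ x y).1 hp).2
  · rintro ⟨x, y⟩ _ ⟨x', y'⟩ _ hh
    simp only [Prod.mk.injEq] at hh ⊢
    exact ⟨hh.2, hh.1⟩
  · rintro ⟨x, y⟩ hp
    rw [YoungDiagram.mem_cells] at hp
    exact ⟨(y, x), (mem_DD_yv N μ y x).2 ⟨lt_of_lt_of_le (row_lt_card μ hp) hN, hp⟩, rfl⟩
  · rintro ⟨x, y⟩ _
    rfl

lemma ev_yv {K : Type*} [Field K] [CharZero K] {N : ℕ} (a b : K) (μ : YoungDiagram)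
    (hN : μ.card ≤ N) :
    ev a b (yv N μ) = 1 - (1 - a) * (1 - b) * BB a b μ := by
  rw [ev_eq, sum_DD_yv a b μ hN]

lemma yv_inj {N : ℕ} {μ ν : YoungDiagram} (hμ : μ.card ≤ N) (hν : ν.card ≤ N)
    (h : yv N μ = yv N ν) : μ = ν := by
  ext ⟨i, j⟩
  rw [YoungDiagram.mem_cells, YoungDiagram.mem_cells]
  have e1 := mem_DD_yv N μ j i
  have e2 := mem_DD_yv N ν j i
  rw [h, e2] at e1
  constructor
  · intro h1
    exact (e1.2 ⟨lt_of_lt_of_le (row_lt_card μ h1) hμ, h1⟩).2
  · intro h1
    exact (e1.1 ⟨lt_of_lt_of_le (row_lt_card ν h1) hν, h1⟩).2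

/-- dominance order on Young diagrams: `YDom ν lam` means `ν ≤ lam` -/
def YDom (ν lam : YoungDiagram) : Prop :=
  ν.card = lam.card ∧ ∀ k, ∑ i ∈ range k, ν.rowLen i ≤ ∑ i ∈ range k, lam.rowLen i

end young

section schur
variable {K : Type*} [Field K] [CharZero K]
open Pool.Agent.H209R2.EH

/-- complete homogeneous symmetric functions, with integer index -/
noncomputable def hZ (K : Type*) [Field K] [CharZero K] (z : ℤ) : Sym K :=
  if z < 0 then 0 else expo (fun k => pw K k) z.toNat

/-- Schur functions, by the Jacobi-Trudi formula -/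
noncomputable def schur (K : Type*) [Field K] [CharZero K] (lam : YoungDiagram) : Sym K :=
  Matrix.det (Matrix.of fun i j : Fin (lam.colLen 0) =>
    hZ K ((lam.rowLen i : ℤ) - (i : ℤ) + (j : ℤ)))

lemma isDeg_expo (n : ℕ) : IsDeg n (expo (fun k => pw K k) n) := by
  apply IsDeg.of_pleth
  have h := expo_map ((pleth (fun k => (2 : K) ^ k) : Sym K →ₐ[K] Sym K) : Sym K →+* Sym K)
    (fun k => pw K k) n
  refine h.trans ?_
  have e : (fun k => ((pleth (fun k => (2 : K) ^ k) : Sym K →ₐ[K] Sym K) : Sym K →+* Sym K)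
      (pw K k)) = fun k => pw K k * (C (2 : K)) ^ k := by
    funext k
    have := pleth_pw (fun k => (2 : K) ^ k) k
    rw [C_pow] at this
    rw [mul_comm]
    exact this
  rw [e, expo_scale, C_pow]
  ring

lemma isDeg_prod {ι : Type*} (S : Finset ι) (F : ι → Sym K) (d : ι → ℕ)
    (h : ∀ i ∈ S, IsDeg (d i) (F i)) : IsDeg (∑ i ∈ S, d i) (∏ i ∈ S, F i) := by
  classical
  induction S using Finset.induction_on with
  | empty => simpa using IsDeg.one
  | insert a S ha ih =>
    rw [Finset.sum_insert ha, Finset.prod_insert ha]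
    exact (h a (Finset.mem_insert_self _ _)).mul
      (ih fun i hi => h i (Finset.mem_insert_of_mem hi))

/-- the exponents of `F` are bounded by `f` and have total `m` -/
def PSup {N : ℕ} (F : MvPolynomial (Fin N) K) (f : ℕ → ℕ) (m : ℕ) : Prop :=
  ∀ α, coeff α F ≠ 0 → (∀ k, ps k α ≤ f k) ∧ ps N α = m

lemma PSup.mul {N : ℕ} {F G : MvPolynomial (Fin N) K} {f g : ℕ → ℕ} {m m' : ℕ}
    (hF : PSup F f m) (hG : PSup G g m') : PSup (F * G) (fun k => f k + g k) (m + m') := by
  classical
  intro α hα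
  rw [coeff_mul] at hα
  obtain ⟨p, hp, hp'⟩ := Finset.exists_ne_zero_of_sum_ne_zero hα
  rw [Finset.HasAntidiagonal.mem_antidiagonal] at hp
  obtain ⟨h1, h2⟩ := hF _ (left_ne_zero_of_mul hp')
  obtain ⟨h3, h4⟩ := hG _ (right_ne_zero_of_mul hp')
  rw [← hp]
  refine ⟨fun k => ?_, ?_⟩
  · rw [ps_add]
    exact Nat.add_le_add (h1 k) (h3 k)
  · rw [ps_add, h2, h4]

lemma PSup.prod {N : ℕ} {ι : Type*} (S : Finset ι) (F : ι → MvPolynomial (Fin N) K)
    (f : ι → ℕ → ℕ) (m : ι → ℕ) (h : ∀ i ∈ S, PSup (F i) (f i) (m i)) :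
    PSup (∏ i ∈ S, F i) (fun k => ∑ i ∈ S, f i k) (∑ i ∈ S, m i) := by
  classical
  induction S using Finset.induction_on with
  | empty =>
    intro α hα
    have h0 : α = 0 := by
      by_contra h
      apply hα
      rw [Finset.prod_empty, ← C_1, coeff_C, if_neg (Ne.symm h)]
    rw [h0]
    simp [ps]
  | insert a S ha ih =>
    simp only [Finset.sum_insert ha, Finset.prod_insert ha]
    exact (h a (Finset.mem_insert_self _ _)).mul
      (ih fun i hi => h i (Finset.mem_insert_of_mem hi))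

/-- exponents of `(-1)^m e_m` -/
lemma elem_supp (N : ℕ) (S : Finset (Fin N)) (m : ℕ) (α : Fin N →₀ ℕ)
    (h : coeff α (PowerSeries.coeff m (∏ i ∈ S, (1 - PowerSeries.C
      (X i : MvPolynomial (Fin N) K) * PowerSeries.X))) ≠ 0) :
    (∀ i, α i ≤ 1) ∧ (∀ i, i ∉ S → α i = 0) ∧ ∑ i, α i = m := by
  classical
  induction S using Finset.induction_on generalizing m α with
  | empty =>
    rw [Finset.prod_empty, PowerSeries.coeff_one] at h
    split_ifs at h with hm
    · have h0 : α = 0 := by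
        by_contra h'
        apply h
        rw [← C_1, coeff_C, if_neg (Ne.symm h')]
      rw [h0, hm]
      simp
    · simp at h
  | insert a S ha ih =>
    rw [Finset.prod_insert ha, sub_mul, one_mul, map_sub, coeff_sub, mul_assoc,
      PowerSeries.coeff_C_mul] at h
    by_cases h1 : coeff α (PowerSeries.coeff m (∏ i ∈ S, (1 - PowerSeries.C
      (X i : MvPolynomial (Fin N) K) * PowerSeries.X))) = 0
    · rw [h1, zero_sub, neg_ne_zero] at h
      cases m with
      | zero =>
        rw [PowerSeries.coeff_zero_X_mul] at h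
        simp at h
      | succ m =>
        rw [PowerSeries.coeff_succ_X_mul, coeff_X_mul'] at h
        split_ifs at h with hmem
        · obtain ⟨i1, i2, i3⟩ := ih m _ h
          have hpos : 1 ≤ α a := Nat.one_le_iff_ne_zero.2 (Finsupp.mem_support_iff.1 hmem)
          have e : α = (α - Finsupp.single a 1) + Finsupp.single a 1 := by
            ext i
            simp only [Finsupp.add_apply, Finsupp.tsub_apply, Finsupp.single_apply]
            split_ifs with hi
            · rw [← hi]; omega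
            · omega
          refine ⟨?_, ?_, ?_⟩
          · intro i
            rw [e, Finsupp.add_apply, Finsupp.single_apply]
            split_ifs with hi
            · have := i2 a ha
              rw [← hi, this]
            · exact i1 i
          · intro i hi
            rw [Finset.mem_insert, not_or] at hi
            rw [e, Finsupp.add_apply, Finsupp.single_apply, if_neg (Ne.symm hi.1), i2 i hi.2,
              add_zero]
          · rw [e]
            simp only [Finsupp.add_apply, Finset.sum_add_distrib, i3]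
            simp [Finsupp.single_apply]
        · exact absurd rfl h
    · obtain ⟨i1, i2, i3⟩ := ih m _ h1
      exact ⟨i1, fun i hi => i2 i fun h' => hi (Finset.mem_insert_of_mem h'), i3⟩

/-- the image of `h_m[-X]` -/
noncomputable def EE (K : Type*) [Field K] [CharZero K] (N : ℕ) (z : ℤ) :
    MvPolynomial (Fin N) K := phi K N (pleth (fun _ => (-1 : K)) (hZ K z))

lemma EE_neg (N : ℕ) (z : ℤ) (hz : z < 0) : EE K N z = 0 := by
  rw [EE, hZ, if_pos hz, map_zero, map_zero]

lemma EE_nonneg (N : ℕ) (m : ℕ) : EE K N m = PowerSeries.coeff m (∏ i, (1 - PowerSeries.C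
      (X i : MvPolynomial (Fin N) K) * PowerSeries.X)) := by
  have h1 : (((phi K N).comp (pleth (fun _ => (-1 : K))) : Sym K →ₐ[K] MvPolynomial (Fin N) K) :
      Sym K →+* MvPolynomial (Fin N) K) (expo (fun k => pw K k) m)
      = expo (fun k => ∑ i, - (X i : MvPolynomial (Fin N) K) ^ k) m := by
    rw [expo_map]
    refine expo_congr _ _ (fun k => ?_) m
    have : ((phi K N).comp (pleth (fun _ => (-1 : K)))) (pw K (k + 1))
        = ∑ i, - (X i : MvPolynomial (Fin N) K) ^ (k + 1) := by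
      rw [AlgHom.comp_apply, pleth_pw, map_mul, phi_pw]
      simp [phi]
    exact this
  have h2 : Om (fun k => ∑ i, - (X i : MvPolynomial (Fin N) K) ^ k)
      = ∏ i, (1 - PowerSeries.C (X i : MvPolynomial (Fin N) K) * PowerSeries.X) := by
    rw [Om_sum]
    simp only [Om_neg_geom]
  rw [EE, hZ, if_neg (by omega), Int.toNat_natCast, ← h2, Om, PowerSeries.coeff_mk, ← h1]
  rfl

lemma EE_psup (N : ℕ) (m : ℕ) : PSup (EE K N m) (fun k => min m k) m := by
  intro α hα
  rw [EE_nonneg] at hα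
  obtain ⟨h1, _, h3⟩ := elem_supp N univ m α hα
  have hN : ps N α = m := by
    rw [ps_eq_sum, ← h3]
    refine Finset.sum_congr rfl fun i _ => if_pos i.2
  refine ⟨fun k => ?_, hN⟩
  refine le_min ?_ ?_
  · rw [← hN, ps_eq_sum, ps_eq_sum]
    refine Finset.sum_le_sum fun r _ => ?_
    rw [if_pos r.2]
    split_ifs <;> omega
  · rw [ps]
    calc ∑ i ∈ univ.filter (fun i : Fin N => (i : ℕ) < k), α i
        ≤ ∑ i ∈ univ.filter (fun i : Fin N => (i : ℕ) < k), 1 :=
          Finset.sum_le_sum fun i _ => h1 i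
      _ = (univ.filter (fun i : Fin N => (i : ℕ) < k)).card := by simp
      _ ≤ k := by
        have : (univ.filter (fun i : Fin N => (i : ℕ) < k)).map Fin.valEmbedding ⊆ range k := by
          intro x hx
          rw [Finset.mem_map] at hx
          obtain ⟨i, hi, rfl⟩ := hx
          exact Finset.mem_range.2 (Finset.mem_filter.1 hi).2
        have h2 := Finset.card_le_card this
        rwa [Finset.card_map, Finset.card_range] at h2

end schur

end Pool.Agent.H158.TL
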