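import Mathlib
import Pool.Agent.H158.TL.Young

set_option autoImplicit false
set_option linter.unusedSectionVars false

/-!
# From the span conditions to support conditions
-/

namespace Pool.Agent.H158.TL

open Finset MvPolynomial

lemma lt_colLen_zero (μ : YoungDiagram) {i j : ℕ} (h : (i, j) ∈ μ) : i < μ.colLen 0 := by
  rw [← YoungDiagram.mem_iff_lt_colLen]
  exact μ.up_left_mem (le_refl _) (Nat.zero_le _) h

lemma rowLen_eq_zero (μ : YoungDiagram) {i : ℕ} (h : μ.colLen 0 ≤ i) : μ.rowLen i = 0 := by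
  by_contra hne
  have h1 : (i, 0) ∈ μ := YoungDiagram.mem_iff_lt_rowLen.2 (Nat.pos_of_ne_zero hne)
  have := lt_colLen_zero μ h1
  omega

lemma sum_rowLen_fin (μ : YoungDiagram) :
    ∑ i : Fin (μ.colLen 0), μ.rowLen i = μ.card := by
  rw [Fin.sum_univ_eq_sum_range (fun i => μ.rowLen i)]
  exact sum_rowLen_of μ _ fun _ _ h => lt_colLen_zero μ h

lemma sum_rowLen_fin_lt (μ : YoungDiagram) (r : ℕ) :
    ∑ i : Fin (μ.colLen 0), (if (i : ℕ) < r then μ.rowLen i else 0)
      = ∑ i ∈ range r, μ.rowLen i := by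
  rw [Fin.sum_univ_eq_sum_range (fun i => if i < r then μ.rowLen i else 0),
    ← Finset.sum_filter]
  refine Finset.sum_subset ?_ ?_
  · intro i hi
    exact Finset.mem_range.2 (Finset.mem_filter.1 hi).2
  · intro i hi hni
    apply rowLen_eq_zero
    rw [Finset.mem_filter, Finset.mem_range] at hni
    rw [Finset.mem_range] at hi
    by_contra hlt
    exact hni ⟨not_le.1 hlt, hi⟩

/-- rearrangement -/
lemma sum_perm_ge (l r : ℕ) (τ : Equiv.Perm (Fin l)) :
    ∑ j : Fin l, (if (j : ℕ) < r then (0 : ℤ) else (τ j : ℕ))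
      ≤ ∑ j : Fin l, (if (j : ℕ) < r then (0 : ℤ) else (j : ℕ)) := by
  have h := Monovary.sum_mul_comp_perm_le_sum_mul
    (f := fun j : Fin l => if (j : ℕ) < r then (0 : ℤ) else 1)
    (g := fun j : Fin l => ((j : ℕ) : ℤ)) (σ := τ) (by
      intro i j hij
      simp only at hij ⊢
      have h1 : (i : ℕ) < j := by exact_mod_cast hij
      split_ifs <;> first | omega | norm_num)
  simpa only [ite_mul, zero_mul, one_mul] using h

lemma sum_min_conj (ν : YoungDiagram) (N k : ℕ) (hN : ν.card ≤ N) :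
    (∑ r : Fin N, (min (ν.rowLen r) k : ℕ) : ℤ)
      = ν.colLen k * k + (ν.card - ∑ i ∈ range (ν.colLen k), (ν.rowLen i : ℤ)) := by
  set r0 := ν.colLen k with hr0
  have hmem : ∀ i, i < r0 ↔ k < ν.rowLen i := by
    intro i
    rw [hr0, ← YoungDiagram.mem_iff_lt_colLen, YoungDiagram.mem_iff_lt_rowLen]
  have hr0N : r0 ≤ N := by
    by_contra hlt
    push Not at hlt
    have h1 : (N, k) ∈ ν := YoungDiagram.mem_iff_lt_colLen.2 hlt
    have := row_lt_card ν h1
    omega
  rw [Fin.sum_univ_eq_sum_range (fun r => ((min (ν.rowLen r) k : ℕ) : ℤ))]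
  have h2 : N = r0 + (N - r0) := by omega
  rw [h2, Finset.sum_range_add]
  have h3 : ∑ x ∈ range r0, ((min (ν.rowLen x) k : ℕ) : ℤ) = r0 * k := by
    rw [Finset.sum_congr rfl (g := fun _ => (k : ℤ)), Finset.sum_const, Finset.card_range,
      nsmul_eq_mul]
    intro x hx
    have := (hmem x).1 (Finset.mem_range.1 hx)
    rw [min_eq_right this.le]
  have h4 : ∑ x ∈ range (N - r0), ((min (ν.rowLen (r0 + x)) k : ℕ) : ℤ)
      = ∑ x ∈ range (N - r0), (ν.rowLen (r0 + x) : ℤ) := by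
    refine Finset.sum_congr rfl fun x _ => ?_
    have : ¬ (k < ν.rowLen (r0 + x)) := fun h => by
      have := (hmem _).2 h
      omega
    rw [min_eq_left (not_lt.1 this)]
  have h5 : (ν.card : ℤ) = ∑ i ∈ range r0, (ν.rowLen i : ℤ)
      + ∑ x ∈ range (N - r0), (ν.rowLen (r0 + x) : ℤ) := by
    rw [← Finset.sum_range_add, ← h2, ← sum_rowLen ν N hN]
    push_cast
    rfl
  rw [h3, h4, h5]
  ring

/-- the key inequality for the terms of the Jacobi-Trudi determinant -/
lemma jt_ineq (lam ν : YoungDiagram) (h : YDom ν lam) (N : ℕ) (hN : ν.card ≤ N)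
    (τ : Equiv.Perm (Fin (lam.colLen 0)))
    (hpos : ∀ j : Fin (lam.colLen 0), 0 ≤ (lam.rowLen j : ℤ) - (j : ℕ) + (τ j : ℕ)) (k : ℕ) :
    ∑ j : Fin (lam.colLen 0), min ((lam.rowLen j : ℤ) - (j : ℕ) + (τ j : ℕ)).toNat k
      ≤ ∑ r : Fin N, min (ν.rowLen r) k := by
  have key : (∑ j : Fin (lam.colLen 0), (min ((lam.rowLen j : ℤ) - (j : ℕ) + (τ j : ℕ)).toNat k : ℕ) : ℤ)
      ≤ (∑ r : Fin N, (min (ν.rowLen r) k : ℕ) : ℤ) := by
    rw [sum_min_conj ν N k hN]
    set r0 := ν.colLen k with hr0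
    have hA : ∀ j : Fin (lam.colLen 0),
        ((min ((lam.rowLen j : ℤ) - (j : ℕ) + (τ j : ℕ)).toNat k : ℕ) : ℤ)
        ≤ (if (j : ℕ) < r0 then (k : ℤ) else 0) + (if (j : ℕ) < r0 then 0 else
          (lam.rowLen j : ℤ)) + ((if (j : ℕ) < r0 then (0 : ℤ) else (τ j : ℕ))
          - (if (j : ℕ) < r0 then (0 : ℤ) else (j : ℕ))) := by
      intro j
      have h1 := hpos j
      split_ifs with hj
      · have : min ((lam.rowLen j : ℤ) - (j : ℕ) + (τ j : ℕ)).toNat k ≤ k := min_le_right _ _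
        have h2 : ((min ((lam.rowLen j : ℤ) - (j : ℕ) + (τ j : ℕ)).toNat k : ℕ) : ℤ) ≤ k := by
          exact_mod_cast this
        linarith
      · have h2 : ((min ((lam.rowLen j : ℤ) - (j : ℕ) + (τ j : ℕ)).toNat k : ℕ) : ℤ)
            ≤ (((lam.rowLen j : ℤ) - (j : ℕ) + (τ j : ℕ)).toNat : ℤ) := by
          exact_mod_cast min_le_left _ _
        rw [Int.toNat_of_nonneg h1] at h2
        linarith
    have hB : ∑ j : Fin (lam.colLen 0), (if (j : ℕ) < r0 then (k : ℤ) else 0) ≤ r0 * k := by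
      rw [← Finset.sum_filter, Finset.sum_const, nsmul_eq_mul]
      apply mul_le_mul_of_nonneg_right _ (by positivity)
      have : (univ.filter (fun i : Fin (lam.colLen 0) => (i : ℕ) < r0)).map
          Fin.valEmbedding ⊆ range r0 := by
        intro x hx
        rw [Finset.mem_map] at hx
        obtain ⟨i, hi, rfl⟩ := hx
        exact Finset.mem_range.2 (Finset.mem_filter.1 hi).2
      have h2 := Finset.card_le_card this
      rw [Finset.card_map, Finset.card_range] at h2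
      exact_mod_cast h2
    have hC := sum_perm_ge (lam.colLen 0) r0 τ
    have hD : ∑ j : Fin (lam.colLen 0), (if (j : ℕ) < r0 then 0 else (lam.rowLen j : ℤ))
        = lam.card - ∑ i ∈ range r0, (lam.rowLen i : ℤ) := by
      have e1 := sum_rowLen_fin lam
      have e2 := sum_rowLen_fin_lt lam r0
      have e3 : ∑ j : Fin (lam.colLen 0), (if (j : ℕ) < r0 then 0 else (lam.rowLen j : ℤ))
          + ∑ j : Fin (lam.colLen 0), (if (j : ℕ) < r0 then (lam.rowLen j : ℤ) else 0)
          = ∑ j : Fin (lam.colLen 0), (lam.rowLen j : ℤ) := by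
        rw [← Finset.sum_add_distrib]
        refine Finset.sum_congr rfl fun j _ => ?_
        split_ifs <;> simp
      have e4 : ∑ j : Fin (lam.colLen 0), (lam.rowLen j : ℤ) = lam.card := by
        exact_mod_cast e1
      have e5 : ∑ j : Fin (lam.colLen 0), (if (j : ℕ) < r0 then (lam.rowLen j : ℤ) else 0)
          = ∑ i ∈ range r0, (lam.rowLen i : ℤ) := by
        have := congrArg (Nat.cast (R := ℤ)) e2
        push_cast at this
        exact this
      rw [← e4, ← e3, e5]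
      ring
    have hE : (∑ i ∈ range r0, (ν.rowLen i : ℤ)) ≤ ∑ i ∈ range r0, (lam.rowLen i : ℤ) := by
      exact_mod_cast h.2 r0
    have hF : (ν.card : ℤ) = lam.card := by exact_mod_cast h.1
    calc (∑ j : Fin (lam.colLen 0), (min ((lam.rowLen j : ℤ) - (j : ℕ) + (τ j : ℕ)).toNat k : ℕ) : ℤ)
        ≤ ∑ j : Fin (lam.colLen 0), ((if (j : ℕ) < r0 then (k : ℤ) else 0) +
          (if (j : ℕ) < r0 then 0 else (lam.rowLen j : ℤ)) +
          ((if (j : ℕ) < r0 then (0 : ℤ) else (τ j : ℕ))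
          - (if (j : ℕ) < r0 then (0 : ℤ) else (j : ℕ)))) := Finset.sum_le_sum fun j _ => hA j
      _ ≤ _ := by
        rw [Finset.sum_add_distrib, Finset.sum_add_distrib, Finset.sum_sub_distrib, hD]
        linarith
  exact_mod_cast key

lemma sum_z (lam : YoungDiagram) (σ : Equiv.Perm (Fin (lam.colLen 0)))
    (hpos : ∀ i, 0 ≤ (lam.rowLen (σ i) : ℤ) - ((σ i : ℕ) : ℤ) + (i : ℕ)) :
    ∑ i, ((lam.rowLen (σ i) : ℤ) - ((σ i : ℕ) : ℤ) + (i : ℕ)).toNat = lam.card := by
  have h : (∑ i, (((lam.rowLen (σ i) : ℤ) - ((σ i : ℕ) : ℤ) + (i : ℕ)).toNat : ℤ))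
      = lam.card := by
    rw [Finset.sum_congr rfl fun i _ => Int.toNat_of_nonneg (hpos i), Finset.sum_add_distrib,
      Finset.sum_sub_distrib, Equiv.sum_comp σ (fun i => (lam.rowLen i : ℤ)),
      Equiv.sum_comp σ (fun i => ((i : ℕ) : ℤ)), ← sum_rowLen_fin lam]
    push_cast
    ring
  exact_mod_cast h

section
variable {K : Type*} [Field K] [CharZero K]
open Pool.Agent.H209R2.EH

lemma isDeg_schur (lam : YoungDiagram) : IsDeg lam.card (schur K lam) := by
  rw [schur, Matrix.det_apply]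
  refine IsDeg.sum _ _ fun σ _ => ?_
  have h : IsDeg lam.card (∏ i, Matrix.of (fun i j : Fin (lam.colLen 0) =>
      hZ K ((lam.rowLen i : ℤ) - (i : ℤ) + (j : ℤ))) (σ i) i) := by
    by_cases hpos : ∀ i, 0 ≤ (lam.rowLen (σ i) : ℤ) - ((σ i : ℕ) : ℤ) + (i : ℕ)
    · rw [← sum_z lam σ hpos]
      refine isDeg_prod _ _ _ fun i _ => ?_
      rw [Matrix.of_apply, hZ, if_neg (not_lt.2 (hpos i))]
      exact isDeg_expo _
    · push Not at hpos
      obtain ⟨i, hi⟩ := hpos
      rw [Finset.prod_eq_zero (mem_univ i)]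
      · exact IsDeg.zero _
      · rw [Matrix.of_apply, hZ, if_pos hi]
  rcases Int.units_eq_one_or (Equiv.Perm.sign σ) with hs | hs
  · rw [hs, one_smul]
    exact h
  · rw [hs, Units.neg_smul, one_smul]
    exact h.neg

/-- support of Schur functions -/
lemma schur_supp (lam μ : YoungDiagram) (h : YDom μ.transpose lam) {N : ℕ} (hN : μ.card ≤ N)
    (y : Fin N →₀ ℕ) (hy : coeff y (phi K N (pleth (fun _ => (-1 : K)) (schur K lam))) ≠ 0) :
    Dom y (yv N μ) := by
  have hcard : μ.transpose.card ≤ N := by rw [transpose_card]; exact hN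
  have hc : lam.card = μ.card := by rw [← h.1, transpose_card]
  have e1 : phi K N (pleth (fun _ => (-1 : K)) (schur K lam))
      = ∑ σ : Equiv.Perm (Fin (lam.colLen 0)), (Equiv.Perm.sign σ : ℤ) •
        ∏ i, EE K N ((lam.rowLen (σ i) : ℤ) - ((σ i : ℕ) : ℤ) + ((i : ℕ) : ℤ)) := by
    rw [schur, Matrix.det_apply, map_sum, map_sum]
    refine Finset.sum_congr rfl fun σ _ => ?_
    have : (Equiv.Perm.sign σ • ∏ i, Matrix.of (fun i j : Fin (lam.colLen 0) =>
        hZ K ((lam.rowLen i : ℤ) - (i : ℤ) + (j : ℤ))) (σ i) i : Sym K)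
        = (Equiv.Perm.sign σ : ℤ) • ∏ i, Matrix.of (fun i j : Fin (lam.colLen 0) =>
        hZ K ((lam.rowLen i : ℤ) - (i : ℤ) + (j : ℤ))) (σ i) i := rfl
    rw [this, map_zsmul, map_zsmul, map_prod, map_prod]
    rfl
  rw [e1, coeff_sum] at hy
  obtain ⟨σ, _, hσ⟩ := Finset.exists_ne_zero_of_sum_ne_zero hy
  rw [coeff_smul] at hσ
  have hσ' : coeff y (∏ i, EE K N ((lam.rowLen (σ i) : ℤ) - ((σ i : ℕ) : ℤ) + ((i : ℕ) : ℤ)))
      ≠ 0 := fun h0 => hσ (by rw [h0, smul_zero])
  have hpos : ∀ i, 0 ≤ (lam.rowLen (σ i) : ℤ) - ((σ i : ℕ) : ℤ) + (i : ℕ) := by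
    intro i
    by_contra hlt
    apply hσ'
    rw [Finset.prod_eq_zero (mem_univ i) (EE_neg N _ (not_le.1 hlt)), coeff_zero]
  have hP := PSup.prod univ (fun i => EE K N ((lam.rowLen (σ i) : ℤ) - ((σ i : ℕ) : ℤ)
      + ((i : ℕ) : ℤ)))
    (fun i k => min ((lam.rowLen (σ i) : ℤ) - ((σ i : ℕ) : ℤ) + ((i : ℕ) : ℤ)).toNat k)
    (fun i => ((lam.rowLen (σ i) : ℤ) - ((σ i : ℕ) : ℤ) + ((i : ℕ) : ℤ)).toNat) (by
      intro i _
      have h1 := EE_psup (K := K) N
        ((lam.rowLen (σ i) : ℤ) - ((σ i : ℕ) : ℤ) + ((i : ℕ) : ℤ)).toNat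
      rw [Int.toNat_of_nonneg (hpos i)] at h1
      exact h1)
  obtain ⟨h1, h2⟩ := hP y hσ'
  refine ⟨fun k => ?_, ?_⟩
  · refine (h1 k).trans ?_
    have h3 := jt_ineq lam μ.transpose h N hcard σ⁻¹ (by
      intro j
      have := hpos (σ⁻¹ j)
      simpa using this) k
    have h4 : ∑ j : Fin (lam.colLen 0), min ((lam.rowLen j : ℤ) - ((j : ℕ) : ℤ) + ((σ⁻¹ j : ℕ) : ℤ)).toNat k
        = ∑ i, min ((lam.rowLen (σ i) : ℤ) - ((σ i : ℕ) : ℤ) + ((i : ℕ) : ℤ)).toNat k := by
      rw [← Equiv.sum_comp σ]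
      refine Finset.sum_congr rfl fun i _ => ?_
      simp
    rw [h4] at h3
    refine h3.trans ?_
    have h5 := ps_conj (N := N) (κ := yv N μ.transpose) (κ'' := yv N μ) (fun i j => by
      have := yv_conj (N := N) (μ := μ.transpose) hcard i j
      rw [YoungDiagram.transpose_transpose] at this
      exact this) k
    rw [h5]
    exact le_refl _
  · rw [h2, sum_z lam σ hpos, ps_yv_total μ hN, hc]

/-- the span condition with parameter `s` -/
def SpanCond (s : K) (ν : YoungDiagram) (H : Sym K) : Prop :=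
  pleth (fun k => 1 - s ^ k) H ∈ Submodule.span K {F | ∃ lam, YDom ν lam ∧ F = schur K lam}

lemma SpanCond.supp {s : K} {μ : YoungDiagram} {H : Sym K} (h : SpanCond s μ.transpose H)
    {N : ℕ} (hN : μ.card ≤ N) (y : Fin N →₀ ℕ)
    (hy : coeff y (phi K N (pleth (fun k => s ^ k - 1) H)) ≠ 0) : Dom y (yv N μ) := by
  have e : pleth (fun k => s ^ k - 1) H = pleth (fun _ => (-1 : K))
      (pleth (fun k => 1 - s ^ k) H) := by
    rw [pleth_pleth]
    congr 2
    funext k
    ring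
  rw [e] at hy
  have key : ∀ F ∈ Submodule.span K {F | ∃ lam, YDom μ.transpose lam ∧ F = schur K lam},
      ∀ y, coeff y (phi K N (pleth (fun _ => (-1 : K)) F)) ≠ 0 → Dom y (yv N μ) := by
    intro F hF
    induction hF using Submodule.span_induction with
    | mem F hF =>
      obtain ⟨lam, hlam, rfl⟩ := hF
      exact schur_supp lam μ hlam hN
    | zero =>
      intro y hy
      rw [map_zero, map_zero, coeff_zero] at hy
      exact absurd rfl hy
    | add F G _ _ hF hG =>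
      intro y hy
      rw [map_add, map_add, coeff_add] at hy
      by_cases h0 : coeff y (phi K N (pleth (fun _ => (-1 : K)) F)) = 0
      · rw [h0, zero_add] at hy
        exact hG y hy
      · exact hF y h0
    | smul c F _ hF =>
      intro y hy
      rw [map_smul, map_smul, coeff_smul, smul_eq_mul] at hy
      exact hF y (right_ne_zero_of_mul hy)
  exact key _ h y hy

lemma SpanCond.isDeg {s : K} (hs : ∀ k : ℕ, 1 ≤ k → s ^ k ≠ 1) {ν : YoungDiagram} {H : Sym K}
    (h : SpanCond s ν H) : IsDeg ν.card H := by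
  have key : ∀ F ∈ Submodule.span K {F | ∃ lam, YDom ν lam ∧ F = schur K lam},
      IsDeg ν.card F := by
    intro F hF
    induction hF using Submodule.span_induction with
    | mem F hF =>
      obtain ⟨lam, hlam, rfl⟩ := hF
      rw [hlam.1]
      exact isDeg_schur lam
    | zero => exact IsDeg.zero _
    | add F G _ _ hF hG => exact hF.add hG
    | smul c F _ hF => exact hF.smul c
  have h1 := key _ h
  intro m hm
  apply h1 m
  rw [coeff_pleth]
  refine mul_ne_zero ?_ hm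
  exact Finset.prod_ne_zero_iff.2 fun k _ => pow_ne_zero _
    (sub_ne_zero.2 (Ne.symm (hs k k.pos)))

end

end Pool.Agent.H158.TL
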