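import Mathlib
import Pool.Agent.H158.TL.Span

set_option autoImplicit false
set_option linter.unusedSectionVars false

/-!
# Eigenvectors of `D_0` and the modified Macdonald basis
-/

namespace Pool.Agent.H158.TL

open Finset MvPolynomial

section
variable {N : ℕ}

lemma rk_eq (α : Fin N →₀ ℕ) : rk α = ∑ i : Fin N, (N - (i : ℕ)) * α i := by
  rw [rk]
  simp only [ps_eq_sum]
  rw [Finset.sum_comm]
  refine Finset.sum_congr rfl fun i _ => ?_
  rw [← Finset.sum_filter, Finset.sum_const, smul_eq_mul]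
  congr 1
  have : (range (N + 1)).filter (fun k => (i : ℕ) < k) = Finset.Ioc (i : ℕ) N := by
    ext k
    simp only [mem_filter, Finset.mem_range, Finset.mem_Ioc]
    omega
  rw [this, Nat.card_Ioc]

lemma rk_swap (α : Fin N →₀ ℕ) {i j : Fin N} (hij : i < j) (h : α i < α j) :
    rk α < rk (Finsupp.mapDomain (Equiv.swap i j) α) := by
  classical
  rw [rk_eq, rk_eq]
  have e1 : ∀ a, Finsupp.mapDomain (Equiv.swap i j) α a = α (Equiv.swap i j a) := by
    intro a
    rw [Finsupp.mapDomain_equiv_apply]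
    simp
  simp only [e1]
  have e2 : ∑ a : Fin N, (N - (a : ℕ)) * α (Equiv.swap i j a)
      = ∑ a : Fin N, (N - ((Equiv.swap i j a : Fin N) : ℕ)) * α a := by
    rw [← Equiv.sum_comp (Equiv.swap i j)]
    refine Finset.sum_congr rfl fun a _ => ?_
    rw [Equiv.swap_apply_self]
  rw [e2]
  have key : (∑ a : Fin N, ((N - (a : ℕ)) * α a : ℕ) : ℤ)
      < (∑ a : Fin N, ((N - ((Equiv.swap i j a : Fin N) : ℕ)) * α a : ℕ) : ℤ) := by
    rw [← sub_pos, ← Finset.sum_sub_distrib]
    have e3 : ∀ a : Fin N, ((((N - ((Equiv.swap i j a : Fin N) : ℕ)) * α a : ℕ) : ℤ)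
        - (((N - (a : ℕ)) * α a : ℕ) : ℤ))
        = (((a : ℕ) : ℤ) - ((Equiv.swap i j a : Fin N) : ℕ)) * α a := by
      intro a
      have h1 := a.2
      have h2 := (Equiv.swap i j a).2
      push_cast [Nat.cast_sub h1.le, Nat.cast_sub h2.le]
      ring
    rw [Finset.sum_congr rfl fun a _ => e3 a]
    have e4 : ∑ a : Fin N, (((a : ℕ) : ℤ) - ((Equiv.swap i j a : Fin N) : ℕ)) * (α a : ℤ)
        = ∑ a ∈ {i, j}, (((a : ℕ) : ℤ) - ((Equiv.swap i j a : Fin N) : ℕ)) * (α a : ℤ) := by
      symm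
      refine Finset.sum_subset (Finset.subset_univ _) ?_
      intro a _ ha
      rw [Finset.mem_insert, Finset.mem_singleton, not_or] at ha
      rw [Equiv.swap_apply_of_ne_of_ne ha.1 ha.2, sub_self, zero_mul]
    rw [e4, Finset.sum_pair hij.ne, Equiv.swap_apply_left, Equiv.swap_apply_right]
    have h1 : ((i : ℕ) : ℤ) < ((j : ℕ) : ℤ) := by exact_mod_cast hij
    have h2 : (α i : ℤ) < α j := by exact_mod_cast h
    nlinarith
  exact_mod_cast key

lemma finite_tot (N n : ℕ) : {κ : Fin N →₀ ℕ | ps N κ = n}.Finite := by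
  refine (Set.finite_Iic (Finsupp.equivFunOnFinite.symm fun _ : Fin N => n)).subset ?_
  intro κ hκ
  rw [Set.mem_Iic]
  intro i
  simp only [Finsupp.equivFunOnFinite_symm_apply_apply]
  have h : ps N κ = n := hκ
  rw [← h, ps_eq_sum]
  calc κ i = if (i : ℕ) < N then κ i else 0 := by rw [if_pos i.2]
    _ ≤ _ := Finset.single_le_sum
      (f := fun i : Fin N => if (i : ℕ) < N then κ i else 0)
      (fun _ _ => Nat.zero_le _) (mem_univ i)

/-- all exponents of total `n` -/
noncomputable def tot (N n : ℕ) : Finset (Fin N →₀ ℕ) := (finite_tot N n).toFinset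

lemma mem_tot (n : ℕ) (κ : Fin N →₀ ℕ) : κ ∈ tot N n ↔ ps N κ = n := by
  simp [tot]

lemma downClosed_tot (n : ℕ) : DownClosed (tot N n) := by
  intro α β hβ h
  rw [mem_tot] at hβ ⊢
  rw [h.2, hβ]

/-- Young diagram of an antitone exponent vector -/
noncomputable def ydOf (κ : Fin N →₀ ℕ) (h : ∀ r r' : Fin N, r ≤ r' → κ r' ≤ κ r) :
    YoungDiagram where
  cells := (DD κ).map (Equiv.prodComm ℕ ℕ).toEmbedding
  isLowerSet := by
    rintro ⟨a, b⟩ ⟨c, d⟩ hle hmem
    simp only [Finset.coe_map, Equiv.coe_toEmbedding, Equiv.prodComm_apply, Set.mem_image,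
      Finset.mem_coe, Prod.exists, Prod.swap_prod_mk, Prod.mk.injEq] at hmem ⊢
    obtain ⟨x, y, hxy, rfl, rfl⟩ := hmem
    rw [mem_DD] at hxy
    obtain ⟨h1, h2⟩ := hxy
    have hc : c ≤ y := hle.1
    have hd : d ≤ x := hle.2
    refine ⟨d, c, ?_, rfl, rfl⟩
    rw [mem_DD]
    have hcN : c < N := lt_of_le_of_lt hc h1
    refine ⟨hcN, ?_⟩
    have := h ⟨c, hcN⟩ ⟨y, h1⟩ hc
    omega

lemma mem_ydOf (κ : Fin N →₀ ℕ) (h : ∀ r r' : Fin N, r ≤ r' → κ r' ≤ κ r) (i j : ℕ) :
    (i, j) ∈ ydOf κ h ↔ (j, i) ∈ DD κ := by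
  rw [← YoungDiagram.mem_cells, ydOf]
  simp

lemma yv_ydOf (κ : Fin N →₀ ℕ) (h : ∀ r r' : Fin N, r ≤ r' → κ r' ≤ κ r) :
    yv N (ydOf κ h) = κ := by
  ext i
  rw [yv_apply]
  have h1 : ∀ j, j < (ydOf κ h).rowLen i ↔ j < κ i := by
    intro j
    rw [← YoungDiagram.mem_iff_lt_rowLen, mem_ydOf, mem_DD]
    constructor
    · rintro ⟨_, h2⟩
      exact h2
    · intro h2
      exact ⟨i.2, h2⟩
  have h2 := h1 (κ i)
  have h3 := h1 ((ydOf κ h).rowLen i)
  omega

lemma card_ydOf (κ : Fin N →₀ ℕ) (h : ∀ r r' : Fin N, r ≤ r' → κ r' ≤ κ r) :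
    (ydOf κ h).card = ps N κ := by
  have h1 := sum_rowLen_of (ydOf κ h) N (fun i j hij => by
    rw [mem_ydOf, mem_DD] at hij
    exact hij.1)
  rw [← h1, ← ps_yv _ N (le_refl _), yv_ydOf]

end

section
variable {K : Type*} [Field K] [CharZero K]

lemma phi_total {n N : ℕ} {F : Sym K} (hF : IsDeg n F) (y : Fin N →₀ ℕ)
    (hy : coeff y (phi K N F) ≠ 0) : ps N y = n := by
  classical
  rw [F.as_sum, map_sum, coeff_sum] at hy
  obtain ⟨m, hm, hmy⟩ := Finset.exists_ne_zero_of_sum_ne_zero hy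
  rw [phi, aeval_monomial, MvPolynomial.algebraMap_eq, coeff_C_mul] at hmy
  have hh : (m.prod fun (k : ℕ+) e => (∑ i, (X i : MvPolynomial (Fin N) K) ^ (k : ℕ)) ^ e
      ).IsHomogeneous (wgt m) := by
    rw [Finsupp.prod, wgt, Finsupp.sum]
    refine IsHomogeneous.prod _ _ _ fun k _ => ?_
    refine IsHomogeneous.pow ?_ _
    refine IsHomogeneous.sum _ _ _ fun i _ => ?_
    exact isHomogeneous_X_pow i _
  have h1 := hh (right_ne_zero_of_mul hmy)
  rw [hF m (mem_support_iff.1 hm)] at h1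
  rw [← h1, ps_eq_sum, Finsupp.weight_apply, Finsupp.sum_fintype _ _ (fun i => by simp)]
  refine Finset.sum_congr rfl fun i _ => ?_
  rw [if_pos i.2]
  simp

lemma phi_symm (N : ℕ) (e : Equiv.Perm (Fin N)) (F : Sym K) :
    rename e (phi K N F) = phi K N F := by
  have h : (rename e : MvPolynomial (Fin N) K →ₐ[K] MvPolynomial (Fin N) K).comp (phi K N)
      = phi K N := by
    apply MvPolynomial.algHom_ext
    intro k
    rw [AlgHom.comp_apply, phi_X, map_sum]
    simp only [map_pow, rename_X]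
    exact Equiv.sum_comp e (fun i => (X i : MvPolynomial (Fin N) K) ^ (k : ℕ))
  exact congrArg (fun φ => φ F) h

/-- leading exponent of an eigenvector -/
lemma eig_lead (D : Sym K →ₗ[K] Sym K) (s a b : K) (hab : Gen a b)
    (hs : ∀ k : ℕ, 1 ≤ k → s ^ k ≠ 1)
    (hDs : ∀ F, pleth (fun k => s ^ k - 1) (D F) = MM a b (pleth (fun k => s ^ k - 1) F))
    {n N : ℕ} (hnN : n ≤ N) (κ : Fin N →₀ ℕ) (G : Sym K) (hG : IsDeg n G) (hG0 : G ≠ 0)
    (hDG : D G = ev a b κ • G) :
    coeff κ (phi K N (pleth (fun k => s ^ k - 1) G)) ≠ 0 ∧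
    (∀ y, coeff y (phi K N (pleth (fun k => s ^ k - 1) G)) ≠ 0 → rk y ≤ rk κ) ∧
    (∀ r r' : Fin N, r ≤ r' → κ r' ≤ κ r) := by
  classical
  set g := phi K N (pleth (fun k => s ^ k - 1) G) with hg
  have hg0 : g ≠ 0 := by
    intro h0
    exact hG0 (pleth_inj s hs (phi_inj hnN (isDeg_pleth _ hG) h0))
  have hne : g.support.Nonempty := by
    rw [Finset.nonempty_iff_ne_empty, Ne, support_eq_empty]
    exact hg0
  obtain ⟨lam, hlam, hmax⟩ := Finset.exists_max_image g.support rk hne
  rw [mem_support_iff] at hlam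
  have hmax' : ∀ y, coeff y g ≠ 0 → rk y ≤ rk lam := fun y hy => hmax y (mem_support_iff.2 hy)
  have hrel := MM_rel a b N (pleth (fun k => s ^ k - 1) G)
  rw [← hDs, hDG, map_smul, map_smul, ← hg] at hrel
  have h1 : ∀ y, coeff y g ≠ 0 → Dom lam y → y = lam := by
    intro y hy hd
    by_contra hne'
    exact absurd (hd.rk_lt (Ne.symm hne')) (not_lt.2 (hmax' y hy))
  have h2 := hrel.coeff_eq (lam := lam) (fun y hy hd => h1 y (by
    rw [coeff_smul, smul_eq_mul] at hy
    exact right_ne_zero_of_mul hy) hd) h1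
  rw [coeff_smul, smul_eq_mul] at h2
  have h3 := ev_inj hab (mul_right_cancel₀ hlam h2)
  rw [← h3] at hlam hmax'
  refine ⟨hlam, hmax', ?_⟩
  intro r r' hr
  by_contra hlt
  push Not at hlt
  have hrr : r < r' := lt_of_le_of_ne hr (by
    rintro rfl
    exact lt_irrefl _ hlt)
  have h4 := rk_swap κ hrr hlt
  have h5 : coeff (Finsupp.mapDomain (Equiv.swap r r') κ) g ≠ 0 := by
    have e := coeff_rename_mapDomain (Equiv.swap r r') (Equiv.injective _) g κ
    rw [hg, phi_symm, ← hg] at e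
    rw [e]
    exact hlam
  exact absurd h4 (not_lt.2 (hmax' _ h5))

/-- decomposition into eigenvectors -/
lemma eig_decomp (D : Sym K →ₗ[K] Sym K) (s a b : K) (hab : Gen a b)
    (hs : ∀ k : ℕ, 1 ≤ k → s ^ k ≠ 1)
    (hDs : ∀ F, pleth (fun k => s ^ k - 1) (D F) = MM a b (pleth (fun k => s ^ k - 1) F))
    {n : ℕ} (hdeg : ∀ F, IsDeg n F → IsDeg n (D F)) (F : Sym K) (hF : IsDeg n F) :
    ∃ f : (Fin n →₀ ℕ) → Sym K, (∀ κ ∈ tot n n, IsDeg n (f κ) ∧ D (f κ) = ev a b κ • f κ) ∧
      F = ∑ κ ∈ tot n n, f κ := by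
  classical
  by_cases hT : (tot n n).Nonempty
  swap
  · -- impossible case: then `F = 0`
    rw [Finset.not_nonempty_iff_eq_empty] at hT
    refine ⟨fun _ => 0, ?_, ?_⟩
    · intro κ hκ
      rw [hT] at hκ
      exact absurd hκ (Finset.notMem_empty _)
    · rw [hT, Finset.sum_empty]
      have h0 : phi K n F = 0 := by
        ext y
        rw [coeff_zero]
        by_contra hne
        have := (mem_tot n y).2 (phi_total hF y hne)
        rw [hT] at this
        exact absurd this (Finset.notMem_empty _)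
      exact phi_inj (le_refl n) hF h0
  have hk := kill D s a b hs hDs (le_refl n) hdeg _ (tot n n) rfl (downClosed_tot n) F hF
    (fun y hy => (mem_tot _ _).2 (phi_total (isDeg_pleth _ hF) y hy))
  set L : (Fin n →₀ ℕ) → Polynomial K := fun κ => Lagrange.basis (tot n n) (ev a b) κ with hL
  have hinj : Set.InjOn (ev a b : (Fin n →₀ ℕ) → K) (tot n n) :=
    fun x _ y _ h => ev_inj hab h
  refine ⟨fun κ => Polynomial.aeval D (L κ) F, ?_, ?_⟩
  · intro κ hκ
    have hdegP : ∀ P : Polynomial K, IsDeg n (Polynomial.aeval D P F) := by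
      intro P
      induction P using Polynomial.induction_on' with
      | add p q hp hq =>
        rw [map_add, LinearMap.add_apply]
        exact hp.add hq
      | monomial k c =>
        have hpow : ∀ k, IsDeg n ((D ^ k) F) := by
          intro k
          induction k with
          | zero => simpa using hF
          | succ k ih =>
            rw [pow_succ', Module.End.mul_apply]
            exact hdeg _ ih
        rw [Polynomial.aeval_monomial, Module.End.mul_apply, Module.algebraMap_end_apply]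
        exact (hpow k).smul c
    refine ⟨hdegP _, ?_⟩
    have e1 : (Polynomial.X - Polynomial.C (ev a b κ)) * L κ
        = Polynomial.C (∏ j ∈ (tot n n).erase κ, (ev a b κ - ev a b j)⁻¹) *
          PP a b (tot n n) := by
      rw [hL]
      simp only [Lagrange.basis, Lagrange.basisDivisor]
      rw [Finset.prod_mul_distrib, PP, ← Finset.mul_prod_erase (tot n n) _ hκ, map_prod]
      ring
    have e2 := congrArg (fun P => Polynomial.aeval D P F) e1
    rw [map_mul, map_mul, Module.End.mul_apply, Module.End.mul_apply, hk, map_zero] at e2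
    have e3 : Polynomial.aeval D (Polynomial.X - Polynomial.C (ev a b κ))
        (Polynomial.aeval D (L κ) F)
        = D (Polynomial.aeval D (L κ) F) - ev a b κ • Polynomial.aeval D (L κ) F := by
      simp [Module.algebraMap_end_apply]
    rw [e3] at e2
    exact sub_eq_zero.1 e2
  · have h1 := Lagrange.sum_basis hinj hT
    have h2 := congrArg (fun P => Polynomial.aeval D P F) h1
    simp only [map_sum, map_one, Module.End.one_apply] at h2
    rw [LinearMap.sum_apply] at h2
    exact h2.symm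

end

end Pool.Agent.H158.TL
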