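import Mathlib
import Pool.Agent.H158.TL.Basis

set_option autoImplicit false
set_option linter.unusedSectionVars false

/-!
# Modified Macdonald polynomials and nabla
-/

namespace Pool.Agent.H158.TL

open Finset MvPolynomial

section gen
variable {K : Type*} [Field K] [CharZero K]

/-- exponents in two variables -/
noncomputable def mexp (p : ℕ × ℕ) : Fin 2 →₀ ℕ := Finsupp.single 0 p.1 + Finsupp.single 1 p.2

lemma mexp_inj {p p' : ℕ × ℕ} (h : mexp p = mexp p') : p = p' := by
  have h0 := DFunLike.congr_fun h 0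
  have h1 := DFunLike.congr_fun h 1
  simp [mexp] at h0 h1
  exact Prod.ext h0 h1

lemma aeval_mexp (q t : K) (p : ℕ × ℕ) (c : ℚ) :
    aeval ![q, t] (monomial (mexp p) c) = (c : K) * (q ^ p.1 * t ^ p.2) := by
  rw [aeval_monomial, mexp, Finsupp.prod_add_index']
  · rw [Finsupp.prod_single_index (by simp), Finsupp.prod_single_index (by simp)]
    simp
  · intro i; simp
  · intro i b c; exact pow_add _ _ _

lemma Gen.of_indep {q t : K} (h : AlgebraicIndependent ℚ ![q, t]) : Gen q t := by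
  classical
  intro D D' hDD
  have e : ∀ D : Finset (ℕ × ℕ), aeval ![q, t] (∑ p ∈ D, monomial (mexp p) (1 : ℚ))
      = ∑ p ∈ D, q ^ p.1 * t ^ p.2 := by
    intro D
    rw [map_sum]
    refine Finset.sum_congr rfl fun p _ => ?_
    rw [aeval_mexp]
    simp
  have h1 : (∑ p ∈ D, monomial (mexp p) (1 : ℚ)) = ∑ p ∈ D', monomial (mexp p) (1 : ℚ) := by
    apply h
    change aeval ![q, t] _ = aeval ![q, t] _
    rw [e, e]
    exact hDD
  have h2 : ∀ (D : Finset (ℕ × ℕ)) (p : ℕ × ℕ),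
      coeff (mexp p) (∑ p ∈ D, monomial (mexp p) (1 : ℚ)) = if p ∈ D then 1 else 0 := by
    intro D p
    rw [coeff_sum]
    simp only [coeff_monomial]
    by_cases hp : p ∈ D
    · rw [Finset.sum_eq_single p]
      · simp [hp]
      · intro b _ hb
        rw [if_neg]
        intro h'
        exact hb (mexp_inj h')
      · intro h'
        exact absurd hp h'
    · rw [if_neg hp]
      refine Finset.sum_eq_zero fun b hb => ?_
      rw [if_neg]
      intro h'
      exact hp (mexp_inj h' ▸ hb)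
  ext p
  have h3 := h2 D p
  rw [h1, h2 D' p] at h3
  by_cases ha : p ∈ D <;> by_cases hb : p ∈ D' <;> simp [ha, hb] at h3 ⊢

lemma Gen.inv {a b a' b' : K} (h : Gen a b) (ha : a * a' = 1) (hb : b * b' = 1) :
    Gen a' b' := by
  classical
  intro D D' hDD
  set L : ℕ := (D ∪ D').sup (fun p => p.1 + p.2) with hL
  have hle : ∀ p ∈ D ∪ D', p.1 ≤ L ∧ p.2 ≤ L := by
    intro p hp
    have := Finset.le_sup (f := fun p : ℕ × ℕ => p.1 + p.2) hp
    constructor <;> omega
  have key : ∀ S : Finset (ℕ × ℕ), S ⊆ D ∪ D' →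
      a ^ L * b ^ L * ∑ p ∈ S, a' ^ p.1 * b' ^ p.2
        = ∑ p ∈ S.image (fun p => (L - p.1, L - p.2)), a ^ p.1 * b ^ p.2 := by
    intro S hS
    rw [Finset.sum_image, Finset.mul_sum]
    · refine Finset.sum_congr rfl fun p hp => ?_
      obtain ⟨h1, h2⟩ := hle p (hS hp)
      have e1 : a ^ L = a ^ (L - p.1) * a ^ p.1 := by rw [← pow_add]; congr 1; omega
      have e2 : b ^ L = b ^ (L - p.2) * b ^ p.2 := by rw [← pow_add]; congr 1; omega
      have e3 : a ^ p.1 * a' ^ p.1 = 1 := by rw [← mul_pow, ha, one_pow]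
      have e4 : b ^ p.2 * b' ^ p.2 = 1 := by rw [← mul_pow, hb, one_pow]
      rw [e1, e2]
      linear_combination (a ^ (L - p.1) * b ^ (L - p.2) * (b ^ p.2 * b' ^ p.2)) * e3
        + (a ^ (L - p.1) * b ^ (L - p.2)) * e4
    · intro p hp p' hp' hpp
      obtain ⟨h1, h2⟩ := hle p (hS hp)
      obtain ⟨h3, h4⟩ := hle p' (hS hp')
      simp only [Prod.mk.injEq] at hpp
      apply Prod.ext <;> omega
  have h1 : D.image (fun p => (L - p.1, L - p.2)) = D'.image (fun p => (L - p.1, L - p.2)) := by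
    apply h
    simp only at hDD ⊢
    rw [← key D Finset.subset_union_left, ← key D' Finset.subset_union_right, hDD]
  ext p
  have h2 : ∀ S : Finset (ℕ × ℕ), S ⊆ D ∪ D' → ∀ p ∈ D ∪ D', (p ∈ S ↔
      (L - p.1, L - p.2) ∈ S.image (fun p => (L - p.1, L - p.2))) := by
    intro S hS p hp
    rw [Finset.mem_image]
    constructor
    · intro h'
      exact ⟨p, h', rfl⟩
    · rintro ⟨p', hp', hpp⟩
      obtain ⟨h1, h2⟩ := hle p hp
      obtain ⟨h3, h4⟩ := hle p' (hS hp')
      simp only [Prod.mk.injEq] at hpp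
      have : p' = p := by apply Prod.ext <;> omega
      rw [← this]
      exact hp'
  by_cases hp : p ∈ D ∪ D'
  · rw [h2 D Finset.subset_union_left p hp, h2 D' Finset.subset_union_right p hp, h1]
  · rw [Finset.mem_union, not_or] at hp
    simp [hp.1, hp.2]

/-- product of the weights of all cells -/
noncomputable def TT (q t : K) (μ : YoungDiagram) : K := ∏ x ∈ μ.cells, q ^ x.2 * t ^ x.1

/-- one added cell -/
lemma one_cell {q t q' t' : K} (h : AlgebraicIndependent ℚ ![q, t]) (hq : q * q' = 1)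
    (ht : t * t' = 1) (μ ν : YoungDiagram) (hcard : μ.card = ν.card + 1)
    (hB : (BB q t μ - BB q t ν) * (BB q' t' μ - BB q' t' ν) = 1) :
    TT q t μ = TT q t ν * (BB q t μ - BB q t ν) := by
  classical
  set S : Finset (ℕ × ℕ) := μ.cells ∪ ν.cells with hS
  set L : ℕ := S.sup (fun p => p.1 + p.2) with hL
  have hle : ∀ p ∈ S, p.1 ≤ L ∧ p.2 ≤ L := by
    intro p hp
    have := Finset.le_sup (f := fun p : ℕ × ℕ => p.1 + p.2) hp
    constructor <;> omega
  set ε : ℕ × ℕ → ℚ := fun x => (if x ∈ μ.cells then 1 else 0) - (if x ∈ ν.cells then 1 else 0)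
    with hε
  have hdiff : ∀ a b : K, BB a b μ - BB a b ν = ∑ x ∈ S, (ε x : K) * (a ^ x.2 * b ^ x.1) := by
    intro a b
    have e1 : BB a b μ = ∑ x ∈ S, (if x ∈ μ.cells then (1 : K) else 0) * (a ^ x.2 * b ^ x.1) := by
      simp only [ite_mul, one_mul, zero_mul]
      rw [← Finset.sum_filter, BB]
      congr 1
      ext x
      simp only [hS, mem_filter, mem_union]
      tauto
    have e2 : BB a b ν = ∑ x ∈ S, (if x ∈ ν.cells then (1 : K) else 0) * (a ^ x.2 * b ^ x.1) := by
      simp only [ite_mul, one_mul, zero_mul]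
      rw [← Finset.sum_filter, BB]
      congr 1
      ext x
      simp only [hS, mem_filter, mem_union]
      tauto
    rw [e1, e2, ← Finset.sum_sub_distrib]
    refine Finset.sum_congr rfl fun x _ => ?_
    simp only [hε]
    by_cases h1 : x ∈ μ.cells <;> by_cases h2 : x ∈ ν.cells <;> simp [h1, h2]
  set Q : MvPolynomial (Fin 2) ℚ := ∑ x ∈ S, ∑ y ∈ S,
    monomial (mexp (x.2 + (L - y.2), x.1 + (L - y.1))) (ε x * ε y) with hQ
  have hpoly : Q = monomial (mexp (L, L)) 1 := by
    apply h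
    change aeval ![q, t] _ = aeval ![q, t] _
    rw [aeval_mexp, hQ, map_sum]
    simp only [map_sum, aeval_mexp]
    have e : (∑ x ∈ S, (ε x : K) * (q ^ x.2 * t ^ x.1)) *
        (q ^ L * t ^ L * ∑ y ∈ S, (ε y : K) * (q' ^ y.2 * t' ^ y.1))
        = q ^ L * t ^ L := by
      rw [hdiff, hdiff] at hB
      linear_combination (q ^ L * t ^ L) * hB
    have e2 : ∑ x ∈ S, ∑ y ∈ S, ((ε x * ε y : ℚ) : K) *
        (q ^ (x.2 + (L - y.2)) * t ^ (x.1 + (L - y.1)))
        = (∑ x ∈ S, (ε x : K) * (q ^ x.2 * t ^ x.1)) *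
        (q ^ L * t ^ L * ∑ y ∈ S, (ε y : K) * (q' ^ y.2 * t' ^ y.1)) := by
      rw [Finset.sum_mul]
      refine Finset.sum_congr rfl fun x _ => ?_
      rw [Finset.mul_sum, Finset.mul_sum]
      refine Finset.sum_congr rfl fun y hy => ?_
      obtain ⟨h1, h2⟩ := hle y hy
      have f1 : q ^ L = q ^ (L - y.2) * q ^ y.2 := by rw [← pow_add]; congr 1; omega
      have f2 : t ^ L = t ^ (L - y.1) * t ^ y.1 := by rw [← pow_add]; congr 1; omega
      have f3 : q ^ y.2 * q' ^ y.2 = 1 := by rw [← mul_pow, hq, one_pow]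
      have f4 : t ^ y.1 * t' ^ y.1 = 1 := by rw [← mul_pow, ht, one_pow]
      rw [f1, f2, pow_add, pow_add]
      push_cast
      linear_combination (-((ε x : K) * (ε y : K) * q ^ x.2 * t ^ x.1 * q ^ (L - y.2) *
        t ^ (L - y.1)) * (t ^ y.1 * t' ^ y.1)) * f3
        - ((ε x : K) * (ε y : K) * q ^ x.2 * t ^ x.1 * q ^ (L - y.2) * t ^ (L - y.1)) * f4
    rw [e2, e]
    simp
  have hcoef := congrArg (coeff (mexp (L, L))) hpoly
  rw [coeff_monomial, if_pos rfl, hQ, coeff_sum] at hcoef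
  have hsq : ∑ x ∈ S, ε x * ε x = 1 := by
    rw [← hcoef]
    refine Finset.sum_congr rfl fun x hx => ?_
    rw [coeff_sum, Finset.sum_eq_single x]
    · obtain ⟨h1, h2⟩ := hle x hx
      have : (x.2 + (L - x.2), x.1 + (L - x.1)) = (L, L) := by
        apply Prod.ext <;> simp <;> omega
      rw [coeff_monomial, this, if_pos rfl]
    · intro y hy hyx
      rw [coeff_monomial, if_neg]
      intro h'
      have h1 := mexp_inj h'
      obtain ⟨h2, h3⟩ := hle y hy
      simp only [Prod.mk.injEq] at h1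
      apply hyx
      apply Prod.ext <;> omega
    · intro h'
      exact absurd hx h'
  have hcards : ((μ.cells \ ν.cells).card : ℚ) + ((ν.cells \ μ.cells).card : ℚ) = 1 := by
    rw [← hsq]
    have e : ∀ x ∈ S, ε x * ε x = (if x ∈ μ.cells \ ν.cells then 1 else 0)
        + (if x ∈ ν.cells \ μ.cells then 1 else 0) := by
      intro x _
      simp only [hε, mem_sdiff]
      by_cases h1 : x ∈ μ.cells <;> by_cases h2 : x ∈ ν.cells <;> simp [h1, h2]
    rw [Finset.sum_congr rfl e, Finset.sum_add_distrib, ← Finset.sum_filter, ← Finset.sum_filter]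
    have f1 : S.filter (fun x => x ∈ μ.cells \ ν.cells) = μ.cells \ ν.cells := by
      ext x
      simp only [hS, mem_filter, mem_union, mem_sdiff]
      tauto
    have f2 : S.filter (fun x => x ∈ ν.cells \ μ.cells) = ν.cells \ μ.cells := by
      ext x
      simp only [hS, mem_filter, mem_union, mem_sdiff]
      tauto
    rw [f1, f2]
    simp
  have hcards' : (μ.cells \ ν.cells).card + (ν.cells \ μ.cells).card = 1 := by
    exact_mod_cast hcards
  have hc1 := Finset.card_sdiff_add_card_inter μ.cells ν.cells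
  have hc2 := Finset.card_sdiff_add_card_inter ν.cells μ.cells
  rw [Finset.inter_comm] at hc2
  have hcard' : μ.cells.card = ν.cells.card + 1 := hcard
  have h0 : (ν.cells \ μ.cells).card = 0 := by omega
  have h1 : (μ.cells \ ν.cells).card = 1 := by omega
  have hsub : ν.cells ⊆ μ.cells := by
    rw [Finset.card_eq_zero, Finset.sdiff_eq_empty_iff_subset] at h0
    exact h0
  obtain ⟨x, hx⟩ := Finset.card_eq_one.1 h1
  have hBx : BB q t μ - BB q t ν = q ^ x.2 * t ^ x.1 := by
    rw [BB, BB, ← Finset.sum_sdiff hsub, hx, Finset.sum_singleton]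
    ring
  rw [hBx, TT, TT, ← Finset.prod_sdiff hsub, hx, Finset.prod_singleton]
  ring

end gen

section macd
variable {K : Type*} [Field K] [CharZero K]

/-- the characterisation of the modified Macdonald polynomials, up to normalisation -/
structure IsMacd (q t : K) (H : YoungDiagram → Sym K) : Prop where
  left : ∀ μ, SpanCond q μ (H μ)
  right : ∀ μ, SpanCond t μ.transpose (H μ)
  ne : ∀ μ, H μ ≠ 0

variable {q t q' t' : K} {H : YoungDiagram → Sym K}

lemma IsMacd.isDeg (hH : IsMacd q t H) (hab : Gen q t) (μ : YoungDiagram) :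
    IsDeg μ.card (H μ) := (hH.left μ).isDeg hab.pow_ne_one

lemma IsMacd.supp_t (hH : IsMacd q t H) (μ : YoungDiagram) {N : ℕ} (hN : μ.card ≤ N)
    (y : Fin N →₀ ℕ) (hy : coeff y (phi K N (pleth (fun k => t ^ k - 1) (H μ))) ≠ 0) :
    Dom y (yv N μ) := (hH.right μ).supp hN y hy

lemma IsMacd.supp_q (hH : IsMacd q t H) (μ : YoungDiagram) {N : ℕ} (hN : μ.card ≤ N)
    (y : Fin N →₀ ℕ) (hy : coeff y (phi K N (pleth (fun k => q ^ k - 1) (H μ))) ≠ 0) :
    Dom y (yv N μ.transpose) := by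
  have h := hH.left μ
  have e : μ = μ.transpose.transpose := (YoungDiagram.transpose_transpose μ).symm
  rw [e] at h
  have h2 := h.supp (N := N) (by rw [transpose_card]; exact hN) y
  rw [← e] at h2
  exact h2 hy

lemma isDeg_Dk (q t : K) {n : ℕ} (F : Sym K) (hF : IsDeg n F) : IsDeg n (Dk q t 0 F) :=
  IsDeg.VO _ _ 0 hF

lemma isDeg_Dks (q' t' : K) {n : ℕ} (F : Sym K) (hF : IsDeg n F) :
    IsDeg n (Dks q' t' 0 F) := IsDeg.VO _ _ 0 hF

lemma IsMacd.D0 (hH : IsMacd q t H) (hab : Gen q t) (μ : YoungDiagram) :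
    Dk q t 0 (H μ) = (1 - (1 - q) * (1 - t) * BB q t μ) • H μ := by
  rw [← ev_yv q t μ (le_refl _)]
  exact eigen (Dk q t 0) t q q t hab hab.swap.pow_ne_one hab.pow_ne_one
    (inter_D0_t q t) (inter_D0_q q t) (le_refl _) (fun F => isDeg_Dk q t F)
    (yv μ.card μ) (yv μ.card μ.transpose) (yv_conj (le_refl _)) (H μ) (hH.isDeg hab μ)
    (hH.supp_t μ (le_refl _)) (hH.supp_q μ (le_refl _))

lemma IsMacd.D0s (hH : IsMacd q t H) (hab : Gen q t) (hq : q * q' = 1) (ht : t * t' = 1)
    (μ : YoungDiagram) :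
    Dks q' t' 0 (H μ) = (1 - (1 - q') * (1 - t') * BB q' t' μ) • H μ := by
  rw [← ev_yv q' t' μ (le_refl _)]
  exact eigen (Dks q' t' 0) t q q' t' (hab.inv hq ht) hab.swap.pow_ne_one hab.pow_ne_one
    (inter_D0s_t q' t t' ht) (inter_D0s_q q q' t' hq) (le_refl _) (fun F => isDeg_Dks q' t' F)
    (yv μ.card μ) (yv μ.card μ.transpose) (yv_conj (le_refl _)) (H μ) (hH.isDeg hab μ)
    (hH.supp_t μ (le_refl _)) (hH.supp_q μ (le_refl _))

/-- the modified Macdonald polynomials span -/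
lemma IsMacd.span (hH : IsMacd q t H) (hab : Gen q t) {n : ℕ} {F : Sym K} (hF : IsDeg n F) :
    F ∈ Submodule.span K (Set.range H) := by
  classical
  obtain ⟨f, hf, hsum⟩ := eig_decomp (Dk q t 0) t q t hab hab.swap.pow_ne_one
    (inter_D0_t q t) (fun F => isDeg_Dk q t F) F hF
  rw [hsum]
  refine Submodule.sum_mem _ fun κ hκ => ?_
  obtain ⟨hdeg, heig⟩ := hf κ hκ
  by_cases h0 : f κ = 0
  · rw [h0]
    exact Submodule.zero_mem _
  obtain ⟨_, _, hanti⟩ := eig_lead (Dk q t 0) t q t hab hab.swap.pow_ne_one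
    (inter_D0_t q t) (le_refl n) κ (f κ) hdeg h0 heig
  set μ := ydOf κ hanti with hμ
  have hcard : μ.card = n := by rw [hμ, card_ydOf, (mem_tot _ _).1 hκ]
  have hyv : yv n μ = κ := yv_ydOf κ hanti
  have hHdeg : IsDeg n (H μ) := by rw [← hcard]; exact hH.isDeg hab μ
  have hHeig : Dk q t 0 (H μ) = ev q t κ • H μ := by
    rw [hH.D0 hab, ← hyv, ev_yv q t μ hcard.le]
  obtain ⟨hlead, _, _⟩ := eig_lead (Dk q t 0) t q t hab hab.swap.pow_ne_one
    (inter_D0_t q t) (le_refl n) κ (H μ) hHdeg (hH.ne μ) hHeig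
  set c : K := coeff κ (phi K n (pleth (fun k => t ^ k - 1) (f κ))) /
    coeff κ (phi K n (pleth (fun k => t ^ k - 1) (H μ))) with hc
  have hG : f κ - c • H μ = 0 := by
    by_contra hne
    obtain ⟨h1, _, _⟩ := eig_lead (Dk q t 0) t q t hab hab.swap.pow_ne_one
      (inter_D0_t q t) (le_refl n) κ (f κ - c • H μ) (hdeg.sub (hHdeg.smul c)) hne (by
        rw [map_sub, map_smul, heig, hHeig, smul_sub, smul_comm])
    apply h1
    rw [map_sub, map_smul, map_sub, map_smul, coeff_sub, coeff_smul, smul_eq_mul, hc,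
      div_mul_cancel₀ _ hlead, sub_self]
  rw [sub_eq_zero.1 hG]
  exact Submodule.smul_mem _ _ (Submodule.subset_span ⟨μ, rfl⟩)

lemma BB_inj (hab : Gen q t) : Function.Injective (BB q t) := by
  intro μ ν h
  have e : ∀ μ : YoungDiagram, BB q t μ
      = ∑ p ∈ μ.cells.map (Equiv.prodComm ℕ ℕ).toEmbedding, q ^ p.1 * t ^ p.2 := by
    intro μ
    rw [BB, Finset.sum_map]
    rfl
  rw [e, e] at h
  have h1 := Finset.map_injective _ (hab h)
  exact YoungDiagram.ext h1

lemma IsMacd.linInd (hH : IsMacd q t H) (hab : Gen q t) : LinearIndependent K H := by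
  refine Module.End.eigenvectors_linearIndependent' (Dk q t 0)
    (fun μ => 1 - (1 - q) * (1 - t) * BB q t μ) ?_ H ?_
  · intro μ ν h
    apply BB_inj hab
    have hne : (1 - q) * (1 - t) ≠ 0 := mul_ne_zero hab.one_sub_ne hab.swap.one_sub_ne
    apply mul_left_cancel₀ hne
    simp only at h
    linear_combination -h
  · intro μ
    rw [Module.End.hasEigenvector_iff, Module.End.mem_eigenspace_iff]
    exact ⟨hH.D0 hab μ, hH.ne μ⟩

/-- expansion in the basis `H` -/
lemma IsMacd.expand (hH : IsMacd q t H) (hab : Gen q t) {n : ℕ} {F : Sym K} (hF : IsDeg n F) :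
    ∃ c : YoungDiagram →₀ K, F = ∑ μ ∈ c.support, c μ • H μ ∧
      ∀ μ ∈ c.support, μ.card = n := by
  obtain ⟨c, hc⟩ := Finsupp.mem_span_range_iff_exists_finsupp.1 (hH.span hab hF)
  rw [Finsupp.sum] at hc
  refine ⟨c, hc.symm, ?_⟩
  have h1 := hF.pleth_eq 2
  rw [← smul_eq_C_mul, ← hc, map_sum] at h1
  have h2 : ∑ μ ∈ c.support, (c μ * (2 ^ μ.card - 2 ^ n)) • H μ = 0 := by
    rw [← sub_eq_zero] at h1
    rw [← h1, Finset.smul_sum, ← Finset.sum_sub_distrib]
    refine Finset.sum_congr rfl fun μ _ => ?_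
    rw [map_smul, (hH.isDeg hab μ).pleth_eq 2, ← smul_eq_C_mul, smul_smul, smul_smul,
      ← sub_smul]
    congr 1
    ring
  intro μ hμ
  have h3 := linearIndependent_iff'.1 (hH.linInd hab) _ _ h2 μ hμ
  have h4 : (2 : K) ^ μ.card = 2 ^ n :=
    sub_eq_zero.1 ((mul_eq_zero.1 h3).resolve_left (Finsupp.mem_support_iff.1 hμ))
  exact two_pow_inj h4

end macd

end Pool.Agent.H158.TL
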