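import Mathlib
import Pool.Agent.H158.TL.Macd

set_option autoImplicit false
set_option linter.unusedSectionVars false

/-!
# `∇ p_1 ∇⁻¹ = - D_1` and `Δ_{e_{n-1}}`
-/

namespace Pool.Agent.H158.TL

open Finset MvPolynomial
open Pool.Agent.H209R2.EH

section comm
variable {R : Type*} [CommRing R] [Algebra ℚ R]

lemma Dk_zero_X_one (q t : R) (F : Sym R) :
    Dk q t 0 (X 1 * F) = X 1 * Dk q t 0 F + C ((1 - q) * (1 - t)) * Dk q t 1 F := by
  rw [Dk, VO_mul_X, Dk]
  simp

lemma Aop_eq (q t : R) (F : Sym R) : Aop q t F = - Dk q t 1 F := rfl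

lemma comm_X_one [IsDomain R] (q t q' t' : R) (hq : q * q' = 1) (ht : t * t' = 1)
    (hqt : q * t ≠ 1) (F : Sym R) :
    Dks q' t' 0 (Dk q t 1 F) - Dk q t 1 (Dks q' t' 0 F)
      = C ((1 - q') * (1 - t')) * (X 1 * F) := by
  have h := comm_rel q t q' t' hq ht F 0 1 (le_refl _)
  have e1 : expo (fun k => C ((q' * t') ^ k - 1) * pw R k) (0 + 1)
      = C (q' * t' - 1) * X 1 := by
    rw [zero_add, expo_one, pow_one]
    rfl
  rw [e1, pow_zero, mul_one] at h
  have hne : (C (1 - q * t) : Sym R) ≠ 0 := by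
    rw [Ne, C_eq_zero, sub_eq_zero]
    exact fun h => hqt h.symm
  apply mul_left_cancel₀ hne
  rw [h]
  have e2 : (1 - q) * (1 - t) * (q' * t' - 1) = (1 - q * t) * ((1 - q') * (1 - t')) := by
    have h3 : (1 - q) * (1 - t) = q * t * ((1 - q') * (1 - t')) := by
      linear_combination (t - t * t') * hq + (q - 1) * ht
    have h4 : q * t * (q' * t') = 1 := by
      linear_combination (t * t') * hq + ht
    rw [h3]
    linear_combination ((1 - q') * (1 - t')) * h4
  have e3 := congrArg (C : R → Sym R) e2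
  simp only [C_mul] at e3 ⊢
  linear_combination (X 1 * F) * e3

/-- the iterates `(-D_1)^n 1` -/
noncomputable def Fn (q t : R) (n : ℕ) : Sym R := (Aop q t)^[n] 1

lemma Fn_succ (q t : R) (n : ℕ) : Fn q t (n + 1) = Aop q t (Fn q t n) := by
  rw [Fn, Function.iterate_succ_apply', Fn]

/-- the second family -/
noncomputable def Gn (q t : R) : ℕ → Sym R
  | 0 => 0
  | n + 1 => Aop q t (Gn q t n) + X 1 * Fn q t n

lemma Dks_Fn [IsDomain R] (q t q' t' : R) (hq : q * q' = 1) (ht : t * t' = 1)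
    (hqt : q * t ≠ 1) (n : ℕ) :
    Fn q t n - Dks q' t' 0 (Fn q t n) = C ((1 - q') * (1 - t')) * Gn q t n := by
  induction n with
  | zero =>
    have : Fn q t 0 = 1 := rfl
    rw [this, Dks, VO_one, expo_zero, Gn]
    ring
  | succ n ih =>
    have h := comm_X_one q t q' t' hq ht hqt (Fn q t n)
    have e : Dks q' t' 0 (Fn q t n) = Fn q t n - C ((1 - q') * (1 - t')) * Gn q t n := by
      rw [← ih]; ring
    rw [e] at h
    rw [Fn_succ, Aop_eq, map_neg, Gn, Aop_eq]
    rw [map_sub] at h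
    have e2 : Dk q t 1 (C ((1 - q') * (1 - t')) * Gn q t n)
        = C ((1 - q') * (1 - t')) * Dk q t 1 (Gn q t n) := VO_C_mul _ _ _ _ _
    rw [e2] at h
    linear_combination h

end comm

section main
variable {K : Type*} [Field K] [CharZero K]
variable {q t q' t' : K} {H : YoungDiagram → Sym K}

lemma isDeg_X_one : IsDeg 1 (X 1 : Sym K) := by
  have := IsDeg.pw (R := K) 1
  exact this

/-- the Pieri rule, with support and coefficients as needed -/
lemma pieri (hqt : AlgebraicIndependent ℚ ![q, t]) (hH : IsMacd q t H) (hq : q * q' = 1)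
    (ht : t * t' = 1) (ν : YoungDiagram) :
    ∃ c : YoungDiagram →₀ K, X 1 * H ν = ∑ μ ∈ c.support, c μ • H μ ∧
      Dk q t 1 (H ν) = - ∑ μ ∈ c.support, (c μ * (BB q t μ - BB q t ν)) • H μ ∧
      ∀ μ ∈ c.support, TT q t μ = TT q t ν * (BB q t μ - BB q t ν) := by
  have hab := Gen.of_indep hqt
  have hM : (1 - q) * (1 - t) ≠ 0 := mul_ne_zero hab.one_sub_ne hab.swap.one_sub_ne
  have hab' := hab.inv hq ht
  have hM' : (1 - q') * (1 - t') ≠ 0 := mul_ne_zero hab'.one_sub_ne hab'.swap.one_sub_ne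
  have hqt1 : q * t ≠ 1 := by
    intro h
    have h1 : ({(1, 1)} : Finset (ℕ × ℕ)) = {(0, 0)} := by
      apply hab
      simp only [Finset.sum_singleton, pow_one, pow_zero, mul_one]
      exact h
    simp at h1
  obtain ⟨c, hc, hcard⟩ := hH.expand hab (isDeg_X_one.mul (hH.isDeg hab ν))
  have hD1 : Dk q t 1 (H ν) = - ∑ μ ∈ c.support, (c μ * (BB q t μ - BB q t ν)) • H μ := by
    have h1 := Dk_zero_X_one q t (H ν)
    rw [hH.D0 hab, mul_smul_comm, hc, map_sum, Finset.smul_sum] at h1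
    rw [← smul_eq_C_mul] at h1
    have h2 : ((1 - q) * (1 - t)) • (Dk q t 1 (H ν) +
        ∑ μ ∈ c.support, (c μ * (BB q t μ - BB q t ν)) • H μ) = 0 := by
      rw [smul_add, ← sub_eq_iff_eq_add'.2 h1, ← Finset.sum_sub_distrib, Finset.smul_sum,
        ← Finset.sum_add_distrib]
      refine Finset.sum_eq_zero fun μ _ => ?_
      rw [map_smul, hH.D0 hab, smul_smul, smul_smul, smul_smul, ← sub_smul, ← add_smul]
      convert zero_smul K (H μ) using 2
      ring
    exact eq_neg_of_add_eq_zero_left ((smul_eq_zero.1 h2).resolve_left hM)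
  refine ⟨c, hc, hD1, ?_⟩
  have h3 := comm_X_one q t q' t' hq ht hqt1 (H ν)
  rw [hH.D0s hab hq ht, map_smul, hD1, hc, map_neg, map_sum, ← smul_eq_C_mul] at h3
  have h4 : ∑ μ ∈ c.support, (c μ * ((BB q t μ - BB q t ν) *
      (BB q' t' μ - BB q' t' ν) - 1)) • H μ = 0 := by
    have h5 : ((1 - q') * (1 - t')) • ∑ μ ∈ c.support, (c μ * ((BB q t μ - BB q t ν) *
        (BB q' t' μ - BB q' t' ν) - 1)) • H μ = 0 := by
      rw [← sub_eq_zero] at h3
      rw [← h3, Finset.smul_sum, Finset.smul_sum, ← Finset.sum_neg_distrib,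
        smul_neg, Finset.smul_sum, sub_neg_eq_add, ← Finset.sum_add_distrib,
        ← Finset.sum_sub_distrib]
      refine Finset.sum_congr rfl fun μ _ => ?_
      rw [map_smul, hH.D0s hab hq ht, smul_smul, smul_smul, smul_smul, smul_smul, ← neg_smul,
        ← add_smul, ← sub_smul]
      congr 1
      ring
    exact (smul_eq_zero.1 h5).resolve_left hM'
  intro μ hμ
  have h5 := linearIndependent_iff'.1 (hH.linInd hab) _ _ h4 μ hμ
  have h6 := (mul_eq_zero.1 h5).resolve_left (Finsupp.mem_support_iff.1 hμ)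
  exact one_cell hqt hq ht μ ν (by rw [hcard μ hμ, add_comm]) (sub_eq_zero.1 h6)

lemma ne_zero_of_gen {q t : K} (hab : Gen q t) : q ≠ 0 := by
  intro h
  have h2 : ({(1, 0)} : Finset (ℕ × ℕ)) = ∅ := by
    apply hab
    simp [h]
  simp at h2

/-- `∇ p_1 = - D_1 ∇` -/
theorem nabla_X_one (hqt : AlgebraicIndependent ℚ ![q, t]) (hH : IsMacd q t H)
    (nabla : Sym K →ₗ[K] Sym K) (hn : ∀ μ, nabla (H μ) = TT q t μ • H μ) {n : ℕ} {F : Sym K}
    (hF : IsDeg n F) : nabla (X 1 * F) = Aop q t (nabla F) := by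
  have hab := Gen.of_indep hqt
  have hq0 : q ≠ 0 := ne_zero_of_gen hab
  have ht0 : t ≠ 0 := ne_zero_of_gen hab.swap
  have key : ∀ F ∈ Submodule.span K (Set.range H), nabla (X 1 * F) = Aop q t (nabla F) := by
    intro F hF
    induction hF using Submodule.span_induction with
    | mem F hF =>
      obtain ⟨ν, rfl⟩ := hF
      obtain ⟨c, hc, hD1, hT⟩ := pieri hqt hH (mul_inv_cancel₀ hq0) (mul_inv_cancel₀ ht0) ν
      rw [hc, map_sum, hn, map_smul, Aop_eq, hD1, neg_neg, Finset.smul_sum]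
      refine Finset.sum_congr rfl fun μ hμ => ?_
      rw [map_smul, hn, hT μ hμ, smul_smul, smul_smul]
      congr 1
      ring
    | zero => simp
    | add F G _ _ hF hG => rw [mul_add, map_add, hF, hG, map_add, map_add]
    | smul c F _ hF => rw [mul_smul_comm, map_smul, hF, map_smul, map_smul]
  exact key F (hH.span hab hF)

lemma isDeg_X_one_pow (n : ℕ) : IsDeg n (X 1 ^ n : Sym K) := by
  induction n with
  | zero =>
    rw [pow_zero]
    exact IsDeg.one
  | succ n ih =>
    rw [pow_succ]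
    exact ih.mul isDeg_X_one

lemma nabla_one (hqt : AlgebraicIndependent ℚ ![q, t]) (hH : IsMacd q t H)
    (nabla : Sym K →ₗ[K] Sym K) (hn : ∀ μ, nabla (H μ) = TT q t μ • H μ) :
    nabla 1 = 1 := by
  have hab := Gen.of_indep hqt
  obtain ⟨c, hc, hcard⟩ := hH.expand hab (IsDeg.one (R := K))
  rw [hc, map_sum]
  refine Finset.sum_congr rfl fun μ hμ => ?_
  have h0 : μ.cells = ∅ := Finset.card_eq_zero.1 (hcard μ hμ)
  rw [map_smul, hn, TT, h0, Finset.prod_empty, one_smul]

/-- `∇ p_1^n = (- D_1)^n 1` -/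
theorem nabla_pow (hqt : AlgebraicIndependent ℚ ![q, t]) (hH : IsMacd q t H)
    (nabla : Sym K →ₗ[K] Sym K) (hn : ∀ μ, nabla (H μ) = TT q t μ • H μ) (n : ℕ) :
    nabla (X 1 ^ n) = Fn q t n := by
  induction n with
  | zero =>
    rw [pow_zero, nabla_one hqt hH nabla hn]
    rfl
  | succ n ih =>
    rw [pow_succ', nabla_X_one hqt hH nabla hn (isDeg_X_one_pow n), ih, Fn_succ]

/-- elementary symmetric function of the weights of the cells -/
noncomputable def eB (q t : K) (k : ℕ) (μ : YoungDiagram) : K :=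
  ∑ S ∈ μ.cells.powersetCard k, ∏ x ∈ S, q ^ x.2 * t ^ x.1

lemma eB_card (q t : K) (μ : YoungDiagram) : eB q t μ.card μ = TT q t μ := by
  rw [eB, TT, YoungDiagram.card, Finset.powersetCard_self, Finset.sum_singleton]

lemma eB_pred {q t q' t' : K} (hq : q * q' = 1) (ht : t * t' = 1) (n : ℕ) (μ : YoungDiagram)
    (h : μ.card = n + 1) : eB q t n μ = TT q t μ * BB q' t' μ := by
  classical
  have h' : μ.cells.card = n + 1 := h
  have h1 : μ.cells.powersetCard n = μ.cells.image fun x => μ.cells.erase x := by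
    ext S
    rw [Finset.mem_powersetCard, Finset.mem_image]
    constructor
    · rintro ⟨h2, h3⟩
      have h4 : (μ.cells \ S).card = 1 := by
        rw [Finset.card_sdiff_of_subset h2]; omega
      obtain ⟨x, hx⟩ := Finset.card_eq_one.1 h4
      have hxm : x ∈ μ.cells \ S := by rw [hx]; exact Finset.mem_singleton_self x
      refine ⟨x, (Finset.mem_sdiff.1 hxm).1, ?_⟩
      ext y
      rw [Finset.mem_erase]
      constructor
      · rintro ⟨h5, h6⟩
        by_contra h7
        have : y ∈ μ.cells \ S := Finset.mem_sdiff.2 ⟨h6, h7⟩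
        rw [hx, Finset.mem_singleton] at this
        exact h5 this
      · intro h5
        refine ⟨?_, h2 h5⟩
        rintro rfl
        exact (Finset.mem_sdiff.1 hxm).2 h5
    · rintro ⟨x, hx, rfl⟩
      exact ⟨Finset.erase_subset _ _, by rw [Finset.card_erase_of_mem hx]; omega⟩
  rw [eB, h1, Finset.sum_image, BB, Finset.mul_sum]
  · refine Finset.sum_congr rfl fun x hx => ?_
    rw [TT, ← Finset.mul_prod_erase _ _ hx]
    have f3 : q ^ x.2 * q' ^ x.2 = 1 := by rw [← mul_pow, hq, one_pow]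
    have f4 : t ^ x.1 * t' ^ x.1 = 1 := by rw [← mul_pow, ht, one_pow]
    linear_combination (-(∏ x ∈ μ.cells.erase x, q ^ x.2 * t ^ x.1) * (t ^ x.1 * t' ^ x.1)) * f3
      - (∏ x ∈ μ.cells.erase x, q ^ x.2 * t ^ x.1) * f4
  · intro x hx y hy hxy
    by_contra hne
    have h2 : x ∈ μ.cells.erase y := Finset.mem_erase.2 ⟨hne, hx⟩
    have h3 : μ.cells.erase x = μ.cells.erase y := hxy
    rw [← h3] at h2
    exact (Finset.mem_erase.1 h2).1 rfl

/-- `Δ_{e_{n-1}} p_1^n` -/
theorem delta_pow (hqt : AlgebraicIndependent ℚ ![q, t]) (hH : IsMacd q t H)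
    (nabla : Sym K →ₗ[K] Sym K) (hn : ∀ μ, nabla (H μ) = TT q t μ • H μ) (n : ℕ)
    (delta : Sym K →ₗ[K] Sym K) (hd : ∀ μ, delta (H μ) = eB q t n μ • H μ) :
    delta (X 1 ^ (n + 1)) = Gn q t (n + 1) := by
  have hab := Gen.of_indep hqt
  have hq : q * q⁻¹ = 1 := mul_inv_cancel₀ (ne_zero_of_gen hab)
  have ht : t * t⁻¹ = 1 := mul_inv_cancel₀ (ne_zero_of_gen hab.swap)
  have hab' := hab.inv hq ht
  have hM' : (1 - q⁻¹) * (1 - t⁻¹) ≠ 0 := mul_ne_zero hab'.one_sub_ne hab'.swap.one_sub_ne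
  have hqt1 : q * t ≠ 1 := by
    intro h
    have h1 : ({(1, 1)} : Finset (ℕ × ℕ)) = {(0, 0)} := by
      apply hab
      simp only [Finset.sum_singleton, pow_one, pow_zero, mul_one]
      exact h
    simp at h1
  obtain ⟨c, hc, hcard⟩ := hH.expand hab (isDeg_X_one_pow (K := K) (n + 1))
  have h1 := Dks_Fn q t q⁻¹ t⁻¹ hq ht hqt1 (n + 1)
  rw [← nabla_pow hqt hH nabla hn (n + 1), hc, map_sum, map_sum, ← Finset.sum_sub_distrib,
    ← smul_eq_C_mul] at h1
  have h2 : ((1 - q⁻¹) * (1 - t⁻¹)) • delta (X 1 ^ (n + 1))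
      = ((1 - q⁻¹) * (1 - t⁻¹)) • Gn q t (n + 1) := by
    rw [← h1, hc, map_sum, Finset.smul_sum]
    refine Finset.sum_congr rfl fun μ hμ => ?_
    rw [map_smul, map_smul, hd, hn, map_smul, map_smul, hH.D0s hab hq ht,
      eB_pred hq ht n μ (hcard μ hμ)]
    simp only [smul_smul, ← sub_smul]
    congr 1
    ring
  exact smul_right_injective _ hM' h2

end main

end Pool.Agent.H158.TL
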