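import Mathlib
import Pool.Agent.H158.TL.Nabla
import Pool.Agent.H158.TL.Super2
import Pool.Agent.H158.TL.Q2b

set_option autoImplicit false
set_option linter.unusedSectionVars false

/-!
# Change of the base ring
-/

namespace Pool.Agent.H158.TL

open Finset MvPolynomial
open Pool.Agent.H209R2.EH

section
variable {R R' : Type*} [CommRing R] [Algebra ℚ R] [CommRing R'] [Algebra ℚ R'] (f : R →+* R')

lemma map_pw (k : ℕ) : MvPolynomial.map f (pw R k) = pw R' k := by
  cases k with
  | zero => simp [pw]
  | succ k => simp [pw]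

lemma map_shift (c : ℕ → R) (F : Sym R) :
    (shift c F).map (MvPolynomial.map f) = shift (fun k => f (c k)) (MvPolynomial.map f F) := by
  have h : (Polynomial.mapRingHom (MvPolynomial.map f : Sym R →+* Sym R')).comp
      (shift c : Sym R →ₐ[R] Polynomial (Sym R)).toRingHom
      = (shift (fun k => f (c k)) : Sym R' →ₐ[R'] Polynomial (Sym R')).toRingHom.comp
        (MvPolynomial.map f) := by
    apply MvPolynomial.ringHom_ext
    · intro r
      have h1 : shift c (C r) = Polynomial.C (C r) := by
        rw [← MvPolynomial.algebraMap_eq, AlgHom.commutes, Polynomial.algebraMap_apply]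
      have h2 : shift (fun k => f (c k)) (C (f r)) = Polynomial.C (C (f r)) := by
        rw [← MvPolynomial.algebraMap_eq, AlgHom.commutes, Polynomial.algebraMap_apply]
      simp [h1, h2]
    · intro k
      simp [shift_X]
  have h2 := congrArg (fun φ => φ F) h
  simpa using h2

lemma map_VO' (c d : ℕ → R) (r : ℕ) (F : Sym R) :
    MvPolynomial.map f (VO c d r F)
      = VO (fun k => f (c k)) (fun k => f (d k)) r (MvPolynomial.map f F) := by
  rw [VO_apply, pairing_map, map_shift, VO_apply]
  congr 2
  funext i
  rw [expo_map]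
  congr 1
  funext k
  rw [map_mul, map_C, map_pw]

lemma map_Aop (q t : R) (F : Sym R) :
    MvPolynomial.map f (Aop q t F) = Aop (f q) (f t) (MvPolynomial.map f F) := by
  rw [Aop_eq, Aop_eq, map_neg, Dk, Dk, map_VO']
  simp

lemma map_Fn (q t : R) (n : ℕ) :
    MvPolynomial.map f (Fn q t n) = Fn (f q) (f t) n := by
  induction n with
  | zero => simp [Fn]
  | succ n ih => rw [Fn_succ, Fn_succ, map_Aop, ih]

lemma map_Gn (q t : R) (n : ℕ) :
    MvPolynomial.map f (Gn q t n) = Gn (f q) (f t) n := by
  induction n with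
  | zero => simp [Gn]
  | succ n ih => rw [Gn, Gn, map_add, map_Aop, ih, map_mul, map_Fn, map_X]

lemma map_phi (N : ℕ) (F : Sym R) :
    MvPolynomial.map f (phi R N F) = phi R' N (MvPolynomial.map f F) := by
  have h : (MvPolynomial.map f : MvPolynomial (Fin N) R →+* _).comp
      (phi R N : Sym R →ₐ[R] _).toRingHom
      = (phi R' N : Sym R' →ₐ[R'] _).toRingHom.comp (MvPolynomial.map f) := by
    apply MvPolynomial.ringHom_ext
    · intro r
      have h1 : phi R N (C r) = C r := by
        rw [← MvPolynomial.algebraMap_eq, AlgHom.commutes]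
        rfl
      have h2 : phi R' N (C (f r)) = C (f r) := by
        rw [← MvPolynomial.algebraMap_eq, AlgHom.commutes]
        rfl
      simp [h1, h2]
    · intro k
      simp [phi]
  have h2 := congrArg (fun φ => φ F) h
  simpa using h2

variable [IsDomain R]

lemma isDeg_Aop {n : ℕ} {F : Sym R} (q t : R) (hF : IsDeg n F) : IsDeg (n + 1) (Aop q t F) := by
  rw [Aop_eq]
  exact (IsDeg.VO _ _ 1 hF).neg

lemma isDeg_Fn (q t : R) (n : ℕ) : IsDeg n (Fn q t n) := by
  induction n with
  | zero => exact IsDeg.one
  | succ n ih => rw [Fn_succ]; exact isDeg_Aop q t ih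

lemma isDeg_Gn (q t : R) (n : ℕ) : IsDeg n (Gn q t n) := by
  induction n with
  | zero => exact IsDeg.zero _
  | succ n ih =>
    rw [Gn]
    refine (isDeg_Aop q t ih).add ?_
    have h := (IsDeg.pw (R := R) 1).mul (isDeg_Fn q t n)
    rw [add_comm] at h
    exact h

end

end Pool.Agent.H158.TL
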