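import Mathlib
import Pool.Agent.H158.TL.Base

set_option autoImplicit false
set_option linter.unusedSectionVars false

/-!
# The two families in finitely many variables
-/

namespace Pool.Agent.H158.TL

open Finset MvPolynomial
open Pool.Agent.H209R2.EH

section
variable {P : Type*} [CommRing P] {R : Type*} [CommRing R] [IsDomain R] [Algebra ℚ R]
variable [Algebra (PowerSeries P) R]

lemma psi_Fn (t₀ : P) (n N : ℕ) :
    psi (algebraMap (PowerSeries P) R (PowerSeries.C t₀)) N
      (Fn (algebraMap (PowerSeries P) R PowerSeries.X)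
        (algebraMap (PowerSeries P) R (PowerSeries.C t₀)) n)
      = C ((algebraMap (PowerSeries P) R (PowerSeries.C t₀) - 1) ^ n *
        (1 - algebraMap (PowerSeries P) R PowerSeries.X) ^ n) *
        XX t₀ n N (fun a => (X a : MvPolynomial (Fin N) R)) := psi_iter t₀ n N

lemma psi_Gn (t₀ : P) (q' t' : R)
    (htt : algebraMap (PowerSeries P) R (PowerSeries.C t₀) * t' = 1)
    (hqq : algebraMap (PowerSeries P) R PowerSeries.X * q' = 1)
    (hq1 : algebraMap (PowerSeries P) R PowerSeries.X ≠ 1)
    (ht1 : algebraMap (PowerSeries P) R (PowerSeries.C t₀) ≠ 1)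
    (hqt : algebraMap (PowerSeries P) R PowerSeries.X *
      algebraMap (PowerSeries P) R (PowerSeries.C t₀) ≠ 1) (n N : ℕ) :
    psi (algebraMap (PowerSeries P) R (PowerSeries.C t₀)) N
      (Gn (algebraMap (PowerSeries P) R PowerSeries.X)
        (algebraMap (PowerSeries P) R (PowerSeries.C t₀)) (n + 1))
      = C ((algebraMap (PowerSeries P) R (PowerSeries.C t₀) - 1) ^ (n + 1) *
        (1 - algebraMap (PowerSeries P) R PowerSeries.X) ^ n) *
        ∑ a, GG t₀ (n + 1) N (fun a => (X a : MvPolynomial (Fin N) R)) a := by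
  set t : R := algebraMap (PowerSeries P) R (PowerSeries.C t₀) with ht
  set q : R := algebraMap (PowerSeries P) R PowerSeries.X with hq
  have h1 := Dks_Fn q t q' t' hqq htt hqt (n + 1)
  have h2 := psi_D0s_eq t₀ q' t' _ htt hqq (n + 1) (Fn q t (n + 1)) N (psi_Fn t₀ (n + 1) N)
  rw [← ht, ← hq] at h2
  have h3 := congrArg (psi t N) h1
  have e : Dks q' t' 0 (Fn q t (n + 1)) = D0s q' t' (Fn q t (n + 1)) := rfl
  rw [e, map_sub, h2] at h3
  have e2 : psi t N (C ((1 - q') * (1 - t')) * Gn q t (n + 1))
      = C ((1 - q') * (1 - t')) * psi t N (Gn q t (n + 1)) := by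
    rw [map_mul, ← MvPolynomial.algebraMap_eq, AlgHom.commutes, MvPolynomial.algebraMap_eq]
  rw [e2] at h3
  have hne : (C ((1 - q') * (1 - t')) : MvPolynomial (Fin N) R) ≠ 0 := by
    rw [Ne, C_eq_zero, mul_eq_zero, not_or, sub_eq_zero, sub_eq_zero]
    constructor
    · intro h
      rw [← h, mul_one] at hqq
      exact hq1 hqq
    · intro h
      rw [← h, mul_one] at htt
      exact ht1 htt
  apply mul_left_cancel₀ hne
  rw [← h3]
  have e3 : (t - 1) ^ (n + 1) * (1 - q) ^ (n + 1) * q'
      = -((t - 1) ^ (n + 1) * (1 - q) ^ n * (1 - q')) := by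
    linear_combination ((t - 1) ^ (n + 1) * (1 - q) ^ n * (-1)) * hqq
  rw [e3]
  simp only [map_mul, map_neg]
  ring

lemma sum_GG (t₀ : P) (n N : ℕ) :
    ∑ a, GG t₀ n N (fun a => (X a : MvPolynomial (Fin N) R)) a
      = ∑ κ : Fin n → Fin N, C (algebraMap (PowerSeries P) R (∑ p, gp t₀ p κ)) *
        ∏ v, X (κ v) := by
  simp only [GG]
  rw [Finset.sum_comm]
  simp only [map_sum, Finset.sum_mul]
  rw [Finset.sum_comm (s := (univ : Finset (Fin n → Fin N)))]
  refine Finset.sum_congr rfl fun p _ => ?_
  rw [Finset.sum_comm]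
  refine Finset.sum_congr rfl fun κ _ => ?_
  rw [Finset.sum_ite_eq]
  simp only [mem_univ, if_true]
  rw [IsScalarTower.algebraMap_apply (PowerSeries P) R (MvPolynomial (Fin N) R),
    MvPolynomial.algebraMap_eq]

end

section
variable {P : Type*} [CommRing P] [IsDomain P] [Algebra ℚ P]

/-- the variable `q` -/
noncomputable def qv (P : Type*) [CommRing P] : PowerSeries P := PowerSeries.X

/-- the parameter `t` -/
noncomputable def tv (t₀ : P) : PowerSeries P := PowerSeries.C t₀

/-- the functional for the first family -/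
noncomputable def L1 (P : Type*) [CommRing P] (n : ℕ) :
    ((Fin n → ℕ) → P) →ₗ[P] PowerSeries P where
  toFun f := (1 - qv P) ^ n * gs f
  map_add' f g := by
    have : gs (f + g) = gs f + gs g := gs_add f g
    rw [this]; ring
  map_smul' c f := by
    have : gs (c • f) = PowerSeries.C c * gs f := gs_mul_left c f
    rw [this, RingHom.id_apply, PowerSeries.smul_eq_C_mul]
    ring

theorem phi_Fn (t₀ : P) (ht₀ : Function.Injective fun a : ℕ => t₀ ^ a) (n N : ℕ) :
    phi (PowerSeries P) N (Fn (qv P) (tv t₀) n) = ∑ κ : Fin n → Fin N,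
      C ((1 - qv P) ^ n * gs fun γ => lw t₀ γ κ) * ∏ v, X (κ v) := by
  have e0 : algebraMap P (PowerSeries P) t₀ = tv t₀ := rfl
  refine super (R := PowerSeries P) t₀ ?_ n (L1 P n) (Fn (qv P) (tv t₀) n)
    (isDeg_Fn _ _ _) ?_ N
  · intro a b h
    simp only [e0, tv] at h
    rw [← map_pow, ← map_pow] at h
    exact ht₀ (PowerSeries.C_injective h)
  · intro M
    rw [e0]
    have h := psi_Fn (P := P) (R := PowerSeries P) t₀ n M
    simp only [Algebra.algebraMap_self, RingHom.id_apply] at h
    refine h.trans ?_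
    rw [map_mul, mul_assoc]
    congr 1
    rw [XX, Finset.mul_sum]
    refine Finset.sum_congr rfl fun κ _ => ?_
    rw [← mul_assoc]
    congr 1
    rw [MvPolynomial.algebraMap_eq, ← C_mul]
    rfl

/-- the functional for the second family -/
noncomputable def L2 (P : Type*) [CommRing P] [IsDomain P] (n : ℕ) :
    ((Fin (n + 1) → ℕ) → P) →ₗ[P] FractionRing (PowerSeries P) where
  toFun f := algebraMap (PowerSeries P) (FractionRing (PowerSeries P))
    ((1 - qv P) ^ n * ∑ p : Fin (n + 1),
    gs fun γ => if γ p = 0 then f (raise {p}ᶜ γ) else 0)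
  map_add' f g := by
    rw [← map_add, ← mul_add, ← Finset.sum_add_distrib]
    congr 2
    refine Finset.sum_congr rfl fun p _ => ?_
    rw [← gs_add]
    congr 1
    funext γ
    split_ifs
    · rfl
    · ring
  map_smul' c f := by
    rw [RingHom.id_apply, Algebra.smul_def c (algebraMap (PowerSeries P)
      (FractionRing (PowerSeries P)) _),
      IsScalarTower.algebraMap_apply P (PowerSeries P) (FractionRing (PowerSeries P)),
      ← map_mul]
    congr 1
    rw [mul_left_comm]
    congr 1
    rw [Finset.mul_sum]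
    refine Finset.sum_congr rfl fun p _ => ?_
    have e : algebraMap P (PowerSeries P) c = PowerSeries.C c := rfl
    rw [e, ← gs_mul_left]
    congr 1
    funext γ
    split_ifs
    · rfl
    · ring

theorem phi_Gn (t₀ : P) (ht₀ : Function.Injective fun a : ℕ => t₀ ^ a) (n N : ℕ) :
    phi (PowerSeries P) N (Gn (qv P) (tv t₀) (n + 1)) = ∑ κ : Fin (n + 1) → Fin N,
      C ((1 - qv P) ^ n * ∑ p : Fin (n + 1), gs fun γ => if γ p = 0 then
        lw t₀ (raise {p}ᶜ γ) κ else 0) * ∏ v, X (κ v) := by
  set ι : PowerSeries P →+* FractionRing (PowerSeries P) :=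
    algebraMap (PowerSeries P) (FractionRing (PowerSeries P)) with hι
  have hinj : Function.Injective ι :=
    IsFractionRing.injective (PowerSeries P) (FractionRing (PowerSeries P))
  apply MvPolynomial.map_injective ι hinj
  rw [map_phi, map_Gn]
  have e0 : algebraMap P (FractionRing (PowerSeries P)) t₀ = ι (tv t₀) := by
    rw [IsScalarTower.algebraMap_apply P (PowerSeries P) (FractionRing (PowerSeries P))]
    rfl
  have hq0 : ι (qv P) ≠ 0 := by
    rw [Ne, map_eq_zero_iff ι hinj]
    exact PowerSeries.X_ne_zero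
  have ht00 : t₀ ≠ 0 := by
    rintro rfl
    have := @ht₀ 1 2 (by simp)
    omega
  have ht01 : t₀ ≠ 1 := by
    rintro rfl
    have := @ht₀ 1 2 (by simp)
    omega
  have htv : tv t₀ ≠ 0 := by
    intro h
    have h1 : PowerSeries.C t₀ = PowerSeries.C 0 := by
      rw [map_zero]; exact h
    exact ht00 (PowerSeries.C_injective h1)
  have ht0 : ι (tv t₀) ≠ 0 := by
    rw [Ne, map_eq_zero_iff ι hinj]
    exact htv
  have hq1 : ι (qv P) ≠ 1 := by
    intro h
    rw [← map_one ι] at h
    have h1 := congrArg (PowerSeries.constantCoeff (R := P)) (hinj h)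
    simp [qv] at h1
  have ht1 : ι (tv t₀) ≠ 1 := by
    intro h
    rw [← map_one ι] at h
    have h1 := hinj h
    have h2 : PowerSeries.C t₀ = PowerSeries.C 1 := by
      rw [map_one]; exact h1
    exact ht01 (PowerSeries.C_injective h2)
  have hqt : ι (qv P) * ι (tv t₀) ≠ 1 := by
    intro h
    rw [← map_one ι, ← map_mul] at h
    have h1 := congrArg (PowerSeries.constantCoeff (R := P)) (hinj h)
    simp [qv] at h1
  have key := super (R := FractionRing (PowerSeries P)) t₀ ?_ (n + 1) (L2 P n)
    (Gn (ι (qv P)) (ι (tv t₀)) (n + 1)) (isDeg_Gn _ _ _) ?_ N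
  · rw [key, map_sum]
    refine Finset.sum_congr rfl fun κ _ => ?_
    rw [map_mul, map_C, map_prod]
    simp only [map_X]
    rfl
  · intro a b h
    simp only [e0, tv] at h
    rw [← map_pow, ← map_pow, ← map_pow, ← map_pow] at h
    exact ht₀ (PowerSeries.C_injective (hinj h))
  · intro M
    rw [e0]
    have h := psi_Gn (P := P) (R := FractionRing (PowerSeries P)) t₀ (ι (qv P))⁻¹ (ι (tv t₀))⁻¹
      (mul_inv_cancel₀ ht0) (mul_inv_cancel₀ hq0) hq1 ht1 hqt n M
    refine h.trans ?_
    rw [map_mul, mul_assoc]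
    congr 1
    rw [sum_GG, Finset.mul_sum]
    refine Finset.sum_congr rfl fun κ _ => ?_
    rw [← mul_assoc]
    congr 1
    rw [← C_mul]
    congr 1
    have e5 : (1 - (algebraMap (PowerSeries P) (FractionRing (PowerSeries P))) PowerSeries.X :
        FractionRing (PowerSeries P)) ^ n
        = algebraMap (PowerSeries P) (FractionRing (PowerSeries P)) ((1 - qv P) ^ n) := by
      rw [map_pow, map_sub, map_one]
      rfl
    rw [e5, ← map_mul]
    rfl

end

end Pool.Agent.H158.TL
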