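import Mathlib
import Pool.Agent.H158.TL.Llt

set_option autoImplicit false
set_option linter.unusedSectionVars false

/-!
# The series `L_v` in finitely many variables
-/

namespace Pool.Agent.H158.TL

open Finset MvPolynomial
open Pool.Agent.H209R2.EH

/-- `area(γ) = ∑ γ_i - #{i : γ_i > 0}` -/
def area {n : ℕ} (γ : Fin n → ℕ) : ℕ := ∑ i, γ i - (univ.filter fun i => 0 < γ i).card

/-- `dinv(γ, π)` -/
def dinv {n N : ℕ} (γ : Fin n → ℕ) (π : Fin n → Fin N) : ℕ :=
  (univ.filter fun p : Fin n × Fin n => p.1 < p.2 ∧ γ p.1 = γ p.2 ∧ π p.2 < π p.1).card +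
  (univ.filter fun p : Fin n × Fin n => p.1 < p.2 ∧ γ p.1 + 1 = γ p.2 ∧ π p.1 < π p.2).card

/-- the coefficient of `x^π` in `L_v`: a formal power series in `q` and `t` -/
noncomputable def Lser {n N : ℕ} (v : Fin n → Bool) (π : Fin n → Fin N) :
    MvPowerSeries (Fin 2) ℚ := fun m =>
  (Set.ncard {γ : Fin n → ℕ | (∀ i, γ i = 0 ↔ v i = true) ∧ area γ = m 0 ∧ dinv γ π = m 1} : ℚ)

/-- `L_v(x_1, …, x_N)` -/
noncomputable def Lv {n : ℕ} (N : ℕ) (v : Fin n → Bool) :
    MvPolynomial (Fin N) (MvPowerSeries (Fin 2) ℚ) :=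
  ∑ π : Fin n → Fin N, C (Lser v π) * ∏ i, X (π i)

/-- the number of ones -/
def ones {n : ℕ} (v : Fin n → Bool) : ℕ := (univ.filter fun i => v i = true).card

/-- `(1 - q)^{n - |v|} L_v(x_1, …, x_N)` -/
noncomputable def Ltil {n : ℕ} (N : ℕ) (v : Fin n → Bool) :
    MvPolynomial (Fin N) (MvPowerSeries (Fin 2) ℚ) :=
  C ((1 - MvPowerSeries.X 0) ^ (n - ones v)) * Lv N v

/-- `F(x_1, …, x_N)`, with coefficients read as power series in `q` and `t` -/
noncomputable def inVars (N : ℕ) : MvPolynomial ℕ+ (MvPolynomial (Fin 2) ℚ) →+*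
    MvPolynomial (Fin N) (MvPowerSeries (Fin 2) ℚ) :=
  eval₂Hom ((C : MvPowerSeries (Fin 2) ℚ →+* MvPolynomial (Fin N) (MvPowerSeries (Fin 2) ℚ)).comp
    (coeToMvPowerSeries.ringHom : MvPolynomial (Fin 2) ℚ →+* MvPowerSeries (Fin 2) ℚ))
    fun k : ℕ+ => ∑ i, X i ^ (k : ℕ)

lemma lw_eq {n N : ℕ} {P : Type*} [CommRing P] (t : P) (γ : Fin n → ℕ) (π : Fin n → Fin N) :
    lw t γ π = t ^ dinv γ π := by
  have e1 : lw t γ π = ∏ p : Fin n × Fin n, if pr γ p.1 p.2 ∧ π p.1 < π p.2 then t else 1 := by
    rw [lw, ← Finset.univ_product_univ, Finset.prod_product]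
  have e2 : (univ.filter fun p : Fin n × Fin n => p.1 < p.2 ∧ γ p.1 = γ p.2 ∧ π p.2 < π p.1).card
      = (univ.filter fun p : Fin n × Fin n => (γ p.1 = γ p.2 ∧ p.2 < p.1) ∧ π p.1 < π p.2).card := by
    refine Finset.card_bij (fun p _ => p.swap) ?_ ?_ ?_
    · intro p hp
      simp only [mem_filter, mem_univ, true_and, Prod.fst_swap, Prod.snd_swap] at hp ⊢
      exact ⟨⟨hp.2.1.symm, hp.1⟩, hp.2.2⟩
    · intro p _ p' _ h
      exact Prod.swap_injective h
    · intro p hp
      simp only [mem_filter, mem_univ, true_and] at hp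
      refine ⟨p.swap, ?_, Prod.swap_swap p⟩
      simp only [mem_filter, mem_univ, true_and, Prod.fst_swap, Prod.snd_swap]
      exact ⟨hp.1.2, hp.1.1.symm, hp.2⟩
  rw [e1, Finset.prod_ite, Finset.prod_const_one, mul_one, Finset.prod_const, dinv, e2,
    ← Finset.card_union_of_disjoint]
  · congr 2
    ext p
    simp only [mem_filter, mem_univ, true_and, mem_union, pr]
    constructor
    · rintro ⟨h1 | h1, h2⟩
      · exact Or.inl ⟨h1, h2⟩
      · exact Or.inr ⟨h1.2, h1.1.symm, h2⟩
    · rintro (h | h)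
      · exact ⟨Or.inl h.1, h.2⟩
      · exact ⟨Or.inr ⟨h.2.1.symm, h.1⟩, h.2.2⟩
  · rw [Finset.disjoint_left]
    intro p hp hp'
    simp only [mem_filter, mem_univ, true_and] at hp hp'
    exact absurd hp.1.2 (not_lt.2 hp'.1.le)

/-- the underlying function of `jj` -/
noncomputable def jf (f : PowerSeries (Polynomial ℚ)) : MvPowerSeries (Fin 2) ℚ :=
  fun m => (PowerSeries.coeff (m 0) f).coeff (m 1)

lemma coeff_jf (m : Fin 2 →₀ ℕ) (f : PowerSeries (Polynomial ℚ)) :
    MvPowerSeries.coeff m (jf f) = (PowerSeries.coeff (m 0) f).coeff (m 1) := rfl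

/-- power series in `q` with polynomial coefficients in `t` as power series in two variables -/
noncomputable def jj : PowerSeries (Polynomial ℚ) →+* MvPowerSeries (Fin 2) ℚ where
  toFun f := jf f
  map_zero' := by
    ext m
    rw [coeff_jf]
    simp
  map_add' f g := by
    ext m
    rw [coeff_jf, map_add, map_add, coeff_jf, coeff_jf, Polynomial.coeff_add]
  map_one' := by
    classical
    ext m
    rw [coeff_jf, MvPowerSeries.coeff_one, PowerSeries.coeff_one]
    by_cases h0 : m 0 = 0
    · by_cases h1 : m 1 = 0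
      · have : m = 0 := by
          ext i
          fin_cases i
          · exact h0
          · exact h1
        simp [this]
      · have : m ≠ 0 := fun h => h1 (by rw [h]; rfl)
        rw [if_pos h0, if_neg this, Polynomial.coeff_one, if_neg h1]
    · have : m ≠ 0 := fun h => h0 (by rw [h]; rfl)
      rw [if_neg h0, if_neg this]
      simp
  map_mul' f g := by
    classical
    ext m
    rw [coeff_jf, MvPowerSeries.coeff_mul, PowerSeries.coeff_mul, Polynomial.finsetSum_coeff]
    simp only [Polynomial.coeff_mul, coeff_jf]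
    rw [← Finset.sum_product']
    symm
    refine Finset.sum_nbij' (fun p => ((p.1 0, p.2 0), (p.1 1, p.2 1)))
      (fun r => (mexp (r.1.1, r.2.1), mexp (r.1.2, r.2.2))) ?_ ?_ ?_ ?_ ?_
    · intro p hp
      rw [Finset.HasAntidiagonal.mem_antidiagonal] at hp
      simp only [mem_product, Finset.HasAntidiagonal.mem_antidiagonal]
      rw [← hp]
      exact ⟨rfl, rfl⟩
    · intro r hr
      simp only [mem_product, Finset.HasAntidiagonal.mem_antidiagonal] at hr
      rw [Finset.HasAntidiagonal.mem_antidiagonal]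
      ext i
      fin_cases i
      · simpa [mexp] using hr.1
      · simpa [mexp] using hr.2
    · intro p _
      refine Prod.ext ?_ ?_
      · ext i
        fin_cases i <;> simp [mexp]
      · ext i
        fin_cases i <;> simp [mexp]
    · intro r _
      simp [mexp]
    · intro p _
      rfl

lemma jj_apply (f : PowerSeries (Polynomial ℚ)) (m : Fin 2 →₀ ℕ) :
    jj f m = (PowerSeries.coeff (m 0) f).coeff (m 1) := rfl

lemma jj_q : jj (qv (Polynomial ℚ)) = MvPowerSeries.X 0 := by
  classical
  funext m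
  change _ = MvPowerSeries.coeff m (MvPowerSeries.X 0)
  rw [MvPowerSeries.coeff_X, jj_apply, qv, PowerSeries.coeff_X]
  by_cases h0 : m 0 = 1
  · by_cases h1 : m 1 = 0
    · have : m = Finsupp.single 0 1 := by
        ext i
        fin_cases i
        · simpa using h0
        · simpa using h1
      rw [if_pos this, if_pos h0, h1]
      simp
    · have : m ≠ Finsupp.single 0 1 := fun h => h1 (by rw [h]; simp)
      rw [if_pos h0, if_neg this, Polynomial.coeff_one, if_neg h1]
  · have : m ≠ Finsupp.single 0 1 := fun h => h0 (by rw [h]; simp)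
    rw [if_neg h0, if_neg this]
    simp

lemma jj_t : jj (tv (Polynomial.X : Polynomial ℚ)) = MvPowerSeries.X 1 := by
  classical
  funext m
  change _ = MvPowerSeries.coeff m (MvPowerSeries.X 1)
  rw [MvPowerSeries.coeff_X, jj_apply, tv, PowerSeries.coeff_C]
  by_cases h0 : m 0 = 0
  · by_cases h1 : m 1 = 1
    · have : m = Finsupp.single 1 1 := by
        ext i
        fin_cases i
        · simpa using h0
        · simpa using h1
      rw [if_pos this, if_pos h0, h1]
      simp
    · have : m ≠ Finsupp.single 1 1 := fun h => h1 (by rw [h]; simp)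
      rw [if_pos h0, if_neg this, Polynomial.coeff_X, if_neg (Ne.symm h1)]
  · have : m ≠ Finsupp.single 1 1 := fun h => h0 (by rw [h]; simp)
    rw [if_neg h0, if_neg this]
    simp

/-- the key comparison -/
lemma jj_gs {n N : ℕ} (v : Fin n → Bool) (π : Fin n → Fin N) :
    jj (gs fun γ => if ∀ i, v i = true → γ i = 0 then
      lw (Polynomial.X : Polynomial ℚ) (raise (univ.filter fun i => v i = false) γ) π else 0)
      = Lser v π := by
  classical
  funext m
  set S : Finset (Fin n) := univ.filter fun i => v i = false with hS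
  rw [jj_apply, coeff_gs, Polynomial.finsetSum_coeff, Lser]
  have e1 : ∀ γ ∈ Finset.piAntidiag (univ : Finset (Fin n)) (m 0),
      (if ∀ i, v i = true → γ i = 0 then
      lw (Polynomial.X : Polynomial ℚ) (raise S γ) π else 0 : Polynomial ℚ).coeff (m 1)
      = if (∀ i, v i = true → γ i = 0) ∧ dinv (raise S γ) π = m 1 then 1 else 0 := by
    intro γ _
    rw [lw_eq]
    by_cases h1 : ∀ i, v i = true → γ i = 0
    · rw [if_pos h1, Polynomial.coeff_X_pow]
      by_cases h2 : dinv (raise S γ) π = m 1
      · rw [if_pos h2.symm, if_pos ⟨h1, h2⟩]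
      · rw [if_neg (Ne.symm h2), if_neg (fun h => h2 h.2)]
    · rw [if_neg h1, if_neg (fun h => h1 h.1)]
      simp
  rw [Finset.sum_congr rfl e1, Finset.sum_boole]
  congr 1
  rw [← Set.ncard_coe_finset]
  -- the bijection
  have hr : ∀ γ : Fin n → ℕ, (∀ i, v i = true → γ i = 0) →
      (∀ i, raise S γ i = 0 ↔ v i = true) := by
    intro γ h i
    cases hv : v i with
    | false => simp [raise, hS, hv]
    | true => simp [raise, hS, hv, h i hv]
  have hsupp : ∀ γ : Fin n → ℕ, (∀ i, v i = true → γ i = 0) →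
      (univ.filter fun i => 0 < raise S γ i) = S := by
    intro γ h
    ext i
    simp only [mem_filter, mem_univ, true_and, hS]
    rw [Nat.pos_iff_ne_zero, Ne, hr γ h i]
    simp
  have harea : ∀ γ : Fin n → ℕ, (∀ i, v i = true → γ i = 0) →
      area (raise S γ) = ∑ i, γ i := by
    intro γ h
    rw [area, hsupp γ h, sum_raise, Nat.add_sub_cancel]
  refine Set.ncard_congr (fun γ _ => raise S γ) ?_ ?_ ?_
  · intro γ hγ
    rw [Finset.mem_coe, mem_filter, mem_pa] at hγ
    obtain ⟨h0, h1, h2⟩ := hγ
    exact ⟨hr γ h1, by rw [harea γ h1, h0], h2⟩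
  · intro γ γ' _ _ h
    funext i
    have := congrFun h i
    simpa [raise] using this
  · intro γ hγ
    obtain ⟨h1, h2, h3⟩ := hγ
    have hγ1 : raise S (fun i => γ i - if i ∈ S then 1 else 0) = γ := by
      funext i
      simp only [raise]
      cases hv : v i with
      | false =>
        have h4 : γ i ≠ 0 := fun h => by
          have := (h1 i).1 h
          rw [hv] at this
          exact absurd this (by simp)
        have h5 : i ∈ S := by simp [hS, hv]
        rw [if_pos h5]
        omega
      | true =>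
        have h5 : i ∉ S := by simp [hS, hv]
        rw [if_neg h5]
        rfl
    have hγ2 : ∀ i, v i = true → (γ i - if i ∈ S then 1 else 0) = 0 := by
      intro i hv
      have := (h1 i).2 hv
      omega
    refine ⟨fun i => γ i - if i ∈ S then 1 else 0, ?_, hγ1⟩
    rw [Finset.mem_coe, mem_filter, mem_pa]
    refine ⟨?_, hγ2, ?_⟩
    · have h4 := harea _ hγ2
      rw [hγ1] at h4
      rw [← h4, h2]
    · rw [hγ1]
      exact h3

lemma ones_zero {n : ℕ} : ones (fun _ : Fin n => false) = 0 := by
  simp [ones]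

theorem jj_Fn (n N : ℕ) :
    MvPolynomial.map jj (phi (PowerSeries (Polynomial ℚ)) N
      (Fn (qv (Polynomial ℚ)) (tv (Polynomial.X : Polynomial ℚ)) n))
      = Ltil N (fun _ : Fin n => false) := by
  have hinj : Function.Injective fun a : ℕ => (Polynomial.X : Polynomial ℚ) ^ a := by
    intro a b h
    have h2 := congrArg Polynomial.natDegree h
    simpa using h2
  rw [phi_Fn _ hinj, map_sum, Ltil, Lv, Finset.mul_sum]
  refine Finset.sum_congr rfl fun κ _ => ?_
  rw [map_mul, map_C, map_prod, map_mul, map_pow, map_sub, map_one, jj_q, ones_zero, Nat.sub_zero,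
    C_mul, mul_assoc]
  congr 1
  simp only [map_X]
  congr 2
  rw [← jj_gs]
  congr 2
  funext γ
  have h1 : ∀ i : Fin n, (false = true) → γ i = 0 := fun i h => absurd h (by simp)
  rw [if_pos h1]
  have h2 : (univ.filter fun _ : Fin n => false = false) = univ := by simp
  rw [h2, lw, lw]
  refine Finset.prod_congr rfl fun v _ => Finset.prod_congr rfl fun w _ => ?_
  refine if_congr ?_ rfl rfl
  simp [pr, raise]

theorem jj_Gn (n N : ℕ) :
    MvPolynomial.map jj (phi (PowerSeries (Polynomial ℚ)) N
      (Gn (qv (Polynomial ℚ)) (tv (Polynomial.X : Polynomial ℚ)) (n + 1)))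
      = ∑ v ∈ univ.filter (fun v : Fin (n + 1) → Bool => ones v = 1), Ltil N v := by
  have hinj : Function.Injective fun a : ℕ => (Polynomial.X : Polynomial ℚ) ^ a := by
    intro a b h
    have h2 := congrArg Polynomial.natDegree h
    simpa using h2
  have e1 : ∑ v ∈ univ.filter (fun v : Fin (n + 1) → Bool => ones v = 1), Ltil N v
      = ∑ p : Fin (n + 1), Ltil N (fun i => decide (i = p)) := by
    symm
    refine Finset.sum_bij (fun p _ => fun i => decide (i = p)) ?_ ?_ ?_ ?_
    · intro p _
      rw [mem_filter]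
      refine ⟨mem_univ _, ?_⟩
      rw [ones]
      have : (univ.filter fun i : Fin (n + 1) => decide (i = p) = true) = {p} := by
        ext i; simp
      rw [this, Finset.card_singleton]
    · intro p _ p' _ h
      have := congrFun h p
      simpa using this
    · intro v hv
      rw [mem_filter] at hv
      obtain ⟨p, hp⟩ := Finset.card_eq_one.1 hv.2
      refine ⟨p, mem_univ _, ?_⟩
      funext i
      have h1 : v i = true ↔ i = p := by
        have : i ∈ (univ.filter fun i => v i = true) ↔ i ∈ ({p} : Finset _) := by rw [hp]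
        simpa using this
      by_cases h2 : i = p
      · rw [h1.2 h2]
        simp [h2]
      · have h3 : v i ≠ true := fun h => h2 (h1.1 h)
        simp [h2, Bool.eq_false_iff.2 h3]
    · intro p _
      rfl
  rw [phi_Gn _ hinj, map_sum, e1]
  have e2 : ∀ p : Fin (n + 1), ones (fun i => decide (i = p)) = 1 := by
    intro p
    rw [ones]
    have : (univ.filter fun i : Fin (n + 1) => decide (i = p) = true) = {p} := by
      ext i; simp
    rw [this, Finset.card_singleton]
  simp only [Ltil, Lv, e2, Nat.add_sub_cancel]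
  simp only [Finset.mul_sum]
  rw [Finset.sum_comm]
  refine Finset.sum_congr rfl fun κ _ => ?_
  rw [map_mul, map_C, map_prod, ← Finset.mul_sum, map_mul, map_pow, map_sub, map_one, jj_q,
    map_sum]
  simp only [map_X]
  rw [C_mul, map_sum, mul_assoc, Finset.sum_mul, Finset.mul_sum]
  refine Finset.sum_congr rfl fun p _ => ?_
  congr 3
  rw [← jj_gs]
  congr 2
  funext γ
  have h1 : (∀ i : Fin (n + 1), decide (i = p) = true → γ i = 0) ↔ γ p = 0 := by
    constructor
    · intro h
      exact h p (by simp)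
    · intro h i hi
      have : i = p := by simpa using hi
      rw [this]; exact h
  have h2 : (univ.filter fun i : Fin (n + 1) => decide (i = p) = false) = {p}ᶜ := by
    ext i; simp
  rw [h2]
  exact if_congr h1.symm rfl rfl

/-- the polynomial forms -/
noncomputable def FQ (n : ℕ) : MvPolynomial ℕ+ (MvPolynomial (Fin 2) ℚ) :=
  Fn (X 0 : MvPolynomial (Fin 2) ℚ) (X 1) n

/-- the polynomial forms -/
noncomputable def GQ (n : ℕ) : MvPolynomial ℕ+ (MvPolynomial (Fin 2) ℚ) :=
  Gn (X 0 : MvPolynomial (Fin 2) ℚ) (X 1) n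

/-- `ℚ[q,t] → ℚ[t]⟦q⟧` -/
noncomputable def kk : MvPolynomial (Fin 2) ℚ →+* PowerSeries (Polynomial ℚ) :=
  eval₂Hom (algebraMap ℚ _) ![qv (Polynomial ℚ), tv (Polynomial.X : Polynomial ℚ)]

lemma jj_kk : jj.comp kk = coeToMvPowerSeries.ringHom := by
  apply MvPolynomial.ringHom_ext
  · intro r
    have : (jj.comp kk).comp C = (coeToMvPowerSeries.ringHom (σ := Fin 2) (R := ℚ)).comp C :=
      Subsingleton.elim _ _
    exact congrArg (fun φ => φ r) this
  · intro i
    rw [RingHom.comp_apply, kk, eval₂Hom_X', coeToMvPowerSeries.ringHom_apply, coe_X]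
    fin_cases i
    · exact jj_q
    · exact jj_t

lemma inVars_eq (N : ℕ) (F : MvPolynomial ℕ+ (MvPolynomial (Fin 2) ℚ)) :
    inVars N F = MvPolynomial.map jj (phi (PowerSeries (Polynomial ℚ)) N
      (MvPolynomial.map kk F)) := by
  have h : inVars N = (MvPolynomial.map jj : MvPolynomial (Fin N) _ →+* _).comp
      ((phi (PowerSeries (Polynomial ℚ)) N : Sym _ →ₐ[_] _).toRingHom.comp
        (MvPolynomial.map kk)) := by
    apply MvPolynomial.ringHom_ext
    · intro r
      have h1 : phi (PowerSeries (Polynomial ℚ)) N (C (kk r)) = C (kk r) := by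
        rw [← MvPolynomial.algebraMap_eq, AlgHom.commutes]
        rfl
      have h2 := congrArg (fun φ => φ r) jj_kk
      simp only [RingHom.comp_apply] at h2
      simp [inVars, h1, h2]
    · intro k
      simp [inVars, phi]
  rw [h]
  rfl

lemma kk_X0 : kk (X 0) = qv (Polynomial ℚ) := by
  rw [kk, eval₂Hom_X']
  rfl

lemma kk_X1 : kk (X 1) = tv (Polynomial.X : Polynomial ℚ) := by
  rw [kk, eval₂Hom_X']
  rfl

theorem inVars_FQ (n N : ℕ) : inVars N (FQ n) = Ltil N (fun _ : Fin n => false) := by
  rw [inVars_eq, FQ, map_Fn, kk_X0, kk_X1]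
  exact jj_Fn n N

theorem inVars_GQ (n N : ℕ) : inVars N (GQ (n + 1))
    = ∑ v ∈ univ.filter (fun v : Fin (n + 1) → Bool => ones v = 1), Ltil N v := by
  rw [inVars_eq, GQ, map_Gn, kk_X0, kk_X1]
  exact jj_Gn n N

end Pool.Agent.H158.TL
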