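import Mathlib
import Pool.Agent.H158.TL.Macd

set_option autoImplicit false
set_option linter.unusedSectionVars false

/-!
# Existence of the modified Macdonald polynomials
-/

namespace Pool.Agent.H158.TL

open Finset MvPolynomial
open Pool.Agent.H209R2.EH

section
variable {K : Type*} [Field K] [CharZero K]

/-- support of an eigenvector -/
lemma eig_supp (D : Sym K →ₗ[K] Sym K) (s a b : K) (hab : Gen a b)
    (hDs : ∀ F, pleth (fun k => s ^ k - 1) (D F) = MM a b (pleth (fun k => s ^ k - 1) F))
    {N : ℕ} (κ : Fin N →₀ ℕ) (G : Sym K) (hDG : D G = ev a b κ • G) (y : Fin N →₀ ℕ)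
    (hy : coeff y (phi K N (pleth (fun k => s ^ k - 1) G)) ≠ 0) : Dom y κ := by
  classical
  set g := phi K N (pleth (fun k => s ^ k - 1) G) with hg
  have hne : (g.support.filter fun z => Dom y z).Nonempty :=
    ⟨y, by rw [mem_filter, mem_support_iff]; exact ⟨hy, Dom.refl _⟩⟩
  obtain ⟨lam, hlam, hmax⟩ := Finset.exists_max_image _ rk hne
  rw [mem_filter, mem_support_iff] at hlam
  have hrel := MM_rel a b N (pleth (fun k => s ^ k - 1) G)
  rw [← hDs, hDG, map_smul, map_smul, ← hg] at hrel
  have h1 : ∀ z, coeff z g ≠ 0 → Dom lam z → z = lam := by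
    intro z hz hd
    by_contra hne'
    have h2 := hmax z (by rw [mem_filter, mem_support_iff]; exact ⟨hz, hlam.2.trans hd⟩)
    exact absurd (hd.rk_lt (Ne.symm hne')) (not_lt.2 h2)
  have h2 := hrel.coeff_eq (lam := lam) (fun z hz hd => h1 z (by
    rw [coeff_smul, smul_eq_mul] at hz
    exact right_ne_zero_of_mul hz) hd) h1
  rw [coeff_smul, smul_eq_mul] at h2
  have h3 := ev_inj hab (mul_right_cancel₀ hlam.1 h2)
  rw [h3]
  exact hlam.2

lemma pleth_congr {s s' : ℕ → K} (h : ∀ k : ℕ+, s k = s' k) (F : Sym K) :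
    pleth s F = pleth s' F := by
  have : pleth s = pleth s' := by
    rw [pleth, pleth]
    congr 1
    funext k
    rw [h]
  rw [this]

/-- the exponent `(1^m)` -/
noncomputable def ee (N m : ℕ) : Fin N →₀ ℕ :=
  ∑ i ∈ univ.filter (fun i : Fin N => (i : ℕ) < m), Finsupp.single i 1

lemma ee_apply (N m : ℕ) (i : Fin N) : ee N m i = if (i : ℕ) < m then 1 else 0 := by
  classical
  rw [ee, Finsupp.finsetSum_apply]
  simp only [Finsupp.single_apply]
  rw [Finset.sum_ite_eq']
  simp

lemma ps_ee (N m k : ℕ) (hm : m ≤ N) : ps k (ee N m) = min m k := by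
  rw [ps_eq_sum]
  simp only [ee_apply]
  have h1 : ∀ i : Fin N, (if (i : ℕ) < k then (if (i : ℕ) < m then 1 else 0) else 0)
      = (fun i : ℕ => if i < min m k then 1 else 0) (i : ℕ) := by
    intro i
    simp only [lt_min_iff]
    split_ifs <;> simp_all
  rw [Finset.sum_congr rfl fun i _ => h1 i,
    Fin.sum_univ_eq_sum_range (fun i : ℕ => if i < min m k then 1 else 0),
    ← Finset.sum_filter, Finset.sum_const, smul_eq_mul, mul_one]
  have : (range N).filter (fun i => i < min m k) = range (min m k) := by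
    ext i
    simp only [mem_filter, Finset.mem_range]
    omega
  rw [this, Finset.card_range]

lemma coeff_elem (N m : ℕ) :
    PowerSeries.coeff m (∏ i : Fin N, (1 - PowerSeries.C
      (X i : MvPolynomial (Fin N) K) * PowerSeries.X))
      = ∑ S ∈ powersetCard m univ, (-1) ^ m * ∏ i ∈ S, (X i : MvPolynomial (Fin N) K) := by
  classical
  have h1 : ∏ i : Fin N, (1 - PowerSeries.C (X i : MvPolynomial (Fin N) K) * PowerSeries.X)
      = ∑ S ∈ univ.powerset, (-PowerSeries.X) ^ S.card *
        PowerSeries.C (∏ i ∈ S, (X i : MvPolynomial (Fin N) K)) := by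
    have h2 : ∀ i : Fin N, (1 - PowerSeries.C (X i : MvPolynomial (Fin N) K) * PowerSeries.X)
        = (-PowerSeries.X) * PowerSeries.C (X i : MvPolynomial (Fin N) K) + 1 := by
      intro i; ring
    simp only [h2]
    rw [Finset.prod_add]
    refine Finset.sum_congr rfl fun S _ => ?_
    rw [Finset.prod_const_one, mul_one, Finset.prod_mul_distrib, Finset.prod_const, map_prod]
  rw [h1, map_sum]
  have h3 : ∀ S : Finset (Fin N), PowerSeries.coeff m ((-PowerSeries.X) ^ S.card *
        PowerSeries.C (∏ i ∈ S, (X i : MvPolynomial (Fin N) K)))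
        = if S.card = m then (-1) ^ m * ∏ i ∈ S, (X i : MvPolynomial (Fin N) K) else 0 := by
    intro S
    rw [neg_pow, mul_assoc]
    have h4 : ((-1 : PowerSeries (MvPolynomial (Fin N) K)) ^ S.card)
        = PowerSeries.C ((-1) ^ S.card) := by simp
    rw [h4, PowerSeries.coeff_C_mul, mul_comm (PowerSeries.X ^ _), PowerSeries.coeff_C_mul,
      PowerSeries.coeff_X_pow]
    by_cases h : S.card = m
    · rw [if_pos h, if_pos h.symm, mul_one, h]
    · rw [if_neg h, if_neg (Ne.symm h), mul_zero, mul_zero]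
  rw [Finset.sum_congr rfl fun S _ => h3 S, ← Finset.sum_filter, ← Finset.powersetCard_eq_filter]

lemma coeff_ee (N m : ℕ) (hm : m ≤ N) : coeff (ee N m) (EE K N m) = (-1) ^ m := by
  classical
  rw [EE_nonneg, coeff_elem, coeff_sum,
    Finset.sum_eq_single (univ.filter fun i : Fin N => (i : ℕ) < m)]
  · have h1 : (∏ i ∈ univ.filter (fun i : Fin N => (i : ℕ) < m), (X i : MvPolynomial (Fin N) K))
        = monomial (ee N m) 1 := by
      rw [ee, monomial_sum_one]
      rfl
    have h2 : ((-1 : MvPolynomial (Fin N) K) ^ m) = C ((-1) ^ m) := by simp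
    rw [h1, h2, coeff_C_mul, coeff_monomial, if_pos rfl, mul_one]
  · intro S _ hne
    have h1 : (∏ i ∈ S, (X i : MvPolynomial (Fin N) K))
        = monomial (∑ i ∈ S, Finsupp.single i 1) 1 := by
      rw [monomial_sum_one]
      rfl
    have h2 : ((-1 : MvPolynomial (Fin N) K) ^ m) = C ((-1) ^ m) := by simp
    rw [h1, h2, coeff_C_mul, coeff_monomial, if_neg, mul_zero]
    intro h
    apply hne
    ext i
    have h3 := DFunLike.congr_fun h i
    rw [ee_apply, Finsupp.finsetSum_apply] at h3
    simp only [Finsupp.single_apply] at h3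
    rw [Finset.sum_ite_eq'] at h3
    rw [mem_filter]
    by_cases h4 : i ∈ S <;> by_cases h5 : (i : ℕ) < m <;> simp_all
  · intro h
    exfalso
    apply h
    rw [Finset.mem_powersetCard]
    refine ⟨Finset.subset_univ _, ?_⟩
    have h1 : (univ.filter fun i : Fin N => (i : ℕ) < m).card = ps N (ee N m) := by
      rw [ps_eq_sum, Finset.card_eq_sum_ones, Finset.sum_filter]
      refine Finset.sum_congr rfl fun i _ => ?_
      rw [if_pos i.2, ee_apply]
    rw [h1, ps_ee N m N hm, min_eq_left hm]

lemma lead_EE (N m : ℕ) (hm : m ≤ N) : Lead (EE K N m) (ee N m) ((-1) ^ m) := by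
  refine ⟨?_, coeff_ee N m hm⟩
  intro α hα
  obtain ⟨h1, h2⟩ := EE_psup N m α hα
  refine ⟨fun k => ?_, ?_⟩
  · rw [ps_ee N m k hm]
    exact h1 k
  · rw [ps_ee N m N hm, h2, min_eq_left hm]

lemma sum_ee (lam : YoungDiagram) (N : ℕ) :
    ∑ i : Fin (lam.colLen 0), ee N (lam.rowLen i) = yv N lam.transpose := by
  classical
  ext r
  rw [Finsupp.finsetSum_apply, yv_apply, YoungDiagram.rowLen_transpose]
  simp only [ee_apply]
  have h1 : ∀ i : Fin (lam.colLen 0), (if (r : ℕ) < lam.rowLen i then 1 else 0)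
      = (fun i : ℕ => if i < lam.colLen r then 1 else 0) (i : ℕ) := by
    intro i
    simp only
    refine if_congr ?_ rfl rfl
    rw [← YoungDiagram.mem_iff_lt_rowLen, ← YoungDiagram.mem_iff_lt_colLen]
  rw [Finset.sum_congr rfl fun i _ => h1 i,
    Fin.sum_univ_eq_sum_range (fun i : ℕ => if i < lam.colLen r then 1 else 0),
    ← Finset.sum_filter, Finset.sum_const, smul_eq_mul, mul_one]
  have h2 : lam.colLen r ≤ lam.colLen 0 := lam.colLen_anti 0 r (Nat.zero_le _)
  have : (range (lam.colLen 0)).filter (fun i => i < lam.colLen r) = range (lam.colLen r) := by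
    ext i
    simp only [mem_filter, Finset.mem_range]
    omega
  rw [this, Finset.card_range]

lemma rowLen_le_card (lam : YoungDiagram) (i : ℕ) : lam.rowLen i ≤ lam.card := by
  by_contra h
  push Not at h
  have h1 : (i, lam.card) ∈ lam := YoungDiagram.mem_iff_lt_rowLen.2 h
  have := col_lt_card lam h1
  omega

lemma lead_prod_EE (lam : YoungDiagram) (N : ℕ) (hN : lam.card ≤ N) :
    Lead (∏ i : Fin (lam.colLen 0), EE K N (lam.rowLen i)) (yv N lam.transpose)
      (∏ i : Fin (lam.colLen 0), (-1) ^ (lam.rowLen i)) := by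
  have h := Lead.prod (A := K) (univ : Finset (Fin (lam.colLen 0)))
    (fun i => EE K N (lam.rowLen i)) (fun i => ee N (lam.rowLen i))
    (fun i => (-1) ^ (lam.rowLen i))
    (fun i _ => lead_EE N _ ((rowLen_le_card lam i).trans hN))
  rw [sum_ee] at h
  exact h

lemma phi_schur (lam : YoungDiagram) (N : ℕ) :
    phi K N (pleth (fun _ => (-1 : K)) (schur K lam))
      = ∑ σ : Equiv.Perm (Fin (lam.colLen 0)), (Equiv.Perm.sign σ : ℤ) •
        ∏ i, EE K N ((lam.rowLen (σ i) : ℤ) - ((σ i : ℕ) : ℤ) + ((i : ℕ) : ℤ)) := by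
  rw [schur, Matrix.det_apply, map_sum, map_sum]
  refine Finset.sum_congr rfl fun σ _ => ?_
  have : (Equiv.Perm.sign σ • ∏ i, Matrix.of (fun i j : Fin (lam.colLen 0) =>
      hZ K ((lam.rowLen i : ℤ) - (i : ℤ) + (j : ℤ))) (σ i) i : Sym K)
      = (Equiv.Perm.sign σ : ℤ) • ∏ i, Matrix.of (fun i j : Fin (lam.colLen 0) =>
      hZ K ((lam.rowLen i : ℤ) - (i : ℤ) + (j : ℤ))) (σ i) i := rfl
  rw [this, map_zsmul, map_zsmul, map_prod, map_prod]
  rfl

/-- strictness for permutations other than the identity -/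
lemma jt_strict (lam : YoungDiagram) (σ : Equiv.Perm (Fin (lam.colLen 0))) (hσ : σ ≠ 1)
    (hpos : ∀ i, 0 ≤ (lam.rowLen (σ i) : ℤ) - ((σ i : ℕ) : ℤ) + (i : ℕ)) :
    ∃ k : ℕ, ∑ i, min ((lam.rowLen (σ i) : ℤ) - ((σ i : ℕ) : ℤ) + (i : ℕ)).toNat k
      < ∑ i : Fin (lam.colLen 0), min (lam.rowLen i) k := by
  classical
  set z : Fin (lam.colLen 0) → ℕ := fun i =>
    ((lam.rowLen (σ i) : ℤ) - ((σ i : ℕ) : ℤ) + (i : ℕ)).toNat with hz
  have hzc : ∀ i, (z i : ℤ) = (lam.rowLen (σ i) : ℤ) - ((σ i : ℕ) : ℤ) + (i : ℕ) := fun i =>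
    Int.toNat_of_nonneg (hpos i)
  have hne : (univ.filter fun j => σ j ≠ j).Nonempty := by
    by_contra h
    rw [Finset.not_nonempty_iff_eq_empty, Finset.filter_eq_empty_iff] at h
    apply hσ
    ext j
    have := h (mem_univ j)
    push Not at this
    rw [this]
    rfl
  obtain ⟨j, hj, hmin⟩ := Finset.exists_min_image _ (fun j : Fin (lam.colLen 0) => (j : ℕ)) hne
  rw [mem_filter] at hj
  have hfix : ∀ i : Fin (lam.colLen 0), (i : ℕ) < j → σ i = i := by
    intro i hi
    by_contra h
    have := hmin i (by rw [mem_filter]; exact ⟨mem_univ _, h⟩)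
    omega
  set i0 := σ.symm j with hi0
  have hσi0 : σ i0 = j := by simp [hi0]
  have hi0j : i0 ≠ j := fun h => hj.2 (by rw [← h]; rw [hσi0, h])
  have hi0lt : (j : ℕ) < i0 := by
    by_contra h
    have h1 : (i0 : ℕ) < j := by
      have : (i0 : ℕ) ≠ j := fun h' => hi0j (Fin.ext h')
      omega
    have h2 := hfix i0 h1
    rw [hσi0] at h2
    exact hi0j h2.symm
  refine ⟨lam.rowLen j, ?_⟩
  set k := lam.rowLen j with hk
  set u : Fin (lam.colLen 0) → ℕ := fun i => if (i : ℕ) < j then min (lam.rowLen i) k else z i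
    with hu
  have h1 : ∑ i, min (z i) k < ∑ i, u i := by
    refine Finset.sum_lt_sum ?_ ⟨i0, mem_univ _, ?_⟩
    · intro i _
      simp only [hu]
      split_ifs with hi
      · have h2 := hzc i
        rw [hfix i hi] at h2
        have h3 : z i = lam.rowLen i := by
          have : (z i : ℤ) = lam.rowLen i := by rw [h2]; ring
          exact_mod_cast this
        rw [h3]
      · exact min_le_left _ _
    · simp only [hu]
      rw [if_neg (by omega)]
      have h2 := hzc i0
      rw [hσi0] at h2
      have h3 : k < z i0 := by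
        have : (k : ℤ) < z i0 := by rw [h2]; omega
        exact_mod_cast this
      rw [min_eq_right h3.le]
      exact h3
  have h2 : ∑ i, u i = ∑ i : Fin (lam.colLen 0), min (lam.rowLen i) k := by
    have h3 : ∀ i, (u i : ℤ) - (min (lam.rowLen i) k : ℕ) = (z i : ℤ) - lam.rowLen i := by
      intro i
      simp only [hu]
      split_ifs with hi
      · have h2 := hzc i
        rw [hfix i hi] at h2
        rw [h2]
        ring
      · have h4 : lam.rowLen i ≤ k := lam.rowLen_anti j i (not_lt.1 hi)
        rw [min_eq_left h4]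
    have h4 : ∑ i, ((u i : ℤ) - (min (lam.rowLen i) k : ℕ)) = ∑ i, ((z i : ℤ) - lam.rowLen i) :=
      Finset.sum_congr rfl fun i _ => h3 i
    have h5 : ∑ i, z i = lam.card := sum_z lam σ hpos
    have h6 := sum_rowLen_fin lam
    rw [Finset.sum_sub_distrib, Finset.sum_sub_distrib] at h4
    have h7 : (∑ i, (z i : ℤ)) = ∑ i : Fin (lam.colLen 0), (lam.rowLen i : ℤ) := by
      have : ∑ i, z i = ∑ i : Fin (lam.colLen 0), lam.rowLen i := by rw [h5, h6]
      exact_mod_cast this
    rw [h7, sub_self, sub_eq_zero] at h4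
    exact_mod_cast h4
  rw [h2] at h1
  exact h1

lemma schur_lead (lam : YoungDiagram) {N : ℕ} (hN : lam.card ≤ N) :
    coeff (yv N lam.transpose) (phi K N (pleth (fun _ => (-1 : K)) (schur K lam))) ≠ 0 := by
  classical
  rw [phi_schur, coeff_sum, Finset.sum_eq_single 1]
  · have h := (lead_prod_EE (K := K) lam N hN).lead
    have e : ∀ i : Fin (lam.colLen 0), ((lam.rowLen ((1 : Equiv.Perm (Fin (lam.colLen 0))) i) : ℤ)
        - (((1 : Equiv.Perm (Fin (lam.colLen 0))) i : ℕ) : ℤ) + ((i : ℕ) : ℤ))
        = (lam.rowLen i : ℤ) := by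
      intro i
      rw [Equiv.Perm.one_apply]
      ring
    simp only [e]
    rw [Equiv.Perm.sign_one, Units.val_one, one_smul, h]
    exact Finset.prod_ne_zero_iff.2 fun i _ => pow_ne_zero _ (by norm_num)
  · intro σ _ hσ
    rw [coeff_smul]
    have h0 : coeff (yv N lam.transpose) (∏ i, EE K N ((lam.rowLen (σ i) : ℤ)
        - ((σ i : ℕ) : ℤ) + ((i : ℕ) : ℤ))) = 0 := by
      by_contra hne
      have hpos : ∀ i, 0 ≤ (lam.rowLen (σ i) : ℤ) - ((σ i : ℕ) : ℤ) + (i : ℕ) := by
        intro i
        by_contra hlt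
        apply hne
        rw [Finset.prod_eq_zero (mem_univ i) (EE_neg N _ (not_le.1 hlt)), coeff_zero]
      have hP := PSup.prod univ (fun i => EE K N ((lam.rowLen (σ i) : ℤ) - ((σ i : ℕ) : ℤ)
          + ((i : ℕ) : ℤ)))
        (fun i k => min ((lam.rowLen (σ i) : ℤ) - ((σ i : ℕ) : ℤ) + ((i : ℕ) : ℤ)).toNat k)
        (fun i => ((lam.rowLen (σ i) : ℤ) - ((σ i : ℕ) : ℤ) + ((i : ℕ) : ℤ)).toNat) (by
          intro i _
          have h1 := EE_psup (K := K) N
            ((lam.rowLen (σ i) : ℤ) - ((σ i : ℕ) : ℤ) + ((i : ℕ) : ℤ)).toNat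
          rw [Int.toNat_of_nonneg (hpos i)] at h1
          exact h1)
      obtain ⟨h1, _⟩ := hP _ hne
      obtain ⟨k, hk⟩ := jt_strict lam σ hσ hpos
      have h2 := h1 k
      have h3 := ps_conj (N := N) (κ := yv N lam) (κ'' := yv N lam.transpose)
        (fun i j => yv_conj hN i j) k
      have h4 : ∑ r : Fin N, min (yv N lam r) k = ∑ i : Fin (lam.colLen 0), min (lam.rowLen i) k := by
        have e1 : ∀ r : Fin N, min (yv N lam r) k = (fun r : ℕ => min (lam.rowLen r) k) (r : ℕ) :=
          fun r => rfl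
        rw [Finset.sum_congr rfl fun r _ => e1 r,
          Fin.sum_univ_eq_sum_range (fun r : ℕ => min (lam.rowLen r) k),
          Fin.sum_univ_eq_sum_range (fun r : ℕ => min (lam.rowLen r) k)]
        symm
        refine Finset.sum_subset ?_ ?_
        · intro i hi
          rw [Finset.mem_range] at hi ⊢
          have h5 : (i, 0) ∈ lam := YoungDiagram.mem_iff_lt_colLen.2 hi
          exact lt_of_lt_of_le (row_lt_card lam h5) hN
        · intro i _ hi
          rw [Finset.mem_range, not_lt] at hi
          rw [rowLen_eq_zero lam hi, Nat.zero_min]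
      rw [h3, h4] at h2
      exact absurd hk (not_lt.2 h2)
    rw [h0, smul_zero]
  · intro h
    exact absurd (mem_univ _) h

/-- transposition reverses the dominance order -/
lemma ydom_transpose {μ ν : YoungDiagram} {N : ℕ} (hc : ν.card = μ.card) (hN : μ.card ≤ N)
    (h : Dom (yv N ν) (yv N μ)) : YDom μ.transpose ν.transpose := by
  refine ⟨by rw [transpose_card, transpose_card, hc], fun k => ?_⟩
  have hνN : ν.card ≤ N := by rw [hc]; exact hN
  have hμt : μ.transpose.card ≤ N := by rw [transpose_card]; exact hN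
  have hνt : ν.transpose.card ≤ N := by rw [transpose_card]; exact hνN
  by_cases hk : N ≤ k
  · rw [sum_rowLen _ k (hμt.trans hk), sum_rowLen _ k (hνt.trans hk), transpose_card,
      transpose_card, hc]
  · push Not at hk
    set l := ν.transpose.rowLen k with hl
    have h1 := h.1 l
    have e1 := ps_conj (N := N) (κ := yv N ν.transpose) (κ'' := yv N ν) (fun i j => by
      have := yv_conj (N := N) (μ := ν.transpose) hνt i j
      rw [YoungDiagram.transpose_transpose] at this
      exact this) l
    have e2 := ps_conj (N := N) (κ := yv N μ.transpose) (κ'' := yv N μ) (fun i j => by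
      have := yv_conj (N := N) (μ := μ.transpose) hμt i j
      rw [YoungDiagram.transpose_transpose] at this
      exact this) l
    rw [e1, e2] at h1
    simp only [yv_apply] at h1
    rw [Fin.sum_univ_eq_sum_range (fun r => min (ν.transpose.rowLen r) l),
      Fin.sum_univ_eq_sum_range (fun r => min (μ.transpose.rowLen r) l)] at h1
    have h2 : N = k + (N - k) := by omega
    have s1 := sum_rowLen ν.transpose N hνt
    have s2 := sum_rowLen μ.transpose N hμt
    rw [h2, Finset.sum_range_add] at s1 s2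
    rw [h2, Finset.sum_range_add, Finset.sum_range_add] at h1
    have h3 : ∑ x ∈ range k, min (ν.transpose.rowLen x) l = k * l := by
      rw [Finset.sum_congr rfl (g := fun _ => l), Finset.sum_const, Finset.card_range,
        smul_eq_mul]
      intro x hx
      exact min_eq_right (ν.transpose.rowLen_anti x k (Finset.mem_range.1 hx).le)
    have h4 : ∑ x ∈ range (N - k), min (ν.transpose.rowLen (k + x)) l
        = ∑ x ∈ range (N - k), ν.transpose.rowLen (k + x) := by
      refine Finset.sum_congr rfl fun x _ => ?_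
      exact min_eq_left (ν.transpose.rowLen_anti k (k + x) (Nat.le_add_right _ _))
    have h5 : ∑ x ∈ range k, min (μ.transpose.rowLen x) l ≤ k * l := by
      calc _ ≤ ∑ x ∈ range k, l := Finset.sum_le_sum fun _ _ => min_le_right _ _
        _ = k * l := by rw [Finset.sum_const, Finset.card_range, smul_eq_mul]
    have h6 : ∑ x ∈ range (N - k), min (μ.transpose.rowLen (k + x)) l
        ≤ ∑ x ∈ range (N - k), μ.transpose.rowLen (k + x) :=
      Finset.sum_le_sum fun _ _ => min_le_left _ _
    rw [transpose_card] at s1 s2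
    omega

/-- symmetric functions with small support are spanned by Schur functions -/
lemma span_of_supp_aux (μ : YoungDiagram) {N : ℕ} (hN : μ.card ≤ N) (m : ℕ) :
    ∀ S : Finset (Fin N →₀ ℕ), S.card = m → DownClosed S → (∀ y ∈ S, Dom y (yv N μ)) →
    ∀ G : Sym K, IsDeg μ.card G →
    (∀ y, coeff y (phi K N (pleth (fun _ => (-1 : K)) G)) ≠ 0 → y ∈ S) →
    G ∈ Submodule.span K {F | ∃ lam, YDom μ.transpose lam ∧ F = schur K lam} := by
  classical
  induction m with
  | zero =>
    intro S hS _ _ G hG hsupp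
    rw [Finset.card_eq_zero] at hS
    have h0 : phi K N (pleth (fun _ => (-1 : K)) G) = 0 := by
      ext y
      rw [coeff_zero]
      by_contra hne
      have := hsupp y hne
      rw [hS] at this
      exact absurd this (Finset.notMem_empty _)
    have h1 := phi_inj hN (isDeg_pleth _ hG) h0
    have h2 := congrArg (pleth (fun _ => (-1 : K))) h1
    rw [pleth_pleth, map_zero] at h2
    have h3 : pleth (fun _ => (-1 : K) * -1) G = G := by
      have : (fun _ : ℕ => (-1 : K) * -1) = fun _ => 1 := by funext; ring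
      rw [this, pleth_one]
    rw [h3] at h2
    rw [h2]
    exact Submodule.zero_mem _
  | succ m ih =>
    intro S hS hdc hSμ G hG hsupp
    have hne : S.Nonempty := by
      rw [← Finset.card_pos, hS]
      exact Nat.succ_pos m
    obtain ⟨lam, hlam, hmax⟩ := Finset.exists_max_image S rk hne
    have hS' : (S.erase lam).card = m := by
      rw [Finset.card_erase_of_mem hlam, hS]
      rfl
    have hdc' : DownClosed (S.erase lam) := by
      intro α β hβ hd
      rw [Finset.mem_erase] at hβ ⊢
      refine ⟨?_, hdc α β hβ.2 hd⟩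
      rintro rfl
      exact absurd (hd.rk_lt (Ne.symm hβ.1)) (not_lt.2 (hmax β hβ.2))
    have hSμ' : ∀ y ∈ S.erase lam, Dom y (yv N μ) := fun y hy =>
      hSμ y (Finset.mem_of_mem_erase hy)
    set g := phi K N (pleth (fun _ => (-1 : K)) G) with hg
    by_cases hc : coeff lam g = 0
    · refine ih (S.erase lam) hS' hdc' hSμ' G hG ?_
      intro y hy
      rw [Finset.mem_erase]
      exact ⟨fun h => hy (by rw [h]; exact hc), hsupp y hy⟩
    · have hanti : ∀ r r' : Fin N, r ≤ r' → lam r' ≤ lam r := by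
        intro r r' hr
        by_contra hlt
        push Not at hlt
        have hrr : r < r' := lt_of_le_of_ne hr (by
          rintro rfl
          exact lt_irrefl _ hlt)
        have h4 := rk_swap lam hrr hlt
        have h5 : coeff (Finsupp.mapDomain (Equiv.swap r r') lam) g ≠ 0 := by
          have e := coeff_rename_mapDomain (Equiv.swap r r') (Equiv.injective _) g lam
          rw [hg, phi_symm, ← hg] at e
          rw [e]
          exact hc
        exact absurd h4 (not_lt.2 (hmax _ (hsupp _ h5)))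
      set ν := ydOf lam hanti with hν
      have hyv : yv N ν = lam := yv_ydOf lam hanti
      have hcard : ν.card = μ.card := by
        rw [hν, card_ydOf]
        exact phi_total (isDeg_pleth _ hG) lam hc
      have hνN : ν.card ≤ N := by rw [hcard]; exact hN
      have hνt : ν.transpose.card ≤ N := by rw [transpose_card]; exact hνN
      set A := schur K ν.transpose with hA
      have hAdeg : IsDeg μ.card A := by
        rw [← hcard, ← transpose_card ν]
        exact isDeg_schur _
      have hAmem : A ∈ Submodule.span K {F | ∃ lam, YDom μ.transpose lam ∧ F = schur K lam} := by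
        refine Submodule.subset_span ⟨ν.transpose, ?_, rfl⟩
        refine ydom_transpose hcard hN ?_
        rw [hyv]
        exact hSμ lam hlam
      have hAsupp : ∀ y, coeff y (phi K N (pleth (fun _ => (-1 : K)) A)) ≠ 0 → Dom y lam := by
        intro y hy
        rw [← hyv]
        exact schur_supp ν.transpose ν ⟨rfl, fun _ => le_refl _⟩ hνN y hy
      have hAlead : coeff lam (phi K N (pleth (fun _ => (-1 : K)) A)) ≠ 0 := by
        have h := schur_lead (K := K) ν.transpose hνt
        rw [YoungDiagram.transpose_transpose, hyv] at h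
        exact h
      set d := coeff lam (phi K N (pleth (fun _ => (-1 : K)) A)) with hd
      have hG' : G - (coeff lam g / d) • A ∈
          Submodule.span K {F | ∃ lam, YDom μ.transpose lam ∧ F = schur K lam} := by
        refine ih (S.erase lam) hS' hdc' hSμ' _ (hG.sub (hAdeg.smul _)) ?_
        intro y hy
        rw [map_sub, map_smul, map_sub, map_smul, coeff_sub, coeff_smul, smul_eq_mul, ← hg] at hy
        rw [Finset.mem_erase]
        refine ⟨?_, ?_⟩
        · rintro rfl
          apply hy
          rw [← hd, div_mul_cancel₀ _ hAlead, sub_self]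
        · by_cases h1 : coeff y g = 0
          · rw [h1, zero_sub, neg_ne_zero] at hy
            exact hdc y lam hlam (hAsupp y (right_ne_zero_of_mul hy))
          · exact hsupp y h1
      have := Submodule.add_mem _ hG' (Submodule.smul_mem _ (coeff lam g / d) hAmem)
      rw [sub_add_cancel] at this
      exact this

lemma span_of_supp (μ : YoungDiagram) {N : ℕ} (hN : μ.card ≤ N) (G : Sym K)
    (hG : IsDeg μ.card G)
    (hsupp : ∀ y, coeff y (phi K N (pleth (fun _ => (-1 : K)) G)) ≠ 0 → Dom y (yv N μ)) :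
    G ∈ Submodule.span K {F | ∃ lam, YDom μ.transpose lam ∧ F = schur K lam} :=
  span_of_supp_aux μ hN _ (downset (yv N μ)) rfl (downClosed_downset _)
    (fun y hy => (mem_downset _ _).1 hy) G hG (fun y hy => (mem_downset _ _).2 (hsupp y hy))

lemma spanCond_of_supp (s : K) (μ : YoungDiagram) {N : ℕ} (hN : μ.card ≤ N) (H : Sym K)
    (hH : IsDeg μ.card H)
    (hsupp : ∀ y, coeff y (phi K N (pleth (fun k => s ^ k - 1) H)) ≠ 0 → Dom y (yv N μ)) :
    SpanCond s μ.transpose H := by
  refine span_of_supp μ hN _ (isDeg_pleth _ hH) ?_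
  intro y hy
  apply hsupp
  rw [pleth_pleth] at hy
  have e : (fun k : ℕ => (-1 : K) * (1 - s ^ k)) = fun k => s ^ k - 1 := by
    funext k; ring
  rwa [e] at hy

/-- existence of eigenvectors -/
lemma exists_eig {q t : K} (hab : Gen q t) (μ : YoungDiagram) :
    ∃ G : Sym K, IsDeg μ.card G ∧ G ≠ 0 ∧ Dk q t 0 G = ev q t (yv μ.card μ) • G := by
  classical
  set n := μ.card with hn
  have ht := hab.swap.pow_ne_one
  set lam := μ.transpose with hlam
  have hlc : lam.card = n := transpose_card μ
  set E : Sym K := ∏ i : Fin (lam.colLen 0), hZ K (lam.rowLen i) with hE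
  have hEdeg : IsDeg n E := by
    have h1 : ∑ i : Fin (lam.colLen 0), lam.rowLen i = n := by rw [sum_rowLen_fin, hlc]
    rw [← h1]
    refine isDeg_prod _ _ _ fun i _ => ?_
    rw [hZ, if_neg (by omega), Int.toNat_natCast]
    exact isDeg_expo _
  set F : Sym K := pleth (fun k => -(t ^ k - 1)⁻¹) E with hF
  have hFdeg : IsDeg n F := isDeg_pleth _ hEdeg
  have hFE : pleth (fun k => t ^ k - 1) F = pleth (fun _ => (-1 : K)) E := by
    rw [hF, pleth_pleth]
    refine pleth_congr (fun k => ?_) E
    have : t ^ (k : ℕ) - 1 ≠ 0 := sub_ne_zero.2 (ht k k.pos)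
    field_simp
  have hlead : Lead (phi K n (pleth (fun k => t ^ k - 1) F)) (yv n μ)
      (∏ i : Fin (lam.colLen 0), (-1) ^ (lam.rowLen i)) := by
    have h := lead_prod_EE (K := K) lam n hlc.le
    have e1 : lam.transpose = μ := YoungDiagram.transpose_transpose μ
    rw [e1] at h
    have e2 : phi K n (pleth (fun k => t ^ k - 1) F)
        = ∏ i : Fin (lam.colLen 0), EE K n (lam.rowLen i) := by
      rw [hFE, hE, map_prod, map_prod]
      rfl
    rw [e2]
    exact h
  have hc0 : coeff (yv n μ) (phi K n (pleth (fun k => t ^ k - 1) F)) ≠ 0 := by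
    rw [hlead.lead]
    exact Finset.prod_ne_zero_iff.2 fun i _ => pow_ne_zero _ (by norm_num)
  obtain ⟨f, hf, hsum⟩ := eig_decomp (Dk q t 0) t q t hab ht
    (inter_D0_t q t) (fun F => isDeg_Dk q t F) F hFdeg
  have hco : ∀ y, coeff y (phi K n (pleth (fun k => t ^ k - 1) F))
      = ∑ κ ∈ tot n n, coeff y (phi K n (pleth (fun k => t ^ k - 1) (f κ))) := by
    intro y
    conv_lhs => rw [hsum]
    rw [map_sum, map_sum, coeff_sum]
  have hsup : ∀ κ ∈ tot n n, ∀ y,
      coeff y (phi K n (pleth (fun k => t ^ k - 1) (f κ))) ≠ 0 → Dom y κ := by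
    intro κ hκ y hy
    exact eig_supp (Dk q t 0) t q t hab (inter_D0_t q t) κ (f κ) (hf κ hκ).2 y hy
  have hc1 := hc0
  rw [hco] at hc1
  obtain ⟨κ, hκ, hκne⟩ := Finset.exists_ne_zero_of_sum_ne_zero hc1
  -- the largest contributing exponent
  have hT : ((tot n n).filter fun κ => f κ ≠ 0).Nonempty := by
    refine ⟨κ, ?_⟩
    rw [mem_filter]
    refine ⟨hκ, fun h0 => hκne ?_⟩
    rw [h0, map_zero, map_zero, coeff_zero]
  obtain ⟨κ1, hκ1, hmax⟩ := Finset.exists_max_image _ rk hT
  rw [mem_filter] at hκ1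
  have h1 : coeff κ1 (phi K n (pleth (fun k => t ^ k - 1) F)) ≠ 0 := by
    rw [hco, Finset.sum_eq_single κ1]
    · exact (eig_lead (Dk q t 0) t q t hab ht (inter_D0_t q t) (le_refl n) κ1 (f κ1)
        (hf κ1 hκ1.1).1 hκ1.2 (hf κ1 hκ1.1).2).1
    · intro κ' hκ' hne
      by_contra h2
      have h3 := hsup κ' hκ' κ1 h2
      have h4 : f κ' ≠ 0 := fun h0 => h2 (by rw [h0, map_zero, map_zero, coeff_zero])
      have h5 := hmax κ' (by rw [mem_filter]; exact ⟨hκ', h4⟩)
      exact absurd (h3.rk_lt (Ne.symm hne)) (not_lt.2 h5)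
    · intro h
      exact absurd hκ1.1 h
  have h2 : Dom κ1 (yv n μ) := hlead.supp κ1 h1
  have h3 : Dom (yv n μ) κ := hsup κ hκ _ hκne
  have h4 : f κ ≠ 0 := fun h0 => hκne (by rw [h0, map_zero, map_zero, coeff_zero])
  have h5 := hmax κ (by rw [mem_filter]; exact ⟨hκ, h4⟩)
  have h6 : yv n μ = κ := by
    by_contra hne
    have h7 := h3.rk_lt hne
    by_cases h8 : κ1 = yv n μ
    · rw [h8] at h5
      omega
    · have h9 := h2.rk_lt h8
      omega
  refine ⟨f κ, (hf κ hκ).1, h4, ?_⟩
  rw [h6]
  exact (hf κ hκ).2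

/-- existence of the modified Macdonald polynomials, up to normalisation -/
theorem exists_macd {q t : K} (hab : Gen q t) (μ : YoungDiagram) :
    ∃ G : Sym K, G ≠ 0 ∧ SpanCond q μ G ∧ SpanCond t μ.transpose G := by
  obtain ⟨G, hG, hG0, hDG⟩ := exists_eig hab μ
  have hev : ev q t (yv μ.card μ) = ev t q (yv μ.card μ.transpose) := by
    have e1 : ∑ p ∈ DD (yv μ.card μ), q ^ p.1 * t ^ p.2
        = ∑ p ∈ DD (yv μ.card μ.transpose), t ^ p.1 * q ^ p.2 := by
      refine Finset.sum_bij (fun p _ => (p.2, p.1)) ?_ ?_ ?_ ?_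
      · rintro ⟨x, y⟩ hp
        exact (yv_conj (le_refl _) y x).1 hp
      · rintro ⟨x, y⟩ _ ⟨x', y'⟩ _ hh
        simp only [Prod.mk.injEq] at hh ⊢
        exact ⟨hh.2, hh.1⟩
      · rintro ⟨x, y⟩ hp
        exact ⟨(y, x), (yv_conj (le_refl _) x y).2 hp, rfl⟩
      · rintro ⟨x, y⟩ _
        exact mul_comm _ _
    rw [ev_eq, ev_eq, e1]
    ring
  refine ⟨G, hG0, ?_, ?_⟩
  · have h : SpanCond q μ.transpose.transpose G := by
      refine spanCond_of_supp q μ.transpose (N := μ.card) (by rw [transpose_card]) G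
        (by rw [transpose_card]; exact hG) ?_
      intro y hy
      refine eig_supp (Dk q t 0) q t q hab.swap (inter_D0_q q t) _ G ?_ y hy
      rw [← hev]
      exact hDG
    rw [YoungDiagram.transpose_transpose] at h
    exact h
  · refine spanCond_of_supp t μ (N := μ.card) (le_refl _) G hG ?_
    intro y hy
    exact eig_supp (Dk q t 0) t q t hab (inter_D0_t q t) _ G hDG y hy

end

end Pool.Agent.H158.TL
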