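import Mathlib
import Pool.Agent.H158.TL.Comb

set_option autoImplicit false
set_option linter.unusedSectionVars false

/-!
# Final assembly
-/

namespace Pool.Agent.H158.TL

open Finset MvPolynomial
open Pool.Agent.H209R2.EH

section
variable {K : Type*} [Field K] [CharZero K]
variable {q t : K} {H : YoungDiagram → Sym K}

lemma isDeg_monomial (m : ℕ+ →₀ ℕ) (c : K) : IsDeg (wgt m) (monomial m c : Sym K) := by
  classical
  intro m' hm'
  rw [coeff_monomial] at hm'
  split_ifs at hm' with h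
  · rw [← h]
  · exact absurd rfl hm'

lemma IsMacd.span_top (hH : IsMacd q t H) (hab : Gen q t) :
    ⊤ ≤ Submodule.span K (Set.range H) := by
  intro F _
  rw [F.as_sum]
  exact Submodule.sum_mem _ fun m _ => hH.span hab (isDeg_monomial m _)

/-- diagonal operators exist -/
lemma IsMacd.exists_op (hH : IsMacd q t H) (hab : Gen q t) (e : YoungDiagram → K) :
    ∃ T : Sym K →ₗ[K] Sym K, ∀ μ, T (H μ) = e μ • H μ := by
  refine ⟨(Module.Basis.mk (hH.linInd hab) (hH.span_top hab)).constr K fun μ => e μ • H μ, ?_⟩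
  intro μ
  have h := (Module.Basis.mk (hH.linInd hab) (hH.span_top hab)).constr_basis K
    (fun μ => e μ • H μ) μ
  rw [Module.Basis.mk_apply] at h
  exact h

/-- diagonal operators are determined -/
lemma IsMacd.op_unique (hH : IsMacd q t H) (hab : Gen q t) (T T' : Sym K →ₗ[K] Sym K)
    (h : ∀ μ, T (H μ) = T' (H μ)) : T = T' := by
  apply LinearMap.ext_on_range (v := H)
  · exact top_le_iff.1 (hH.span_top hab)
  · exact h

/-- the specialization -/
noncomputable def spec (q t : K) : MvPolynomial (Fin 2) ℚ →+* K :=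
  ((aeval ![q, t] : MvPolynomial (Fin 2) ℚ →ₐ[ℚ] K) : MvPolynomial (Fin 2) ℚ →+* K)

lemma spec_X0 (q t : K) : spec q t (X 0) = q := by simp [spec]

lemma spec_X1 (q t : K) : spec q t (X 1) = t := by simp [spec]

theorem main_nabla (hqt : AlgebraicIndependent ℚ ![q, t]) (hH : IsMacd q t H)
    (nabla : Sym K →ₗ[K] Sym K) (hn : ∀ μ, nabla (H μ) = TT q t μ • H μ) (n : ℕ) :
    nabla (X 1 ^ n) = MvPolynomial.map (spec q t) (FQ n) := by
  rw [nabla_pow hqt hH nabla hn, FQ, map_Fn, spec_X0, spec_X1]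

theorem main_delta (hqt : AlgebraicIndependent ℚ ![q, t]) (hH : IsMacd q t H) (n : ℕ)
    (delta : Sym K →ₗ[K] Sym K) (hd : ∀ μ, delta (H μ) = eB q t n μ • H μ) :
    delta (X 1 ^ (n + 1)) = MvPolynomial.map (spec q t) (GQ (n + 1)) := by
  obtain ⟨nabla, hn⟩ := hH.exists_op (Gen.of_indep hqt) (TT q t)
  rw [delta_pow hqt hH nabla hn n delta hd, GQ, map_Gn, spec_X0, spec_X1]

end

end Pool.Agent.H158.TL
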