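import Mathlib
import Pool.Agent.H158.TL.Final
import Pool.Agent.H158.TL.Exist

set_option autoImplicit false
set_option linter.unusedSectionVars false

/-!
# The operators are well defined
-/

namespace Pool.Agent.H158.TL

open Finset MvPolynomial
open Pool.Agent.H209R2.EH

section
variable {K : Type*} [Field K] [CharZero K]
variable {q t : K}

/-- a full family exists -/
lemma exists_isMacd (hab : Gen q t) : ∃ H : YoungDiagram → Sym K, IsMacd q t H := by
  choose H h1 h2 h3 using fun μ => exists_macd hab μ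
  exact ⟨H, h2, h3, h1⟩

/-- the conditions for `μ` determine the function up to a scalar -/
lemma IsMacd.unique {H : YoungDiagram → Sym K} (hH : IsMacd q t H) (hab : Gen q t)
    (μ : YoungDiagram) (F : Sym K) (h1 : SpanCond q μ F) (h2 : SpanCond t μ.transpose F) :
    ∃ c : K, F = c • H μ := by
  classical
  by_cases hF0 : F = 0
  · exact ⟨0, by rw [hF0, zero_smul]⟩
  have hH' : IsMacd q t (Function.update H μ F) := by
    refine ⟨fun ν => ?_, fun ν => ?_, fun ν => ?_⟩
    · by_cases h : ν = μ
      · rw [h, Function.update_self]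
        exact h1
      · rw [Function.update_of_ne h]
        exact hH.left ν
    · by_cases h : ν = μ
      · rw [h, Function.update_self]
        exact h2
      · rw [Function.update_of_ne h]
        exact hH.right ν
    · by_cases h : ν = μ
      · rw [h, Function.update_self]
        exact hF0
      · rw [Function.update_of_ne h]
        exact hH.ne ν
  have hD := hH'.D0 hab μ
  have hdeg := hH'.isDeg hab μ
  rw [Function.update_self] at hD hdeg
  have hHdeg := hH.isDeg hab μ
  have hHD := hH.D0 hab μ
  rw [← ev_yv q t μ (le_refl _)] at hD hHD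
  obtain ⟨hlead, _, _⟩ := eig_lead (Dk q t 0) t q t hab hab.swap.pow_ne_one
    (inter_D0_t q t) (le_refl μ.card) (yv μ.card μ) (H μ) hHdeg (hH.ne μ) hHD
  refine ⟨coeff (yv μ.card μ) (phi K μ.card (pleth (fun k => t ^ k - 1) F)) /
    coeff (yv μ.card μ) (phi K μ.card (pleth (fun k => t ^ k - 1) (H μ))), ?_⟩
  set c : K := coeff (yv μ.card μ) (phi K μ.card (pleth (fun k => t ^ k - 1) F)) /
    coeff (yv μ.card μ) (phi K μ.card (pleth (fun k => t ^ k - 1) (H μ))) with hc
  have hG : F - c • H μ = 0 := by
    by_contra hne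
    obtain ⟨h1, _, _⟩ := eig_lead (Dk q t 0) t q t hab hab.swap.pow_ne_one
      (inter_D0_t q t) (le_refl μ.card) (yv μ.card μ) (F - c • H μ)
      (hdeg.sub (hHdeg.smul c)) hne (by
        rw [map_sub, map_smul, hD, hHD, smul_sub, smul_comm])
    apply h1
    rw [map_sub, map_smul, map_sub, map_smul, coeff_sub, coeff_smul, smul_eq_mul, hc,
      div_mul_cancel₀ _ hlead, sub_self]
  exact sub_eq_zero.1 hG

/-- the operator with prescribed eigenvalues exists and is unique -/
theorem exists_diag (hab : Gen q t) (e : YoungDiagram → K) :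
    ∃ T : Sym K →ₗ[K] Sym K, ∀ T' : Sym K →ₗ[K] Sym K,
      (∀ (μ : YoungDiagram) (F : Sym K), SpanCond q μ F → SpanCond t μ.transpose F →
        T' F = e μ • F) ↔ T' = T := by
  obtain ⟨H, hH⟩ := exists_isMacd hab
  obtain ⟨T, hT⟩ := hH.exists_op hab e
  refine ⟨T, fun T' => ⟨fun h => ?_, ?_⟩⟩
  · apply hH.op_unique hab
    intro μ
    rw [hT, h μ (H μ) (hH.left μ) (hH.right μ)]
  · rintro rfl μ F h1 h2
    obtain ⟨c, rfl⟩ := hH.unique hab μ F h1 h2
    rw [map_smul, hT, smul_comm]

/-- the value of a diagonal operator with the eigenvalues of nabla -/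
theorem final_nabla (hqt : AlgebraicIndependent ℚ ![q, t]) (T : Sym K →ₗ[K] Sym K)
    (hT : ∀ (μ : YoungDiagram) (F : Sym K), SpanCond q μ F → SpanCond t μ.transpose F →
        T F = TT q t μ • F) (n : ℕ) : T (X 1 ^ n) = MvPolynomial.map (spec q t) (FQ n) := by
  obtain ⟨H, hH⟩ := exists_isMacd (Gen.of_indep hqt)
  exact main_nabla hqt hH T (fun μ => hT μ (H μ) (hH.left μ) (hH.right μ)) n

/-- the value of a diagonal operator with the eigenvalues of delta -/
theorem final_delta (hqt : AlgebraicIndependent ℚ ![q, t]) (n : ℕ) (T : Sym K →ₗ[K] Sym K)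
    (hT : ∀ (μ : YoungDiagram) (F : Sym K), SpanCond q μ F → SpanCond t μ.transpose F →
        T F = eB q t n μ • F) : T (X 1 ^ (n + 1)) = MvPolynomial.map (spec q t) (GQ (n + 1)) := by
  obtain ⟨H, hH⟩ := exists_isMacd (Gen.of_indep hqt)
  exact main_delta hqt hH n T (fun μ => hT μ (H μ) (hH.left μ) (hH.right μ))

end

end Pool.Agent.H158.TL
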